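import Pool.Agent.P.MP_6b977f_mp.QG.IfaceA

/-! Step AFF. -/

namespace Pool.Agent.P.MP_6b977f_mp.QG

open Finset MeasureTheory Real Matrix RG
open scoped Classical

namespace AFFx

theorem ns (b : Fin 2) (x : ℝ) : ‖(Pi.single b x : Fin 2 → ℝ)‖ = |x| := by
  rw [Pi.norm_single, Real.norm_eq_abs]

theorem dec (z : Fin 2 → ℝ) : z = Pi.single 0 (z 0) + Pi.single 1 (z 1) := by
  funext i
  fin_cases i <;> simp

end AFFx

open AFFx in
theorem p_AFF :
    S_AFF := by
  intro G T e K hT hL hA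
  have h : ∀ b : Fin 2, ∃ θ : ℝ, ∀ s, |s| ≤ T → |G (Pi.single b s) - G 0 + θ * s| ≤ 5 * e := by
    intro b
    refine Sb.cauchy_approx (fun s => G (Pi.single b s) - G 0) (B := |K| * T) hT
      (fun s hs => ?_) fun s s' hs hs' _ => ?_
    · have := hL (Pi.single b s) 0 (by rwa [ns]) (by rw [norm_zero]; exact hT.le)
      rw [sub_zero, ns] at this
      exact this.trans (mul_le_mul (le_abs_self K) hs (abs_nonneg _) (abs_nonneg _))
    · have := hA (Pi.single b s) s' (by rwa [ns]) hs' b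
      rw [← Pi.single_add] at this
      refine le_of_eq_of_le (congrArg _ ?_) this
      ring
  choose θ hθ using h
  refine ⟨fun b => -θ b, fun z hz => ?_⟩
  have hz' : ∀ b, |z b| ≤ T := fun b => (norm_le_pi_norm z b).trans hz
  have h1 := hA (Pi.single 0 (z 0)) (z 1) (by rw [ns]; exact hz' 0) (hz' 1) 1
  rw [← dec z] at h1
  have h2 := abs_le.1 (hθ 0 (z 0) (hz' 0))
  have h3 := abs_le.1 (hθ 1 (z 1) (hz' 1))
  have h4 := abs_le.1 h1
  rw [Fin.sum_univ_two, abs_le]
  constructor <;> linarith [h2.1, h2.2, h3.1, h3.2, h4.1, h4.2]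

end Pool.Agent.P.MP_6b977f_mp.QG
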