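import Pool.Agent.P.MP_6b977f_mp.QG.IfaceB

/-! Step ALG. -/

namespace Pool.Agent.P.MP_6b977f_mp.QG

open Finset MeasureTheory Real Matrix RG
open scoped Classical

namespace ALGx

variable {d N m : ℕ} {c : ℝ}

theorem xv (S : Sys d N m c) (z : HI d N → ℝ) (v : Fin N) (i : Fin d) (a : Fin 2) :
    (S.Xm *ᵥ z) ((v, i), a) = (if a = 0 then 1 else -1) * ∑ k, S.σ v i k * z ((v, k), a) := by
  simp only [Matrix.mulVec, dotProduct, Sys.Xm, Matrix.of_apply, Fintype.sum_prod_type, ite_and,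
    ite_mul, zero_mul, sum_ite_eq, mem_univ, if_true, sum_ite_irrel, sum_const_zero]
  split_ifs <;> simp

theorem yv (θ : Fin m → ℝ) (g : Glue d N m) (z : HI d N → ℝ) (h : Fin N × Fin d) (a : Fin 2) :
    (Ym θ g *ᵥ z) (h, a) = ∑ b, rf (θ (g h).1) a b * z (cfg g h, b) := by
  rw [Matrix.mulVec, dotProduct, Fintype.sum_prod_type_right]
  simp only [Ym, Matrix.of_apply, ite_mul, zero_mul, sum_ite_eq', mem_univ, if_true]

theorem rf_symm (θ : ℝ) (a b : Fin 2) : rf θ a b = rf θ b a := by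
  fin_cases a <;> fin_cases b <;> rfl

theorem cfg_cfg (g : Glue d N m) (h : Fin N × Fin d) : cfg g (cfg g h) = h := by
  simp [cfg_apply]

theorem cfg_fst (g : Glue d N m) (h : Fin N × Fin d) : (g (cfg g h)).1 = (g h).1 := by
  simp [cfg_apply]

theorem vpen {σ : Matrix (Fin d) (Fin d) ℝ} (h : NoBack c σ) (y : PI d → ℝ) :
    (vx h).pen y = (∑ i, ∑ a, y (i, a) ^ 2 -
      ∑ i, ∑ a, y (i, a) * ((if a = 0 then 1 else -1) * ∑ k, σ i k * y (k, a))) / 2 := by
  have e1 : (vx h).pen y = ∑ p : PI d, ∑ q : PI d,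
      (∑ j, vxO σ (j, 1) p * vxO σ (j, 1) q) * (y p * y q) := by
    simp only [Node.pen, wsq, Node.wh, vx, Matrix.mulVec, dotProduct, sq, sum_mul_sum]
    rw [sum_comm]
    refine sum_congr rfl fun p _ => ?_
    rw [sum_comm]
    refine sum_congr rfl fun q _ => ?_
    rw [sum_mul]
    exact sum_congr rfl fun j _ => by ring
  have e2 : ∀ i a k b, ∑ j, vxO σ (j, 1) (i, a) * vxO σ (j, 1) (k, b) = if a = b then
      ((if i = k then 1 else 0) - (if a = 0 then 1 else -1) * σ i k) / 2 else 0 := by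
    intro i a k b
    have e : ∀ i a j, vxO σ (j, 1) (i, a) =
        ((if i = j then 1 else 0) + (if 1 = a then 1 else -1) * σ i j) / 2 := fun i a j => by
      simp only [vxO_apply, h.1.apply i j, eq_comm (a := j)]
    simp only [e]
    rw [h.mul]
    generalize (if i = k then (1 : ℝ) else 0) = u
    fin_cases a <;> fin_cases b <;> simp <;> ring
  rw [e1, Fintype.sum_prod_type, ← sum_sub_distrib, sum_div]
  refine sum_congr rfl fun i _ => ?_
  rw [← sum_sub_distrib, sum_div]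
  refine sum_congr rfl fun a _ => ?_
  simp only [Fintype.sum_prod_type, e2]
  generalize (if a = 0 then (1 : ℝ) else -1) = s
  simp only [ite_mul (a = _), zero_mul, sum_ite_eq, mem_univ, if_true]
  have e3 : ∀ k, ((if i = k then 1 else 0) - s * σ i k) / 2 * (y (i, a) * y (k, a)) =
      ((if i = k then y (i, a) * y (k, a) else 0) - y (i, a) * (s * (σ i k * y (k, a)))) / 2 :=
    fun k => by split_ifs <;> ring
  simp only [e3, ← sum_div, sum_sub_distrib, sum_ite_eq, mem_univ, if_true, ← mul_sum, sq]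

theorem epen (θ : ℝ) (y : PI 2 → ℝ) :
    (ed θ).pen y = (∑ i, ∑ a, y (i, a) ^ 2 -
      ∑ i : Fin 2, ∑ a, y (i, a) * ∑ b, rf θ a b * y (i.rev, b)) / 2 := by
  have h : (√2 : ℝ) ^ 2 = 2 := sq_sqrt (by norm_num)
  have h' := sin_sq_add_cos_sq θ
  simp only [Node.pen, wsq, Node.wh, ed, Matrix.mulVec, dotProduct, Fintype.sum_prod_type,
    edO_apply, div_mul_eq_mul_div, ← sum_div, div_pow, h]
  simp [rf]
  linear_combination (y (1, 0) ^ 2 + y (1, 1) ^ 2) * h'

end ALGx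

open ALGx in
theorem p_ALG :
    S_ALG := by
  intro d N m c S θ g
  refine ⟨?_, ?_, ?_, ?_, fun z => ?_⟩
  · ext ⟨⟨v, i⟩, a⟩ ⟨⟨w, k⟩, b⟩
    simp only [Matrix.transpose_apply, Sys.Xm, Matrix.of_apply]
    by_cases h : v = w ∧ a = b
    · obtain ⟨rfl, rfl⟩ := h
      simp only [and_self, if_true, (S.hσ v).1.apply i k]
    · rw [if_neg h, if_neg fun e => h ⟨e.1.symm, e.2.symm⟩]
  · ext ⟨⟨v, i⟩, a⟩ ⟨⟨w, k⟩, b⟩
    have e : (S.Xm * S.Xm) ((v, i), a) ((w, k), b) =
        (S.Xm *ᵥ fun r => S.Xm r ((w, k), b)) ((v, i), a) := rfl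
    rw [e, xv]
    simp only [Sys.Xm, Matrix.of_apply, Matrix.one_apply, Prod.mk.injEq]
    by_cases h : v = w ∧ a = b
    · obtain ⟨rfl, rfl⟩ := h
      have h2 := congrFun (congrFun (S.hσ v).2.1 i) k
      rw [Matrix.mul_apply, Matrix.one_apply] at h2
      by_cases ha : a = 0 <;> simp [ha, ← h2]
    · rw [if_neg (show ¬ ((v = w ∧ i = k) ∧ a = b) from fun e => h ⟨e.1.1, e.2⟩)]
      simp [h]
  · ext ⟨h, a⟩ ⟨k, b⟩
    simp only [Matrix.transpose_apply, Ym, Matrix.of_apply]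
    by_cases e : k = cfg g h
    · rw [if_pos e, e, cfg_cfg, if_pos rfl, cfg_fst, rf_symm]
    · rw [if_neg e, if_neg fun e' => e (by rw [e', cfg_cfg])]
  · ext ⟨h, a⟩ ⟨k, b⟩
    have e : (Ym θ g * Ym θ g) (h, a) (k, b) = (Ym θ g *ᵥ fun r => Ym θ g r (k, b)) (h, a) := rfl
    rw [e, yv]
    simp only [Ym, Matrix.of_apply, cfg_cfg, cfg_fst, Matrix.one_apply, Prod.mk.injEq]
    by_cases e : k = h
    · have h2 := congrFun (congrFun (rf_sq (θ (g h).1)) a) b
      rw [Matrix.mul_apply, Matrix.one_apply] at h2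
      simp only [e, if_true, h2, true_and]
    · simp [e, Ne.symm e]
  · have e0 : z ⬝ᵥ z = ∑ h : Fin N × Fin d, ∑ a, z (h, a) ^ 2 := by
      rw [dotProduct, Fintype.sum_prod_type]
      simp only [sq]
    have e1 := sum_vst z fun y => ∑ a, y a ^ 2
    have e2 := sum_est g z fun y => ∑ a, y a ^ 2
    have e3 : z ⬝ᵥ S.Xm *ᵥ z = ∑ v, ∑ i, ∑ a, vst z v (i, a) *
        ((if a = 0 then 1 else -1) * ∑ k, S.σ v i k * vst z v (k, a)) := by
      rw [dotProduct, Fintype.sum_prod_type, Fintype.sum_prod_type]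
      simp only [xv, vst]
    have e4 : z ⬝ᵥ Ym θ g *ᵥ z = ∑ e, ∑ i : Fin 2, ∑ a, est g z e (i, a) *
        ∑ b, rf (θ e) a b * est g z e (i.rev, b) := by
      rw [dotProduct, Fintype.sum_prod_type, ← Equiv.sum_comp g.symm, Fintype.sum_prod_type]
      simp only [yv, est, cfg_apply, Equiv.apply_symm_apply]
    simp only [at1] at e1 e2
    simp only [Sys.pen, Sys.vs, eds, vpen, epen, ← sum_div, sum_sub_distrib]
    rw [e1, e2, ← e0, ← e3, ← e4, Sys.Qm, Matrix.sub_mulVec, Matrix.one_mulVec, Matrix.smul_mulVec,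
      Matrix.add_mulVec, dotProduct_sub, dotProduct_smul, dotProduct_add, smul_eq_mul]
    ring

end Pool.Agent.P.MP_6b977f_mp.QG
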