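import Pool.Agent.P.MP_6b977f_mp.QG.IfaceA

/-! Step AN. -/

namespace Pool.Agent.P.MP_6b977f_mp.QG

open Finset MeasureTheory Real Matrix RG
open scoped Classical

namespace ANx

theorem side (hINF : S_INF) (hROT : S_ROT) (hLM : S_LM) {n d : ℕ} (O : Fin n → Node d)
    (μ : Fin n → LL (PI d)) (ν : LL (Fin 2)) {δ η κ t e1 e2 : ℝ} {K : ℕ} (hm : LMarg μ ν)
    (hδ : 0 < δ) (hη : 0 < η) (hκ : 0 < κ) (ht : 0 ≤ t)
    (h1 : ∀ x, (μ x).H + Fintype.card (PI d) * log δ - e1 ≤ ((μ x).mix δ K).ent fun _ => κ ^ 2)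
    (h2 : (ν.mix δ K).ent (fun _ => κ ^ 2) ≤ ν.H + 2 * log δ + e2) :
    PhiS (mixS O μ δ K) (ν.mix δ K) κ t - PhiS (mixS O μ δ K) (ν.mix δ K) κ 0 ≤
      n * d / 2 * (log 2 + log (2 * π * η ^ 2) - 2 * log δ + ν.H + e2 + κ ^ 2 / η ^ 2) +
        penR O μ δ / (2 * η ^ 2) - ∑ x, (μ x).H + n * e1 := by
  obtain ⟨a1, a2⟩ := hLM n d O μ ν δ K hm
  have a3 := hINF n d O _ _ κ t η a1 hκ ht hη
  have a4 : (∑ x, (mixS O μ δ K x).E wsq + n * d * κ ^ 2) / (2 * η ^ 2) ≤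
      penR O μ δ / (2 * η ^ 2) + n * d / 2 * (κ ^ 2 / η ^ 2) :=
    (div_le_div_of_nonneg_right (add_le_add_left (a2 hδ.le).1 _) (by positivity)).trans_eq
      (by field_simp)
  have a5 := sum_le_sum fun x (_ : x ∈ univ) => (h1 x).trans_eq
    (hROT d (O x) ((μ x).mix δ K) (κ ^ 2) (by positivity)).symm
  simp only [sum_sub_distrib, sum_add_distrib, sum_const, card_univ, Fintype.card_prod,
    Fintype.card_fin, nsmul_eq_mul] at a5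
  push_cast at a5
  have a6 := mul_le_mul_of_nonneg_left h2 (show (0 : ℝ) ≤ n * d / 2 by positivity)
  have a7 : PhiS (mixS O μ δ K) (ν.mix δ K) κ 0 = ∑ x, (((μ x).mix δ K).map (O x).wh).ent
      (fun _ => κ ^ 2) - n * d / 2 * (ν.mix δ K).ent fun _ => κ ^ 2 := by
    rw [PhiS, vn_zero, vq_zero]; rfl
  linarith

theorem core (hINF : S_INF) (hROT : S_ROT) (hLAT1 : S_LAT1) (hLAT2 : S_LAT2) (hLM : S_LM)
    {d N m : ℕ} {c : ℝ} (S : Sys d N m c) (θ : Fin m → ℝ) (F : Fam d N m) {δ η e : ℝ} (hδ : 0 < δ)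
    (hη : 0 < η) (he : 0 < e) : ∃ (K : ℕ) (κ : ℝ), 0 < κ ∧ κ ≤ 1 ∧ κ ^ 2 ≤ e ∧ ∀ t : ℝ, 0 ≤ t →
      PhiS (mixS S.vs F.V δ K) (F.ν.mix δ K) κ t + PhiS (mixS (eds θ) F.W δ K) (F.ν.mix δ K) κ t -
        (PhiS (mixS S.vs F.V δ K) (F.ν.mix δ K) κ 0 +
          PhiS (mixS (eds θ) F.W δ K) (F.ν.mix δ K) κ 0) ≤ S.gap θ F δ η + e := by
  obtain ⟨s, s0, s1, s2⟩ : ∃ s : ℝ, 0 < s ∧ N * d * s ≤ e / 3 ∧ (N + m) * s ≤ e / 3 := by
    have p : (0 : ℝ) < N * d + (N + m) + 1 := by positivity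
    have q : (N * d + (N + m) + 1) * (e / 3 / (N * d + (N + m) + 1)) = e / 3 := by field_simp
    have r : 0 < e / 3 / (N * d + (N + m) + 1) := by positivity
    have r1 : (0 : ℝ) ≤ N * d * (e / 3 / (N * d + (N + m) + 1)) := by positivity
    have r2 : (0 : ℝ) ≤ (N + m) * (e / 3 / (N * d + (N + m) + 1)) := by positivity
    exact ⟨_, r, by linarith, by linarith⟩
  obtain ⟨κ0, h0, h2⟩ := hLAT2 F.ν δ s hδ s0
  obtain ⟨κ, k0, k1, k2, k3, k4⟩ : ∃ κ : ℝ, 0 < κ ∧ κ ≤ κ0 ∧ κ ≤ 1 ∧ κ ≤ e ∧ κ ≤ s * η ^ 2 :=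
    ⟨min (min κ0 1) (min e (s * η ^ 2)), by positivity,
      (min_le_left _ _).trans (min_le_left _ _), (min_le_left _ _).trans (min_le_right _ _),
      (min_le_right _ _).trans (min_le_left _ _), (min_le_right _ _).trans (min_le_right _ _)⟩
  have k5 : κ ^ 2 ≤ κ := by nlinarith
  choose KV hV using fun v => hLAT1 _ (F.V v) δ κ s hδ k0 s0
  choose KE hE using fun x => hLAT1 _ (F.W x) δ κ s hδ k0 s0
  refine ⟨∑ v, KV v + ∑ x, KE x, κ, k0, k2, k5.trans k3, fun t ht => ?_⟩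
  have a1 := side hINF hROT hLM S.vs F.V F.ν F.mV hδ hη k0 ht (fun v => hV v _
    ((single_le_sum (fun _ _ => Nat.zero_le _) (mem_univ v)).trans (Nat.le_add_right _ _)))
    (h2 κ k0 k1 (∑ v, KV v + ∑ x, KE x))
  have a2 := side hINF hROT hLM (eds θ) F.W F.ν F.mW hδ hη k0 ht (fun v => hE v _
    ((single_le_sum (fun _ _ => Nat.zero_le _) (mem_univ v)).trans (Nat.le_add_left _ _)))
    (h2 κ k0 k1 (∑ v, KV v + ∑ x, KE x))
  have hm : (m : ℝ) * (2 : ℕ) / 2 = N * d / 2 := by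
    have : (2 : ℝ) * m = d * N := by exact_mod_cast S.hm
    push_cast
    linarith
  rw [hm] at a2
  have a3 := mul_le_mul_of_nonneg_left ((div_le_iff₀ (by positivity)).2 (k5.trans k4))
    (show (0 : ℝ) ≤ N * d by positivity)
  rw [Sys.gap, Fam.Phi, add_div]
  linarith

end ANx

theorem p_AN (hFD : S_FD) (hINF : S_INF) (hROT : S_ROT) (hLAT1 : S_LAT1) (hLAT2 : S_LAT2) (hLM : S_LM) :
    S_AN := by
  intro d N m c S θ F δ η ε hδ hη hε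
  refine ⟨le_of_forall_pos_le_add fun e he => ?_, ?_⟩
  · obtain ⟨K, κ, -, -, -, h⟩ := ANx.core hINF hROT hLAT1 hLAT2 hLM S θ F hδ hη he
    simpa using h 0 le_rfl
  obtain ⟨K, κ, k0, k1, k2, h⟩ := ANx.core hINF hROT hLAT1 hLAT2 hLM S θ F hδ hη (half_pos hε)
  have m1 := (hLM N d S.vs F.V F.ν δ K F.mV).1
  have m2 := (hLM m 2 (eds θ) F.W F.ν δ K F.mW).1
  have dv := fun t (ht : 0 ≤ t) =>
    (hFD _ _ _ _ _ κ t m1 k0 ht).1.add (hFD _ _ _ _ _ κ t m2 k0 ht).1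
  have mv : ∀ a : ℝ, 0 ≤ a → ∃ t ∈ Set.Ioo a (a + 1),
      DS S.vs (mixS S.vs F.V δ K) (F.ν.mix δ K) κ t / 2 +
        DS (eds θ) (mixS (eds θ) F.W δ K) (F.ν.mix δ K) κ t / 2 =
      PhiS (mixS S.vs F.V δ K) (F.ν.mix δ K) κ (a + 1) +
        PhiS (mixS (eds θ) F.W δ K) (F.ν.mix δ K) κ (a + 1) -
      (PhiS (mixS S.vs F.V δ K) (F.ν.mix δ K) κ a +
        PhiS (mixS (eds θ) F.W δ K) (F.ν.mix δ K) κ a) := fun a ha => by
    obtain ⟨t, ht, e⟩ := exists_hasDerivAt_eq_slope _ _ (lt_add_one a)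
      (fun t ht => (dv t (ha.trans ht.1)).continuousAt.continuousWithinAt)
      fun t ht => dv t (ha.trans ht.1.le)
    exact ⟨t, ht, by rw [e]; simp⟩
  have nn : ∀ t : ℝ, 0 ≤ t → 0 ≤ DS S.vs (mixS S.vs F.V δ K) (F.ν.mix δ K) κ t / 2 +
      DS (eds θ) (mixS (eds θ) F.W δ K) (F.ν.mix δ K) κ t / 2 := fun t ht =>
    add_nonneg (div_nonneg (sum_nonneg fun x _ => (hFD _ _ _ _ _ κ t m1 k0 ht).2 x) zero_le_two)
      (div_nonneg (sum_nonneg fun x _ => (hFD _ _ _ _ _ κ t m2 k0 ht).2 x) zero_le_two)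
  obtain ⟨s, hs, e0⟩ := mv 0 le_rfl
  obtain ⟨r, hr, e1⟩ := mv 1 zero_le_one
  obtain ⟨t, ht, e2⟩ := mv (1 + 1) (by norm_num)
  have h0 := nn s hs.1.le
  have h1 := nn r (zero_le_one.trans hr.1.le)
  have h2 := h (1 + 1 + 1) (by norm_num)
  rw [zero_add] at e0
  exact ⟨K, κ, t, k0, k1, by linarith, by linarith [ht.1], by linarith [ht.2], by linarith⟩

end Pool.Agent.P.MP_6b977f_mp.QG
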