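import Pool.Agent.P.MP_6b977f_mp.QG.IfaceA

/-! Step AN1. -/

namespace Pool.Agent.P.MP_6b977f_mp.QG

open Finset MeasureTheory Real Matrix RG
open scoped Classical

namespace AN1x

theorem le_mix {ι : Type} [Fintype ι] (μ : LL ι) {δ : ℝ} (hδ : 0 ≤ δ) (K : ℕ) {f : (ι → ℝ) → ℝ}
    {g : (ι → ℤ) → ℝ} (h : ∀ s x, ‖x - rl δ s‖ ≤ δ → g s ≤ f x) : μ.E g ≤ (μ.mix δ K).E f := by
  have := μ.mix_le hδ K (f := fun x => -1 * f x) (g := fun s => -1 * g s)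
    fun s x hx => by linarith [h s x hx]
  rw [Mix.E_mul, LL.E_mul] at this
  linarith

theorem small {R c : ℝ} (hc : 0 < c) (h : 1 / c ≤ R) : exp (-R ^ 2) * R ≤ c := by
  have R0 : 0 < R := (one_div_pos.2 hc).trans_le h
  rw [div_le_iff₀ hc] at h
  rw [exp_neg, ← div_eq_inv_mul, div_le_iff₀ (exp_pos _)]
  nlinarith [mul_le_mul_of_nonneg_left (add_one_le_exp (R ^ 2)) hc.le,
    mul_le_mul_of_nonneg_left h R0.le]

theorem last {A c T : ℝ} (hc : 0 < c) (hT : 1 ≤ T) (h : 128 * A / c ^ 2 ≤ T) :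
    A * T ^ 2 * exp (-(c * (T / 2) ^ 2)) ≤ exp (-(c / 8 * T ^ 2)) := by
  have a1 : A * T ^ 2 ≤ exp (c / 8 * T ^ 2) := by
    have b1 := quadratic_le_exp_of_nonneg (show 0 ≤ c / 8 * T ^ 2 by positivity)
    rw [div_le_iff₀ (by positivity)] at h
    have b2 : T * c ^ 2 ≤ T ^ 2 * c ^ 2 :=
      mul_le_mul_of_nonneg_right (by nlinarith) (sq_nonneg c)
    have b3 := mul_le_mul_of_nonneg_right (h.trans b2) (sq_nonneg T)
    have b4 : 0 ≤ c / 8 * T ^ 2 := by positivity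
    nlinarith
  have b := mul_le_mul_of_nonneg_right a1 (exp_pos (-(c * (T / 2) ^ 2))).le
  rwa [← exp_add, show c / 8 * T ^ 2 + -(c * (T / 2) ^ 2) = -(c / 8 * T ^ 2) by ring] at b

end AN1x

theorem p_AN1 (hLM : S_LM) (hLNL : S_LNL) (hTH : S_TH) (hTAIL : S_TAIL) :
    S_AN1 := by
  intro d c κ0 L M hd hc hκ hM
  obtain ⟨C1, C11, hN⟩ := hLNL d c κ0 L (2 * M) hd hc hκ (by linarith)
  obtain ⟨c2, c20, c21, hH⟩ := hTH (2 * L + 2)
  obtain ⟨C3, c3, C31, c30, hA⟩ := hTAIL c2 c20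
  have n1 : 0 ≤ 1 / c2 := by positivity
  have n2 : 0 ≤ 128 * (C3 * (2 * M) ^ 2) / c3 ^ 2 := by positivity
  refine ⟨C1 + 1 / c2 + C3 + 128 * (C3 * (2 * M) ^ 2) / c3 ^ 2 + 2, c3 / 8, by linarith,
    by positivity, ?_⟩
  intro N m S θ F δ η ε T H hT hε
  have ε0 : 0 < ε := H.d0.trans_le H.d1
  have T2 : 2 ≤ T := by linarith
  have ε1 : ε ≤ 1 := (le_mul_of_one_le_right ε0.le (one_le_exp (by positivity))).trans hε
  have δ1 : δ ≤ 1 := H.d1.trans ε1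
  have MT : T ≤ M * T := le_mul_of_one_le_left (by linarith) hM
  obtain ⟨K, κ, t, β, κ1, κ2, -, t1, t2, -, hL⟩ := hN N m S θ F δ η ε T H (by linarith)
    ((mul_le_mul_of_nonneg_left (exp_le_exp.2 (mul_le_mul_of_nonneg_right (by linarith)
      (sq_nonneg T))) ε0.le).trans hε)
  have mo : (F.ν.mix δ K).E (fun z => ‖z‖ ^ 2) ≤ 2 * L + 2 := by
    have h1 := ((hLM N d S.vs F.V F.ν δ K F.mV).2 H.d0.le).2.2.1
    have h2 : δ ^ 2 ≤ 1 := pow_le_one₀ H.d0.le δ1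
    linarith [H.mo]
  have v1 : 1 ≤ κ ^ 2 + t / 2 := by linarith [sq_nonneg κ]
  have v3 : κ ^ 2 + t / 2 ≤ 3 := by linarith [pow_le_one₀ (n := 2) κ1.le κ2]
  have r1 : 1 / c2 ≤ 2 * M * T := by linarith
  have sT := AN1x.small c20 r1
  have th := (hH _ _ β _ _ v1 v3 mo r1 (exp_pos _).le sT hL).1
  have ta := hA _ _ β _ _ (T / 2) v1 v3 (by linarith) (exp_pos _).le (sT.trans c21) th hL
    (by linarith)
  refine (AN1x.le_mix F.ν H.d0.le K fun s x hx => ?_).trans (ta.trans ?_)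
  · by_cases h : T ≤ ‖rl δ s‖ ∧ ‖rl δ s‖ ≤ M * T
    · have a1 := norm_le_insert' x (rl δ s)
      have a2 := norm_le_insert x (rl δ s)
      rw [ind_pos h, ind_pos ⟨by linarith [h.2], by linarith [h.1]⟩]
    · rw [ind_neg h]
      exact ind_nonneg _
  · rw [mul_pow, ← mul_assoc]
    exact AN1x.last c30 (by linarith) (by linarith)

end Pool.Agent.P.MP_6b977f_mp.QG
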