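import Pool.Agent.P.MP_6b977f_mp.QG.IfaceA

/-! Step AN2. -/

namespace Pool.Agent.P.MP_6b977f_mp.QG

open Finset MeasureTheory Real Matrix RG
open scoped Classical

namespace AN2x

theorem tr {K M : Fin 2 → Fin 2 → ℝ} {Λ w r : ℝ} (hK : ∀ a b, |K a b| ≤ Λ)
    (hM : ∀ a b, |M a b - ind (a = b) * w| ≤ r) :
    |∑ a, ∑ b, K a b * M a b - w * ∑ a, K a a| ≤ 4 * |Λ| * r := by
  have e : ∑ a, ∑ b, K a b * M a b - w * ∑ a, K a a =
      ∑ a, ∑ b, K a b * (M a b - ind (a = b) * w) := by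
    simp [ind, Fin.sum_univ_two]; ring
  have h : ∀ a b, |K a b * (M a b - ind (a = b) * w)| ≤ |Λ| * r := fun a b => by
    rw [abs_mul]
    exact mul_le_mul ((hK a b).trans (le_abs_self _)) (hM a b) (abs_nonneg _) (abs_nonneg _)
  rw [e]
  refine (abs_sum_le_sum_abs _ _).trans ((sum_le_sum fun a _ =>
    (abs_sum_le_sum_abs _ _).trans (sum_le_sum fun b _ => h a b)).trans (le_of_eq ?_))
  simp; ring

theorem ex {w τ R : ℝ} {ξ : Fin 2 → ℝ} (hw : |w - 1| ≤ τ) (h1 : τ ≤ 1) (hξ : ‖ξ‖ ≤ R) :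
    |exp (-(w * ∑ a, ξ a ^ 2) / 2) - exp (-(∑ a, ξ a ^ 2) / 2)| ≤ τ * R ^ 2 := by
  have hX : 0 ≤ ∑ a, ξ a ^ 2 := sum_nonneg fun _ _ => sq_nonneg _
  have h2 : ∀ a, ξ a ^ 2 ≤ R ^ 2 := fun a => by
    rw [← sq_abs]
    exact pow_le_pow_left₀ (abs_nonneg _) ((norm_le_pi_norm ξ a).trans hξ) 2
  have h3 : (∑ a, ξ a ^ 2) / 2 ≤ R ^ 2 := by
    rw [Fin.sum_univ_two]; linarith [h2 0, h2 1]
  have h4 : 0 ≤ w := by linarith [(abs_le.1 hw).1]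
  have h5 := H43.exp_lip (x := w * ((∑ a, ξ a ^ 2) / 2)) (y := 1 * ((∑ a, ξ a ^ 2) / 2))
    (by positivity) (by positivity)
  rw [← sub_mul, abs_mul, abs_of_nonneg (show 0 ≤ (∑ a, ξ a ^ 2) / 2 by positivity), one_mul,
    ← mul_div_assoc, ← neg_div, ← neg_div] at h5
  exact h5.trans (mul_le_mul hw h3 (by positivity) ((abs_nonneg _).trans hw))

end AN2x

theorem p_AN2 (hAN3 : S_AN3) :
    S_AN2 := by
  intro d c κ0 L Λ hd hc hκ
  obtain ⟨C, hC, h⟩ := hAN3 d c κ0 L hd hc hκ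
  refine ⟨C, hC, fun R ε' hε => ?_⟩
  obtain ⟨τ, τ0, τ1, τ2⟩ : ∃ τ : ℝ, 0 < τ ∧ τ ≤ 1 ∧ τ * R ^ 2 ≤ ε' / 2 := by
    refine ⟨min 1 (ε' / 2 / (R ^ 2 + 1)), by positivity, min_le_left _ _, ?_⟩
    have := (le_div_iff₀ (by positivity)).1 (min_le_right 1 (ε' / 2 / (R ^ 2 + 1)))
    have h0 : 0 < min 1 (ε' / 2 / (R ^ 2 + 1)) := by positivity
    linarith
  obtain ⟨σ, σ0, σ1, σ2⟩ : ∃ σ : ℝ, 0 < σ ∧ σ ≤ ε' / 2 ∧ 4 * |Λ| * σ ≤ τ / 2 := by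
    refine ⟨min (ε' / 2) (τ / 2 / (4 * |Λ| + 1)), by positivity, min_le_left _ _, ?_⟩
    have := (le_div_iff₀ (by positivity)).1 (min_le_right (ε' / 2) (τ / 2 / (4 * |Λ| + 1)))
    have h0 : 0 < min (ε' / 2) (τ / 2 / (4 * |Λ| + 1)) := by positivity
    linarith
  obtain ⟨s0, s1, h⟩ := h R σ σ0
  refine ⟨min s0 (τ / 2), by positivity, fun N m S θ F δ η ε T K hH hT hE hF hK hm hA => ?_⟩
  obtain ⟨w, r, hr, h⟩ := h N m S θ F δ η ε T hH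
    ((one_div_le_one_div_of_le (by positivity) (min_le_left _ _)).trans hT) hE
    (hF.trans (min_le_left _ _))
  have m0 : (0 : ℝ) ≤ m := Nat.cast_nonneg m
  refine ⟨fun e => r e + τ * R ^ 2, ?_, fun e ξ hξ => ?_⟩
  · rw [sum_add_distrib, sum_const, card_univ, Fintype.card_fin, nsmul_eq_mul]
    nlinarith [mul_le_mul_of_nonneg_right σ1 m0, mul_le_mul_of_nonneg_right τ2 m0]
  have m1 : (0 : ℝ) < m := Nat.cast_pos.2 e.pos
  have hw : |w - 1| ≤ τ := by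
    simp only [LL.E_sum, LL.E_mul] at hA
    have h1 := (abs_sum_le_sum_abs _ _).trans
      (sum_le_sum fun e (_ : e ∈ univ) => AN2x.tr (hK e) (h e).2)
    rw [sum_sub_distrib, ← mul_sum, ← mul_sum] at h1
    have h2 := mul_le_mul_of_nonneg_left hr (show 0 ≤ 4 * |Λ| by positivity)
    have h3 := mul_le_mul_of_nonneg_right σ2 m0
    have h4 := mul_le_mul_of_nonneg_right (min_le_right s0 (τ / 2)) m0
    have h5 : |(w - 1) * ∑ e, ∑ a, K e a a| ≤ τ * m := by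
      rw [abs_le] at h1 hA ⊢
      constructor <;> nlinarith [h1.1, h1.2, hA.1, hA.2]
    rw [abs_mul, abs_of_pos (m1.trans_le hm)] at h5
    exact le_of_mul_le_mul_right ((mul_le_mul_of_nonneg_left hm (abs_nonneg _)).trans h5) m1
  refine (norm_sub_le_norm_sub_add_norm_sub _ _ _).trans (add_le_add ((h e).1 ξ hξ) ?_)
  rw [← Complex.ofReal_sub, Complex.norm_real, norm_eq_abs]
  exact AN2x.ex hw τ1 hξ

end Pool.Agent.P.MP_6b977f_mp.QG
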