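import Pool.Agent.P.MP_6b977f_mp.QG.IfaceA

/-! Step AN3. -/

namespace Pool.Agent.P.MP_6b977f_mp.QG

open Finset MeasureTheory Real Matrix RG
open scoped Classical

namespace AN3x

theorem pick {a b c ε c1 : ℝ} (ha : 0 < a) (hb : 0 < b) (hc : 0 < c) (hε : 0 < ε) (h1 : 0 < c1) :
    ∃ e s : ℝ, 0 < e ∧ e ≤ 1 ∧ 0 < s ∧ s ≤ c1 ∧ a * e + b * s / e + c * s ≤ ε := by
  obtain ⟨e, e0, e1, e2⟩ : ∃ e : ℝ, 0 < e ∧ e ≤ 1 ∧ e ≤ ε / (3 * a) :=
    ⟨min 1 (ε / (3 * a)), by positivity, min_le_left _ _, min_le_right _ _⟩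
  obtain ⟨s, s0, s1, s2, s3⟩ : ∃ s : ℝ, 0 < s ∧ s ≤ c1 ∧ s ≤ ε * e / (3 * b) ∧ s ≤ ε / (3 * c) :=
    ⟨min c1 (min (ε * e / (3 * b)) (ε / (3 * c))), by positivity, min_le_left _ _,
      (min_le_right _ _).trans (min_le_left _ _), (min_le_right _ _).trans (min_le_right _ _)⟩
  refine ⟨e, s, e0, e1, s0, s1, ?_⟩
  rw [le_div_iff₀ (by positivity)] at e2 s2 s3
  have : b * s / e ≤ ε / 3 := by
    rw [div_le_iff₀ e0]
    linarith
  linarith

theorem exp_le {T : ℝ} (hT : 1 ≤ T) : exp (-T ^ 2) * T ≤ 1 / T := by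
  have h := add_one_le_exp (T ^ 2)
  have h0 := exp_pos (T ^ 2)
  rw [exp_neg, inv_mul_le_iff₀ h0, mul_one_div, le_div_iff₀ (by linarith)]
  nlinarith

theorem chi_close (μ : LL (PI 2)) {δ : ℝ} (hδ : 0 ≤ δ) (K : ℕ) (O : Node 2) (ξ : Fin 2 → ℝ) :
    ‖μ.ch0 δ ξ - (((μ.mix δ K).map O.wh).map (O.port 0)).chi ξ‖ ≤ 2 * ‖ξ‖ * δ := by
  rw [norm_sub_rev]
  obtain ⟨w, w1, hw⟩ := Complex.exists_norm_eq_mul_self
    ((((μ.mix δ K).map O.wh).map (O.port 0)).chi ξ - μ.ch0 δ ξ)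
  have k := μ.mix_le hδ K
    (f := fun x => (w * Complex.exp (Complex.I * (∑ a, ξ a * at1 x 0 a : ℝ))).re)
    (g := fun s => (w * Complex.exp (Complex.I * (∑ a, ξ a * rl δ (at1 s 0) a : ℝ))).re +
      2 * ‖ξ‖ * δ) fun s x h => by
      rw [← sub_le_iff_le_add', ← Complex.sub_re, ← mul_sub]
      refine (Complex.re_le_norm _).trans ?_
      rw [norm_mul, w1, one_mul]
      have e : ∀ u v : ℝ, ‖Complex.exp (Complex.I * u) - Complex.exp (Complex.I * v)‖ ≤ |u - v| := by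
        intro u v
        have : Complex.exp (Complex.I * u) - Complex.exp (Complex.I * v) =
            Complex.exp (Complex.I * v) * (Complex.exp (Complex.I * (u - v : ℝ)) - 1) := by
          rw [mul_sub, ← Complex.exp_add]
          push_cast
          ring_nf
        rw [this, norm_mul, Complex.norm_exp_I_mul_ofReal, one_mul]
        exact Real.norm_exp_I_mul_ofReal_sub_one_le
      refine (e _ _).trans ?_
      rw [← sum_sub_distrib]
      refine (abs_sum_le_sum_abs _ _).trans ?_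
      have b : ∀ a, |ξ a * at1 x 0 a - ξ a * rl δ (at1 s 0) a| ≤ ‖ξ‖ * δ := fun a => by
        rw [← mul_sub, abs_mul]
        exact mul_le_mul (norm_le_pi_norm ξ a) ((norm_le_pi_norm (x - rl δ s) (0, a)).trans h)
          (abs_nonneg _) (norm_nonneg _)
      rw [Fin.sum_univ_two]
      linarith [b 0, b 1]
  rw [LL.E_add, LL.E_const] at k
  have e1 : (μ.mix δ K).E (fun x => (w * Complex.exp (Complex.I * (∑ a, ξ a * at1 x 0 a : ℝ))).re) =
      (w * (((μ.mix δ K).map O.wh).map (O.port 0)).chi ξ).re := by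
    simp only [Mix.E, Mix.chi, Mix.map, Node.port_wh, mul_sum, Complex.re_sum]
    refine sum_congr rfl fun ω _ => ?_
    rw [mul_left_comm, Complex.re_ofReal_mul]
  have e2 : μ.E (fun s => (w * Complex.exp (Complex.I * (∑ a, ξ a * rl δ (at1 s 0) a : ℝ))).re) =
      (w * μ.ch0 δ ξ).re := by
    simp only [LL.E, LL.ch0, mul_sum, Complex.re_sum]
    refine sum_congr rfl fun ω _ => ?_
    rw [mul_left_comm, Complex.re_ofReal_mul]
  have e3 := congrArg Complex.re hw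
  rw [Complex.ofReal_re, mul_sub, Complex.sub_re] at e3
  linarith

theorem mom_close (μ : LL (PI 2)) {δ : ℝ} (hδ : 0 ≤ δ) (h1 : δ ≤ 1) (K : ℕ) (O : Node 2)
    (a b : Fin 2) : |μ.E (fun s => rl δ (at1 s 0) a * rl δ (at1 s 0) b) -
      ((μ.mix δ K).map O.wh).E (fun y => O.port 0 y a * O.port 0 y b)| ≤
      δ * (2 + μ.E fun s => ‖rl δ (at1 s 0)‖ ^ 2) := by
  have e : ((μ.mix δ K).map O.wh).E (fun y => O.port 0 y a * O.port 0 y b) =
      (μ.mix δ K).E (fun x => at1 x 0 a * at1 x 0 b) := by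
    simp only [Mix.E, Mix.map, Node.port_wh]
    rfl
  have key : ∀ (s : PI 2 → ℤ) (x : PI 2 → ℝ), ‖x - rl δ s‖ ≤ δ →
      |at1 x 0 a * at1 x 0 b - rl δ (at1 s 0) a * rl δ (at1 s 0) b| ≤
        δ * (2 + ‖rl δ (at1 s 0)‖ ^ 2) := fun s x h => by
    have ha : |at1 x 0 a - rl δ (at1 s 0) a| ≤ δ := (norm_le_pi_norm (x - rl δ s) (0, a)).trans h
    have hb : |at1 x 0 b - rl δ (at1 s 0) b| ≤ δ := (norm_le_pi_norm (x - rl δ s) (0, b)).trans h
    have ka : |rl δ (at1 s 0) a| ≤ ‖rl δ (at1 s 0)‖ := norm_le_pi_norm (rl δ (at1 s 0)) a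
    have kb : |rl δ (at1 s 0) b| ≤ ‖rl δ (at1 s 0)‖ := norm_le_pi_norm (rl δ (at1 s 0)) b
    generalize at1 x 0 a = p at *
    generalize at1 x 0 b = q at *
    generalize rl δ (at1 s 0) a = u at *
    generalize rl δ (at1 s 0) b = v at *
    generalize ‖rl δ (at1 s 0)‖ = n at *
    have e : p * q - u * v = (p - u) * (q - v) + (p - u) * v + u * (q - v) := by ring
    have n0 : 0 ≤ n := (abs_nonneg _).trans ka
    have t1 : |(p - u) * (q - v)| ≤ δ * 1 := by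
      rw [abs_mul]; exact mul_le_mul ha (hb.trans h1) (abs_nonneg _) hδ
    have t2 : |(p - u) * v| ≤ δ * n := by
      rw [abs_mul]; exact mul_le_mul ha kb (abs_nonneg _) hδ
    have t3 : |u * (q - v)| ≤ n * δ := by
      rw [abs_mul]; exact mul_le_mul ka hb (abs_nonneg _) n0
    have t4 := abs_add_three ((p - u) * (q - v)) ((p - u) * v) (u * (q - v))
    have t5 := mul_nonneg hδ (sq_nonneg (n - 1))
    rw [e]
    nlinarith
  have k1 := μ.mix_le hδ K (f := fun x => at1 x 0 a * at1 x 0 b)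
    (g := fun s => rl δ (at1 s 0) a * rl δ (at1 s 0) b + δ * (2 + ‖rl δ (at1 s 0)‖ ^ 2))
    fun s x h => by linarith [(abs_le.1 (key s x h)).2]
  have k2 := μ.mix_le hδ K (f := fun x => -1 * (at1 x 0 a * at1 x 0 b))
    (g := fun s => -1 * (rl δ (at1 s 0) a * rl δ (at1 s 0) b) + δ * (2 + ‖rl δ (at1 s 0)‖ ^ 2))
    fun s x h => by linarith [(abs_le.1 (key s x h)).1]
  have e' : (μ.mix δ K).E (fun x => -1 * (at1 x 0 a * at1 x 0 b)) =
      -(μ.mix δ K).E (fun x => at1 x 0 a * at1 x 0 b) := by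
    simp only [Mix.E, ← sum_neg_distrib]
    exact sum_congr rfl fun _ _ => by ring
  rw [LL.E_add, LL.E_mul, LL.E_add, LL.E_const] at k1
  rw [LL.E_add, LL.E_mul, LL.E_mul, LL.E_add, LL.E_const, e'] at k2
  rw [e, abs_le]
  constructor <;> linarith

end AN3x

open AN3x in
theorem p_AN3 (hLM : S_LM) (hLNL : S_LNL) (hTH : S_TH) (hL2 : S_L2) (hRES : S_RES) (hEDG : S_EDG) :
    S_AN3 := by
  intro d c κ0 L hd hc hκ0
  obtain ⟨C1, hC1, h1⟩ := hLNL d c κ0 L 8 hd hc hκ0 (by norm_num)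
  refine ⟨C1, hC1, fun R ε' hε' => ?_⟩
  obtain ⟨A, hA, A0⟩ : ∃ A : ℝ, 2 * L + 2 ≤ A ∧ 0 < A :=
    ⟨2 * |L| + 2, by linarith [le_abs_self L], by positivity⟩
  obtain ⟨c1, c0, c2, h2⟩ := hTH A
  obtain ⟨C2, hC2, h3⟩ := hL2 A c1 c0
  obtain ⟨C3, hC3, h4⟩ := hEDG (c1 / 2) R (by positivity)
  obtain ⟨e, s0, e0, e1, s1, s2, s3⟩ := pick (a := C3 * (1 + 4 * A))
    (b := C3 * (43 + 6 * C2 + 36 * (1 / c1) ^ 2)) (c := 2 * |R| + A) (by positivity) (by positivity)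
    (by positivity) hε' c0
  refine ⟨s0, s1, fun N m S θ F δ η ε T H hT hε hv => ?_⟩
  have T1 : 1 ≤ T := le_trans (by rw [le_div_iff₀ s1]; linarith) hT
  have Ts : 1 / T ≤ s0 := by
    rw [div_le_iff₀ s1] at hT
    rw [div_le_iff₀ (by linarith)]
    linarith
  have d0 := H.d0
  have d1 := H.d1
  have εs : ε ≤ s0 := by
    have a1 : ε * exp (T ^ 2) ≤ 1 := le_trans (mul_le_mul_of_nonneg_left
      (exp_le_exp.2 (le_mul_of_one_le_left (sq_nonneg _) hC1)) (by linarith)) hε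
    have a2 : ε ≤ exp (-T ^ 2) := by
      rw [exp_neg, ← one_div, le_div_iff₀ (exp_pos _)]
      exact a1
    have a3 := exp_le T1
    have a4 := le_mul_of_one_le_right (exp_pos (-T ^ 2)).le T1
    linarith
  have δ1 : δ ≤ 1 := by linarith
  have Nm : (N : ℝ) ≤ m := by
    have := S.hm
    have := Nat.mul_le_mul_right N hd
    exact_mod_cast (by omega : N ≤ m)
  have m0 : (0 : ℝ) ≤ m := Nat.cast_nonneg _
  obtain ⟨K, κ, t, β, k0, k1, k2, t1, t2, hD, hN⟩ := h1 N m S θ F δ η ε T H T1 hε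
  obtain ⟨hM, hm⟩ := hLM m 2 (eds θ) F.W F.ν δ K F.mW
  obtain ⟨m1, m2, m3, m4⟩ := hm d0.le
  have dd : δ ^ 2 ≤ δ := by nlinarith
  have qA : (F.ν.mix δ K).E (fun z => ‖z‖ ^ 2) ≤ A := by linarith [H.mo]
  have v1 : 1 ≤ κ ^ 2 + t / 2 := by nlinarith
  have v3 : κ ^ 2 + t / 2 ≤ 3 := by nlinarith
  have T8 : 1 ≤ 8 * T := by linarith
  have x1 := exp_le T8
  have x2 : 1 / (8 * T) ≤ 1 / T := one_div_le_one_div_of_le (by linarith) (by linarith)
  have x3 := le_mul_of_one_le_right (exp_pos (-(8 * T) ^ 2)).le T8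
  obtain ⟨b1, b2⟩ := h2 _ _ β _ _ v1 v3 qA
    (le_trans ((one_div_le_one_div_of_le s1 s2).trans hT) (by linarith)) (exp_pos _).le
    (by linarith) hN
  have hh : (F.ν.mix δ K).E (fun x => max (‖x‖ - 8 * T / 4) 0 ^ 2) ≤ s0 := by
    refine le_trans (F.ν.mix_le d0.le K fun s x h => ?_) hv
    refine pow_le_pow_left₀ (le_max_right _ _) (max_le_max_right _ ?_) 2
    linarith [norm_le_norm_add_norm_sub' x (rl δ s)]
  have hX := h3 _ _ β _ _ s0 v1 v3 qA (by linarith) (exp_pos _).le (by linarith)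
    (by rw [abs_of_pos (by linarith)]; exact b2) hN hh
  have hX' : (F.ν.mix δ K).Ex (vq κ t) (fun z => ∑ a, ((F.ν.mix δ K).sc (vq κ t) a z + β * z a) ^ 2)
      ≤ C2 * (3 * s0) := hX.trans (mul_le_mul_of_nonneg_left (by linarith) (by linarith))
  have hR := hRES m 2 (eds θ) _ _ κ t β hM k0 (by linarith)
  have εm : ε * N ≤ s0 * m := mul_le_mul εs Nm (Nat.cast_nonneg _) s1.le
  have pV : 0 ≤ penS S.vs F.V δ := sum_nonneg fun v _ => LL.E_nonneg _ fun s => Node.pen_nonneg _ _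
  have hw : ∑ x, (mixS (eds θ) F.W δ K x).E wsq ≤ 34 * (s0 * m) := by
    have a1 : (m : ℝ) * δ ^ 2 ≤ m * s0 := mul_le_mul_of_nonneg_left (by linarith) m0
    have a2 := H.pn
    push_cast at m2
    linarith
  have hS : ∑ x, (mixS (eds θ) F.W δ K x).Ex (vn 2 κ t) (fun y => ∑ j,
      ((mixS (eds θ) F.W δ K x).sc (vn 2 κ t) (j, 0) y + β / 2 * y (j, 0)) ^ 2) ≤
      (9 + 6 * C2 + 36 * (1 / c1) ^ 2) * (s0 * m) := by
    have a1 : (m : ℝ) * κ ^ 2 ≤ m * s0 := mul_le_mul_of_nonneg_left (by linarith) m0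
    have a2 := mul_le_mul_of_nonneg_left hX' m0
    have a3 : β ^ 2 ≤ (1 / c1) ^ 2 := pow_le_pow_left₀ (by linarith) b2 2
    have a4 : β ^ 2 * (∑ x, (mixS (eds θ) F.W δ K x).E wsq + m * 2 * κ ^ 2) ≤
        (1 / c1) ^ 2 * (36 * (s0 * m)) :=
      (mul_le_mul_of_nonneg_left (by linarith) (sq_nonneg _)).trans
        (mul_le_mul_of_nonneg_right a3 (by positivity))
    push_cast at hR
    linarith
  have hY : ∑ x, (mixS (eds θ) F.W δ K x).E (fun y => ‖y‖ ^ 2) ≤ 4 * A * m := by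
    have := mul_le_mul_of_nonneg_left qA m0
    push_cast at m4
    linarith
  have hZ : ∑ x, (F.W x).E (fun s => ‖rl δ (at1 s 0)‖ ^ 2) ≤ 2 * L * m := by
    have a1 := F.mW fun s => ‖rl δ s‖ ^ 2
    have a2 := mul_le_mul_of_nonneg_left H.mo m0
    have a3 : 0 ≤ ∑ x, (F.W x).E (fun s => ‖rl δ (at1 s 1)‖ ^ 2) :=
      sum_nonneg fun x _ => LL.E_nonneg _ fun s => sq_nonneg _
    simp only [Fin.sum_univ_two, sum_add_distrib] at a1
    push_cast at a1
    linarith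
  refine ⟨(1 / (β / 2) - κ ^ 2 - t) / 2, fun x => C3 * (e * (1 + (mixS (eds θ) F.W δ K x).E
    fun y => ‖y‖ ^ 2) + ((mixS (eds θ) F.W δ K x).Ex (vn 2 κ t) (fun y => ∑ j,
      ((mixS (eds θ) F.W δ K x).sc (vn 2 κ t) (j, 0) y + β / 2 * y (j, 0)) ^ 2) +
        (mixS (eds θ) F.W δ K x).E wsq) / e) + 2 * |R| * δ +
          δ * (2 + (F.W x).E fun s => ‖rl δ (at1 s 0)‖ ^ 2), ?_, fun x => ?_⟩
  · simp only [sum_add_distrib, ← mul_sum, ← sum_div, sum_const, card_univ, Fintype.card_fin,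
      nsmul_eq_mul, mul_one]
    have a1 := mul_le_mul_of_nonneg_left (add_le_add_right hY (m : ℝ)) e0.le
    have a2 := div_le_div_of_nonneg_right (add_le_add hS hw) e0.le
    have a3 := mul_le_mul_of_nonneg_left (add_le_add a1 a2) (by linarith : 0 ≤ C3)
    have a4 : δ * (m * 2 + ∑ x, (F.W x).E fun s => ‖rl δ (at1 s 0)‖ ^ 2) ≤ s0 * (A * m) :=
      (mul_le_mul_of_nonneg_left (by nlinarith) d0.le).trans
        (mul_le_mul_of_nonneg_right (by linarith) (by positivity))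
    have a5 : 2 * |R| * (m * δ) ≤ 2 * |R| * (m * s0) :=
      mul_le_mul_of_nonneg_left (mul_le_mul_of_nonneg_left (by linarith) m0) (by positivity)
    have a6 := mul_le_mul_of_nonneg_right s3 m0
    refine le_trans (add_le_add (add_le_add a3 a5) a4) (le_trans (le_of_eq ?_) a6)
    ring
  · obtain ⟨g1, g2⟩ := h4 (θ x) (mixS (eds θ) F.W δ K x) κ t (β / 2) e _ k0 k1 t1 t2 (by linarith)
      e0 e1 le_rfl
    have z0 : 0 ≤ δ * (2 + (F.W x).E fun s => ‖rl δ (at1 s 0)‖ ^ 2) :=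
      mul_nonneg d0.le (add_nonneg zero_le_two (LL.E_nonneg _ fun s => sq_nonneg _))
    refine ⟨fun ξ hξ => ?_, fun a b => ?_⟩
    · have a1 := chi_close (F.W x) d0.le K (ed (θ x)) ξ
      have a2 : 2 * ‖ξ‖ * δ ≤ 2 * |R| * δ :=
        mul_le_mul_of_nonneg_right (by linarith [le_abs_self R]) d0.le
      refine (norm_sub_le_norm_sub_add_norm_sub _
        (((mixS (eds θ) F.W δ K x).map ((ed (θ x)).port 0)).chi ξ) _).trans ?_
      exact le_trans (add_le_add (a1.trans a2) (g1 ξ hξ)) (by linarith)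
    · have a1 := mom_close (F.W x) d0.le δ1 K (ed (θ x)) a b
      have a2 : 0 ≤ 2 * |R| * δ := by positivity
      refine (abs_sub_le _ ((mixS (eds θ) F.W δ K x).E
        fun y => (ed (θ x)).port 0 y a * (ed (θ x)).port 0 y b) _).trans ?_
      exact le_trans (add_le_add a1 (g2 a b)) (by linarith)

end Pool.Agent.P.MP_6b977f_mp.QG
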