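import Pool.Agent.P.MP_6b977f_mp.QG.IfaceC

/-! Step AP. -/

namespace Pool.Agent.P.MP_6b977f_mp.QG

open Finset MeasureTheory Real Matrix RG
open scoped Classical

namespace APx

theorem one (b b' P : ℕ → Prop) (l j0 J K : ℕ) (ε : ℝ)
    (hP : ∀ n, l ≤ n → ∃ s, P s ∧ s ≤ n ∧ n ≤ s + l)
    (hb : ∀ j s, j0 ≤ j → P s → b j → b' (j + s)) (hl : l ≤ J) (hj : 2 * (j0 : ℝ) ≤ ε * J)
    (hJ : 0 < J) (hc : ε * J < #((range J).filter b)) (hK : l + J ≤ K) :
    ε * K / 4 ≤ #((range (2 * K)).filter b') := by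
  set S := (range (2 * K)).filter b' with hS
  have h1 : ∀ n ∈ Ico l (l + K),
      ε * J / 2 ≤ (#(S.filter fun i => n ≤ i + l ∧ i < n + J) : ℝ) := by
    intro n hn
    rw [mem_Ico] at hn
    obtain ⟨s, ps, s1, s2⟩ := hP n hn.1
    have a1 : (range J).filter b ⊆ range j0 ∪ (range J).filter fun j => j0 ≤ j ∧ b j := by
      intro j h
      simp only [mem_filter, mem_union, mem_range] at h ⊢
      by_cases c : j < j0
      · exact Or.inl c
      · exact Or.inr ⟨h.1, by omega, h.2⟩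
    have a2 : #((range J).filter fun j => j0 ≤ j ∧ b j) ≤
        #(S.filter fun i => n ≤ i + l ∧ i < n + J) := by
      refine card_le_card_of_injOn (fun j => j + s) (fun j h => ?_) fun i _ j _ h => by
        simpa using h
      simp only [hS, coe_filter, mem_filter, mem_range, Set.mem_ofPred_eq] at h ⊢
      exact ⟨⟨by omega, hb j s h.2.1 ps h.2.2⟩, by omega, by omega⟩
    have a3 := (card_le_card a1).trans (card_union_le _ _)
    rw [card_range] at a3
    have a4 : (#((range J).filter b) : ℝ) ≤ j0 + #(S.filter fun i => n ≤ i + l ∧ i < n + J) := by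
      exact_mod_cast a3.trans (Nat.add_le_add_left a2 _)
    linarith
  have h2 : ∑ n ∈ Ico l (l + K), #(S.filter fun i => n ≤ i + l ∧ i < n + J) ≤ #S * (2 * J) := by
    simp only [card_filter]
    rw [sum_comm]
    refine sum_le_card_nsmul _ _ _ fun i _ => ?_
    rw [← card_filter]
    refine (card_le_card (t := Ico (i + 1 - J) (i + l + 1)) fun n h => ?_).trans ?_
    · simp only [mem_filter, mem_Ico] at h ⊢
      omega
    · rw [Nat.card_Ico]
      omega
  have h3 := card_nsmul_le_sum _ _ _ h1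
  rw [Nat.card_Ico, Nat.add_sub_cancel_left, nsmul_eq_mul, ← Nat.cast_sum] at h3
  have h4 : (K : ℝ) * (ε * J / 2) ≤ #S * (2 * J) := h3.trans (by exact_mod_cast h2)
  have h5 : (0 : ℝ) < J := by exact_mod_cast hJ
  refine le_of_mul_le_mul_right ?_ h5
  linarith

end APx

theorem p_AP :
    S_AP := by
  intro G _ b b' P l j0 η ε hε hP hb hη
  set B := univ.filter fun g =>
    ¬ ∃ J0 : ℕ, ∀ J, J0 ≤ J → (#((range J).filter (b g)) : ℝ) ≤ ε * J with hB
  obtain ⟨J1, hJ1⟩ := exists_nat_ge (2 * j0 / ε)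
  have h1 : ∀ g, ∃ J : ℕ, g ∈ B → l + J1 + 1 ≤ J ∧ ε * J < #((range J).filter (b g)) := by
    intro g
    by_cases hg : g ∈ B
    · have := (mem_filter.1 hg).2
      push Not at this
      obtain ⟨J, h, h'⟩ := this (l + J1 + 1)
      exact ⟨J, fun _ => ⟨h, h'⟩⟩
    · exact ⟨0, fun h => absurd h hg⟩
  choose J hJ using h1
  set K := l + univ.sup J + 1 with hK
  have h2 : ∀ g ∈ B, ε * K / 4 ≤ (#((range (2 * K)).filter (b' g)) : ℝ) := fun g hg => by
    obtain ⟨a1, a2⟩ := hJ g hg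
    have a3 : J g ≤ univ.sup J := le_sup (mem_univ g)
    refine APx.one (b g) (b' g) P l j0 (J g) K ε hP (hb g) (by omega) ?_ (by omega) a2 (by omega)
    have a4 : (J1 : ℝ) ≤ J g := by exact_mod_cast (by omega : J1 ≤ J g)
    rw [div_le_iff₀ hε] at hJ1
    nlinarith
  have h3 := card_nsmul_le_sum _ _ _ h2
  have h4 : ∑ g ∈ B, (#((range (2 * K)).filter (b' g)) : ℝ) ≤
      ∑ i ∈ range (2 * K), (#(univ.filter fun g => b' g i) : ℝ) := by
    refine (sum_le_sum_of_subset_of_nonneg (subset_univ B) fun _ _ _ => Nat.cast_nonneg _).trans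
      (le_of_eq ?_)
    simp only [card_filter, Nat.cast_sum]
    exact sum_comm
  have h5 := sum_le_card_nsmul (range (2 * K)) _ _ fun i _ => hη i
  rw [card_range, nsmul_eq_mul] at h5
  rw [nsmul_eq_mul] at h3
  have h6 : (0 : ℝ) < K := by exact_mod_cast (by omega : 0 < K)
  refine le_of_mul_le_mul_right ?_ h6
  push_cast at h5
  linarith

end Pool.Agent.P.MP_6b977f_mp.QG
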