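import Pool.Agent.P.MP_6b977f_mp.QG.IfaceA

/-! Step AV. -/

namespace Pool.Agent.P.MP_6b977f_mp.QG

open Finset MeasureTheory Real Matrix RG
open scoped Classical

namespace AVx

theorem shift {d : ℕ} (O : Node d) (i : Fin d) (a : Fin 2) (y : PI d → ℝ) (s : ℝ) :
    O.port i (y + s • fun p : PI d => if p.2 = 0 then O.O p (i, a) else 0) =
      O.port i y + s • fun b => if a = b then (1 / 2 : ℝ) else 0 := by
  funext b
  have h := O.o2 i a b
  simp only [Node.port, Pi.add_apply, Pi.smul_apply, smul_eq_mul, mul_add, sum_add_distrib]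
  rw [← h, sum_PI, sum_PI (fun p => O.O p (i, b) * (s * _)), mul_sum]
  simp only [if_true, one_ne_zero, if_false, mul_zero, sum_const_zero, add_zero]
  congr 1
  exact sum_congr rfl fun _ _ => by ring

end AVx

theorem p_AV (hEP : S_EP) :
    S_AV := by
  intro n d O m q κ t hM hκ ht
  have h1 : ∀ g, PG g → ∑ x, ∑ i, (m x).Ex (vn d κ t) (fun y => g ((O x).port i y)) =
      n * d * q.Ex (vq κ t) g := fun g hg => by
    have e : ∀ m' : Mix (Fin 2), m'.Ex (vq κ t) g =
        m'.E fun x => ∫ y, g y * ker (vq κ t) (y - x) := fun m' =>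
      ((kMIX _ m' _ (vq_pos hκ ht)).2.2.2.2.2.2 g hg).2.1
    rw [e, ← hM]
    refine sum_congr rfl fun x _ => sum_congr rfl fun i _ => ?_
    rw [(hEP d (O x) (m x) κ t hκ ht).1 g hg i, e]
    rfl
  refine ⟨h1, fun g g' hg hg' hd a => ?_⟩
  set w : Fin 2 → ℝ := fun b => if a = b then (1 / 2 : ℝ) else 0 with hw
  have pD : PG fun e => ∑ j, g' j e * w j := PG.sum _ fun j _ => (hg' j).mul (PG.const _)
  have l2 : ∀ e, HasLineDerivAt ℝ g (∑ j, g' j e * w j) e w := fun e => by
    simpa only [lin_apply] using (hd e).hasLineDerivAt w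
  have a2 := kIBP _ q _ w _ _ (vq_pos hκ ht) hg pD l2
  have a1 : ∀ x i, (m x).Ex (vn d κ t) (fun y =>
      (O x).B i (fun j => (m x).sc (vn d κ t) (j, 0) y) a * g ((O x).port i y)) =
      -(m x).Ex (vn d κ t) fun y => ∑ j, g' j ((O x).port i y) * w j := fun x i => by
    rw [← kIBP _ (m x) _ (fun p : PI d => if p.2 = 0 then (O x).O p (i, a) else 0) _ _
      (vn_pos hκ ht) (hg.comp ((O x).PG_port i)) (pD.comp ((O x).PG_port i)) fun y => by
        have := l2 ((O x).port i y)
        simpa only [HasLineDerivAt, AVx.shift] using this]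
    congr 1
    funext y
    rw [sum_PI]
    simp [Node.B]
  simp only [a1, sum_neg_distrib]
  rw [h1 _ pD, ← mul_neg, ← a2]
  have e : ∀ y, (∑ j, w j * q.sc (vq κ t) j y) * g y * q.den (vq κ t) y =
      1 / 2 * (q.sc (vq κ t) a y * g y * q.den (vq κ t) y) := fun y => by
    simp only [hw, ite_mul, zero_mul, sum_ite_eq, mem_univ, if_true]
    ring
  simp only [Mix.Ex, e, integral_const_mul]
  ring

end Pool.Agent.P.MP_6b977f_mp.QG
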