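import Pool.Agent.P.MP_6b977f_mp.QG.IfaceC

/-! Step AVG. -/

namespace Pool.Agent.P.MP_6b977f_mp.QG

open Finset MeasureTheory Real Matrix RG
open scoped Classical

namespace AVGx

theorem f01 (k : ℝ) (z : Fin 2 → ℝ) (x : ℝ) : f0 k z x ^ 2 + f1 k z x ^ 2 = z 0 ^ 2 + z 1 ^ 2 := by
  unfold f0 f1
  linear_combination (z 0 ^ 2 + z 1 ^ 2) * sin_sq_add_cos_sq (k * x)

theorem d0 (k : ℝ) (z : Fin 2 → ℝ) (x : ℝ) : HasDerivAt (f0 k z) (k * f1 k z x) x := by
  have h : HasDerivAt (fun y : ℝ => k * y) k x := by simpa using (hasDerivAt_id x).const_mul k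
  refine ((h.cos.const_mul (z 0)).add (h.sin.const_mul (z 1))).congr_deriv ?_
  unfold f1
  ring

theorem d1 (k : ℝ) (z : Fin 2 → ℝ) (x : ℝ) : HasDerivAt (f1 k z) (-(k * f0 k z x)) x := by
  have h : HasDerivAt (fun y : ℝ => k * y) k x := by simpa using (hasDerivAt_id x).const_mul k
  refine ((h.cos.const_mul (z 1)).sub (h.sin.const_mul (z 0))).congr_deriv ?_
  unfold f0
  ring

theorem prim {k : ℝ} (hk : k ≠ 0) (l : ℝ) (z : Fin 2 → ℝ) :
    sq1 k l z = (z 0 ^ 2 + z 1 ^ 2) / 2 * l -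
      (f0 k z l * f1 k z l - f0 k z 0 * f1 k z 0) / (2 * k) := by
  have h : ∀ x ∈ Set.uIcc (0 : ℝ) l, HasDerivAt
      (fun y => (z 0 ^ 2 + z 1 ^ 2) / 2 * y - f0 k z y * f1 k z y / (2 * k)) (f0 k z x ^ 2) x := by
    intro x _
    have h1 : HasDerivAt (fun y : ℝ => (z 0 ^ 2 + z 1 ^ 2) / 2 * y) ((z 0 ^ 2 + z 1 ^ 2) / 2) x := by
      simpa using (hasDerivAt_id x).const_mul ((z 0 ^ 2 + z 1 ^ 2) / 2)
    refine (h1.sub (((d0 k z x).mul (d1 k z x)).div_const (2 * k))).congr_deriv ?_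
    rw [← f01 k z x]
    field_simp
    ring
  have hc : Continuous fun x => f0 k z x ^ 2 := by
    unfold f0
    fun_prop
  rw [sq1, intervalIntegral.integral_eq_sub_of_hasDerivAt h (hc.intervalIntegrable _ _)]
  ring

/-- the character along the circle -/
noncomputable def F (s t : ℝ) (z : Fin 2 → ℝ) (y : ℝ) : ℂ :=
  Complex.exp (Complex.I * (s * f0 1 z y + t * f1 1 z y : ℝ))

theorem F_norm (s t : ℝ) (z : Fin 2 → ℝ) (y : ℝ) : ‖F s t z y‖ = 1 := by
  rw [F, mul_comm]
  exact Complex.norm_exp_ofReal_mul_I _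

theorem F_cont (s t : ℝ) (z : Fin 2 → ℝ) : Continuous (F s t z) := by
  unfold F f0 f1
  fun_prop

theorem F_per (s t : ℝ) (z : Fin 2 → ℝ) : Function.Periodic (F s t z) (2 * π) := by
  intro y
  simp only [F, f0, f1, one_mul, cos_add_two_pi, sin_add_two_pi]

theorem ch1_eq (k l s t : ℝ) (z : Fin 2 → ℝ) :
    ch1 k l s t z = ∫ x in (0 : ℝ)..l, F s t z (k * x) := by
  simp only [ch1, F, f0, f1, one_mul]

theorem chI_eq (s t : ℝ) (z : Fin 2 → ℝ) :
    ∫ x in (0 : ℝ)..(2 * π), F s t z x = ((2 * π : ℝ) : ℂ) * chI s t z := by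
  have h : ((2 * π : ℝ) : ℂ) ≠ 0 := by exact_mod_cast two_pi_pos.ne'
  rw [chI, ch1_eq, mul_div_cancel₀ _ h]
  simp only [one_mul]

theorem chI_norm (s t : ℝ) (z : Fin 2 → ℝ) : ‖chI s t z‖ ≤ 1 := by
  have h := intervalIntegral.norm_integral_le_of_norm_le_const (a := 0) (b := 2 * π)
    (f := F s t z) (C := 1) fun x _ => (F_norm s t z x).le
  rw [chI_eq, norm_mul, Complex.norm_real, Real.norm_eq_abs, sub_zero, one_mul] at h
  exact (mul_le_iff_le_one_right (abs_pos.2 two_pi_pos.ne')).1 h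

theorem bound (s t : ℝ) (z : Fin 2 → ℝ) (T : ℝ) :
    ‖∫ y in (0 : ℝ)..T, (F s t z y - chI s t z)‖ ≤ 4 * π := by
  have hc : Continuous fun y => F s t z y - chI s t z := (F_cont s t z).sub continuous_const
  have hi : ∀ a b, IntervalIntegrable (fun y => F s t z y - chI s t z) volume a b :=
    fun a b => hc.intervalIntegrable a b
  have hp : Function.Periodic (fun y => F s t z y - chI s t z) (2 * π) := fun y => by
    simp only [F_per s t z y]
  have h0 : ∫ y in (0 : ℝ)..(2 * π), (F s t z y - chI s t z) = 0 := by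
    rw [intervalIntegral.integral_sub ((F_cont s t z).intervalIntegrable _ _)
      (continuous_const.intervalIntegrable _ _), chI_eq, intervalIntegral.integral_const, sub_zero,
      Complex.real_smul, sub_self]
  have h1 := hp.intervalIntegral_add_zsmul_eq ⌊T / (2 * π)⌋ 0 hi
  rw [zero_add, zero_add, h0, smul_zero] at h1
  rw [← intervalIntegral.integral_add_adjacent_intervals (hi 0 (⌊T / (2 * π)⌋ • (2 * π)))
    (hi _ T), h1, zero_add]
  refine (intervalIntegral.norm_integral_le_of_norm_le_const (C := 2) fun x _ =>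
    (norm_sub_le _ _).trans (by linarith [F_norm s t z x, chI_norm s t z])).trans ?_
  have e1 := Int.floor_le (T / (2 * π))
  have e2 := Int.lt_floor_add_one (T / (2 * π))
  rw [le_div_iff₀ two_pi_pos] at e1
  rw [div_lt_iff₀ two_pi_pos] at e2
  rw [zsmul_eq_mul, abs_of_nonneg (by linarith)]
  linarith

end AVGx

open AVGx in
theorem p_AVG :
    S_AVG := by
  intro k l s t z hk hl
  constructor
  · have hc : Continuous fun x => F s t z (k * x) := (F_cont s t z).comp (by fun_prop)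
    have e : ch1 k l s t z - l * chI s t z = ∫ x in (0 : ℝ)..l, (F s t z (k * x) - chI s t z) := by
      rw [intervalIntegral.integral_sub (hc.intervalIntegrable _ _)
        (continuous_const.intervalIntegrable _ _), ch1_eq, intervalIntegral.integral_const,
        sub_zero, Complex.real_smul]
    rw [e, intervalIntegral.integral_comp_mul_left (fun y => F s t z y - chI s t z) hk.ne',
      mul_zero, norm_smul, norm_inv, Real.norm_eq_abs, abs_of_pos hk, inv_mul_eq_div]
    exact div_le_div_of_nonneg_right (bound s t z _) hk.le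
  · rw [Fin.sum_univ_two, prim hk.ne']
    have e : (z 0 ^ 2 + z 1 ^ 2) / 2 * l - (f0 k z l * f1 k z l - f0 k z 0 * f1 k z 0) / (2 * k) -
        l / 2 * (z 0 ^ 2 + z 1 ^ 2) = ((f0 k z 0 * f1 k z 0 - f0 k z l * f1 k z l) / 2) / k := by
      field_simp
      ring
    rw [e, abs_div, abs_of_pos hk]
    refine div_le_div_of_nonneg_right (abs_le.2 ⟨?_, ?_⟩) hk.le
    · nlinarith [f01 k z 0, f01 k z l, sq_nonneg (f0 k z 0 + f1 k z 0),
        sq_nonneg (f0 k z l - f1 k z l), sq_nonneg (z 0), sq_nonneg (z 1)]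
    · nlinarith [f01 k z 0, f01 k z l, sq_nonneg (f0 k z 0 - f1 k z 0),
        sq_nonneg (f0 k z l + f1 k z l), sq_nonneg (z 0), sq_nonneg (z 1)]

end Pool.Agent.P.MP_6b977f_mp.QG
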