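import Pool.Agent.P.MP_6b977f_mp.QG.Old

/-! Statements on the entropy inequality and its stability. -/

namespace Pool.Agent.P.MP_6b977f_mp.QG

open Finset MeasureTheory Real Matrix RG
open scoped Classical

/-! ### the entropy inequality -/

-- deps:
def S_EP : Prop := ∀ (d : ℕ) (O : Node d) (m : Mix (PI d)) (κ t : ℝ), 0 < κ → 0 ≤ t →
  (∀ g, PG g → ∀ i, m.Ex (vn d κ t) (fun y => g (O.port i y)) = (m.map (O.port i)).Ex (vq κ t) g) ∧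
  (∀ g, PG g → m.Ex (vn d κ t) (fun y => g (up y)) = (m.map up).Ex (fun _ => κ ^ 2 + t) g) ∧
  ∀ g, PG g → ∀ j, m.Ex (vn d κ t) (fun y => m.sc (vn d κ t) (j, 0) y * g (up y)) =
    (m.map up).Ex (fun _ => κ ^ 2 + t) fun u => (m.map up).sc (fun _ => κ ^ 2 + t) j u * g u

-- deps: EP
def S_AV : Prop := ∀ (n d : ℕ) (O : Fin n → Node d) (m : Fin n → Mix (PI d)) (q : Mix (Fin 2))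
  (κ t : ℝ), Marg O m q → 0 < κ → 0 ≤ t →
  (∀ g, PG g → ∑ x, ∑ i, (m x).Ex (vn d κ t) (fun y => g ((O x).port i y)) =
    n * d * q.Ex (vq κ t) g) ∧
  ∀ (g : (Fin 2 → ℝ) → ℝ) (g' : Fin 2 → (Fin 2 → ℝ) → ℝ), PG g → (∀ b, PG (g' b)) →
    (∀ z, HasFDerivAt g (lin fun b => g' b z) z) → ∀ a,
    ∑ x, ∑ i, (m x).Ex (vn d κ t) (fun y =>
      (O x).B i (fun j => (m x).sc (vn d κ t) (j, 0) y) a * g ((O x).port i y)) =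
      n * d / 2 * q.Ex (vq κ t) fun z => q.sc (vq κ t) a z * g z

-- deps: AV
def S_FD : Prop := ∀ (n d : ℕ) (O : Fin n → Node d) (m : Fin n → Mix (PI d)) (q : Mix (Fin 2))
  (κ t : ℝ), Marg O m q → 0 < κ → 0 ≤ t →
  HasDerivAt (PhiS m q κ) (DS O m q κ t / 2) t ∧ ∀ x, 0 ≤ (O x).D1 (m x) q κ t

-- deps: FD
def S_INF : Prop := ∀ (n d : ℕ) (O : Fin n → Node d) (m : Fin n → Mix (PI d)) (q : Mix (Fin 2))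
  (κ t s : ℝ), Marg O m q → 0 < κ → 0 ≤ t → 0 < s →
  PhiS m q κ t ≤ n * d / 2 * (log 2 + log (2 * π * s ^ 2)) +
    (∑ x, (m x).E wsq + n * d * κ ^ 2) / (2 * s ^ 2)

-- deps:
def S_ROT : Prop := ∀ (d : ℕ) (O : Node d) (m : Mix (PI d)) (v : ℝ), 0 < v →
  (m.map O.wh).ent (fun _ => v) = m.ent fun _ => v

-- deps:
def S_LAT1 : Prop := ∀ (ι : Type) [Fintype ι] (μ : LL ι) (δ κ ε : ℝ), 0 < δ → 0 < κ → 0 < ε →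
  ∃ K0 : ℕ, ∀ K, K0 ≤ K →
    μ.H + Fintype.card ι * log δ - ε ≤ (μ.mix δ K).ent fun _ => κ ^ 2

-- deps:
def S_LAT2 : Prop := ∀ (μ : LL (Fin 2)) (δ ε : ℝ), 0 < δ → 0 < ε →
  ∃ κ0 : ℝ, 0 < κ0 ∧ ∀ κ : ℝ, 0 < κ → κ ≤ κ0 → ∀ K : ℕ,
    (μ.mix δ K).ent (fun _ => κ ^ 2) ≤ μ.H + 2 * log δ + ε

-- deps:
def S_LM : Prop := ∀ (n d : ℕ) (O : Fin n → Node d) (μ : Fin n → LL (PI d)) (ν : LL (Fin 2)) (δ : ℝ)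
  (K : ℕ), LMarg μ ν → Marg O (mixS O μ δ K) (ν.mix δ K) ∧
    (0 ≤ δ → ∑ x, (mixS O μ δ K x).E wsq ≤ penR O μ δ ∧
      penR O μ δ ≤ 2 * penS O μ δ + 8 * n * d ^ 2 * δ ^ 2 ∧
      (ν.mix δ K).E (fun z => ‖z‖ ^ 2) ≤ 2 * ν.E (fun s => ‖rl δ s‖ ^ 2) + 2 * δ ^ 2 ∧
      ∑ x, (mixS O μ δ K x).E (fun y => ‖y‖ ^ 2) ≤ 2 * n * d * (ν.mix δ K).E fun z => ‖z‖ ^ 2)

-- deps: FD INF ROT LAT1 LAT2 LM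
def S_AN : Prop := ∀ (d N m : ℕ) (c : ℝ) (S : Sys d N m c) (θ : Fin m → ℝ) (F : Fam d N m)
  (δ η ε : ℝ), 0 < δ → 0 < η → 0 < ε →
  0 ≤ S.gap θ F δ η ∧ ∃ (K : ℕ) (κ t : ℝ), 0 < κ ∧ κ ≤ 1 ∧ κ ^ 2 ≤ ε ∧ 2 < t ∧ t < 3 ∧
    DS S.vs (mixS S.vs F.V δ K) (F.ν.mix δ K) κ t +
      DS (eds θ) (mixS (eds θ) F.W δ K) (F.ν.mix δ K) κ t ≤ 2 * S.gap θ F δ η + ε

/-! ### stability -/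

-- deps: EP
def S_DROP : Prop := ∀ (d : ℕ) (L : ℝ), ∃ C : ℝ, 1 ≤ C ∧
  ∀ (O : Node d) (m : Mix (PI d)) (q : Mix (Fin 2)) (κ t ε T : ℝ), O.Stab m q κ t ε L → 1 ≤ T →
  ∀ i a, (m.map up).Ex (fun _ => κ ^ 2 + t) (fun u => ind (‖u‖ ≤ T) *
    (O.B i (fun j => (m.map up).sc (fun _ => κ ^ 2 + t) j u) a - q.sc (vq κ t) a (O.B i u) / 2) ^ 2) ≤
      C * T ^ 4 * ε

-- deps: DROP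
def S_LOC : Prop := ∀ (d : ℕ) (L : ℝ), ∃ C : ℝ, 1 ≤ C ∧
  ∀ (O : Node d) (m : Mix (PI d)) (q : Mix (Fin 2)) (κ t ε T s : ℝ), O.Stab m q κ t ε L → 1 ≤ T →
  0 < s → s ≤ 1 → ε * exp (C * T ^ 2) ≤ s ^ (d + 2) → ∀ u : Fin d → ℝ, ‖u‖ ≤ T → ∀ i a,
  |O.B i (fun j => (m.map up).sc (fun _ => κ ^ 2 + t) j u) a - q.sc (vq κ t) a (O.B i u) / 2| ≤ s

-- deps:
def S_INC : Prop := ∀ (d : ℕ) (c : ℝ), 1 ≤ d → 0 < c → ∃ C : ℝ, 1 ≤ C ∧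
  ∀ (σ : Matrix (Fin d) (Fin d) ℝ) (h : NoBack c σ) (l : (Fin d → ℝ) → ℝ)
  (ρ : Fin d → (Fin d → ℝ) → ℝ) (G : Fin 2 → (Fin 2 → ℝ) → ℝ) (T s K r : ℝ), 1 ≤ T → 0 ≤ s → 0 ≤ K →
  0 < r → r ≤ 1 →
  (∀ (u w : Fin d → ℝ) (x : ℝ), HasDerivAt (fun x : ℝ => l (u + x • w)) (∑ j, w j * ρ j (u + x • w)) x) →
  (∀ u, ‖u‖ ≤ C * T → ∀ i a, |(vx h).B i (fun j => ρ j u) a - G a ((vx h).B i u) / 2| ≤ s) →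
  (∀ z z', ‖z‖ ≤ C * T → ‖z'‖ ≤ C * T → ∀ a, |G a z - G a z'| ≤ K * ‖z - z'‖) →
  ∀ (z : Fin 2 → ℝ) (x : ℝ), ‖z‖ ≤ T → |x| ≤ T → ∀ a b,
    |G a (z + Pi.single b x) - G a z - (G a (Pi.single b x) - G a 0)| ≤ C * (s * T / r + K * r)

-- deps:
def S_AFF : Prop := ∀ (G : (Fin 2 → ℝ) → ℝ) (T e K : ℝ), 0 < T →
  (∀ z z', ‖z‖ ≤ T → ‖z'‖ ≤ T → |G z - G z'| ≤ K * ‖z - z'‖) →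
  (∀ (z : Fin 2 → ℝ) (x : ℝ), ‖z‖ ≤ T → |x| ≤ T → ∀ b,
    |G (z + Pi.single b x) - G z - (G (Pi.single b x) - G 0)| ≤ e) →
  ∃ A : Fin 2 → ℝ, ∀ z, ‖z‖ ≤ T → |G z - G 0 - ∑ b, A b * z b| ≤ 11 * e

-- deps:
def S_ISO : Prop := ∀ (d : ℕ) (κ0 : ℝ), 1 ≤ d → 0 < κ0 → ∃ C : ℝ, 1 ≤ C ∧
  ∀ (c : ℝ) (σ : Matrix (Fin d) (Fin d) ℝ) (h : NoBack c σ) (θ : ℝ) (G : Fin 2 → (Fin 2 → ℝ) → ℝ)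
  (l : Fin 2 → ℝ) (A : Fin 2 → Fin 2 → ℝ) (T s : ℝ), κ0 ≤ sin θ ^ 2 → 0 < T → 0 ≤ s →
  (∀ z, ‖z‖ ≤ C * T → ∀ a, |G a z - l a - ∑ b, A a b * z b| ≤ s) →
  (∀ u : Fin d → ℝ, ‖u‖ ≤ T → ∃ ρ, ∀ i a, |(vx h).B i ρ a - G a ((vx h).B i u) / 2| ≤ s) →
  (∀ u : Fin 2 → ℝ, ‖u‖ ≤ T → ∃ ρ, ∀ i a, |(ed θ).B i ρ a - G a ((ed θ).B i u) / 2| ≤ s) →
  ∃ β : ℝ, ∀ z, ‖z‖ ≤ T → ∀ a, |G a z + β * z a| ≤ C * s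

-- deps: LOC INC AFF ISO
def S_NL : Prop := ∀ (d : ℕ) (c κ0 L : ℝ), 1 ≤ d → 0 < c → 0 < κ0 → ∃ C : ℝ, 1 ≤ C ∧
  ∀ (σ : Matrix (Fin d) (Fin d) ℝ) (h : NoBack c σ) (θ : ℝ) (m : Mix (PI d)) (m' : Mix (PI 2))
  (q : Mix (Fin 2)) (κ t ε T s : ℝ), (vx h).Stab m q κ t ε L → (ed θ).Stab m' q κ t ε L →
  κ0 ≤ sin θ ^ 2 → 1 ≤ T → 0 < s → s ≤ 1 → ε * exp (C * T ^ 2) ≤ s ^ (2 * d + 8) →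
  ∃ β : ℝ, NL2 q (κ ^ 2 + t / 2) β s T

-- deps:
def S_TH : Prop := ∀ L : ℝ, ∃ c : ℝ, 0 < c ∧ c ≤ 1 ∧
  ∀ (q : Mix (Fin 2)) (v β s T : ℝ), 1 ≤ v → v ≤ 3 → q.E (fun x => ‖x‖ ^ 2) ≤ L → 1 / c ≤ T →
  0 ≤ s → s * T ≤ c → NL2 q v β s T → c ≤ β ∧ β ≤ 1 / c

-- deps:
def S_TAIL : Prop := ∀ c : ℝ, 0 < c → ∃ C c' : ℝ, 1 ≤ C ∧ 0 < c' ∧
  ∀ (q : Mix (Fin 2)) (v β s T τ : ℝ), 1 ≤ v → v ≤ 3 → C ≤ T → 0 ≤ s → s * T ≤ 1 →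
  c ≤ β → NL2 q v β s T → 0 ≤ τ →
  q.E (fun x => ind (‖x‖ ≤ T ∧ τ ≤ ‖x‖)) ≤ C * T ^ 2 * exp (-(c' * τ ^ 2))

-- deps: FD LM AN NL
def S_LNL : Prop := ∀ (d : ℕ) (c κ0 L M : ℝ), 3 ≤ d → 0 < c → 0 < κ0 → 1 ≤ M → ∃ C : ℝ, 1 ≤ C ∧
  ∀ (N m : ℕ) (S : Sys d N m c) (θ : Fin m → ℝ) (F : Fam d N m) (δ η ε T : ℝ),
  S.Hyp θ F δ η ε κ0 L → 1 ≤ T → ε * exp (C * T ^ 2) ≤ 1 →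
  ∃ (K : ℕ) (κ t β : ℝ), 0 < κ ∧ κ ≤ 1 ∧ κ ^ 2 ≤ ε ∧ 2 < t ∧ t < 3 ∧
    DS (eds θ) (mixS (eds θ) F.W δ K) (F.ν.mix δ K) κ t ≤ 3 * ε * N ∧
    NL2 (F.ν.mix δ K) (κ ^ 2 + t / 2) β (exp (-(M * T) ^ 2)) (M * T)

-- deps: LM LNL TH TAIL
def S_AN1 : Prop := ∀ (d : ℕ) (c κ0 L M : ℝ), 3 ≤ d → 0 < c → 0 < κ0 → 1 ≤ M →
  ∃ C c' : ℝ, 1 ≤ C ∧ 0 < c' ∧
  ∀ (N m : ℕ) (S : Sys d N m c) (θ : Fin m → ℝ) (F : Fam d N m) (δ η ε T : ℝ),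
  S.Hyp θ F δ η ε κ0 L → C ≤ T → ε * exp (C * T ^ 2) ≤ 1 →
  F.ν.E (fun s => ind (T ≤ ‖rl δ s‖ ∧ ‖rl δ s‖ ≤ M * T)) ≤ exp (-(c' * T ^ 2))

-- deps:
def S_L2 : Prop := ∀ L c : ℝ, 0 < c → ∃ C : ℝ, 1 ≤ C ∧
  ∀ (q : Mix (Fin 2)) (v β s T h : ℝ), 1 ≤ v → v ≤ 3 → q.E (fun x => ‖x‖ ^ 2) ≤ L → 2 ≤ T →
  0 ≤ s → s ≤ 1 → |β| ≤ 1 / c → NL2 q v β s T → q.E (fun x => max (‖x‖ - T / 4) 0 ^ 2) ≤ h →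
  q.Ex (fun _ => v) (fun z => ∑ a, (q.sc (fun _ => v) a z + β * z a) ^ 2) ≤ C * (s + h + 1 / T)

-- deps: AV
def S_RES : Prop := ∀ (n d : ℕ) (O : Fin n → Node d) (m : Fin n → Mix (PI d)) (q : Mix (Fin 2))
  (κ t β : ℝ), Marg O m q → 0 < κ → 0 ≤ t →
  ∑ x, (m x).Ex (vn d κ t) (fun y => ∑ j, ((m x).sc (vn d κ t) (j, 0) y + β / 2 * y (j, 0)) ^ 2) ≤
    3 * DS O m q κ t + n * d * q.Ex (vq κ t) (fun z => ∑ a, (q.sc (vq κ t) a z + β * z a) ^ 2) +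
      β ^ 2 * (∑ x, (m x).E wsq + n * d * κ ^ 2)

-- deps:
def S_STC : Prop := ∀ (ι : Type) [Fintype ι] (m : Mix ι) (v ξ : ι → ℝ) (β X : ℝ), (∀ j, 0 < v j) →
  0 < β → 0 ≤ X → m.Ex v (fun y => (∑ j, ξ j * (m.sc v j y + β * y j)) ^ 2) ≤ X ^ 2 →
  ‖m.chv v ξ - (exp (-(∑ j, ξ j ^ 2) / (2 * β)) : ℝ)‖ ≤ X / β

-- deps:
def S_ST2 : Prop := ∀ (ι : Type) [Fintype ι] (m : Mix ι) (v : ι → ℝ) (j k : ι) (β e : ℝ),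
  (∀ j, 0 < v j) → 0 < e →
  |β * (m.E (fun x => x j * x k) + ind (j = k) * v j) - ind (j = k)| ≤
    m.Ex v (fun y => (m.sc v j y + β * y j) ^ 2) / e + e * (m.E (fun x => x k ^ 2) + v k)

-- deps: STC ST2
def S_EDG : Prop := ∀ β0 R : ℝ, 0 < β0 → ∃ C : ℝ, 1 ≤ C ∧
  ∀ (θ : ℝ) (m : Mix (PI 2)) (κ t β e r : ℝ), 0 < κ → κ ≤ 1 → 2 < t → t < 3 → β0 ≤ β → 0 < e →
  e ≤ 1 → C * (e * (1 + m.E fun y => ‖y‖ ^ 2) + (m.Ex (vn 2 κ t)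
    (fun y => ∑ j, (m.sc (vn 2 κ t) (j, 0) y + β * y (j, 0)) ^ 2) + m.E wsq) / e) ≤ r →
  (∀ ξ : Fin 2 → ℝ, ‖ξ‖ ≤ R → ‖(m.map ((ed θ).port 0)).chi ξ -
    (exp (-((1 / β - κ ^ 2 - t) / 2 * ∑ a, ξ a ^ 2) / 2) : ℝ)‖ ≤ r) ∧
  ∀ a b, |m.E (fun y => (ed θ).port 0 y a * (ed θ).port 0 y b) -
    ind (a = b) * ((1 / β - κ ^ 2 - t) / 2)| ≤ r

-- deps: LM LNL TH L2 RES EDG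
def S_AN3 : Prop := ∀ (d : ℕ) (c κ0 L : ℝ), 3 ≤ d → 0 < c → 0 < κ0 → ∃ C : ℝ, 1 ≤ C ∧
  ∀ R ε' : ℝ, 0 < ε' → ∃ s0 : ℝ, 0 < s0 ∧
  ∀ (N m : ℕ) (S : Sys d N m c) (θ : Fin m → ℝ) (F : Fam d N m) (δ η ε T : ℝ),
  S.Hyp θ F δ η ε κ0 L → 1 / s0 ≤ T → ε * exp (C * T ^ 2) ≤ 1 →
  F.ν.E (fun s => max (‖rl δ s‖ - T) 0 ^ 2) ≤ s0 →
  ∃ (w : ℝ) (r : Fin m → ℝ), ∑ e, r e ≤ ε' * m ∧ ∀ e,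
    (∀ ξ : Fin 2 → ℝ, ‖ξ‖ ≤ R →
      ‖(F.W e).ch0 δ ξ - (exp (-(w * ∑ a, ξ a ^ 2) / 2) : ℝ)‖ ≤ r e) ∧
    ∀ a b, |(F.W e).E (fun s => rl δ (at1 s 0) a * rl δ (at1 s 0) b) - ind (a = b) * w| ≤ r e

-- deps: AN3
def S_AN2 : Prop := ∀ (d : ℕ) (c κ0 L Λ : ℝ), 3 ≤ d → 0 < c → 0 < κ0 → ∃ C : ℝ, 1 ≤ C ∧
  ∀ R ε' : ℝ, 0 < ε' → ∃ s0 : ℝ, 0 < s0 ∧
  ∀ (N m : ℕ) (S : Sys d N m c) (θ : Fin m → ℝ) (F : Fam d N m) (δ η ε T : ℝ)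
  (K : Fin m → Fin 2 → Fin 2 → ℝ), S.Hyp θ F δ η ε κ0 L → 1 / s0 ≤ T → ε * exp (C * T ^ 2) ≤ 1 →
  F.ν.E (fun s => max (‖rl δ s‖ - T) 0 ^ 2) ≤ s0 → (∀ e a b, |K e a b| ≤ Λ) →
  (m : ℝ) ≤ ∑ e, ∑ a, K e a a →
  |∑ e, (F.W e).E (fun s => ∑ a, ∑ b, K e a b * (rl δ (at1 s 0) a * rl δ (at1 s 0) b)) -
    ∑ e, ∑ a, K e a a| ≤ s0 * m →
  ∃ r : Fin m → ℝ, ∑ e, r e ≤ ε' * m ∧ ∀ (e : Fin m) (ξ : Fin 2 → ℝ), ‖ξ‖ ≤ R →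
    ‖(F.W e).ch0 δ ξ - (exp (-(∑ a, ξ a ^ 2) / 2) : ℝ)‖ ≤ r e

end Pool.Agent.P.MP_6b977f_mp.QG
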