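import Pool.Agent.P.MP_6b977f_mp.QG.IfaceB
import Pool.Agent.P.MP_6b977f_mp.QG.IfaceA
import Pool.Agent.P.MP_6b977f_mp.RG.LibK

/-! Step CA. -/

namespace Pool.Agent.P.MP_6b977f_mp.QG

open Finset MeasureTheory Real Matrix RG
open scoped Classical

namespace CAx

theorem pt (M : ℝ) {T : ℝ} (hT : 5 ≤ T) (z z' : Fin 2 → ℝ) :
    ind (T < √(z 0 ^ 2 + z 1 ^ 2) ∧ √(z 0 ^ 2 + z 1 ^ 2) ≤ M * T) ≤
      ind (T / 2 ≤ ‖z'‖ ∧ ‖z'‖ ≤ 4 * M * (T / 2)) + ∑ a, (z' a - z a) ^ 2 := by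
  have p : 0 ≤ ∑ a, (z' a - z a) ^ 2 := by positivity
  by_cases h : T < √(z 0 ^ 2 + z 1 ^ 2) ∧ √(z 0 ^ 2 + z 1 ^ 2) ≤ M * T
  swap
  · rw [ind_neg h]
    exact add_nonneg (ind_nonneg _) p
  rw [ind_pos h]
  by_cases h' : 1 ≤ ∑ a, (z' a - z a) ^ 2
  · exact le_add_of_nonneg_of_le (ind_nonneg _) h'
  rw [ind_pos]
  · linarith
  have k : ‖z' - z‖ ≤ 1 := by
    have := norm_sq_le (z' - z)
    simp only [Pi.sub_apply] at this
    nlinarith [norm_nonneg (z' - z)]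
  have h1 : T ^ 2 < z 0 ^ 2 + z 1 ^ 2 := (lt_sqrt (by linarith)).1 h.1
  have h2 : ‖z‖ ≤ M * T := by
    refine (le_sqrt_of_sq_le ?_).trans h.2
    simpa [Fin.sum_univ_two] using norm_sq_le z
  have h3 : ∀ a, z a ^ 2 ≤ ‖z‖ ^ 2 := fun a => by
    rw [← sq_abs]
    exact pow_le_pow_left₀ (abs_nonneg _) (norm_le_pi_norm z a) 2
  have h4 : 7 / 10 * T ≤ ‖z‖ := by
    by_contra h5
    nlinarith [h3 0, h3 1, norm_nonneg z]
  obtain ⟨k1, k2⟩ := abs_le.1 ((abs_norm_sub_norm_le z' z).trans k)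
  constructor <;> nlinarith

end CAx

theorem p_CA (hAN1 : S_AN1) (hPEN : S_PEN) (hCORE : S_CORE) :
    S_CA := by
  intro d c κ0 Λ L M a hd hc hκ hL hM ha ha'
  obtain ⟨C, c1, hC, hc1, h1⟩ := hAN1 d c κ0 (2 * L + 4) (4 * M) hd hc hκ (by linarith)
  obtain ⟨Ce, N0, hCe, h2⟩ := hCORE d L a (by omega) hL ha ha'
  refine ⟨min (a / C) (a / c1), c1 / 8, by positivity, by positivity, fun b hb hb' => ?_⟩
  have b1 : C * b ≤ a := by
    have := (le_div_iff₀ (by positivity)).1 (hb'.trans (min_le_left _ _)); linarith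
  have b2 : c1 * b ≤ a := by
    have := (le_div_iff₀ hc1).1 (hb'.trans (min_le_right _ _)); linarith
  have b3 : 0 < c1 * b := by positivity
  refine Filter.eventually_atTop.1 ?_
  filter_upwards [Filter.eventually_ge_atTop N0, Filter.eventually_ge_atTop 1, ev_T hb (2 * C),
    ev_T hb 5, ev_rpow Ce (by linarith : -a + C / 4 * b < 0),
    ev_rpow (3 * d) (by linarith : -(c1 / 4 * b) < -(c1 / 8 * b)),
    ev_rpow (3 * (2 * d)) (by linarith : -(2 * a) < -(c1 / 8 * b)),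
    ev_rpow (Λ ^ 2 * L) (by linarith : -(2 * a) < 0)] with N n0 n1 n2 n3 n4 n5 n6 n7
  intro m S θ hθ
  have N1 : (1 : ℝ) ≤ N := by exact_mod_cast n1
  have N0' : (0 : ℝ) < N := by linarith
  have ek : ∀ k : ℕ, (N : ℝ) ^ (-(k * a)) = ((N : ℝ) ^ (-a)) ^ k := fun k => by
    rw [← rpow_natCast, ← rpow_mul N0'.le]; congr 1; ring
  have e2 := ek 2
  have e5 := ek 5
  push_cast at e2 e5
  rw [e2] at n6 n7
  rw [rpow_zero] at n4 n7
  rw [rpow_add N0', ← exp_T n1 hb.le] at n4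
  rw [← neg_mul (c1 / 4), ← exp_T n1 hb.le] at n5
  rw [e5, sub_eq_add_neg 1 (c1 / 8 * b), rpow_add N0', rpow_one]
  have u1 : (N : ℝ) ^ (-a) ≤ 1 := rpow_le_one_of_one_le_of_nonpos N1 (by linarith)
  have u0 : 0 < (N : ℝ) ^ (-a) := by positivity
  have w0 : 0 < (N : ℝ) ^ (-(c1 / 8 * b)) := by positivity
  have h3 := fun g1 g2 b B => h2 N n0 m c S θ Unit g1 g2 b B _ rfl
  generalize (N : ℝ) ^ (-a) = u at *
  generalize (N : ℝ) ^ (-(c1 / 8 * b)) = w at *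
  generalize √(b * log N) = T at *
  obtain ⟨G, hG⟩ : ∃ G : (Fin 2 → ℤ) → ℝ, G = fun s =>
    ind (T / 2 ≤ ‖rl (u ^ 4) s‖ ∧ ‖rl (u ^ 4) s‖ ≤ 4 * M * (T / 2)) := ⟨_, rfl⟩
  refine h3 (fun _ _ s => -1 * ∑ i, G (at1 s i)) (fun _ _ _ => 0)
    (fun _ => -(N * w - u ^ 2 * (2 * d * N))) _ ?_ ?_
  · intro g hg
    obtain ⟨-, m1, θ', z, m2, m3, m4, m5⟩ := mem_filter.1 hg
    refine ⟨m1, z, ((hPEN d N m c S θ g).2.2 θ' z _ m2 m3).trans ?_, m4, fun φ hφ _ => ?_⟩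
    · refine (mul_le_mul_of_nonneg_left m4 (sq_nonneg _)).trans ?_
      calc (Λ * u ^ 5) ^ 2 * (L * N) = Λ ^ 2 * L * u ^ 2 * ((u ^ 4) ^ 2 * N) := by ring
        _ ≤ _ := mul_le_of_le_one_left (by positivity) n7
    · have s := sum_le_sum fun h (_ : h ∈ (univ : Finset (Fin N × Fin d))) =>
        CAx.pt M n3 (fun a => z (h, a)) (rl (u ^ 4) fun a => φ (h, a))
      replace m5 : N * w ≤ ∑ h, ind (T < am z h ∧ am z h ≤ M * T) := by
        rw [sum_ind]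
        convert m5
      rw [sum_add_distrib] at s
      rw [Fintype.sum_prod_type] at hφ
      replace s := s.trans (add_le_add le_rfl hφ)
      simp only [← mul_sum, sum_const_zero]
      rw [sum_vst φ G, hG]
      replace s := m5.trans s
      beta_reduce
      linarith
  · intro A η s1 s2 s3 s5
    by_contra hg
    have t1 := s5 ()
    simp only [LL.E_mul, LL.E_sum, LL.E_const, ← mul_sum, sum_const_zero] at t1
    rw [A.mV G] at t1
    have t2 := h1 N m S θ A (u ^ 4) η (Ce * u) (T / 2)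
      ⟨n1, hθ, by positivity, ?_, s1, (not_le.1 hg).le, s2, s3⟩ (by linarith) ?_
    · rw [← hG, show -(c1 * (T / 2) ^ 2) = -(c1 / 4) * T ^ 2 by ring] at t2
      have t3 := mul_le_mul_of_nonneg_left t2 (by positivity : (0 : ℝ) ≤ N * d)
      have t4 := mul_le_mul_of_nonneg_left n5 N0'.le
      have t5 := mul_le_mul_of_nonneg_left n6 N0'.le
      have t6 := mul_pos N0' w0
      linarith
    · calc u ^ 4 ≤ u ^ 1 := pow_le_pow_of_le_one u0.le u1 (by norm_num)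
        _ ≤ _ := by rw [pow_one]; exact le_mul_of_one_le_left u0.le hCe
    · rw [show C * (T / 2) ^ 2 = C / 4 * T ^ 2 by ring, mul_assoc]
      exact n4

end Pool.Agent.P.MP_6b977f_mp.QG
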