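import Pool.Agent.P.MP_6b977f_mp.QG.IfaceA

/-! Statements on random gluings. -/

namespace Pool.Agent.P.MP_6b977f_mp.QG

open Finset MeasureTheory Real Matrix RG
open scoped Classical

/-! ### counting -/

-- deps:
def S_GN : Prop := ∀ (n n' : ℕ) (ι ι' : Type) (Om : Finset ((Fin n → ι → ℤ) × (Fin n' → ι' → ℤ)))
  (w : (Fin n → ι → ℤ) × (Fin n' → ι' → ℤ) → ℝ), Om.Nonempty →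
  ∃ (μ : Fin n → LL ι) (μ' : Fin n' → LL ι') (P : (Fin n → ι → ℤ) × (Fin n' → ι' → ℤ) → ℝ),
    (∀ o ∈ Om, 0 ≤ P o) ∧ ∑ o ∈ Om, P o = 1 ∧
    (∀ x g, (μ x).E g = ∑ o ∈ Om, P o * g (o.1 x)) ∧ (∀ x g, (μ' x).E g = ∑ o ∈ Om, P o * g (o.2 x)) ∧
    log (∑ o ∈ Om, exp (-w o)) ≤ ∑ x, (μ x).H + ∑ x, (μ' x).H - ∑ o ∈ Om, P o * w o

-- deps:
def S_CNT : Prop := ∀ (H H' A : Type) [Fintype H] [Fintype H'] (lab : H → A) (lab' : H' → A),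
  (#(univ.filter fun g : H ≃ H' => ∀ h, lab' (g h) = lab h) : ℝ) ≤
    Fintype.card (H ≃ H') * (exp 1 * Fintype.card H) ^ #(univ.image lab) *
      exp (∑ h, log (#(univ.filter fun h' => lab h' = lab h) / Fintype.card H))

-- deps:
def S_TYP : Prop := ∀ (H : Type) [Fintype H] (R : ℝ), 1 ≤ R →
  ∃ T : Finset ((Fin 2 → ℤ) → ℕ), (#T : ℝ) ≤ exp (40 * R * log (26 * R ^ 2 * (Fintype.card H + 1))) ∧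
    ∀ lab : H → Fin 2 → ℤ, ∑ h, ∑ a, (lab h a : ℝ) ^ 2 ≤ R ^ 2 →
      (#(univ.image lab) : ℝ) ≤ 40 * R ∧ (fun l => #(univ.filter fun h => lab h = l)) ∈ T

-- deps: GN CNT TYP
def S_FM : Prop := ∀ d : ℕ, 1 ≤ d → ∃ C : ℝ, 0 < C ∧ ∀ (N m : ℕ) (R Z Ψ : ℝ) (K : Type)
  (w1 : Fin N → (PI d → ℤ) → ℝ) (w2 : Fin m → (PI 2 → ℤ) → ℝ)
  (g1 : K → Fin N → (PI d → ℤ) → ℝ) (g2 : K → Fin m → (PI 2 → ℤ) → ℝ) (b : K → ℝ)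
  (B : Finset (Glue d N m)) (F : Glue d N m → Finset (HI d N → ℤ)), 1 ≤ N → 1 ≤ R →
  (∀ g ∈ B, (∀ φ ∈ F g, ∑ p, (φ p : ℝ) ^ 2 ≤ R ^ 2 ∧ Con g1 g2 b g φ) ∧
    Z ≤ ∑ φ ∈ F g, exp (-(∑ v, w1 v (vst φ v) + ∑ e, w2 e (est g φ e)))) →
  (∀ A : Fam d N m, A.Con g1 g2 b →
    A.Phi - (∑ v, (A.V v).E (w1 v) + ∑ e, (A.W e).E (w2 e)) ≤ Ψ) →
  #B * Z ≤ Fintype.card (Glue d N m) * exp (Ψ + C * R * log (2 * N * R))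

-- deps:
def S_ALG : Prop := ∀ (d N m : ℕ) (c : ℝ) (S : Sys d N m c) (θ : Fin m → ℝ) (g : Glue d N m),
  S.Xmᵀ = S.Xm ∧ S.Xm * S.Xm = 1 ∧ (Ym θ g)ᵀ = Ym θ g ∧ Ym θ g * Ym θ g = 1 ∧
  ∀ z, z ⬝ᵥ S.Qm θ g *ᵥ z = S.pen θ g z

-- deps:
def S_PEN : Prop := ∀ (d N m : ℕ) (c : ℝ) (S : Sys d N m c) (θ : Fin m → ℝ) (g : Glue d N m),
  (∀ z, 0 ≤ S.pen θ g z ∧ S.pen θ g z ≤ 2 * ∑ p, z p ^ 2) ∧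
  (∀ z z', S.pen θ g z ≤ 2 * S.pen θ g z' + 4 * ∑ p, (z p - z' p) ^ 2) ∧
  ∀ (θ' : Fin m → ℝ) (z : HI d N → ℝ) (τ : ℝ), S.Sol θ' g z → (∀ e, |θ' e - θ e| ≤ τ) →
    S.pen θ g z ≤ τ ^ 2 * ∑ p, z p ^ 2

-- deps: ALG PEN
def S_VOL : Prop := ∀ (d N m : ℕ) (c : ℝ) (S : Sys d N m c) (θ : Fin m → ℝ) (g : Glue d N m)
  (ψ : HI d N → ℝ) (δ η γ ζ z : ℝ), 1 ≤ d → 1 ≤ N → 0 < η → 0 < δ → 2 * δ ≤ ζ → 4 * η ≤ γ * ζ →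
  0 < z → S.pen θ g ψ ≤ δ ^ 2 * N →
  ∃ F : Finset (HI d N → ℤ), (∀ φ ∈ F, ∑ p, (δ * φ p - ψ p) ^ 2 ≤ ζ ^ 2 * (2 * d * N)) ∧
    exp (N * (d * log (2 * π * η ^ 2) - 2 * d * log δ - S.LD θ g γ -
      6 * d * δ ^ 2 / (z * η ^ 2))) / 3 ≤
      ∑ φ ∈ F, exp (-((1 - z) / (2 * η ^ 2) * S.pen θ g (rl δ φ)))

-- deps: FM VOL
def S_KEY : Prop := ∀ d : ℕ, 1 ≤ d → ∃ C : ℝ, 0 < C ∧ ∀ (N m : ℕ) (c : ℝ) (S : Sys d N m c)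
  (θ : Fin m → ℝ) (δ η ζ z R Sb γ0 : ℝ) (K : Type) (g1 : K → Fin N → (PI d → ℤ) → ℝ)
  (g2 : K → Fin m → (PI 2 → ℤ) → ℝ) (b : K → ℝ) (B : Finset (Glue d N m)), 1 ≤ N →
  0 < η → 0 < δ → 2 * δ ≤ ζ → 0 < z → z ≤ 1 / 2 → 1 ≤ R →
  (∀ g ∈ B, ∃ (γ : ℝ) (ψ : HI d N → ℝ), 4 * η ≤ γ * ζ ∧ S.LD θ g γ ≤ Sb ∧ S.pen θ g ψ ≤ δ ^ 2 * N ∧
    ∀ φ : HI d N → ℤ, ∑ p, (δ * φ p - ψ p) ^ 2 ≤ ζ ^ 2 * (2 * d * N) →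
      ∑ p, (φ p : ℝ) ^ 2 ≤ R ^ 2 ∧ Con g1 g2 b g φ) →
  (∀ (A : Fam d N m) (η' : ℝ), 0 < η' → A.Con g1 g2 b → γ0 * N ≤ S.gap θ A δ η') →
  (#B : ℝ) ≤ Fintype.card (Glue d N m) *
    exp (N * (Sb + d * log 2 - γ0 + C * z + C * δ ^ 2 / (z * η ^ 2)) + C * R * log (2 * N * R) + 2)

-- deps: PEN KEY
def S_CORE : Prop := ∀ (d : ℕ) (L a : ℝ), 1 ≤ d → 0 ≤ L → 0 < a → a ≤ 1 / 100 →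
  ∃ (C : ℝ) (N0 : ℕ), 1 ≤ C ∧ ∀ N : ℕ, N0 ≤ N → ∀ (m : ℕ) (c : ℝ) (S : Sys d N m c) (θ : Fin m → ℝ)
  (K : Type) (g1 : K → Fin N → (PI d → ℤ) → ℝ) (g2 : K → Fin m → (PI 2 → ℤ) → ℝ) (b : K → ℝ)
  (B : Finset (Glue d N m)) (u : ℝ), u = (N : ℝ) ^ (-a) →
  (∀ g ∈ B, S.Good θ a g ∧ ∃ ψ : HI d N → ℝ, S.pen θ g ψ ≤ (u ^ 4) ^ 2 * N ∧ ∑ p, ψ p ^ 2 ≤ L * N ∧
    ∀ φ : HI d N → ℤ, ∑ p, (u ^ 4 * φ p - ψ p) ^ 2 ≤ u ^ 2 * (2 * d * N) → Con g1 g2 b g φ) →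
  (∀ (A : Fam d N m) (η : ℝ), 0 < η →
    penS S.vs A.V (u ^ 4) + penS (eds θ) A.W (u ^ 4) ≤ C * u * N →
    A.ν.E (fun s => ‖rl (u ^ 4) s‖ ^ 2) ≤ 2 * L + 4 → A.Con g1 g2 b →
    C * u * N ≤ S.gap θ A (u ^ 4) η) →
  (#B : ℝ) ≤ exp (-(N : ℝ) ^ (1 - a)) * Fintype.card (Glue d N m)

/-! ### the determinant -/

-- deps: ALG
def S_EIG1 : Prop := ∀ (d N m : ℕ) (c : ℝ) (S : Sys d N m c) (θ : Fin m → ℝ) (g : Glue d N m)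
  (s γ : ℝ), 0 < s → s < 1 → γ ^ 2 = (1 - s) ^ 2 / (2 * s) →
  log (S.Qm θ g + γ ^ 2 • 1).det = log (1 - s ^ 2 • (S.Xm * Ym θ g)).det - 2 * N * d * log (2 * s)

-- deps: ALG
def S_EIG2 : Prop := ∀ (d N m : ℕ) (c : ℝ) (S : Sys d N m c) (θ : Fin m → ℝ) (g : Glue d N m),
  ∃ u : Fin N × Fin d → ℂ, (∀ j, ‖u j‖ ≤ 1) ∧ ∀ φ r : ℝ,
    (1 - r • (S.Xm * Ym (fun e => θ e - φ) g)).det = ∏ j, ‖1 - u j * circleMap 0 r φ‖ ^ 2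

-- deps:
def S_JEN : Prop := ∀ (ι : Type) [Fintype ι] (u : ι → ℂ) (r0 r : ℝ), (∀ j, ‖u j‖ ≤ 1) → 0 < r0 →
  r0 < r → r < 1 → CircleIntegrable (fun w => max (-∑ j, log ‖1 - u j * w‖) 0) 0 r ∧
  ∑ j, log ‖1 - u j * r0‖ ≤
    2 / (r - r0) * circleAverage (fun w => max (-∑ j, log ‖1 - u j * w‖) 0) 0 r

-- deps: AN KEY
def S_LOW : Prop := ∀ d : ℕ, 1 ≤ d → ∃ (C : ℝ) (N0 : ℕ), 0 < C ∧ ∀ N : ℕ, N0 ≤ N →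
  ∀ (m : ℕ) (c : ℝ) (S : Sys d N m c) (θ : Fin m → ℝ) (x γ : ℝ), (N : ℝ) ^ (-(1 / 10) : ℝ) ≤ x →
  x ≤ 1 / 2 → x ^ 2 ≤ γ →
  (#(univ.filter fun g : Glue d N m => S.LD θ g γ ≤ -(d * log 2) - C * x) : ℝ) ≤
    exp (-(x * N)) * Fintype.card (Glue d N m)

-- deps: EIG1 EIG2 JEN LOW
def S_DET : Prop := ∀ d : ℕ, 1 ≤ d → ∃ N0 : ℕ, ∀ N : ℕ, N0 ≤ N →
  ∀ (m : ℕ) (c : ℝ) (S : Sys d N m c) (θ : Fin m → ℝ),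
  (#(univ.filter fun g : Glue d N m => ¬ S.Good θ (1 / 100) g) : ℝ) ≤
    (N : ℝ) ^ (-(6 / 100) : ℝ) * Fintype.card (Glue d N m)

/-! ### expansion -/

-- deps:
def S_FIB : Prop := ∀ (d N m : ℕ) (P : Cfg d N → Prop) (ε : ℝ),
  (#((Cf d N).filter P) : ℝ) ≤ ε * #(Cf d N) →
  (#(univ.filter fun g : Glue d N m => P (cfg g)) : ℝ) ≤ ε * Fintype.card (Glue d N m)

-- deps: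
def S_MASS : Prop := ∀ (d : ℕ) (c p : ℝ), 0 < c → 1 ≤ p → p < 2 → ∃ e0 C : ℝ, 0 < e0 ∧ 1 ≤ C ∧
  ∀ (N m : ℕ) (S : Sys d N m c) (θ : Fin m → ℝ) (g : Glue d N m) (z : HI d N → ℝ) (t d0 : ℝ),
  Sparse (cfg g) e0 d0 → S.Sol θ g z → 0 < t → (d + 1) * nv z t ≤ d0 * N →
  ∑ h ∈ univ.filter fun h => t < am z h, am z h ^ p ≤ C * t ^ p * nv z t

-- deps:
def S_NB : Prop := ∀ (d N : ℕ) (z : HI d N → ℝ) (t C L p : ℝ), 0 < t → 0 < C →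
  (∑ h ∈ univ.filter fun h => t < am z h, am z h ≤ C * t * nv z t →
    nv z t ≤ 2 * #(univ.filter fun h => t < am z h ∧ am z h ≤ 2 * C * t)) ∧
  nv z t * t ^ 2 ≤ ∑ q, z q ^ 2 ∧
  (∑ q, z q ^ 2 ≤ L → p ≤ 2 → ∑ h, max (am z h - t) 0 ^ 2 ≤
    L ^ (1 - p / 2) * ∑ h ∈ univ.filter fun h => t < am z h, am z h ^ p)

/-! ### one edge -/

-- deps:
def S_KM : Prop := ∀ k l : ℝ, 0 ≤ l →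
  (∀ z, sq1 k l z = ∑ a, ∑ b, Km k l a b * (z a * z b)) ∧ ∑ a, Km k l a a = l ∧
  (∀ a b, |Km k l a b| ≤ l) ∧ (∀ k' a b, |Km k l a b - Km k' l a b| ≤ 2 * l ^ 2 * |k - k'|) ∧
  (2 ≤ k → 1 ≤ l → ∀ z, ∑ a, z a ^ 2 ≤ 4 * sq1 k l z)

-- deps:
def S_CH : Prop := ∀ k l s t : ℝ, 0 ≤ l →
  (∀ (k' s' t' : ℝ) (z z' : Fin 2 → ℝ), ‖ch1 k l s t z - ch1 k' l s' t' z'‖ ≤
    2 * l * ((|s| + |t|) * (‖z - z'‖ + l * |k - k'| * ‖z‖) + (|s - s'| + |t - t'|) * ‖z'‖)) ∧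
  ∀ (μ : LL (PI 2)) (δ R r : ℝ), |s| + |t| ≤ R →
    (∀ ξ : Fin 2 → ℝ, ‖ξ‖ ≤ R → ‖μ.ch0 δ ξ - (exp (-(∑ a, ξ a ^ 2) / 2) : ℝ)‖ ≤ r) →
    ‖∑ x ∈ μ.A, (μ.p x : ℂ) * ch1 k l s t (rl δ (at1 x 0)) - (l * exp (-(s ^ 2 + t ^ 2) / 2) : ℝ)‖ ≤
      l * r

-- deps:
def S_ODE : Prop := ∀ (f : ℝ → ℝ) (k l : ℝ), 0 < k → ContDiff ℝ 2 f →
  (∀ x ∈ Set.Icc 0 l, deriv (deriv f) x = -k ^ 2 * f x) → ∀ x ∈ Set.Icc 0 l,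
  f x = f0 k ![f 0, deriv f 0 / k] x ∧ deriv f x / k = f1 k ![f 0, deriv f 0 / k] x

/-! ### assembly -/

-- deps: KM
def S_NRM : Prop := ∀ (d N m : ℕ) (c : ℝ) (S : Sys d N m c) (L : Fin m → ℝ) (k Λ : ℝ)
  (g : Glue d N m) (z : HI d N → ℝ), (∀ e, 1 ≤ L e ∧ L e ≤ Λ) → 0 ≤ Λ → 2 ≤ k → S.Eig L k g z →
  ∑ p, z p ^ 2 ≤ 4 * Λ * d * N

-- deps: AN1 PEN CORE
def S_CA : Prop := ∀ (d : ℕ) (c κ0 Λ L M a : ℝ), 3 ≤ d → 0 < c → 0 < κ0 → 0 ≤ L → 1 ≤ M → 0 < a →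
  a ≤ 1 / 100 → ∃ c0 c1 : ℝ, 0 < c0 ∧ 0 < c1 ∧ ∀ b : ℝ, 0 < b → b ≤ c0 → ∃ N0 : ℕ, ∀ N : ℕ, N0 ≤ N →
  ∀ (m : ℕ) (S : Sys d N m c) (θ : Fin m → ℝ), κ0 * m ≤ ∑ e, sin (θ e) ^ 2 →
  (#(univ.filter fun g : Glue d N m => S.Good θ a g ∧ ∃ (θ' : Fin m → ℝ) (z : HI d N → ℝ),
    S.Sol θ' g z ∧ (∀ e, |θ' e - θ e| ≤ Λ * (N : ℝ) ^ (-(5 * a))) ∧ ∑ p, z p ^ 2 ≤ L * N ∧
      (N : ℝ) ^ (1 - c1 * b) ≤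
        #(univ.filter fun h => √(b * log N) < am z h ∧ am z h ≤ M * √(b * log N))) : ℝ) ≤
    exp (-(N : ℝ) ^ (1 - a)) * Fintype.card (Glue d N m)

-- deps: AN2 PEN CORE KM CH NRM
def S_CB : Prop := ∀ (d : ℕ) (c κ0 Λ a : ℝ), 3 ≤ d → 0 < c → 0 < κ0 → 1 ≤ Λ → 0 < a → a ≤ 1 / 100 →
  ∃ c0 : ℝ, 0 < c0 ∧ ∀ b R ε : ℝ, 0 < b → b ≤ c0 → 0 < ε → ∃ (s0 : ℝ) (N0 : ℕ), 0 < s0 ∧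
  ∀ N : ℕ, N0 ≤ N → ∀ (m : ℕ) (S : Sys d N m c) (L : Fin m → ℝ) (k0 s t : ℝ) (w : ℂ),
  (∀ e, 1 ≤ L e ∧ L e ≤ Λ) → κ0 * m ≤ ∑ e, sin (k0 * L e) ^ 2 → |s| + |t| ≤ R → ‖w‖ ≤ 1 →
  (#(univ.filter fun g : Glue d N m => S.Good (fun e => k0 * L e) a g ∧
    ∃ (k : ℝ) (z : HI d N → ℝ), 2 ≤ k ∧ S.Eig L k g z ∧ |k - k0| ≤ (N : ℝ) ^ (-(5 * a)) ∧
      ∑ h, max (am z h - √(b * log N)) 0 ^ 2 ≤ s0 * N ∧ ε ≤ (w * dch L k0 s t g z).re) : ℝ) ≤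
    exp (-(N : ℝ) ^ (1 - a)) * Fintype.card (Glue d N m)

-- deps: CH
def S_NET : Prop := ∀ Λ M R ε : ℝ, 0 < ε → ∃ (τ : ℝ) (T : Finset (ℝ × ℝ × ℂ)), 0 < τ ∧
  (∀ p ∈ T, |p.1| + |p.2.1| ≤ R ∧ ‖p.2.2‖ ≤ 1) ∧
  ∀ (d N m : ℕ) (L : Fin m → ℝ) (k k0 s t : ℝ) (g : Glue d N m) (z : HI d N → ℝ), 1 ≤ m →
    (∀ e, 1 ≤ L e ∧ L e ≤ Λ) → ∑ p, z p ^ 2 ≤ M * m → |k - k0| ≤ τ → |s| + |t| ≤ R →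
    ε < ‖dch L k s t g z‖ → ∃ p ∈ T, ε / 4 ≤ (p.2.2 * dch L k0 p.1 p.2.1 g z).re

-- deps: DET FIB MASS NB NRM CA CB NET
def S_CONF : Prop := ∀ (d : ℕ) (c κ Λ W R ε : ℝ), 3 ≤ d → 0 < c → 0 < κ → 0 < ε →
  ∃ N0 : ℕ, ∀ N : ℕ, N0 ≤ N → ∀ (m : ℕ) (S : Sys d N m c) (L : Fin m → ℝ) (K : ℝ),
  (∀ e, 1 ≤ L e ∧ L e ≤ Λ) → 2 ≤ K →
  (#(univ.filter fun g : Glue d N m => ¬ S.BerryZ L K W κ R ε g) : ℝ) ≤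
    ε * Fintype.card (Glue d N m)

-- deps: ODE
def S_TR : Prop := ∀ (d N m : ℕ) (c : ℝ) (S : Sys d N m c) (L : Fin m → ℝ) (K W κ R ε : ℝ)
  (g : Glue d N m), (∀ e, 0 ≤ L e) → 0 < K → S.BerryZ L K W κ R ε g → Berry S.σ L K W κ R ε g

-- deps: CONF TR
def S_MAIN : Prop := ∀ (d : ℕ) (c κ Λ W R ε : ℝ), 3 ≤ d → 0 < c → 0 < κ → 0 < ε →
  ∃ N0 : ℕ, ∀ N : ℕ, N0 ≤ N → ∀ (m : ℕ) (σ : Fin N → Matrix (Fin d) (Fin d) ℝ) (L : Fin m → ℝ)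
  (K : ℝ), 2 * m = d * N → (∀ v, NoBack c (σ v)) → (∀ e, 1 ≤ L e ∧ L e ≤ Λ) → 2 ≤ K →
  (#(univ.filter fun g : Glue d N m => ¬ Berry σ L K W κ R ε g) : ℝ) ≤
    ε * Fintype.card (Glue d N m)

end Pool.Agent.P.MP_6b977f_mp.QG
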