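import Pool.Agent.P.MP_6b977f_mp.QG.IfaceB
import Pool.Agent.P.MP_6b977f_mp.QG.IfaceA
import Pool.Agent.P.MP_6b977f_mp.RG.LibK

/-! Step CB. -/

namespace Pool.Agent.P.MP_6b977f_mp.QG

open Finset MeasureTheory Real Matrix RG Filter
open scoped Classical

namespace CBx

theorem re_le {w z : ℂ} (hw : ‖w‖ ≤ 1) : (w * z).re ≤ ‖z‖ :=
  (Complex.re_le_norm _).trans (by
    rw [norm_mul]; exact mul_le_of_le_one_left (norm_nonneg _) hw)

theorem heavy {d N : ℕ} (f z : HI d N → ℝ) (T : ℝ) (h : Fin N × Fin d) :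
    max (‖fun a => f (h, a)‖ - T) 0 ^ 2 ≤
      2 * max (am z h - T) 0 ^ 2 + 2 * ∑ a, (f (h, a) - z (h, a)) ^ 2 := by
  have h1 : ‖fun a => z (h, a)‖ ≤ am z h := by
    refine (le_abs_self _).trans (abs_le_sqrt ?_)
    simpa using norm_sq_le fun a => z (h, a)
  have h2 := norm_sq_le fun a => f (h, a) - z (h, a)
  have h3 : ‖fun a => f (h, a)‖ ≤ ‖fun a => z (h, a)‖ + ‖fun a => f (h, a) - z (h, a)‖ := by
    refine le_trans (le_of_eq ?_) (norm_add_le _ _)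
    congr 1
    funext a
    simp
  have h4 := norm_nonneg fun a => f (h, a) - z (h, a)
  generalize ‖fun a => f (h, a) - z (h, a)‖ = D at *
  have h5 : max (‖fun a => f (h, a)‖ - T) 0 ≤ max (am z h - T) 0 + D :=
    max_le (by linarith [le_max_left (am z h - T) 0]) (by positivity)
  have := pow_le_pow_left₀ (le_max_right _ _) h5 2
  nlinarith [sq_nonneg (max (am z h - T) 0 - D)]

theorem sum_e {d N m : ℕ} (g : Glue d N m) (z : HI d N → ℝ) :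
    ∑ e, ‖at1 (est g z e) 0‖ ^ 2 ≤ ∑ p, z p ^ 2 := by
  rw [Fintype.sum_prod_type, ← sum_est g z fun x => ∑ a, x a ^ 2]
  refine sum_le_sum fun e _ => (norm_sq_le _).trans ?_
  rw [Fin.sum_univ_two (f := fun i => ∑ a, at1 (est g z e) i a ^ 2)]
  exact le_add_of_nonneg_right (by positivity)

theorem sum_e' {d N m : ℕ} (g : Glue d N m) (δ : ℝ) (φ : HI d N → ℤ) (z : HI d N → ℝ) :
    ∑ e, ‖rl δ (at1 (est g φ e) 0) - at1 (est g z e) 0‖ ^ 2 ≤ ∑ p, (δ * φ p - z p) ^ 2 := by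
  have e : ∀ e, rl δ (at1 (est g φ e) 0) - at1 (est g z e) 0 =
      at1 (est g (fun p => δ * φ p - z p) e) 0 := fun e => funext fun a => rfl
  simp only [e]
  exact sum_e g _

theorem quad {K K' : Fin 2 → Fin 2 → ℝ} {Λ ρ u : ℝ} (hK : ∀ a b, |K a b| ≤ Λ)
    (hK' : ∀ a b, |K' a b - K a b| ≤ ρ) (hu : 0 < u) (hu1 : u ≤ 1) (f z : Fin 2 → ℝ) :
    u * |∑ a, ∑ b, K a b * (f a * f b) - ∑ a, ∑ b, K' a b * (z a * z b)| ≤
      8 * Λ * ‖f - z‖ ^ 2 + (4 * Λ * u ^ 2 + 4 * ρ * u) * ‖z‖ ^ 2 := by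
  have L0 : 0 ≤ Λ := (abs_nonneg _).trans (hK 0 0)
  have r0 : 0 ≤ ρ := (abs_nonneg _).trans (hK' 0 0)
  have n1 := norm_nonneg (f - z)
  have n2 := norm_nonneg z
  have k : ∀ a b, |K a b * (f a * f b) - K' a b * (z a * z b)| ≤
      Λ * (‖f - z‖ ^ 2 + 2 * (‖z‖ * ‖f - z‖)) + ρ * ‖z‖ ^ 2 := fun a b => by
    have a1 : |f a - z a| ≤ ‖f - z‖ := norm_le_pi_norm (f - z) a
    have a2 : |f b - z b| ≤ ‖f - z‖ := norm_le_pi_norm (f - z) b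
    have a3 : |z a| ≤ ‖z‖ := norm_le_pi_norm z a
    have a4 : |z b| ≤ ‖z‖ := norm_le_pi_norm z b
    have e : K a b * (f a * f b) - K' a b * (z a * z b) =
        K a b * ((f a - z a) * (f b - z b) + z a * (f b - z b) + z b * (f a - z a)) -
          (K' a b - K a b) * (z a * z b) := by ring
    rw [e]
    refine (abs_sub _ _).trans (add_le_add ?_ ?_)
    · rw [abs_mul]
      refine mul_le_mul (hK a b) ((abs_add_three _ _ _).trans ?_) (abs_nonneg _) L0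
      rw [abs_mul, abs_mul, abs_mul]
      nlinarith [mul_le_mul a1 a2 (abs_nonneg _) n1, mul_le_mul a3 a2 (abs_nonneg _) n2,
        mul_le_mul a4 a1 (abs_nonneg _) n2]
    · rw [abs_mul, abs_mul, sq]
      exact mul_le_mul (hK' a b) (mul_le_mul a3 a4 (abs_nonneg _) n2) (by positivity) r0
  have h : |∑ a, ∑ b, K a b * (f a * f b) - ∑ a, ∑ b, K' a b * (z a * z b)| ≤
      4 * (Λ * (‖f - z‖ ^ 2 + 2 * (‖z‖ * ‖f - z‖)) + ρ * ‖z‖ ^ 2) := by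
    simp only [Fin.sum_univ_two]
    have := abs_le.1 (k 0 0)
    have := abs_le.1 (k 0 1)
    have := abs_le.1 (k 1 0)
    have := abs_le.1 (k 1 1)
    rw [abs_le]
    constructor <;> linarith
  refine (mul_le_mul_of_nonneg_left h hu.le).trans ?_
  generalize ‖f - z‖ = D at *
  generalize ‖z‖ = Z at *
  nlinarith [mul_nonneg L0 (sq_nonneg (u * Z - D)),
    mul_nonneg (mul_nonneg L0 (sq_nonneg D)) (sub_nonneg.2 hu1)]

theorem ar1 {u x y Λ R D : ℝ} (u0 : 0 < u) (hD : 0 ≤ D) (h0 : 0 ≤ 2 * Λ * R)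
    (h : x - y ≤ 2 * Λ * (R * D)) : u * x ≤ u * y + 2 * Λ * R * (u ^ 2 + D ^ 2) := by
  have a4 : u * D ≤ u ^ 2 + D ^ 2 := by nlinarith [sq_nonneg (u - D), mul_nonneg u0.le hD]
  nlinarith [mul_le_mul_of_nonneg_left h u0.le, mul_le_mul_of_nonneg_left a4 h0]

section
variable {d N m : ℕ} {g : Glue d N m} {L : Fin m → ℝ} {Λ u k k0 : ℝ} {z : HI d N → ℝ}
  {φ : HI d N → ℤ}

theorem con0 {T s1 : ℝ} (d3 : (3 : ℝ) ≤ d) (u0 : 0 < u) (u1 : u ≤ 1) (hs1 : 0 < s1)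
    (n5 : 8 * u ≤ s1) (m4 : ∑ h, max (am z h - T) 0 ^ 2 ≤ s1 / 4 * N)
    (hφ : ∑ p, (u ^ 4 * φ p - z p) ^ 2 ≤ u ^ 2 * (2 * d * N)) :
    ∑ v, ∑ i, max (‖rl (u ^ 4) (at1 (vst φ v) i)‖ - T) 0 ^ 2 ≤ s1 * (N * d) := by
  have e := sum_vst (rl (u ^ 4) φ) fun x => max (‖x‖ - T) 0 ^ 2
  refine (le_of_eq e).trans ((sum_le_sum fun h _ => heavy _ z T h).trans ?_)
  rw [sum_add_distrib, ← mul_sum, ← mul_sum,
    ← Fintype.sum_prod_type (f := fun p : HI d N => (rl (u ^ 4) φ p - z p) ^ 2)]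
  have a1 : ∑ p : HI d N, (rl (u ^ 4) φ p - z p) ^ 2 ≤ u * (2 * d * N) :=
    hφ.trans (mul_le_mul_of_nonneg_right (by nlinarith) (by positivity))
  nlinarith [mul_le_mul_of_nonneg_right n5 (by positivity : (0 : ℝ) ≤ d * N),
    mul_le_mul_of_nonneg_left d3 (by positivity : (0 : ℝ) ≤ s1 * N),
    (by positivity : (0 : ℝ) ≤ s1 * N)]

theorem con1 (hKM : S_KM) {M s1 : ℝ} (hL : ∀ e, 1 ≤ L e ∧ L e ≤ Λ) (hΛ : 1 ≤ Λ) (u0 : 0 < u)
    (u1 : u ≤ 1) (hs1 : 0 < s1) (mN : (N : ℝ) ≤ m)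
    (n8 : (16 * Λ * d + (4 * Λ + 8 * Λ ^ 2) * M) * u ≤ s1) (m3 : |k - k0| ≤ u ^ 5)
    (m2 : ∑ e, sq1 k (L e) (at1 (est g z e) 0) = ∑ e, L e) (z2 : ∑ p, z p ^ 2 ≤ M * N)
    (hφ : ∑ p, (u ^ 4 * φ p - z p) ^ 2 ≤ u ^ 2 * (2 * d * N)) :
    |∑ e, ∑ a, ∑ b, Km k0 (L e) a b *
      (rl (u ^ 4) (at1 (est g φ e) 0) a * rl (u ^ 4) (at1 (est g φ e) 0) b) - ∑ e, L e| ≤
        s1 * m := by
  have L0 : ∀ e, 0 ≤ L e := fun e => by linarith [(hL e).1]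
  have D2 := (sum_e' g _ φ z).trans hφ
  have Z2 := (sum_e g z).trans z2
  have u5 : u ^ 5 ≤ u := by
    simpa using pow_le_pow_of_le_one u0.le u1 (by norm_num : 1 ≤ 5)
  have k1 := fun e => quad (fun a b => ((hKM k0 (L e) (L0 e)).2.2.1 a b).trans (hL e).2)
    (K' := Km k (L e)) (ρ := 2 * Λ ^ 2 * u)
    (fun a b => ((hKM k (L e) (L0 e)).2.2.2.1 k0 a b).trans (by
      have := (hL e).2
      have := L0 e
      have := m3.trans u5
      gcongr)) u0 u1 (rl (u ^ 4) (at1 (est g φ e) 0)) (at1 (est g z e) 0)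
  have k2 := sum_le_sum fun e (_ : e ∈ univ) => k1 e
  rw [sum_add_distrib, ← mul_sum, ← mul_sum, ← mul_sum] at k2
  rw [← m2, ← sum_sub_distrib]
  simp only [fun e => (hKM k (L e) (L0 e)).1]
  refine (abs_sum_le_sum_abs _ _).trans (le_of_mul_le_mul_left (k2.trans ?_) u0)
  have a1 := mul_le_mul_of_nonneg_left D2 (by positivity : 0 ≤ 8 * Λ)
  have a2 := mul_le_mul_of_nonneg_left Z2
    (by positivity : 0 ≤ 4 * Λ * u ^ 2 + 4 * (2 * Λ ^ 2 * u) * u)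
  have a3 := mul_le_mul_of_nonneg_left (mul_le_mul n8 mN (Nat.cast_nonneg N) hs1.le) u0.le
  linarith

theorem con3 (hCH : S_CH) {s t R ε : ℝ} {w : ℂ} (hL : ∀ e, 1 ≤ L e ∧ L e ≤ Λ) (hΛ : 1 ≤ Λ)
    (u0 : 0 < u) (hε : 0 < ε) (hR : |s| + |t| ≤ R) (hw : ‖w‖ ≤ 1) (hm : 2 * (m : ℝ) = d * N)
    (m0 : (0 : ℝ) < m) (hG : (m : ℝ) ≤ ∑ e, L e) (n6 : 40 * Λ * R * u ≤ ε)
    (m5 : ε ≤ (w * dch L k0 s t g z).re)
    (hφ : ∑ p, (u ^ 4 * φ p - z p) ^ 2 ≤ u ^ 2 * (2 * d * N)) :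
    (∑ e, L e) * (3 * ε / 4 + (w * (exp (-(s ^ 2 + t ^ 2) / 2) : ℝ)).re) ≤
      ∑ e, (w * ch1 k0 (L e) s t (rl (u ^ 4) (at1 (est g φ e) 0))).re := by
  have L0 : ∀ e, 0 ≤ L e := fun e => by linarith [(hL e).1]
  have R0 : 0 ≤ R := le_trans (by positivity) hR
  have D2 := (sum_e' g _ φ z).trans hφ
  have k1 : ∀ e, u * (w * ch1 k0 (L e) s t (at1 (est g z e) 0)).re ≤
      u * (w * ch1 k0 (L e) s t (rl (u ^ 4) (at1 (est g φ e) 0))).re + 2 * Λ * R *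
        (u ^ 2 + ‖rl (u ^ 4) (at1 (est g φ e) 0) - at1 (est g z e) 0‖ ^ 2) := fun e => by
    have a1 := (re_le hw).trans ((hCH k0 (L e) s t (L0 e)).1 k0 s t (at1 (est g z e) 0)
      (rl (u ^ 4) (at1 (est g φ e) 0)))
    rw [mul_sub, Complex.sub_re, norm_sub_rev] at a1
    simp only [sub_self, abs_zero, mul_zero, zero_mul, add_zero] at a1
    refine ar1 u0 (norm_nonneg _) (by positivity) (a1.trans ?_)
    have := (hL e).2
    have := L0 e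
    gcongr
  have k2 := sum_le_sum fun e (_ : e ∈ univ) => k1 e
  rw [sum_add_distrib, ← mul_sum, ← mul_sum, ← mul_sum, sum_add_distrib] at k2
  simp only [sum_const, card_univ, Fintype.card_fin, nsmul_eq_mul] at k2
  have G0 : 0 < ∑ e, L e := by linarith
  rw [dch, mul_sub, Complex.sub_re, ← mul_div_assoc, mul_sum, Complex.div_ofReal_re,
    Complex.re_sum, le_sub_iff_add_le, le_div_iff₀ G0] at m5
  have a1 := mul_le_mul_of_nonneg_left D2 (by positivity : 0 ≤ 2 * Λ * R)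
  have a2 : u * (40 * Λ * R * u * m) ≤ u * (ε * ∑ e, L e) :=
    mul_le_mul_of_nonneg_left (mul_le_mul n6 hG (by positivity) hε.le) u0.le
  have a3 := mul_le_mul_of_nonneg_left m5 u0.le
  have a4 : 2 * Λ * R * (u ^ 2 * (2 * d * N)) = 8 * Λ * R * u ^ 2 * m := by
    linear_combination (-4 * Λ * R * u ^ 2) * hm
  refine le_of_mul_le_mul_left ?_ u0
  linarith

theorem last (hCH : S_CH) {s t R ε δ : ℝ} {w : ℂ} (hL : ∀ e, 1 ≤ L e ∧ L e ≤ Λ) (hΛ : 1 ≤ Λ)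
    (hR : |s| + |t| ≤ R) (hw : ‖w‖ ≤ 1) (W : Fin m → LL (PI 2)) {r : Fin m → ℝ}
    (r1 : ∑ e, r e ≤ ε / (4 * Λ) * m) (r2 : ∀ (e : Fin m) (ξ : Fin 2 → ℝ), ‖ξ‖ ≤ R →
      ‖(W e).ch0 δ ξ - (exp (-(∑ a, ξ a ^ 2) / 2) : ℝ)‖ ≤ r e) :
    ∑ e, (W e).E (fun z => (w * ch1 k0 (L e) s t (rl δ (at1 z 0))).re) ≤
      (∑ e, L e) * (w * (exp (-(s ^ 2 + t ^ 2) / 2) : ℝ)).re + ε / 4 * m := by
  have L0 : ∀ e, 0 ≤ L e := fun e => by linarith [(hL e).1]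
  have R0 : 0 ≤ R := le_trans (by positivity) hR
  have k1 : ∀ e, (W e).E (fun z => (w * ch1 k0 (L e) s t (rl δ (at1 z 0))).re) ≤
      L e * (w * (exp (-(s ^ 2 + t ^ 2) / 2) : ℝ)).re + Λ * r e := fun e => by
    have a1 := (re_le hw).trans ((hCH k0 (L e) s t (L0 e)).2 (W e) δ R (r e) hR (r2 e))
    have a2 : 0 ≤ r e := (norm_nonneg _).trans (r2 e 0 (by simpa using R0))
    have a3 : (W e).E (fun z => (w * ch1 k0 (L e) s t (rl δ (at1 z 0))).re) =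
        (w * ∑ x ∈ (W e).A, ((W e).p x : ℂ) * ch1 k0 (L e) s t (rl δ (at1 x 0))).re := by
      simp only [LL.E, mul_sum, Complex.re_sum]
      refine sum_congr rfl fun z _ => ?_
      rw [mul_left_comm, Complex.re_ofReal_mul]
    rw [mul_sub, Complex.sub_re, ← a3, Complex.ofReal_mul, mul_left_comm,
      Complex.re_ofReal_mul] at a1
    linarith [mul_le_mul_of_nonneg_right (hL e).2 a2]
  have k2 := sum_le_sum fun e (_ : e ∈ univ) => k1 e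
  rw [sum_add_distrib, ← sum_mul, ← mul_sum] at k2
  have k3 : Λ * ∑ e, r e ≤ ε / 4 * m := by
    refine (mul_le_mul_of_nonneg_left r1 (by linarith)).trans (le_of_eq ?_)
    field_simp
  linarith

end

end CBx

theorem p_CB (hAN2 : S_AN2) (hPEN : S_PEN) (hCORE : S_CORE) (hKM : S_KM) (hCH : S_CH) (hNRM : S_NRM) :
    S_CB := by
  intro d c κ0 Λ a hd hc hκ hΛ ha ha'
  have d3 : (3 : ℝ) ≤ d := by exact_mod_cast hd
  obtain ⟨M, hM⟩ : ∃ M : ℝ, M = 4 * Λ * d := ⟨_, rfl⟩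
  have M0 : 0 ≤ M := by rw [hM]; positivity
  obtain ⟨C, hC, h1⟩ := hAN2 d c κ0 (2 * M + 4) Λ hd hc hκ
  obtain ⟨Ce, N1, hCe, h2⟩ := hCORE d M a (by omega) M0 ha ha'
  refine ⟨a / (2 * C), by positivity, fun b R ε hb hb' hε => ?_⟩
  obtain ⟨s1, hs1, h1⟩ := h1 R (ε / (4 * Λ)) (by positivity)
  have b1 : C * b ≤ a / 2 := by
    have := (le_div_iff₀ (by positivity)).1 hb'; linarith
  suffices h : ∀ᶠ N : ℕ in atTop, _ by
    obtain ⟨N0, h⟩ := eventually_atTop.1 h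
    exact ⟨s1 / 4, N0, by positivity, h⟩
  filter_upwards [eventually_ge_atTop N1, eventually_ge_atTop 1, ev_T hb (1 / s1),
    ev_rpow Ce (by linarith : -a + C * b < 0), ev_rpow (8 / s1) (by linarith : -a < 0),
    ev_rpow (40 * Λ * R / ε) (by linarith : -a < 0),
    ev_rpow (Λ ^ 2 * M) (by linarith : -a < 0),
    ev_rpow ((16 * Λ * d + (4 * Λ + 8 * Λ ^ 2) * M) / s1) (by linarith : -a < 0)] with
    N n0 n1 n2 n4 n5 n6 n7 n8
  intro m S L k0 s t w hL hκ0 hR hw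
  have N1' : (1 : ℝ) ≤ N := by exact_mod_cast n1
  have N0 : (0 : ℝ) < N := by linarith
  have hm : 2 * (m : ℝ) = d * N := by exact_mod_cast S.hm
  have mN : (N : ℝ) ≤ m := by nlinarith
  have u1 : (N : ℝ) ^ (-a) ≤ 1 := rpow_le_one_of_one_le_of_nonpos N1' (by linarith)
  have u0 : 0 < (N : ℝ) ^ (-a) := by positivity
  have R0 : 0 ≤ R := le_trans (by positivity) hR
  have n4' : Ce * (N : ℝ) ^ (-a) * exp (C * √(b * log N) ^ 2) ≤ 1 := by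
    rw [exp_T n1 hb.le, mul_assoc, ← rpow_add N0]
    simpa using n4
  have e5 : (N : ℝ) ^ (-(5 * a)) = ((N : ℝ) ^ (-a)) ^ 5 := by
    rw [← rpow_natCast, ← rpow_mul N0.le]; congr 1; push_cast; ring
  rw [rpow_zero, div_mul_eq_mul_div, div_le_one (by positivity)] at n5 n6 n8
  rw [rpow_zero] at n7
  have hG : (m : ℝ) ≤ ∑ e, L e := by
    simpa using sum_le_sum fun e (_ : e ∈ univ) => (hL e).1
  have L0 : ∀ e, 0 ≤ L e := fun e => by linarith [(hL e).1]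
  have hK : ∀ k e a b, |Km k (L e) a b| ≤ Λ := fun k e a b =>
    ((hKM k (L e) (L0 e)).2.2.1 a b).trans (hL e).2
  rw [e5]
  have h3 := h2 N n0 m c S (fun e => k0 * L e) (Fin 4)
  generalize √(b * log N) = T at *
  generalize hu : (N : ℝ) ^ (-a) = u at *
  refine h3 ![fun _ z => ∑ i, max (‖rl (u ^ 4) (at1 z i)‖ - T) 0 ^ 2, fun _ _ => 0, fun _ _ => 0,
      fun _ _ => 0]
    ![fun _ _ => 0,
      fun e z => ∑ a, ∑ b, Km k0 (L e) a b * (rl (u ^ 4) (at1 z 0) a * rl (u ^ 4) (at1 z 0) b),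
      fun e z => -1 * ∑ a, ∑ b, Km k0 (L e) a b * (rl (u ^ 4) (at1 z 0) a * rl (u ^ 4) (at1 z 0) b),
      fun e z => -1 * (w * ch1 k0 (L e) s t (rl (u ^ 4) (at1 z 0))).re]
    ![s1 * (N * d), ∑ e, L e + s1 * m, -(∑ e, L e - s1 * m),
      -((∑ e, L e) * (3 * ε / 4 + (w * (exp (-(s ^ 2 + t ^ 2) / 2) : ℝ)).re))] _ u rfl ?_ ?_
  · intro g hg
    obtain ⟨-, m1, k, z, k2, m2, m3, m4, m5⟩ := mem_filter.1 hg
    have z2 : ∑ p, z p ^ 2 ≤ M * N := hM ▸ hNRM d N m c S L k Λ g z hL (by linarith) k2 m2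
    have u2 : u ^ 2 ≤ u := by nlinarith
    refine ⟨m1, z, ?_, z2, fun φ hφ => ?_⟩
    · refine ((hPEN d N m c S _ g).2.2 _ z (Λ * u ^ 5) m2.1 fun e => ?_).trans ?_
      · rw [← sub_mul, abs_mul, abs_of_nonneg (L0 e), mul_comm]
        exact mul_le_mul (hL e).2 m3 (abs_nonneg _) (by linarith)
      · calc (Λ * u ^ 5) ^ 2 * ∑ p, z p ^ 2 ≤ (Λ * u ^ 5) ^ 2 * (M * N) :=
              mul_le_mul_of_nonneg_left z2 (sq_nonneg _)
          _ = (u ^ 4) ^ 2 * N * (Λ ^ 2 * M * u ^ 2) := by ring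
          _ ≤ _ := mul_le_of_le_one_right (by positivity)
              ((mul_le_mul_of_nonneg_left u2 (by positivity)).trans n7)
    have hq := abs_le.1 (CBx.con1 hKM hL hΛ u0 u1 hs1 mN n8 m3 m2.2 z2 hφ)
    have h0 := CBx.con0 d3 u0 u1 hs1 n5 m4 hφ
    have h4 := CBx.con3 hCH hL hΛ u0 hε hR hw hm (by linarith) hG n6 m5 hφ
    intro j
    fin_cases j
    · change ∑ v, ∑ i, max (‖rl (u ^ 4) (at1 (vst φ v) i)‖ - T) 0 ^ 2 + ∑ _e, (0 : ℝ) ≤ s1 * (N * d)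
      rw [sum_const_zero]
      linarith
    · change ∑ _v, (0 : ℝ) + ∑ e, ∑ a, ∑ b, Km k0 (L e) a b * (rl (u ^ 4) (at1 (est g φ e) 0) a *
        rl (u ^ 4) (at1 (est g φ e) 0) b) ≤ ∑ e, L e + s1 * m
      rw [sum_const_zero]
      linarith [hq.2]
    · change ∑ _v, (0 : ℝ) + ∑ e, -1 * ∑ a, ∑ b, Km k0 (L e) a b *
        (rl (u ^ 4) (at1 (est g φ e) 0) a * rl (u ^ 4) (at1 (est g φ e) 0) b) ≤ -(∑ e, L e - s1 * m)
      rw [sum_const_zero, ← mul_sum]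
      linarith [hq.1]
    · change ∑ _v, (0 : ℝ) + ∑ e, -1 * (w * ch1 k0 (L e) s t (rl (u ^ 4) (at1 (est g φ e) 0))).re ≤
        -((∑ e, L e) * (3 * ε / 4 + (w * (exp (-(s ^ 2 + t ^ 2) / 2) : ℝ)).re))
      rw [sum_const_zero, ← mul_sum]
      linarith
  · intro A η s2 s3 s4 s5
    by_contra hg
    have t0 : ∑ v, (A.V v).E (fun z => ∑ i, max (‖rl (u ^ 4) (at1 z i)‖ - T) 0 ^ 2) +
      ∑ e, (A.W e).E (fun _ => 0) ≤ s1 * (N * d) := s5 0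
    have t1 : ∑ v, (A.V v).E (fun _ => 0) + ∑ e, (A.W e).E (fun z => ∑ a, ∑ b, Km k0 (L e) a b *
      (rl (u ^ 4) (at1 z 0) a * rl (u ^ 4) (at1 z 0) b)) ≤ ∑ e, L e + s1 * m := s5 1
    have t2 : ∑ v, (A.V v).E (fun _ => 0) + ∑ e, (A.W e).E (fun z => -1 * ∑ a, ∑ b,
      Km k0 (L e) a b * (rl (u ^ 4) (at1 z 0) a * rl (u ^ 4) (at1 z 0) b)) ≤
        -(∑ e, L e - s1 * m) := s5 2
    have t3 : ∑ v, (A.V v).E (fun _ => 0) + ∑ e, (A.W e).E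
      (fun z => -1 * (w * ch1 k0 (L e) s t (rl (u ^ 4) (at1 z 0))).re) ≤
        -((∑ e, L e) * (3 * ε / 4 + (w * (exp (-(s ^ 2 + t ^ 2) / 2) : ℝ)).re)) := s5 3
    simp only [LL.E_const, sum_const_zero, add_zero, zero_add] at t0 t1 t2 t3
    simp only [LL.E_mul, ← mul_sum] at t2 t3
    simp only [LL.E_sum] at t0
    rw [A.mV fun x => max (‖rl (u ^ 4) x‖ - T) 0 ^ 2, mul_comm] at t0
    have tr : ∑ e, ∑ a, Km k0 (L e) a a = ∑ e, L e :=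
      sum_congr rfl fun e _ => (hKM k0 (L e) (L0 e)).2.1
    obtain ⟨r, r1, r2⟩ := h1 N m S _ A (u ^ 4) η (Ce * u) T (fun e => Km k0 (L e))
      ⟨n1, hκ0, by positivity, by
        calc u ^ 4 ≤ u ^ 1 := pow_le_pow_of_le_one u0.le u1 (by norm_num)
          _ ≤ _ := by rw [pow_one]; exact le_mul_of_one_le_left u0.le hCe,
        s2, (not_le.1 hg).le, s3, s4⟩ n2 n4'
      (le_of_mul_le_mul_right t0 (by positivity)) (hK k0) (tr ▸ hG)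
      (by rw [tr, abs_le]; constructor <;> linarith)
    have k2 := CBx.last (k0 := k0) hCH hL hΛ hR hw A.W r1 r2
    linarith [mul_le_mul_of_nonneg_left hG hε.le, mul_pos hε (by linarith : (0 : ℝ) < m)]

end Pool.Agent.P.MP_6b977f_mp.QG
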