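import Pool.Agent.P.MP_6b977f_mp.QG.IfaceC
import Pool.Agent.P.MP_6b977f_mp.QG.IfaceA
import Pool.Agent.P.MP_6b977f_mp.QG.IfaceB
import Pool.Agent.P.MP_6b977f_mp.QG.TCB

/-! Step CB2. -/

namespace Pool.Agent.P.MP_6b977f_mp.QG

open Finset MeasureTheory Real Matrix RG Filter
open scoped Classical

namespace CB2x
open CBx

/-- the quadratic form at infinite energy -/
noncomputable def Kd (l : ℝ) (a b : Fin 2) : ℝ := if a = b then l / 2 else 0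

/-- the character at infinite energy -/
noncomputable def cI (l s t : ℝ) (z : Fin 2 → ℝ) : ℂ := l * chI s t z

theorem cI_eq (l s t : ℝ) (z : Fin 2 → ℝ) :
    cI l s t z = (l / (2 * π) : ℝ) * ch1 1 (2 * π) s t z := by
  rw [cI, chI]; push_cast; ring

theorem lip (hCH : S_CH) {l : ℝ} (hl : 0 ≤ l) (s t : ℝ) (z z' : Fin 2 → ℝ) :
    ‖cI l s t z - cI l s t z'‖ ≤ 2 * l * ((|s| + |t|) * ‖z - z'‖) := by
  have a := (hCH 1 (2 * π) s t (by positivity)).1 1 s t z z'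
  simp only [sub_self, abs_zero, mul_zero, zero_mul, add_zero] at a
  rw [cI_eq, cI_eq, ← mul_sub, norm_mul, Complex.norm_of_nonneg (by positivity)]
  refine (mul_le_mul_of_nonneg_left a (by positivity)).trans (le_of_eq ?_)
  field_simp

theorem gau (hCH : S_CH) {l s t δ R r : ℝ} (hl : 0 ≤ l) (μ : LL (PI 2)) (hR : |s| + |t| ≤ R)
    (h : ∀ ξ : Fin 2 → ℝ, ‖ξ‖ ≤ R → ‖μ.ch0 δ ξ - (exp (-(∑ a, ξ a ^ 2) / 2) : ℝ)‖ ≤ r) :
    ‖∑ x ∈ μ.A, (μ.p x : ℂ) * cI l s t (rl δ (at1 x 0)) - (l * exp (-(s ^ 2 + t ^ 2) / 2) : ℝ)‖ ≤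
      l * r := by
  have a := (hCH 1 (2 * π) s t (by positivity)).2 μ δ R r hR h
  have e : l * exp (-(s ^ 2 + t ^ 2) / 2) = l / (2 * π) * (2 * π * exp (-(s ^ 2 + t ^ 2) / 2)) := by
    field_simp
  simp only [cI_eq, mul_left_comm _ ((l / (2 * π) : ℝ) : ℂ)]
  rw [e, Complex.ofReal_mul, ← mul_sum, ← mul_sub, norm_mul,
    Complex.norm_of_nonneg (by positivity)]
  refine (mul_le_mul_of_nonneg_left a (by positivity)).trans (le_of_eq ?_)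
  field_simp

theorem Kd_le {l Λ : ℝ} (h : 1 ≤ l ∧ l ≤ Λ) (a b : Fin 2) : |Kd l a b| ≤ Λ := by
  unfold Kd
  split_ifs <;> rw [abs_le] <;> constructor <;> linarith [h.1, h.2]

section
variable {d N m : ℕ} {g : Glue d N m} {L : Fin m → ℝ} {Λ u : ℝ} {z : HI d N → ℝ}
  {φ : HI d N → ℤ}

theorem con1 {M s1 : ℝ} (hL : ∀ e, 1 ≤ L e ∧ L e ≤ Λ) (hΛ : 1 ≤ Λ) (u0 : 0 < u)
    (u1 : u ≤ 1) (hs1 : 0 < s1) (mN : (N : ℝ) ≤ m)
    (n8 : (32 * Λ * d + 8 * Λ * M) * u ≤ s1) (n9 : 2 ≤ s1 * N)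
    (m2 : |nrI L g z - ∑ e, L e| ≤ 1) (z2 : ∑ p, z p ^ 2 ≤ M * N)
    (hφ : ∑ p, (u ^ 4 * φ p - z p) ^ 2 ≤ u ^ 2 * (2 * d * N)) :
    |∑ e, ∑ a, ∑ b, Kd (L e) a b *
      (rl (u ^ 4) (at1 (est g φ e) 0) a * rl (u ^ 4) (at1 (est g φ e) 0) b) - ∑ e, L e| ≤
        s1 * m := by
  have D2 := (sum_e' g _ φ z).trans hφ
  have Z2 := (sum_e g z).trans z2
  have k1 := fun e => quad (Kd_le (hL e)) (K' := Kd (L e)) (ρ := 0) (by simp) u0 u1
    (rl (u ^ 4) (at1 (est g φ e) 0)) (at1 (est g z e) 0)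
  have k2 := sum_le_sum fun e (_ : e ∈ univ) => k1 e
  rw [sum_add_distrib, ← mul_sum, ← mul_sum, ← mul_sum] at k2
  have e : nrI L g z = ∑ e, ∑ a, ∑ b, Kd (L e) a b *
      (at1 (est g z e) 0 a * at1 (est g z e) 0 b) := sum_congr rfl fun e _ => by
    simp [Kd]; ring
  refine (abs_sub_le _ (nrI L g z) _).trans ?_
  have a0 := mul_le_mul_of_nonneg_left mN hs1.le
  refine le_trans (add_le_add ?_ m2) (by linarith : s1 / 2 * N + 1 ≤ _)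
  rw [e, ← sum_sub_distrib]
  refine (abs_sum_le_sum_abs _ _).trans (le_of_mul_le_mul_left (k2.trans ?_) u0)
  have a1 := mul_le_mul_of_nonneg_left D2 (by positivity : 0 ≤ 8 * Λ)
  have a2 := mul_le_mul_of_nonneg_left Z2 (by positivity : 0 ≤ 4 * Λ * u ^ 2 + 4 * 0 * u)
  have a3 := mul_le_mul_of_nonneg_left n8 (by positivity : 0 ≤ u * N)
  linarith

theorem con3 (hCH : S_CH) {s t R ε : ℝ} {w : ℂ} (hL : ∀ e, 1 ≤ L e ∧ L e ≤ Λ) (hΛ : 1 ≤ Λ)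
    (u0 : 0 < u) (hε : 0 < ε) (hR : |s| + |t| ≤ R) (hw : ‖w‖ ≤ 1) (hm : 2 * (m : ℝ) = d * N)
    (m0 : (0 : ℝ) < m) (hG : (m : ℝ) ≤ ∑ e, L e) (n6 : 40 * Λ * R * u ≤ ε)
    (m5 : ε ≤ (w * dcI L s t g z).re)
    (hφ : ∑ p, (u ^ 4 * φ p - z p) ^ 2 ≤ u ^ 2 * (2 * d * N)) :
    (∑ e, L e) * (3 * ε / 4 + (w * (exp (-(s ^ 2 + t ^ 2) / 2) : ℝ)).re) ≤
      ∑ e, (w * cI (L e) s t (rl (u ^ 4) (at1 (est g φ e) 0))).re := by
  have L0 : ∀ e, 0 ≤ L e := fun e => by linarith [(hL e).1]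
  have R0 : 0 ≤ R := le_trans (by positivity) hR
  have D2 := (sum_e' g _ φ z).trans hφ
  have k1 : ∀ e, u * (w * cI (L e) s t (at1 (est g z e) 0)).re ≤
      u * (w * cI (L e) s t (rl (u ^ 4) (at1 (est g φ e) 0))).re + 2 * Λ * R *
        (u ^ 2 + ‖rl (u ^ 4) (at1 (est g φ e) 0) - at1 (est g z e) 0‖ ^ 2) := fun e => by
    have a1 := (re_le hw).trans (lip hCH (L0 e) s t (at1 (est g z e) 0)
      (rl (u ^ 4) (at1 (est g φ e) 0)))
    rw [mul_sub, Complex.sub_re, norm_sub_rev] at a1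
    refine ar1 u0 (norm_nonneg _) (by positivity) (a1.trans ?_)
    have := (hL e).2
    have := L0 e
    gcongr
  have k2 := sum_le_sum fun e (_ : e ∈ univ) => k1 e
  rw [sum_add_distrib, ← mul_sum, ← mul_sum, ← mul_sum, sum_add_distrib] at k2
  simp only [sum_const, card_univ, Fintype.card_fin, nsmul_eq_mul] at k2
  have G0 : 0 < ∑ e, L e := by linarith
  rw [dcI, mul_sub, Complex.sub_re, ← mul_div_assoc, mul_sum, Complex.div_ofReal_re,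
    Complex.re_sum, le_sub_iff_add_le, le_div_iff₀ G0] at m5
  have a1 := mul_le_mul_of_nonneg_left D2 (by positivity : 0 ≤ 2 * Λ * R)
  have a2 : u * (40 * Λ * R * u * m) ≤ u * (ε * ∑ e, L e) :=
    mul_le_mul_of_nonneg_left (mul_le_mul n6 hG (by positivity) hε.le) u0.le
  have a3 := mul_le_mul_of_nonneg_left m5 u0.le
  simp only [cI] at k2 ⊢
  have a4 : 2 * Λ * R * (u ^ 2 * (2 * d * N)) = 8 * Λ * R * u ^ 2 * m := by
    linear_combination (-4 * Λ * R * u ^ 2) * hm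
  refine le_of_mul_le_mul_left ?_ u0
  linarith

theorem last (hCH : S_CH) {s t R ε δ : ℝ} {w : ℂ} (hL : ∀ e, 1 ≤ L e ∧ L e ≤ Λ) (hΛ : 1 ≤ Λ)
    (hR : |s| + |t| ≤ R) (hw : ‖w‖ ≤ 1) (W : Fin m → LL (PI 2)) {r : Fin m → ℝ}
    (r1 : ∑ e, r e ≤ ε / (4 * Λ) * m) (r2 : ∀ (e : Fin m) (ξ : Fin 2 → ℝ), ‖ξ‖ ≤ R →
      ‖(W e).ch0 δ ξ - (exp (-(∑ a, ξ a ^ 2) / 2) : ℝ)‖ ≤ r e) :
    ∑ e, (W e).E (fun z => (w * cI (L e) s t (rl δ (at1 z 0))).re) ≤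
      (∑ e, L e) * (w * (exp (-(s ^ 2 + t ^ 2) / 2) : ℝ)).re + ε / 4 * m := by
  have L0 : ∀ e, 0 ≤ L e := fun e => by linarith [(hL e).1]
  have R0 : 0 ≤ R := le_trans (by positivity) hR
  have k1 : ∀ e, (W e).E (fun z => (w * cI (L e) s t (rl δ (at1 z 0))).re) ≤
      L e * (w * (exp (-(s ^ 2 + t ^ 2) / 2) : ℝ)).re + Λ * r e := fun e => by
    have a1 := (re_le hw).trans (gau hCH (L0 e) (W e) hR (r2 e))
    have a2 : 0 ≤ r e := (norm_nonneg _).trans (r2 e 0 (by simpa using R0))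
    have a3 : (W e).E (fun z => (w * cI (L e) s t (rl δ (at1 z 0))).re) =
        (w * ∑ x ∈ (W e).A, ((W e).p x : ℂ) * cI (L e) s t (rl δ (at1 x 0))).re := by
      simp only [LL.E, mul_sum, Complex.re_sum]
      refine sum_congr rfl fun z _ => ?_
      rw [mul_left_comm, Complex.re_ofReal_mul]
    rw [mul_sub, Complex.sub_re, ← a3, Complex.ofReal_mul, mul_left_comm,
      Complex.re_ofReal_mul] at a1
    linarith [mul_le_mul_of_nonneg_right (hL e).2 a2]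
  have k2 := sum_le_sum fun e (_ : e ∈ univ) => k1 e
  rw [sum_add_distrib, ← sum_mul, ← mul_sum] at k2
  have k3 : Λ * ∑ e, r e ≤ ε / 4 * m := by
    refine (mul_le_mul_of_nonneg_left r1 (by linarith)).trans (le_of_eq ?_)
    field_simp
  linarith

end

end CB2x

open CB2x in
theorem p_CB2 (hAN2 : S_AN2) (hPEN : S_PEN) (hCORE : S_CORE) (hCH : S_CH) :
    S_CB2 := by
  intro d c κ0 Λ a hd hc hκ hΛ ha ha'
  have d3 : (3 : ℝ) ≤ d := by exact_mod_cast hd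
  obtain ⟨M, hM⟩ : ∃ M : ℝ, M = 4 * Λ * d := ⟨_, rfl⟩
  have M0 : 0 ≤ M := by rw [hM]; positivity
  obtain ⟨C, hC, h1⟩ := hAN2 d c κ0 (2 * M + 4) Λ hd hc hκ
  obtain ⟨Ce, N1, hCe, h2⟩ := hCORE d M a (by omega) M0 ha ha'
  refine ⟨a / (2 * C), by positivity, fun b R ε hb hb' hε => ?_⟩
  obtain ⟨s1, hs1, h1⟩ := h1 R (ε / (4 * Λ)) (by positivity)
  have b1 : C * b ≤ a / 2 := by
    have := (le_div_iff₀ (by positivity)).1 hb'; linarith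
  suffices h : ∀ᶠ N : ℕ in atTop, _ by
    obtain ⟨N0, h⟩ := eventually_atTop.1 h
    exact ⟨s1 / 4, N0, by positivity, h⟩
  filter_upwards [eventually_ge_atTop N1, eventually_ge_atTop 1, ev_T hb (1 / s1),
    ev_rpow Ce (by linarith : -a + C * b < 0), ev_rpow (8 / s1) (by linarith : -a < 0),
    ev_rpow (40 * Λ * R / ε) (by linarith : -a < 0),
    ev_rpow (4 * Λ ^ 2 * M) (by linarith : -a < 0),
    ev_rpow ((32 * Λ * d + 8 * Λ * M) / s1) (by linarith : -a < 0),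
    tendsto_natCast_atTop_atTop.eventually_ge_atTop (2 / s1)] with N n0 n1 n2 n4 n5 n6 n7 n8 n9
  intro m S L θ s t w hL hκ0 hR hw
  have N1' : (1 : ℝ) ≤ N := by exact_mod_cast n1
  have N0 : (0 : ℝ) < N := by linarith
  have hm : 2 * (m : ℝ) = d * N := by exact_mod_cast S.hm
  have mN : (N : ℝ) ≤ m := by nlinarith
  have u1 : (N : ℝ) ^ (-a) ≤ 1 := rpow_le_one_of_one_le_of_nonpos N1' (by linarith)
  have u0 : 0 < (N : ℝ) ^ (-a) := by positivity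
  have R0 : 0 ≤ R := le_trans (by positivity) hR
  have n4' : Ce * (N : ℝ) ^ (-a) * exp (C * √(b * log N) ^ 2) ≤ 1 := by
    rw [exp_T n1 hb.le, mul_assoc, ← rpow_add N0]
    simpa using n4
  have e5 : (N : ℝ) ^ (-(5 * a)) = ((N : ℝ) ^ (-a)) ^ 5 := by
    rw [← rpow_natCast, ← rpow_mul N0.le]; congr 1; push_cast; ring
  rw [rpow_zero, div_mul_eq_mul_div, div_le_one (by positivity)] at n5 n6 n8
  rw [rpow_zero] at n7
  rw [div_le_iff₀' hs1] at n9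
  have hG : (m : ℝ) ≤ ∑ e, L e := by
    simpa using sum_le_sum fun e (_ : e ∈ univ) => (hL e).1
  rw [e5, ← hM]
  have h3 := h2 N n0 m c S θ (Fin 4)
  generalize √(b * log N) = T at *
  generalize hu : (N : ℝ) ^ (-a) = u at *
  refine h3 ![fun _ z => ∑ i, max (‖rl (u ^ 4) (at1 z i)‖ - T) 0 ^ 2, fun _ _ => 0, fun _ _ => 0,
      fun _ _ => 0]
    ![fun _ _ => 0,
      fun e z => ∑ a, ∑ b, Kd (L e) a b * (rl (u ^ 4) (at1 z 0) a * rl (u ^ 4) (at1 z 0) b),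
      fun e z => -1 * ∑ a, ∑ b, Kd (L e) a b * (rl (u ^ 4) (at1 z 0) a * rl (u ^ 4) (at1 z 0) b),
      fun e z => -1 * (w * cI (L e) s t (rl (u ^ 4) (at1 z 0))).re]
    ![s1 * (N * d), ∑ e, L e + s1 * m, -(∑ e, L e - s1 * m),
      -((∑ e, L e) * (3 * ε / 4 + (w * (exp (-(s ^ 2 + t ^ 2) / 2) : ℝ)).re))] _ u rfl ?_ ?_
  · intro g hg
    obtain ⟨-, m1, θ', z, k2, m3, z2, m2, m4, m5⟩ := mem_filter.1 hg
    have u2 : u ^ 2 ≤ u := by nlinarith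
    refine ⟨m1, z, ?_, z2, fun φ hφ => ?_⟩
    · refine ((hPEN d N m c S _ g).2.2 _ z _ k2 m3).trans ?_
      calc (2 * Λ * u ^ 5) ^ 2 * ∑ p, z p ^ 2 ≤ (2 * Λ * u ^ 5) ^ 2 * (M * N) :=
            mul_le_mul_of_nonneg_left z2 (sq_nonneg _)
        _ = (u ^ 4) ^ 2 * N * (4 * Λ ^ 2 * M * u ^ 2) := by ring
        _ ≤ _ := mul_le_of_le_one_right (by positivity)
            ((mul_le_mul_of_nonneg_left u2 (by positivity)).trans n7)
    have hq := abs_le.1 (con1 hL hΛ u0 u1 hs1 mN n8 n9 m2 z2 hφ)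
    have h0 := CBx.con0 d3 u0 u1 hs1 n5 m4 hφ
    have h4 := con3 hCH hL hΛ u0 hε hR hw hm (by linarith) hG n6 m5 hφ
    intro j
    fin_cases j
    · change ∑ v, ∑ i, max (‖rl (u ^ 4) (at1 (vst φ v) i)‖ - T) 0 ^ 2 + ∑ _e, (0 : ℝ) ≤ s1 * (N * d)
      rw [sum_const_zero]
      linarith
    · change ∑ _v, (0 : ℝ) + ∑ e, ∑ a, ∑ b, Kd (L e) a b * (rl (u ^ 4) (at1 (est g φ e) 0) a *
        rl (u ^ 4) (at1 (est g φ e) 0) b) ≤ ∑ e, L e + s1 * m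
      rw [sum_const_zero]
      linarith [hq.2]
    · change ∑ _v, (0 : ℝ) + ∑ e, -1 * ∑ a, ∑ b, Kd (L e) a b *
        (rl (u ^ 4) (at1 (est g φ e) 0) a * rl (u ^ 4) (at1 (est g φ e) 0) b) ≤ -(∑ e, L e - s1 * m)
      rw [sum_const_zero, ← mul_sum]
      linarith [hq.1]
    · change ∑ _v, (0 : ℝ) + ∑ e, -1 * (w * cI (L e) s t (rl (u ^ 4) (at1 (est g φ e) 0))).re ≤
        -((∑ e, L e) * (3 * ε / 4 + (w * (exp (-(s ^ 2 + t ^ 2) / 2) : ℝ)).re))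
      rw [sum_const_zero, ← mul_sum]
      linarith
  · intro A η s2 s3 s4 s5
    by_contra hg
    have t0 : ∑ v, (A.V v).E (fun z => ∑ i, max (‖rl (u ^ 4) (at1 z i)‖ - T) 0 ^ 2) +
      ∑ e, (A.W e).E (fun _ => 0) ≤ s1 * (N * d) := s5 0
    have t1 : ∑ v, (A.V v).E (fun _ => 0) + ∑ e, (A.W e).E (fun z => ∑ a, ∑ b, Kd (L e) a b *
      (rl (u ^ 4) (at1 z 0) a * rl (u ^ 4) (at1 z 0) b)) ≤ ∑ e, L e + s1 * m := s5 1
    have t2 : ∑ v, (A.V v).E (fun _ => 0) + ∑ e, (A.W e).E (fun z => -1 * ∑ a, ∑ b,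
      Kd (L e) a b * (rl (u ^ 4) (at1 z 0) a * rl (u ^ 4) (at1 z 0) b)) ≤
        -(∑ e, L e - s1 * m) := s5 2
    have t3 : ∑ v, (A.V v).E (fun _ => 0) + ∑ e, (A.W e).E
      (fun z => -1 * (w * cI (L e) s t (rl (u ^ 4) (at1 z 0))).re) ≤
        -((∑ e, L e) * (3 * ε / 4 + (w * (exp (-(s ^ 2 + t ^ 2) / 2) : ℝ)).re)) := s5 3
    simp only [LL.E_const, sum_const_zero, add_zero, zero_add] at t0 t1 t2 t3
    simp only [LL.E_mul, ← mul_sum] at t2 t3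
    simp only [LL.E_sum] at t0
    rw [A.mV fun x => max (‖rl (u ^ 4) x‖ - T) 0 ^ 2, mul_comm] at t0
    have tr : ∑ e, ∑ a, Kd (L e) a a = ∑ e, L e :=
      sum_congr rfl fun e _ => by simp [Kd]; ring
    obtain ⟨r, r1, r2⟩ := h1 N m S _ A (u ^ 4) η (Ce * u) T (fun e => Kd (L e))
      ⟨n1, hκ0, by positivity, by
        calc u ^ 4 ≤ u ^ 1 := pow_le_pow_of_le_one u0.le u1 (by norm_num)
          _ ≤ _ := by rw [pow_one]; exact le_mul_of_one_le_left u0.le hCe,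
        s2, (not_le.1 hg).le, s3, s4⟩ n2 n4'
      (le_of_mul_le_mul_right t0 (by positivity)) (fun e => Kd_le (hL e)) (tr ▸ hG)
      (by rw [tr, abs_le]; constructor <;> linarith)
    have k2 := CB2x.last hCH hL hΛ hR hw A.W r1 r2
    linarith [mul_le_mul_of_nonneg_left hG hε.le, mul_pos hε (by linarith : (0 : ℝ) < m)]

end Pool.Agent.P.MP_6b977f_mp.QG
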