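import Pool.Agent.P.MP_6b977f_mp.QG.IfaceB

/-! Step CH. -/

namespace Pool.Agent.P.MP_6b977f_mp.QG

open Finset MeasureTheory Real Matrix RG
open scoped Classical

namespace CHx

theorem ex (a b : ℝ) : ‖Complex.exp (Complex.I * a) - Complex.exp (Complex.I * b)‖ ≤ |a - b| := by
  have e : Complex.exp (Complex.I * a) - Complex.exp (Complex.I * b) =
      Complex.exp (Complex.I * b) * (Complex.exp (Complex.I * (a - b : ℝ)) - 1) := by
    rw [mul_sub, ← Complex.exp_add, mul_one]; congr 2; push_cast; ring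
  rw [e, norm_mul, Complex.norm_exp_I_mul_ofReal, one_mul]
  exact Real.norm_exp_I_mul_ofReal_sub_one_le

theorem ab {x X y Y : ℝ} (h : |x| ≤ X) (h' : |y| ≤ Y) : |x * y| ≤ X * Y := by
  rw [abs_mul]; exact mul_le_mul h h' (abs_nonneg _) ((abs_nonneg _).trans h)

theorem two {a b a' b' c e c' e' D Y Z Z' : ℝ} (h1 : |c - c'| ≤ D) (h2 : |e - e'| ≤ D)
    (h3 : |c'| ≤ 1) (h4 : |e'| ≤ 1) (h5 : |a| ≤ Z) (h6 : |b| ≤ Z) (h7 : |a - a'| ≤ Y)
    (h8 : |b - b'| ≤ Y) (h9 : |a'| ≤ Z') (h10 : |b'| ≤ Z') :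
    |a * c + b * e - (a' * c' + b' * e')| ≤ 2 * (Y + D * Z) ∧ |a' * c' + b' * e'| ≤ 2 * Z' := by
  have := abs_le.1 (ab h5 h1)
  have := abs_le.1 (ab h6 h2)
  have := abs_le.1 (ab h7 h3)
  have := abs_le.1 (ab h8 h4)
  have := abs_le.1 (ab h9 h3)
  have := abs_le.1 (ab h10 h4)
  refine ⟨abs_le.2 ⟨?_, ?_⟩, abs_le.2 ⟨?_, ?_⟩⟩ <;> linarith

theorem ci (k l s t : ℝ) (z : Fin 2 → ℝ) : IntervalIntegrable
    (fun x => Complex.exp (Complex.I * (s * f0 k z x + t * f1 k z x : ℝ))) volume 0 l := by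
  refine Continuous.intervalIntegrable ?_ _ _
  unfold f0 f1
  fun_prop

end CHx

open CHx in
theorem p_CH :
    S_CH := by
  intro k l s t hl
  refine ⟨fun k' s' t' z z' => ?_, fun μ δ R r hR h => ?_⟩
  · rw [ch1, ch1, ← intervalIntegral.integral_sub (ci _ _ _ _ _) (ci _ _ _ _ _)]
    refine (intervalIntegral.norm_integral_le_of_norm_le_const (C := 2 * ((|s| + |t|) *
      (‖z - z'‖ + l * |k - k'| * ‖z‖) + (|s - s'| + |t - t'|) * ‖z'‖)) fun x hx => ?_).trans
      (le_of_eq (by rw [sub_zero, abs_of_nonneg hl]; ring))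
    rw [Set.uIoc_of_le hl] at hx
    have hD : |k * x - k' * x| ≤ l * |k - k'| := by
      rw [← sub_mul, mul_comm]
      exact ab (by rw [abs_of_pos hx.1]; exact hx.2) le_rfl
    have hc := (abs_cos_sub_cos_le _ _).trans hD
    have hs := (abs_sin_sub_sin_le _ _).trans hD
    have n : ∀ (y : Fin 2 → ℝ) a, |y a| ≤ ‖y‖ := fun y a => norm_le_pi_norm y a
    have a := two hc hs (abs_cos_le_one _) (abs_sin_le_one _) (n z 0) (n z 1) (n (z - z') 0)
      (n (z - z') 1) (n z' 0) (n z' 1)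
    have b := two (b := -z 0) (b' := -z' 0) hc hs (abs_cos_le_one _) (abs_sin_le_one _) (n z 1)
      (by rw [abs_neg]; exact n z 0) (n (z - z') 1)
      (by rw [neg_sub_neg, abs_sub_comm]; exact n (z - z') 0) (n z' 1)
      (by rw [abs_neg]; exact n z' 0)
    have c1 := abs_le.1 (ab (le_refl |s|) a.1)
    have c2 := abs_le.1 (ab (le_refl |t|) b.1)
    have c3 := abs_le.1 (ab (le_refl |s - s'|) a.2)
    have c4 := abs_le.1 (ab (le_refl |t - t'|) b.2)
    refine (ex _ _).trans (abs_le.2 ⟨?_, ?_⟩) <;> unfold f0 f1 <;> linarith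
  · let ξ : ℝ → Fin 2 → ℝ := fun y =>
      ![s * cos (k * y) - t * sin (k * y), s * sin (k * y) + t * cos (k * y)]
    have e : ∀ y, μ.ch0 δ (ξ y) = ∑ x ∈ μ.A, (μ.p x : ℂ) * Complex.exp (Complex.I *
        (s * f0 k (rl δ (at1 x 0)) y + t * f1 k (rl δ (at1 x 0)) y : ℝ)) := fun y =>
      sum_congr rfl fun x _ => by
        congr 4
        simp only [Fin.sum_univ_two, ξ, f0, f1, cons_val_zero, cons_val_one]
        ring
    have i := fun x (_ : x ∈ μ.A) => (ci k l s t (rl δ (at1 x 0))).const_mul (μ.p x : ℂ)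
    have e2 : ∑ x ∈ μ.A, (μ.p x : ℂ) * ch1 k l s t (rl δ (at1 x 0)) -
        (l * exp (-(s ^ 2 + t ^ 2) / 2) : ℝ) =
        ∫ y in (0 : ℝ)..l, (μ.ch0 δ (ξ y) - (exp (-(s ^ 2 + t ^ 2) / 2) : ℝ)) := by
      simp only [e]
      rw [intervalIntegral.integral_sub (Continuous.intervalIntegrable (by
        unfold f0 f1
        fun_prop) _ _) intervalIntegrable_const,
        intervalIntegral.integral_finsetSum i, intervalIntegral.integral_const]
      simp only [intervalIntegral.integral_const_mul, ch1, sub_zero, Complex.real_smul,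
        Complex.ofReal_mul]
    rw [e2]
    refine (intervalIntegral.norm_integral_le_of_norm_le_const (C := r) fun y _ => ?_).trans
      (le_of_eq (by rw [sub_zero, abs_of_nonneg hl, mul_comm]))
    have c1 := abs_le.1 (ab (le_refl |s|) (abs_cos_le_one (k * y)))
    have c2 := abs_le.1 (ab (le_refl |s|) (abs_sin_le_one (k * y)))
    have c3 := abs_le.1 (ab (le_refl |t|) (abs_cos_le_one (k * y)))
    have c4 := abs_le.1 (ab (le_refl |t|) (abs_sin_le_one (k * y)))
    have q : ∑ a, ξ y a ^ 2 = s ^ 2 + t ^ 2 := by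
      simp only [Fin.sum_univ_two, ξ, cons_val_zero, cons_val_one]
      linear_combination (s ^ 2 + t ^ 2) * sin_sq_add_cos_sq (k * y)
    rw [← q]
    refine h _ ((pi_norm_le_iff_of_nonneg (le_trans (by positivity) hR)).2 fun a => ?_)
    fin_cases a <;> simp only [ξ] <;> refine abs_le.2 ⟨?_, ?_⟩ <;> simp <;> linarith

end Pool.Agent.P.MP_6b977f_mp.QG
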