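import Pool.Agent.P.MP_6b977f_mp.QG.IfaceB
import Pool.Agent.P.MP_6b977f_mp.RG.LibCnt

/-! Step CNT. -/

namespace Pool.Agent.P.MP_6b977f_mp.QG

open Finset MeasureTheory Real Matrix RG
open scoped Classical

namespace CNTx

end CNTx

theorem p_CNT :
    S_CNT := by
  intro H H' A _ _ lab lab'
  rcases (univ.filter fun g : H ≃ H' => ∀ h, lab' (g h) = lab h).eq_empty_or_nonempty with
    h | ⟨g0, h0⟩
  · rw [h, card_empty, Nat.cast_zero]; positivity
  have h0' : ∀ h, lab' (g0 h) = lab h := (mem_filter.1 h0).2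
  have h1 : #(univ.filter fun g : H ≃ H' => ∀ h, lab' (g h) = lab h) ≤
      #(univ.filter fun s : Equiv.Perm H => lab ∘ s = lab) := by
    refine card_le_card_of_injOn (fun g => g.trans g0.symm) (fun g hg => ?_) fun g _ g' _ e => ?_
    · have hg' : ∀ h, lab' (g h) = lab h := by simpa using hg
      simp only [coe_filter, mem_univ, true_and, Set.mem_ofPred_eq]
      funext h
      rw [Function.comp_apply, Equiv.trans_apply, ← h0', Equiv.apply_symm_apply, hg']
    · ext h
      exact g0.symm.injective (DFunLike.congr_fun e h)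
  have h2 := C22.fiber_le lab lab
  have h3 := C22.prod_fact_le lab
  have h4 : exp (∑ h, log ((#(univ.filter fun h' => lab h' = lab h) : ℝ) / Fintype.card H)) =
      ∏ x, ((C22.cnt lab (lab x) : ℝ) / Fintype.card H) := by
    rw [exp_sum]
    refine prod_congr rfl fun h _ => exp_log (div_pos ?_ ?_)
    · exact Nat.cast_pos.2 (card_pos.2 ⟨h, by simp⟩)
    · exact Nat.cast_pos.2 (Fintype.card_pos_iff.2 ⟨h⟩)
  rw [h4, Fintype.card_equiv g0]
  refine le_trans ?_ h3
  exact_mod_cast h1.trans h2

end Pool.Agent.P.MP_6b977f_mp.QG
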