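import Pool.Agent.P.MP_6b977f_mp.QG.IfaceC
import Pool.Agent.P.MP_6b977f_mp.QG.IfaceB

/-! Step CONF2. -/

namespace Pool.Agent.P.MP_6b977f_mp.QG

open Finset MeasureTheory Real Matrix RG
open scoped Classical

namespace CONF2x

open Filter

theorem evr {a b : ℝ} (C : ℝ) (h : a < b) :
    ∀ᶠ N : ℕ in atTop, C * (N : ℝ) ^ a ≤ (N : ℝ) ^ b := by
  have h1 : Tendsto (fun N : ℕ => (N : ℝ) ^ (b - a)) atTop atTop :=
    (tendsto_rpow_atTop (by linarith)).comp tendsto_natCast_atTop_atTop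
  filter_upwards [h1.eventually_ge_atTop C, eventually_ge_atTop 1] with N h2 h3
  have : (0 : ℝ) < N := by exact_mod_cast h3
  calc C * (N : ℝ) ^ a ≤ (N : ℝ) ^ (b - a) * (N : ℝ) ^ a :=
        mul_le_mul_of_nonneg_right h2 (by positivity)
    _ = _ := by rw [← rpow_add this]; congr 1; ring

theorem evT {b : ℝ} (hb : 0 < b) (C : ℝ) : ∀ᶠ N : ℕ in atTop, C ≤ √(b * log N) :=
  (tendsto_sqrt_atTop.comp ((tendsto_log_atTop.comp tendsto_natCast_atTop_atTop).const_mul_atTop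
    hb)).eventually_ge_atTop C

theorem small {a : ℝ} (ha : a ≤ 1 / 100) (C : ℝ) :
    ∀ᶠ N : ℕ in atTop, C * N * exp (-(N : ℝ) ^ (1 - a)) ≤ 1 := by
  filter_upwards [evr (2 * C) (by linarith : 1 < (1 - a) * 2), eventually_ge_atTop 1] with N h n1
  have N0 : (0 : ℝ) < N := by exact_mod_cast n1
  rw [rpow_one, rpow_mul N0.le, rpow_two] at h
  have h0 : 0 ≤ (N : ℝ) ^ (1 - a) := by positivity
  rw [exp_neg, ← div_eq_mul_inv, div_le_one (exp_pos _)]
  linarith [quadratic_le_exp_of_nonneg h0]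

theorem card_bi {α β : Type} [DecidableEq β] (s : Finset α) (f : α → Finset β) (B : ℝ)
    (h : ∀ a ∈ s, (#(f a) : ℝ) ≤ B) : (#(s.biUnion f) : ℝ) ≤ #s * B := by
  refine le_trans (Nat.cast_le.2 card_biUnion_le) ?_
  rw [Nat.cast_sum, ← nsmul_eq_mul]
  exact sum_le_card_nsmul _ _ _ h

theorem card_un {β : Type} [DecidableEq β] (s t : Finset β) : (#(s ∪ t) : ℝ) ≤ #s + #t := by
  exact_mod_cast card_union_le s t

theorem cover {β ι κ : Type} {S A : Finset β} {J : Finset ι} {T : Finset κ} {B C : ι → Finset β}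
    {D : ι → κ → Finset β} {x y z : ℝ} (hA : (#A : ℝ) ≤ x) (hB : ∀ j ∈ J, (#(B j) : ℝ) ≤ y)
    (hC : ∀ j ∈ J, (#(C j) : ℝ) ≤ z) (hD : ∀ j ∈ J, ∀ p ∈ T, (#(D j p) : ℝ) ≤ z)
    (h : ∀ g ∈ S, g ∈ A ∨ ∃ j ∈ J, g ∈ B j ∨ g ∈ C j ∨ ∃ p ∈ T, g ∈ D j p) :
    (#S : ℝ) ≤ x + #J * (y + (1 + #T) * z) := by
  have hs : S ⊆ A ∪ J.biUnion fun j => B j ∪ (C j ∪ T.biUnion (D j)) := fun g hg => by
    simpa only [mem_union, mem_biUnion] using h g hg
  refine le_trans (Nat.cast_le.2 (card_le_card hs)) ((card_un _ _).trans (add_le_add hA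
    (card_bi _ _ _ fun j hj => (card_un _ _).trans (add_le_add (hB j hj)
      ((card_un _ _).trans ?_)))))
  rw [add_mul, one_mul]
  exact add_le_add (hC j hj) (card_bi _ _ _ (hD j hj))

theorem sin_sq_le (x y : ℝ) : sin x ^ 2 ≤ sin y ^ 2 + 2 * |x - y| := by
  have h := abs_sin_sub_sin_le x y
  have h1 : |sin x + sin y| ≤ 2 := abs_le.2 ⟨by linarith [neg_one_le_sin x, neg_one_le_sin y],
    by linarith [sin_le_one x, sin_le_one y]⟩
  have h2 : (sin x + sin y) * (sin x - sin y) ≤ 2 * |x - y| :=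
    (le_abs_self _).trans (by
      rw [abs_mul]; exact mul_le_mul h1 h (abs_nonneg _) (by norm_num))
  nlinarith

theorem net {K W u k : ℝ} (hu : 0 < u) (h1 : K ≤ k) (h2 : k ≤ K + W) :
    ∃ j ∈ range (⌊W / u⌋₊ + 1), |k - (K + (j : ℕ) * u)| ≤ u := by
  have h0 : 0 ≤ (k - K) / u := div_nonneg (by linarith) hu.le
  refine ⟨⌊(k - K) / u⌋₊, mem_range.2 (Nat.lt_succ_of_le (Nat.floor_le_floor
    (div_le_div_of_nonneg_right (by linarith) hu.le))), abs_le.2 ⟨?_, ?_⟩⟩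
  · have := (le_div_iff₀ hu).1 (Nat.floor_le h0)
    linarith
  · have := (div_lt_iff₀ hu).1 (Nat.lt_floor_add_one ((k - K) / u))
    linarith

theorem few {d L N n U d0 : ℝ} (hL : 1 ≤ L) (hd0 : 0 < d0) (n0 : 0 ≤ n) (m1 : 1 ≤ U)
    (m2 : (d + 1) * L / d0 ≤ U) (q : n * U ^ 2 ≤ L * N) : (d + 1) * n ≤ d0 * N := by
  rw [div_le_iff₀ hd0] at m2
  have a1 : n * U ≤ L * N := by
    nlinarith [mul_nonneg (mul_nonneg n0 (by linarith : 0 ≤ U)) (sub_nonneg.2 m1)]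
  have a2 : L * ((d + 1) * n) ≤ L * (d0 * N) := by
    nlinarith [mul_le_mul_of_nonneg_right m2 n0, mul_le_mul_of_nonneg_left a1 hd0.le]
  exact le_of_mul_le_mul_left a2 (by linarith)

theorem fin {ε G j w x t : ℝ} (hε : 0 < ε) (G0 : 0 ≤ G) (z1 : j * w ≤ ε / 4)
    (z2 : j * (t * x) ≤ ε / 4) : ε / 4 * G + j * (w * G + t * (x * G)) ≤ ε * G := by
  nlinarith [mul_le_mul_of_nonneg_right z1 G0, mul_le_mul_of_nonneg_right z2 G0,
    mul_nonneg hε.le G0]

end CONF2x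

open CONF2x Filter in
theorem p_CONF2 (hDET : S_DET) (hFIB : S_FIB) (hMASS : S_MASS) (hNB : S_NB) (hNRM2 : S_NRM2) (hCA : S_CA) (hCB2 : S_CB2) (hNET2 : S_NET2) :
    S_CONF2 := by
  intro d c κ Λ₀ R ε hd hc hκ hε
  obtain ⟨W, hW⟩ : ∃ W : ℝ, W = 1 := ⟨1, rfl⟩
  obtain ⟨Λ, hΛ, hΛ'⟩ : ∃ Λ : ℝ, 1 ≤ Λ ∧ Λ₀ ≤ Λ := ⟨max 1 Λ₀, le_max_left _ _, le_max_right _ _⟩
  have d3 : (3 : ℝ) ≤ d := by exact_mod_cast hd
  have Lz : 1 ≤ 4 * Λ * d := by nlinarith
  obtain ⟨N1, h1⟩ := hDET d (by omega)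
  obtain ⟨e1, C1, he1, hC1, h41⟩ := hMASS d c 1 hc le_rfl one_lt_two
  obtain ⟨c0, c1, hc0, hc1, h2⟩ := hCA d c (κ / 2) (2 * Λ) (4 * Λ * d) (2 * C1) (1 / 100) hd hc
    (by positivity) (by linarith) (by linarith) (by norm_num) le_rfl
  obtain ⟨c2, hc2, h3⟩ := hCB2 d c (κ / 2) Λ (1 / 100) hd hc (by positivity) hΛ (by norm_num) le_rfl
  obtain ⟨b, hb, b0, b1, b2⟩ : ∃ b : ℝ, 0 < b ∧ b ≤ c0 ∧ b ≤ c2 ∧ c1 * b ≤ 1 :=
    ⟨min (min c0 c2) (1 / c1), by positivity, (min_le_left _ _).trans (min_le_left _ _),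
      (min_le_left _ _).trans (min_le_right _ _), by
        have := (le_div_iff₀ hc1).1 (min_le_right (min c0 c2) (1 / c1)); linarith⟩
  have cb : 0 < c1 * b := by positivity
  obtain ⟨N2, h2⟩ := h2 b hb b0
  obtain ⟨s0, N3, hs0, h3⟩ := h3 b R (ε / 4) hb b1 (by positivity)
  obtain ⟨e2, C2, he2, hC2, h42⟩ := hMASS d c (2 - c1 * b) hc (by linarith) (by linarith)
  obtain ⟨d0, hd0, h5⟩ := kSP d (min e1 e2) (by omega) (by positivity)
  obtain ⟨N5, h5⟩ := h5 (ε / 4) (by positivity)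
  obtain ⟨T, t1, t2⟩ := hNET2 Λ (8 * Λ) R ε hε
  refine eventually_atTop.1 ?_
  filter_upwards [eventually_ge_atTop N1, eventually_ge_atTop N2, eventually_ge_atTop N3,
    eventually_ge_atTop N5, eventually_ge_atTop 1, evT hb 1, evT hb ((d + 1) * (4 * Λ * d) / d0),
    evr (1 / (κ / (8 * Λ))) (by norm_num : (-(5 * (1 / 100)) : ℝ) < 0),
    evr (8 * C2 * (4 * Λ * d) / c1 / s0)
      (by linarith : c1 * b / 2 + (1 - c1 * b) + c1 * b / 4 < 1),
    small (le_refl (1 / 100 : ℝ)) ((|W| + 1) * (1 + #T) * 4 / ε),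
    evr ((|W| + 1) * 4 / ε) (by norm_num : (5 * (1 / 100) + -(6 / 100) : ℝ) < 0)]
    with N n1 n2 n3 n5 n0 m1 m2 m3 m4 m5 m6
  have NN : (1 : ℝ) ≤ N := by exact_mod_cast n0
  have N0 : (0 : ℝ) < N := by linarith
  refine ⟨(N : ℝ) ^ (-(5 * (1 / 100)) : ℝ), by positivity, ?_⟩
  intro m S L K hL
  have hL' : ∀ e, 1 ≤ L e ∧ L e ≤ Λ := fun e => ⟨(hL e).1, (hL e).2.trans hΛ'⟩
  have hm : 2 * (m : ℝ) = d * N := by exact_mod_cast S.hm
  have m0 : 1 ≤ m := by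
    have : (0 : ℝ) < m := by linarith [mul_pos (by linarith : (0 : ℝ) < d) N0]
    exact_mod_cast this
  have h1 := h1 N n1 m c S
  have h2 := h2 N n2 m S
  have h3 := h3 N n3 m S L
  have h5 := hFIB d N m (fun M => ¬ Sparse M (min e1 e2) d0) (ε / 4) (le_of_eq_of_le
    (congrArg (fun s : Finset (Cfg d N) => (#s : ℝ)) (filter_congr_decidable _ _ _)) (h5 N n5))
  have eT : √(b * log N) ^ 2 ≤ 4 / c1 * (N : ℝ) ^ (c1 * b / 4) := by
    rw [sq_sqrt (mul_nonneg hb.le (log_nonneg NN))]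
    refine (mul_le_mul_of_nonneg_left (log_le_rpow_div N0.le (by positivity : 0 < c1 * b / 4))
      hb.le).trans (le_of_eq ?_)
    field_simp
  have hu1 : (N : ℝ) ^ (-(5 * (1 / 100)) : ℝ) * (N : ℝ) ^ (5 * (1 / 100) : ℝ) = 1 := by
    rw [← rpow_add N0, neg_add_cancel, rpow_zero]
  have hv1 : 1 ≤ (N : ℝ) ^ (5 * (1 / 100) : ℝ) := one_le_rpow NN (by norm_num)
  have hv2 : (N : ℝ) ^ (5 * (1 / 100) : ℝ) ≤ N := rpow_le_self_of_one_le NN (by norm_num)
  have hu : 0 < (N : ℝ) ^ (-(5 * (1 / 100)) : ℝ) := by positivity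
  have hw : 0 < (N : ℝ) ^ (-(6 / 100) : ℝ) := by positivity
  rw [rpow_zero] at m3 m6
  rw [rpow_add N0] at m6
  generalize √(b * log N) = U at *
  generalize (N : ℝ) ^ (-(5 * (1 / 100)) : ℝ) = u at *
  generalize (N : ℝ) ^ (5 * (1 / 100) : ℝ) = v at *
  generalize (N : ℝ) ^ (-(6 / 100) : ℝ) = w at *
  have m3' : u ≤ κ / (8 * Λ) := by
    rwa [div_mul_eq_mul_div, one_mul, div_le_one (by positivity)] at m3
  set J := (range (⌊W / u⌋₊ + 1)).filter fun j : ℕ =>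
    κ / 2 * m ≤ ∑ e, sin ((K + j * u) * L e) ^ 2 with hJ
  have hJc : (#J : ℝ) ≤ (|W| + 1) * v := by
    have a1 : #J ≤ ⌊|W| / u⌋₊ + 1 := (card_filter_le _ _).trans (by
      rw [card_range]
      exact Nat.succ_le_succ (Nat.floor_le_floor
        (div_le_div_of_nonneg_right (le_abs_self W) hu.le)))
    have a2 := (Nat.cast_le (α := ℝ)).2 a1
    have a3 := Nat.floor_le (div_nonneg (abs_nonneg W) hu.le)
    have a4 : |W| / u = |W| * v := by
      rw [div_eq_iff hu.ne', mul_assoc, mul_comm v, hu1, mul_one]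
    push_cast at a2
    linarith
  refine (cover (J := J) (T := T) h5 (fun j _ => h1 fun e => (K + j * u) * L e)
    (fun j hj => h2 (fun e => (K + j * u) * L e) (mem_filter.1 hj).2)
    (fun j hj p hp => h3 (fun e => (K + j * u) * L e) p.1 p.2.1 p.2.2 hL' (mem_filter.1 hj).2 (t1 p hp).1
      (t1 p hp).2) fun g hg => ?_).trans ?_
  · have hbad := (mem_filter.1 hg).2
    simp only [mem_filter, mem_univ, true_and]
    by_cases g2 : Sparse (cfg g) (min e1 e2) d0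
    swap
    · exact .inl g2
    right
    obtain ⟨k, θ, z, s, t, k1, k2, k0, k3, e1', e2', e3, e4⟩ := hbad
    obtain ⟨j, j1, f1⟩ := net (W := W) hu k1 (by rw [hW]; exact k2)
    have f00 : ∀ e, |k * L e - (K + j * u) * L e| ≤ Λ * u := fun e => by
      rw [← sub_mul, abs_mul, abs_of_pos (by linarith [(hL e).1] : 0 < L e), mul_comm]
      exact mul_le_mul (hL' e).2 f1 (abs_nonneg _) (by linarith)
    have f0 : ∀ e, |θ e - (K + j * u) * L e| ≤ 2 * Λ * u := fun e => by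
      have a1 := abs_sub_le (θ e) (k * L e) ((K + j * u) * L e)
      have a2 : u ≤ Λ * u := le_mul_of_one_le_left hu.le hΛ
      linarith [k0 e, f00 e]
    have f2 : κ / 2 * m ≤ ∑ e, sin ((K + j * u) * L e) ^ 2 := by
      have a1 : 2 * Λ * u ≤ κ / 4 := by
        have := (le_div_iff₀ (by positivity)).1 m3'
        linarith
      have a2 : ∑ e, sin (θ e) ^ 2 ≤ ∑ e, (sin ((K + j * u) * L e) ^ 2 + κ / 2) :=
        sum_le_sum fun e _ => by linarith [sin_sq_le (θ e) ((K + j * u) * L e), f0 e]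
      rw [sum_add_distrib, sum_const, card_univ, Fintype.card_fin, nsmul_eq_mul] at a2
      linarith
    refine ⟨j, mem_filter.2 ⟨j1, f2⟩, ?_⟩
    by_cases g1 : S.Good (fun e => (K + j * u) * L e) (1 / 100) g
    swap
    · exact .inl g1
    right
    have U0 : 0 < U := by linarith
    have f3 := hNRM2 d N m c S L θ Λ g z hL' m0 e1' e2'
    obtain ⟨q1, q2, q3⟩ := hNB d N z U C1 (4 * Λ * d * N) (2 - c1 * b) U0 (by linarith)
    have n0' : 0 ≤ nv z U := Nat.cast_nonneg _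
    have f5 : (d + 1) * nv z U ≤ d0 * N := few Lz hd0 n0' m1 m2 (q2.trans f3)
    have sp : ∀ e, min e1 e2 ≤ e → Sparse (cfg g) e d0 := fun e he V hV => (g2 V hV).trans
      (mul_le_mul_of_nonneg_right (by linarith) (Nat.cast_nonneg _))
    by_cases g3 : 2 * (N : ℝ) ^ (1 - c1 * b) ≤ nv z U
    · refine .inl ⟨g1, θ, z, e1', f0, f3, ?_⟩
      have a1 := h41 N m S _ g z U d0 (sp _ (min_le_left _ _)) e1' U0 f5
      simp only [rpow_one] at a1
      linarith [q1 a1]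
    · obtain ⟨p, p1, p2⟩ := t2 d N m L s t g z m0 hL'
        (f3.trans_eq (by linear_combination -(4 * Λ) * hm)) e3 e4
      refine .inr ⟨p, p1, g1, θ, z, e1', f0, f3, e2', ?_, p2⟩
      have a1 := h42 N m S _ g z U d0 (sp _ (min_le_right _ _)) e1' U0 f5
      have a2 := q3 f3 (by linarith)
      have a3 : U ^ (2 - c1 * b) ≤ 4 / c1 * (N : ℝ) ^ (c1 * b / 4) := by
        refine le_trans ?_ eT
        rw [← rpow_two]
        exact rpow_le_rpow_of_exponent_le m1 (by linarith)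
      have a4 : (4 * Λ * d) ^ (c1 * b / 2) ≤ 4 * Λ * d := rpow_le_self_of_one_le Lz (by linarith)
      rw [show 1 - (2 - c1 * b) / 2 = c1 * b / 2 by ring, mul_rpow (by linarith) N0.le] at a2
      rw [rpow_one, rpow_add N0, rpow_add N0, div_mul_eq_mul_div, div_le_iff₀ hs0] at m4
      calc _ ≤ _ := a2
        _ ≤ (4 * Λ * d) * (N : ℝ) ^ (c1 * b / 2) * (C2 * (4 / c1 * (N : ℝ) ^ (c1 * b / 4)) *
            (2 * (N : ℝ) ^ (1 - c1 * b))) := by
          refine mul_le_mul (mul_le_mul_of_nonneg_right a4 (by positivity)) (a1.trans ?_)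
            (sum_nonneg fun h _ => rpow_nonneg (sqrt_nonneg _) _) (by positivity)
          exact mul_le_mul (mul_le_mul_of_nonneg_left a3 (by linarith)) (not_le.1 g3).le n0'
            (by positivity)
        _ = 8 * C2 * (4 * Λ * d) / c1 *
            ((N : ℝ) ^ (c1 * b / 2) * (N : ℝ) ^ (1 - c1 * b) * (N : ℝ) ^ (c1 * b / 4)) := by
          ring
        _ ≤ _ := by linarith
  · refine fin hε (Nat.cast_nonneg _) ?_ ?_
    · refine (mul_le_mul_of_nonneg_right hJc hw.le).trans ?_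
      calc _ = ε / 4 * ((|W| + 1) * 4 / ε * (v * w)) := by field_simp
        _ ≤ _ := mul_le_of_le_one_right (by positivity) m6
    · refine (mul_le_mul_of_nonneg_right (hJc.trans (mul_le_mul_of_nonneg_left hv2
        (by positivity))) (by positivity)).trans ?_
      calc _ = ε / 4 * ((|W| + 1) * (1 + #T) * 4 / ε * N * exp (-(N : ℝ) ^ (1 - 1 / 100 : ℝ))) := by
            field_simp
        _ ≤ _ := mul_le_of_le_one_right (by positivity) m5

end Pool.Agent.P.MP_6b977f_mp.QG
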