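import Pool.Agent.P.MP_6b977f_mp.QG.IfaceB
import Pool.Agent.P.MP_6b977f_mp.RG.LibK

/-! Step CORE. -/

namespace Pool.Agent.P.MP_6b977f_mp.QG

open Finset MeasureTheory Real Matrix RG
open scoped Classical

namespace COREx

theorem near {ι : Type} [Fintype ι] (f ψ : ι → ℝ) :
    ∑ x, f x ^ 2 ≤ 2 * ∑ x, ψ x ^ 2 + 2 * ∑ x, (f x - ψ x) ^ 2 := by
  rw [mul_sum, mul_sum, ← sum_add_distrib]
  exact sum_le_sum fun x _ => by nlinarith [sq_nonneg (f x - 2 * ψ x)]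

end COREx

theorem p_CORE (hPEN : S_PEN) (hKEY : S_KEY) :
    S_CORE := by
  intro d L a hd hL ha ha'
  obtain ⟨C, hC, hK⟩ := hKEY d hd
  have d1 : (1 : ℝ) ≤ d := by exact_mod_cast hd
  obtain ⟨ρ, hρ⟩ : ∃ ρ : ℝ, ρ = d * (2 * L + 4) := ⟨_, rfl⟩
  have ρ1 : 1 ≤ ρ := by nlinarith
  obtain ⟨N0, hN0⟩ := Filter.eventually_atTop.1 ((Filter.eventually_ge_atTop 1).and
    ((ev_rpow 2 (by linarith : -a < 0)).and
    ((ev_rpow (C * ρ * 10 + 2) (by linarith : 1 / 2 + 4 * a + 1 / 5 < 1 - a)).and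
    (ev_rpow (2 * ρ) (by linarith : 1 + (1 / 2 + 4 * a) < 2)))))
  refine ⟨17 * C + 3 + 8 * d, N0, by nlinarith, fun N hN m c S θ K g1 g2 b B u hu h1 h2 => ?_⟩
  obtain ⟨n1, n2, n3, n4⟩ := hN0 N hN
  have N1 : (1 : ℝ) ≤ N := by exact_mod_cast n1
  have N0 : (0 : ℝ) < N := by linarith
  rw [rpow_zero] at n2
  have e2 : (N : ℝ) ^ (-(2 * a)) = ((N : ℝ) ^ (-a)) ^ 2 := by
    rw [← rpow_natCast, ← rpow_mul N0.le]; congr 1; push_cast; ring
  have e1 : (N : ℝ) ^ (1 - a) = N * (N : ℝ) ^ (-a) := by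
    rw [sub_eq_add_neg, rpow_add N0, rpow_one]
  have e4 : ((N : ℝ) ^ (1 / 2 + 4 * a)) ^ 2 * (((N : ℝ) ^ (-a)) ^ 4) ^ 2 = N := by
    rw [← mul_pow, ← rpow_natCast _ 4, ← rpow_mul N0.le, ← rpow_add N0, ← rpow_natCast,
      ← rpow_mul N0.le]
    norm_num
    rw [show (1 / 2 + 4 * a + -(a * 4)) * 2 = 1 by ring, rpow_one]
  have r1 : 1 ≤ (N : ℝ) ^ (1 / 2 + 4 * a) := one_le_rpow N1 (by linarith)
  have e6 : log (2 * N * (ρ * (N : ℝ) ^ (1 / 2 + 4 * a))) ≤ 10 * (N : ℝ) ^ (1 / 5 : ℝ) := by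
    have b1 : 2 * N * (ρ * (N : ℝ) ^ (1 / 2 + 4 * a)) ≤ (N : ℝ) ^ (2 : ℝ) := by
      rw [rpow_add N0, rpow_one] at n4; linarith
    refine (log_le_log (by positivity) b1).trans ?_
    rw [log_rpow N0]
    linarith [log_le_rpow_div N0.le (by norm_num : (0 : ℝ) < 1 / 5)]
  have r2 : 1 ≤ (N : ℝ) ^ (1 / 5 : ℝ) := one_le_rpow N1 (by norm_num)
  rw [rpow_add N0, e1] at n3
  simp only [Sys.Good, e2] at h1
  rw [e1]
  have g0 : 0 < (N : ℝ) ^ (-a) := by positivity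
  rw [← hu] at h1 n2 n3 e4 g0 ⊢
  clear hu e1 e2 n4
  generalize (N : ℝ) ^ (1 / 2 + 4 * a) = R at *
  generalize (N : ℝ) ^ (1 / 5 : ℝ) = R' at *
  have u1 : u ≤ 1 / 2 := by linarith
  have u2 : u ^ 2 ≤ u := by nlinarith
  have u3 : u ^ 3 ≤ 1 / 2 := by nlinarith [pow_le_one₀ g0.le (by linarith : u ≤ 1) (n := 2)]
  have u8 : (u ^ 4) ^ 2 ≤ u := by
    calc (u ^ 4) ^ 2 = u * u ^ 7 := by ring
      _ ≤ u := mul_le_of_le_one_right g0.le (pow_le_one₀ g0.le (by linarith))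
  have := hK N m c S θ (u ^ 4) (u ^ 3 / 4) u u (ρ * R) (-(d * log 2) + u)
    ((17 * C + 3 + 8 * d) * u) (K ⊕ Bool)
    (Sum.elim g1 fun k v s => if k then (S.vs v).pen (rl (u ^ 4) s) else
      ∑ i, ‖rl (u ^ 4) (at1 s i)‖ ^ 2)
    (Sum.elim g2 fun k e s => if k then (eds θ e).pen (rl (u ^ 4) s) else 0)
    (Sum.elim b fun k => if k then (17 * C + 3 + 8 * d) * u * N else ρ * N) B n1
    (by positivity) (by positivity) (by nlinarith) g0 u1 (one_le_mul_of_one_le_of_one_le ρ1 r1)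
    ?_ ?_
  · refine this.trans ?_
    rw [mul_comm]
    refine mul_le_mul_of_nonneg_right (exp_le_exp.2 ?_) (Nat.cast_nonneg _)
    have f1 : C * (u ^ 4) ^ 2 / (u * (u ^ 3 / 4) ^ 2) = 16 * C * u := by field_simp; ring
    have f2 : C * (ρ * R) * log (2 * N * (ρ * R)) ≤ C * (ρ * R) * (10 * R') :=
      mul_le_mul_of_nonneg_left e6 (by positivity)
    have f3 : 1 ≤ R * R' := one_le_mul_of_one_le_of_one_le r1 r2
    rw [f1]
    nlinarith [mul_pos N0 g0, mul_nonneg (mul_pos N0 g0).le (Nat.cast_nonneg (α := ℝ) d)]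
  · intro g hg
    obtain ⟨⟨γ, b0, b1⟩, ψ, b2, b3, b5⟩ := h1 g hg
    refine ⟨γ, ψ, by nlinarith, b1, b2, fun φ hφ => ?_⟩
    have dN : 0 ≤ (d : ℝ) * N := by positivity
    have c3 : ∑ x, (u ^ 4 * φ x) ^ 2 ≤ ρ * N := by
      have := COREx.near (fun x => u ^ 4 * φ x) ψ
      rw [hρ]
      nlinarith [mul_le_mul_of_nonneg_right (u2.trans (by linarith : u ≤ 1)) dN,
        mul_le_mul_of_nonneg_right d1 (mul_nonneg hL N0.le)]
    refine ⟨?_, ?_⟩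
    · simp only [mul_pow, ← mul_sum] at c3 ⊢
      refine le_of_mul_le_mul_left ?_ (by positivity : 0 < (u ^ 4) ^ 2)
      refine c3.trans ?_
      rw [show (u ^ 4) ^ 2 * (ρ ^ 2 * R ^ 2) = ρ ^ 2 * (R ^ 2 * (u ^ 4) ^ 2) by ring, e4]
      exact mul_le_mul_of_nonneg_right (by nlinarith) N0.le
    · rintro (k | _ | _)
      · exact b5 φ hφ k
      · simp only [Sum.elim_inr, Bool.false_eq_true, if_false, sum_const_zero, add_zero]
        rw [sum_vst φ fun s => ‖rl (u ^ 4) s‖ ^ 2]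
        refine (sum_le_sum fun x _ => norm_sq_le _).trans (le_trans (le_of_eq ?_) c3)
        rw [Fintype.sum_prod_type (α₂ := Fin 2)]
        rfl
      · have := (hPEN d N m c S θ g).2.1 (rl (u ^ 4) φ) ψ
        refine this.trans ?_
        simp only [Sum.elim_inr, if_true, rl]
        nlinarith [mul_le_mul_of_nonneg_right u8 N0.le, mul_pos N0 g0, mul_pos hC (mul_pos N0 g0),
          mul_le_mul_of_nonneg_right u2 dN]
  · intro A η s2 s3
    refine h2 A η s2 (s3 (.inr true)) ?_ fun k => s3 (.inl k)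
    have t := s3 (.inr false)
    simp only [Sum.elim_inr, Bool.false_eq_true, if_false, LL.E_const, sum_const_zero, add_zero,
      LL.E_sum] at t
    rw [A.mV fun s => ‖rl (u ^ 4) s‖ ^ 2, hρ] at t
    refine le_of_mul_le_mul_left (t.trans_eq (by ring)) (by positivity : (0 : ℝ) < N * d)

end Pool.Agent.P.MP_6b977f_mp.QG
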