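import Pool.Agent.P.MP_6b977f_mp.QG.IfaceB

/-! Step DET. -/

namespace Pool.Agent.P.MP_6b977f_mp.QG

open Finset MeasureTheory Real Matrix RG
open scoped Classical

namespace DETx

theorem fac {a w : ℂ} {r : ℝ} (ha : ‖a‖ ≤ 1) (hw : ‖w‖ = r) : 1 - r ≤ ‖1 - a * w‖ := by
  have h1 : ‖a * w‖ ≤ r := by
    rw [norm_mul, ← hw]; exact mul_le_of_le_one_left (norm_nonneg _) ha
  have h2 := norm_sub_norm_le (1 : ℂ) (a * w)
  rw [norm_one] at h2
  linarith

theorem nlog {x : ℝ} (h0 : 0 ≤ x) (h : x ≤ 1 / 2) : -(2 * x) ≤ log (1 - x) := by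
  have h1 : 0 < 1 - x := by linarith
  have h2 := Real.one_sub_inv_le_log_of_pos h1
  have h3 : (1 - x)⁻¹ ≤ 1 + 2 * x := by
    rw [inv_le_iff_one_le_mul₀ h1]; nlinarith
  linarith

theorem ld (hEIG1 : S_EIG1) {d N m : ℕ} {c : ℝ} (S : Sys d N m c) (θ : Fin m → ℝ) (g : Glue d N m)
    (hN : 1 ≤ N) {s γ : ℝ} (s0 : 0 < s) (s1 : s < 1) (hγ : γ ^ 2 = (1 - s) ^ 2 / (2 * s))
    {u : Fin N × Fin d → ℂ} (hu : ∀ j, ‖u j‖ ≤ 1) {w : ℂ} (hw : ‖w‖ = s ^ 2)
    (hd : (1 - s ^ 2 • (S.Xm * Ym θ g)).det = ∏ j, ‖1 - u j * w‖ ^ 2) :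
    N * S.LD θ g γ = ∑ j, log ‖1 - u j * w‖ - N * (d * log 2) - N * (d * log s) := by
  have hN0 : (N : ℝ) ≠ 0 := Nat.cast_ne_zero.2 (by omega)
  have h1 : ∀ j, ‖1 - u j * w‖ ≠ 0 := fun j => by
    have := fac (hu j) hw
    have h2 : s ^ 2 < 1 := by nlinarith
    exact ne_of_gt (by linarith)
  rw [Sys.LD, hEIG1 d N m c S θ g s γ s0 s1 hγ, hd,
    Real.log_prod (fun j _ => pow_ne_zero 2 (h1 j)), Real.log_mul two_ne_zero s0.ne']
  simp only [Real.log_pow, ← mul_sum]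
  generalize ∑ j, log ‖1 - u j * w‖ = F
  field_simp
  push_cast
  ring

theorem gam {s : ℝ} (s0 : 0 < s) : ((1 - s) / √(2 * s)) ^ 2 = (1 - s) ^ 2 / (2 * s) := by
  rw [div_pow, Real.sq_sqrt (by positivity)]

theorem gam2 {s : ℝ} (s0 : 0 < s) (s1 : s < 1) : (1 - s) / 2 ≤ (1 - s) / √(2 * s) := by
  refine div_le_div_of_nonneg_left (by linarith) (Real.sqrt_pos.2 (by positivity)) ?_
  exact Real.sqrt_le_iff.2 ⟨by norm_num, by linarith⟩

theorem pw {y : ℝ} (hy : 0 ≤ y) (k : ℕ) (e : ℝ) (he : e = -(1 / 100) * k) :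
    y ^ e = (y ^ (-(1 / 100) : ℝ)) ^ k := by
  rw [he, Real.rpow_mul hy, Real.rpow_natCast]

theorem small {x N : ℝ} (x0 : 0 < x) (x1 : x ≤ 1) (xN : 1 ≤ x ^ 3 * N) :
    exp (-(x * N)) * -log x ≤ x := by
  have q1 : -log x ≤ x⁻¹ := by
    rw [← Real.log_inv]; linarith [Real.log_le_sub_one_of_pos (inv_pos.2 x0)]
  have q2 : exp (-(x * N)) ≤ x ^ 2 := by
    rw [Real.exp_neg, inv_le_iff_one_le_mul₀ (exp_pos _)]
    have := mul_le_mul_of_nonneg_left (Real.add_one_le_exp (x * N)) (sq_nonneg x)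
    linarith [sq_nonneg x]
  calc _ ≤ x ^ 2 * x⁻¹ := mul_le_mul q2 q1 (neg_nonneg.2 (Real.log_nonpos x0.le x1)) (sq_nonneg x)
    _ = x := by field_simp

theorem pt (hEIG1 : S_EIG1) {d N m : ℕ} {c : ℝ} (S : Sys d N m c) (θ : Fin m → ℝ) (hN1 : 1 ≤ N)
    {C x : ℝ} (hC : 0 < C) (x0 : 0 < x) (x1 : x ≤ 1 / 4) (xN : 1 ≤ x ^ 3 * N)
    (a : Glue d N m → Fin N × Fin d → ℂ) (ha : ∀ g j, ‖a g j‖ ≤ 1)
    (hdet : ∀ g (φ r : ℝ), (1 - r • (S.Xm * Ym (fun e => θ e - φ) g)).det =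
      ∏ j, ‖1 - a g j * circleMap 0 r φ‖ ^ 2)
    (hL : ∀ (θ' : Fin m → ℝ) (γ : ℝ), x ^ 2 ≤ γ →
      (#(univ.filter fun g : Glue d N m => S.LD θ' g γ ≤ -(d * log 2) - C * x) : ℝ) ≤
        exp (-(x * N)) * Fintype.card (Glue d N m)) :
    ∀ w ∈ Metric.sphere (0 : ℂ) |(1 - x) ^ 2|,
      ∑ g : Glue d N m, max (-∑ j, log ‖1 - a g j * w‖) 0 ≤
        (C + 3 * d) * x * N * Fintype.card (Glue d N m) := by
  intro w hw
  have hNp : (0 : ℝ) < N := Nat.cast_pos.2 hN1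
  have hd0 : (0 : ℝ) ≤ d := Nat.cast_nonneg d
  have s0 : 0 < 1 - x := by linarith
  have s1 : 1 - x < 1 := by linarith
  rw [← range_circleMap] at hw
  obtain ⟨φ, rfl⟩ := hw
  have hw : ‖circleMap 0 ((1 - x) ^ 2) φ‖ = (1 - x) ^ 2 := by
    rw [norm_circleMap_zero, abs_of_nonneg (sq_nonneg _)]
  have hγ : x ^ 2 ≤ (1 - (1 - x)) / √(2 * (1 - x)) := (by nlinarith : _ ≤ _).trans (gam2 s0 s1)
  have hb := hL (fun e => θ e - φ) _ hγ
  have hlx : 0 ≤ -log x := neg_nonneg.2 (Real.log_nonpos x0.le (by linarith))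
  have hxx : x ≤ 1 - (1 - x) ^ 2 := by nlinarith
  have h1 : ∀ g : Glue d N m, max (-∑ j, log ‖1 - a g j * circleMap 0 ((1 - x) ^ 2) φ‖) 0 ≤
      (C + 2 * d) * x * N + if S.LD (fun e => θ e - φ) g ((1 - (1 - x)) / √(2 * (1 - x))) ≤
        -(d * log 2) - C * x then N * d * -log x else 0 := by
    intro g
    have p0 : 0 ≤ (C + 2 * d) * x * N := by positivity
    split_ifs with h
    · have p1 : 0 ≤ N * d * -log x := by positivity
      refine max_le ?_ (by linarith)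
      have h2 : ∑ _j : Fin N × Fin d, log x ≤
          ∑ j, log ‖1 - a g j * circleMap 0 ((1 - x) ^ 2) φ‖ :=
        sum_le_sum fun j _ => Real.log_le_log x0 (hxx.trans (fac (ha g j) hw))
      simp only [sum_const, card_univ, Fintype.card_prod, Fintype.card_fin, nsmul_eq_mul,
        Nat.cast_mul] at h2
      linarith
    · refine max_le ?_ (by linarith)
      have h2 := ld hEIG1 S (fun e => θ e - φ) g hN1 s0 s1 (gam s0) (ha g) hw (hdet g φ _)
      have h3 := mul_le_mul_of_nonneg_left (not_le.1 h).le hNp.le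
      have h4 := mul_le_mul_of_nonneg_left
        (mul_le_mul_of_nonneg_left (nlog x0.le (by linarith)) hd0) hNp.le
      linarith
  refine (sum_le_sum fun g _ => h1 g).trans ?_
  rw [sum_add_distrib, ← sum_filter, sum_const, sum_const, card_univ, nsmul_eq_mul, nsmul_eq_mul]
  have h6 := mul_le_mul_of_nonneg_right hb (show 0 ≤ N * d * -log x by positivity)
  have h7 := mul_le_mul_of_nonneg_left (small x0 (by linarith) xN)
    (show (0 : ℝ) ≤ N * d * Fintype.card (Glue d N m) by positivity)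
  linarith

end DETx

open DETx in
theorem p_DET (hEIG1 : S_EIG1) (hEIG2 : S_EIG2) (hJEN : S_JEN) (hLOW : S_LOW) :
    S_DET := by
  intro d hd
  obtain ⟨C, N1, hC, hL⟩ := hLOW d hd
  have hd0 : (0 : ℝ) ≤ d := Nat.cast_nonneg d
  have ht : Filter.Tendsto (fun N : ℕ => (N : ℝ) ^ (-(1 / 100) : ℝ)) Filter.atTop (nhds 0) :=
    (tendsto_rpow_neg_atTop (by norm_num)).comp tendsto_natCast_atTop_atTop
  obtain ⟨N2, hN2⟩ := Filter.eventually_atTop.1
    (ht.eventually (gt_mem_nhds (show (0 : ℝ) < 1 / (4 * (C + 3 * d) + 2) by positivity)))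
  refine ⟨max 1 (max N1 N2), fun N hN m c S θ => ?_⟩
  have hN1 : 1 ≤ N := (le_max_left _ _).trans hN
  have hL' := hL N ((le_max_left _ _).trans ((le_max_right _ _).trans hN)) m c S
  have hsm := hN2 N ((le_max_right _ _).trans ((le_max_right _ _).trans hN))
  have hNp : (0 : ℝ) < N := Nat.cast_pos.2 hN1
  have e1 := pw hNp.le 10 (-(1 / 10)) (by norm_num)
  have e2 := pw hNp.le 2 (-(2 * (1 / 100))) (by norm_num)
  have e3 := pw hNp.le 6 (-(6 / 100)) (by norm_num)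
  have e4 := pw hNp.le 100 (-1) (by norm_num)
  have u0 : 0 < (N : ℝ) ^ (-(1 / 100) : ℝ) := Real.rpow_pos_of_pos hNp _
  rw [e1] at hL'
  rw [e3]
  simp only [Sys.Good, e2]
  rw [Real.rpow_neg_one] at e4
  generalize (N : ℝ) ^ (-(1 / 100) : ℝ) = u at *
  have hsm' : u * (4 * (C + 3 * d) + 2) < 1 := (lt_div_iff₀ (by positivity)).1 hsm
  have hCu : 0 < u * C := mul_pos u0 hC
  have hdu : 0 ≤ u * d := mul_nonneg u0.le hd0
  have u1 : u ≤ 1 / 2 := by linarith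
  have u2 : u ^ 2 ≤ 1 / 4 := by nlinarith
  have u2' : 0 < u ^ 2 := by positivity
  have x0 : 0 < u ^ 10 := by positivity
  have x1 : u ^ 10 ≤ u ^ 2 := pow_le_pow_of_le_one u0.le (by linarith) (by norm_num)
  have xN : 1 ≤ (u ^ 10) ^ 3 * N := by
    have h1 : u ^ 100 * N = 1 := by rw [← e4]; exact inv_mul_cancel₀ hNp.ne'
    have h2 : u ^ 100 ≤ (u ^ 10) ^ 3 := by
      rw [← pow_mul]; exact pow_le_pow_of_le_one u0.le (by linarith) (by norm_num)
    exact h1.symm.le.trans (mul_le_mul_of_nonneg_right h2 hNp.le)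
  have hx7 : u ^ 10 = u ^ 3 * (u * u ^ 6) := by ring
  have u6 : 0 < u ^ 6 := by positivity
  have u3 : 0 < u ^ 3 := by positivity
  have hu3 : 2 / u ^ 2 * (N * u ^ 3 / 4) = N * u / 2 := by field_simp; ring
  generalize u ^ 10 = x at *
  choose a ha hdet using hEIG2 d N m c S θ
  have s0 : 0 < 1 - x := by linarith
  have s1 : 1 - x < 1 := by linarith
  have t0 : 0 < 1 - 2 * u ^ 2 := by linarith
  have t1 : 1 - 2 * u ^ 2 < 1 := by linarith
  have hrr : u ^ 2 ≤ (1 - x) ^ 2 - (1 - 2 * u ^ 2) ^ 2 := by nlinarith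
  have hr1 : (1 - x) ^ 2 < 1 := by nlinarith
  have hJ := fun g => hJEN _ (a g) ((1 - 2 * u ^ 2) ^ 2) ((1 - x) ^ 2) (ha g) (by positivity)
    (by linarith) hr1
  have card0 : (0 : ℝ) ≤ Fintype.card (Glue d N m) := Nat.cast_nonneg _
  have hpt := pt hEIG1 S θ hN1 hC x0 (by linarith) xN a ha hdet fun θ' γ =>
    hL' θ' x γ le_rfl (by linarith)
  have havg := circleAverage_mono_on_of_le_circle
    (CircleIntegrable.fun_sum univ fun g _ => (hJ g).1) hpt
  rw [circleAverage_fun_sum fun g _ => (hJ g).1] at havg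
  have hnn : ∀ g : Glue d N m,
      0 ≤ circleAverage (fun w => max (-∑ j, log ‖1 - a g j * w‖) 0) 0 ((1 - x) ^ 2) :=
    fun g => circleAverage_nonneg_of_nonneg fun w _ => le_max_right _ _
  have hbad : ∀ g ∈ univ.filter fun g : Glue d N m =>
      ¬ ∃ γ : ℝ, u ^ 2 ≤ γ ∧ S.LD θ g γ ≤ -(d * log 2) + u,
      N * u ^ 3 / 4 ≤
        circleAverage (fun w => max (-∑ j, log ‖1 - a g j * w‖) 0) 0 ((1 - x) ^ 2) := by
    intro g hg
    by_contra hlt
    refine (mem_filter.1 hg).2 ⟨_, (by linarith : _ ≤ _).trans (gam2 t0 t1), ?_⟩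
    have h1 := hdet g 0 ((1 - 2 * u ^ 2) ^ 2)
    simp only [sub_zero, circleMap_zero, Complex.ofReal_zero, zero_mul, Complex.exp_zero,
      mul_one] at h1
    have h2 := ld hEIG1 S θ g hN1 t0 t1 (gam t0) (ha g)
      (by rw [Complex.norm_real, Real.norm_of_nonneg (sq_nonneg _)]) h1
    have h3 := (hJ g).2.trans (mul_le_mul (div_le_div_of_nonneg_left zero_le_two u2' hrr)
      (not_le.1 hlt).le (hnn g) (by positivity))
    have h4 := mul_le_mul_of_nonneg_left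
      (mul_le_mul_of_nonneg_left (nlog (x := 2 * u ^ 2) (by linarith) (by linarith)) hd0) hNp.le
    refine le_of_mul_le_mul_left ?_ hNp
    have h5 : 4 * d * u ^ 2 ≤ u / 2 := by
      have := mul_le_mul_of_nonneg_left (show 8 * (u * d) ≤ 1 by linarith) u0.le
      linarith
    have h6 := mul_le_mul_of_nonneg_left h5 hNp.le
    rw [hu3] at h3
    linarith
  have h1 := (card_nsmul_le_sum _ _ _ hbad).trans
    ((sum_le_sum_of_subset_of_nonneg (subset_univ _) fun g _ _ => hnn g).trans havg)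
  rw [nsmul_eq_mul, hx7] at h1
  refine le_of_mul_le_mul_right (h1.trans ?_) (show 0 < N * u ^ 3 / 4 by positivity)
  have h2 : (C + 3 * d) * u ≤ 1 / 4 := by linarith
  have h3 := mul_le_mul_of_nonneg_right h2
    (show 0 ≤ u ^ 3 * u ^ 6 * N * Fintype.card (Glue d N m) by positivity)
  linarith

end Pool.Agent.P.MP_6b977f_mp.QG
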