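import Pool.Agent.P.MP_6b977f_mp.QG.IfaceC
import Pool.Agent.P.MP_6b977f_mp.QG.IfaceB
import Pool.Agent.P.MP_6b977f_mp.QG.TDET

/-! Step DET2. -/

namespace Pool.Agent.P.MP_6b977f_mp.QG

open Finset MeasureTheory Real Matrix RG
open scoped Classical

namespace DET2x

theorem big {x : ℝ} (x0 : 0 < x) :
    ∃ N0 : ℕ, ∀ N : ℕ, N0 ≤ N → (N : ℝ) ^ (-(1 / 10) : ℝ) ≤ x ∧ 1 ≤ x ^ 3 * N := by
  have ht : Filter.Tendsto (fun N : ℕ => (N : ℝ) ^ (-(1 / 10) : ℝ)) Filter.atTop (nhds 0) :=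
    (tendsto_rpow_neg_atTop (by norm_num)).comp tendsto_natCast_atTop_atTop
  exact Filter.eventually_atTop.1 ((ht.eventually (ge_mem_nhds x0)).and
    ((tendsto_natCast_atTop_atTop.const_mul_atTop (pow_pos x0 3)).eventually_ge_atTop 1))

end DET2x

open DETx in
theorem p_DET2 (hEIG1 : S_EIG1) (hEIG2 : S_EIG2) (hJEN : S_JEN) (hLOW : S_LOW) :
    S_DET2 := by
  intro d y ε hd y0 y1 ε0
  obtain ⟨C, N1, hC, hL⟩ := hLOW d hd
  have hd0 : (0 : ℝ) ≤ d := Nat.cast_nonneg d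
  obtain ⟨x, x0, x1, x2⟩ : ∃ x : ℝ, 0 < x ∧ x ≤ y / 4 ∧ (C + 3 * d) * x ≤ ε * (ε * y / 2) :=
    ⟨min (y / 4) (ε * (ε * y / 2) / (C + 3 * d)), by positivity, min_le_left _ _,
      (le_div_iff₀' (by positivity)).1 (min_le_right _ _)⟩
  obtain ⟨N2, hN2⟩ := DET2x.big x0
  refine ⟨max 1 (max N1 N2), fun N hN m c S θ γ hγ => ?_⟩
  have hN1 : 1 ≤ N := (le_max_left _ _).trans hN
  have hL' := hL N ((le_max_left _ _).trans ((le_max_right _ _).trans hN)) m c S
  obtain ⟨xa, xN⟩ := hN2 N ((le_max_right _ _).trans ((le_max_right _ _).trans hN))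
  have hNp : (0 : ℝ) < N := Nat.cast_pos.2 hN1
  choose a ha hdet using hEIG2 d N m c S θ
  have t0 : 0 < 1 - y := by linarith
  have t1 : 1 - y < 1 := by linarith
  have hrr : y ≤ (1 - x) ^ 2 - (1 - y) ^ 2 := by nlinarith
  have hr1 : (1 - x) ^ 2 < 1 := by nlinarith
  have hJ := fun g => hJEN _ (a g) ((1 - y) ^ 2) ((1 - x) ^ 2) (ha g) (by positivity)
    (by linarith) hr1
  have hpt := pt hEIG1 S θ hN1 hC x0 (by linarith) xN a ha hdet fun θ' γ =>
    hL' θ' x γ xa (by linarith)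
  have havg := circleAverage_mono_on_of_le_circle
    (CircleIntegrable.fun_sum univ fun g _ => (hJ g).1) hpt
  rw [circleAverage_fun_sum fun g _ => (hJ g).1] at havg
  have hnn : ∀ g : Glue d N m,
      0 ≤ circleAverage (fun w => max (-∑ j, log ‖1 - a g j * w‖) 0) 0 ((1 - x) ^ 2) :=
    fun g => circleAverage_nonneg_of_nonneg fun w _ => le_max_right _ _
  have hbad : ∀ g ∈ univ.filter fun g : Glue d N m => -(d * log (2 * (1 - y))) + ε < S.LD θ g γ,
      N * (ε * y / 2) ≤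
        circleAverage (fun w => max (-∑ j, log ‖1 - a g j * w‖) 0) 0 ((1 - x) ^ 2) := by
    intro g hg
    have h0 := mul_lt_mul_of_pos_left (mem_filter.1 hg).2 hNp
    have h1 := hdet g 0 ((1 - y) ^ 2)
    simp only [sub_zero, circleMap_zero, Complex.ofReal_zero, zero_mul, Complex.exp_zero,
      mul_one] at h1
    have h2 := ld hEIG1 S θ g hN1 t0 t1 (γ := γ) (by rw [hγ, sub_sub_cancel]) (ha g)
      (by rw [Complex.norm_real, Real.norm_of_nonneg (sq_nonneg _)]) h1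
    have h3 := (hJ g).2.trans
      (mul_le_mul_of_nonneg_right (div_le_div_of_nonneg_left zero_le_two y0 hrr) (hnn g))
    rw [Real.log_mul two_ne_zero t0.ne'] at h0
    refine le_of_mul_le_mul_left ?_ (show 0 < 2 / y by positivity)
    rw [show 2 / y * (N * (ε * y / 2)) = N * ε by field_simp]
    linarith
  have h1 := (card_nsmul_le_sum _ _ _ hbad).trans
    ((sum_le_sum_of_subset_of_nonneg (subset_univ _) fun g _ _ => hnn g).trans havg)
  rw [nsmul_eq_mul] at h1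
  refine le_of_mul_le_mul_right (h1.trans ?_) (show 0 < N * (ε * y / 2) by positivity)
  have h3 := mul_le_mul_of_nonneg_right x2
    (show (0 : ℝ) ≤ N * Fintype.card (Glue d N m) by positivity)
  linarith

end Pool.Agent.P.MP_6b977f_mp.QG
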