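import Pool.Agent.P.MP_6b977f_mp.QG.IfaceC

/-! Step DIM. -/

namespace Pool.Agent.P.MP_6b977f_mp.QG

open Finset MeasureTheory Real Matrix RG
open scoped Classical

namespace DIMx

theorem vz {d : ℕ} {c : ℝ} {σ : Matrix (Fin d) (Fin d) ℝ} (h : NoBack c σ) (z : PI d → ℝ)
    (hz : ∀ i, ∑ j, σ i j * z (j, 0) = z (i, 0) ∧ ∑ j, σ i j * z (j, 1) = -z (i, 1)) :
    (vx h).pen z = 0 := by
  rw [Node.pen, wsq]
  refine sum_eq_zero fun i _ => ?_
  have : (vx h).wh z (i, 1) = (z (i, 0) - ∑ j, σ i j * z (j, 0)) / 2 +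
      (z (i, 1) + ∑ j, σ i j * z (j, 1)) / 2 := by
    rw [Node.wh, Matrix.mulVec, dotProduct, sum_PI]
    simp only [vx, vxO_apply, div_mul_eq_mul_div, add_mul, ← sum_div, sum_add_distrib, mul_assoc,
      ← mul_sum]
    simp [sub_eq_add_neg]
  rw [this, (hz i).1, (hz i).2]
  simp

theorem ez (θ : ℝ) (z : PI 2 → ℝ) : 2 * (ed θ).pen z =
    (z (1, 0) - (z (0, 0) * cos θ + z (0, 1) * sin θ)) ^ 2 +
      (-z (1, 1) - (z (0, 1) * cos θ - z (0, 0) * sin θ)) ^ 2 := by
  have w0 : (ed θ).wh z (0, 1) = (z (0, 0) - cos θ * z (1, 0) - sin θ * z (1, 1)) / √2 := by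
    simp [Node.wh, Matrix.mulVec, dotProduct, Fintype.sum_prod_type, ed, edO_apply, rf]; ring
  have w1 : (ed θ).wh z (1, 1) = (z (0, 1) - sin θ * z (1, 0) + cos θ * z (1, 1)) / √2 := by
    simp [Node.wh, Matrix.mulVec, dotProduct, Fintype.sum_prod_type, ed, edO_apply, rf]; ring
  have s2 : (√2 : ℝ) ^ 2 = 2 := sq_sqrt (by norm_num)
  rw [Node.pen, wsq, Fin.sum_univ_two, w0, w1, div_pow, div_pow, s2]
  linear_combination (z (1, 0) ^ 2 + z (1, 1) ^ 2 - z (0, 0) ^ 2 - z (0, 1) ^ 2) *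
    sin_sq_add_cos_sq θ

theorem dsum {ι : Type} [Fintype ι] (α : ι → ℝ) (f : ι → ℝ → ℝ) (h : ∀ j, Differentiable ℝ (f j)) :
    deriv (fun x => ∑ j, α j * f j x) = fun x => ∑ j, α j * deriv (f j) x := by
  funext x
  exact (HasDerivAt.fun_sum fun j _ => (h j x).hasDerivAt.const_mul (α j)).deriv

theorem orth {ι : Type} [Fintype ι] {m : ℕ} (L : Fin m → ℝ) (f : ι → Fin m → ℝ → ℝ) (G : ℝ)
    (hc : ∀ j e, Continuous (f j e)) (h1 : ∀ j, ∑ e, ∫ x in (0 : ℝ)..L e, f j e x ^ 2 = G)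
    (h0 : ∀ i j, i ≠ j → ∑ e, ∫ x in (0 : ℝ)..L e, f i e x * f j e x = 0) (β : ι → ℝ) :
    ∑ e, ∫ x in (0 : ℝ)..L e, (∑ j, β j * f j e x) ^ 2 = G * ∑ j, β j ^ 2 := by
  have e1 : ∀ e, ∫ x in (0 : ℝ)..L e, (∑ j, β j * f j e x) ^ 2 =
      ∑ p : ι × ι, β p.1 * β p.2 * ∫ x in (0 : ℝ)..L e, f p.1 e x * f p.2 e x := fun e => by
    simp only [← intervalIntegral.integral_const_mul]
    rw [← intervalIntegral.integral_finsetSum fun p _ =>
      Continuous.intervalIntegrable (by have := hc p.1 e; have := hc p.2 e; fun_prop) _ _]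
    refine intervalIntegral.integral_congr fun x _ => ?_
    simp only [sq, sum_mul_sum, Fintype.sum_prod_type]
    exact sum_congr rfl fun i _ => sum_congr rfl fun j _ => by ring
  simp only [e1]
  rw [sum_comm, Fintype.sum_prod_type, mul_sum]
  refine sum_congr rfl fun i _ => ?_
  rw [sum_eq_single i]
  · simp only [← mul_sum, ← sq, h1]; ring
  · intro j _ hj
    simp only [← mul_sum, h0 i j hj.symm, mul_zero]
  · simp

theorem one (hDUH : S_DUH) (F : ℝ → ℝ) (K l Λ : ℝ) (hK : 0 < K) (hF : ContDiff ℝ 2 F) (h1 : 1 ≤ l)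
    (h2 : l ≤ Λ) (z : PI 2 → ℝ) (a : z (0, 0) = F 0) (b : z (0, 1) = deriv F 0 / K)
    (c : z (1, 0) = F l) (d : z (1, 1) = -deriv F l / K) :
    2 * (ed (K * l)).pen z ≤ Λ / K ^ 2 * (∫ y in (0 : ℝ)..l, (deriv (deriv F) y + K ^ 2 * F y) ^ 2) ∧
    ∫ x in (0 : ℝ)..l, F x ^ 2 ≤ 2 * Λ * ∑ p, z p ^ 2 +
      2 * Λ ^ 2 / K ^ 2 * ∫ y in (0 : ℝ)..l, (deriv (deriv F) y + K ^ 2 * F y) ^ 2 := by
  have hd := hDUH F K l hK hF
  set H := ∫ y in (0 : ℝ)..l, (deriv (deriv F) y + K ^ 2 * F y) ^ 2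
  have hH : 0 ≤ H := intervalIntegral.integral_nonneg (by linarith) fun _ _ => sq_nonneg _
  have hb : l * H / K ^ 2 ≤ Λ / K ^ 2 * H := by
    rw [div_mul_eq_mul_div]; gcongr
  have hb0 : 0 ≤ Λ / K ^ 2 * H := mul_nonneg (div_nonneg (by linarith) (sq_nonneg _)) hH
  constructor
  · have := (hd l ⟨by linarith, le_rfl⟩).trans hb
    rw [ez, a, b, c, d]
    simpa [f0, f1, neg_div] using this
  · have hz : z (0, 0) ^ 2 + z (0, 1) ^ 2 ≤ ∑ p, z p ^ 2 := by
      rw [Fintype.sum_prod_type]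
      simp only [Fin.sum_univ_two]
      nlinarith [sq_nonneg (z (1, 0)), sq_nonneg (z (1, 1))]
    have hs : 0 ≤ ∑ p, z p ^ 2 := sum_nonneg fun _ _ => sq_nonneg _
    have := intervalIntegral.integral_mono_on (μ := volume) (f := fun x => F x ^ 2)
      (show (0 : ℝ) ≤ l by linarith) (Continuous.intervalIntegrable (hF.continuous.pow 2) _ _)
      (intervalIntegrable_const (c := 2 * ∑ p, z p ^ 2 + 2 * (Λ / K ^ 2 * H))) fun x hx => by
        have h3 := (hd x hx).trans hb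
        have h4 : f0 K ![F 0, deriv F 0 / K] x ^ 2 ≤ z (0, 0) ^ 2 + z (0, 1) ^ 2 := by
          rw [← a, ← b]
          simp only [f0, Matrix.cons_val_zero, Matrix.cons_val_one]
          nlinarith [sq_nonneg (z (0, 0) * sin (K * x) - z (0, 1) * cos (K * x)),
            sin_sq_add_cos_sq (K * x)]
        nlinarith [sq_nonneg (deriv F x / K - f1 K ![F 0, deriv F 0 / K] x),
          sq_nonneg (F x - 2 * f0 K ![F 0, deriv F 0 / K] x)]
    rw [intervalIntegral.integral_const, sub_zero, smul_eq_mul] at this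
    refine this.trans ((mul_le_mul_of_nonneg_right h2 (by positivity)).trans (le_of_eq ?_))
    ring

end DIMx

open DIMx in
theorem p_DIM (hDUH : S_DUH) :
    S_DIM := by
  intro d N m c S L g Λ K τ ι _ k f hm hL hK hτ hΛ hf ho
  set zz : ι → HI d N → ℝ := fun j p =>
    if p.2 = 0 then val L (f j) (g p.1) else der L (f j) (g p.1) / K with hzz
  have hc : ∀ j e, ContDiff ℝ 2 (f j e) := fun j e => ((hf j).1.1 e).1
  have hG : (0 : ℝ) < ∑ e, L e :=
    sum_pos (fun e _ => by linarith [(hL e).1]) ⟨⟨0, hm⟩, mem_univ _⟩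
  have hΛ0 : 0 < Λ := by linarith [(hL ⟨0, hm⟩).1, (hL ⟨0, hm⟩).2]
  have hO := orth L f _ (fun j e => (hc j e).continuous) (fun j => (hf j).1.2.2) ho
  have key : ∀ α : ι → ℝ, (∑ e, L e) * ∑ j, α j ^ 2 ≤
      4 * Λ * ∑ p, Fintype.linearCombination ℝ zz α p ^ 2 ∧
      S.pen (fun e => K * L e) g (Fintype.linearCombination ℝ zz α) ≤
        8 * Λ ^ 2 * τ ^ 2 * ∑ p, Fintype.linearCombination ℝ zz α p ^ 2 := by
    intro α
    set z := Fintype.linearCombination ℝ zz α with hz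
    have zp : ∀ p, z p = ∑ j, α j * zz j p := fun p => by
      simp [hz, Fintype.linearCombination_apply]
    have d1 := fun e => dsum α (fun j => f j e) fun j => (hc j e).differentiable (by norm_num)
    have d2 := fun e => dsum α (fun j => deriv (f j e)) fun j => (hc j e).differentiable_deriv_two
    have h1 := fun e => one hDUH (fun x => ∑ j, α j * f j e x) K (L e) Λ hK
      (ContDiff.sum fun j _ => contDiff_const.mul (hc j e)) (hL e).1 (hL e).2 (est g z e)
      (by simp [est, zp, hzz, val]) (by simp [est, zp, hzz, der, d1, sum_div, mul_div_assoc])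
      (by simp [est, zp, hzz, val])
      (by simp [est, zp, hzz, der, d1, sum_div, mul_div_assoc, neg_div])
    have hH : ∑ e, ∫ y in (0 : ℝ)..L e, (deriv (deriv fun x => ∑ j, α j * f j e x) y +
        K ^ 2 * ∑ j, α j * f j e y) ^ 2 ≤ (2 * K * τ) ^ 2 * ((∑ e, L e) * ∑ j, α j ^ 2) := by
      rw [mul_left_comm, mul_sum]
      refine le_trans (le_of_eq ?_) (mul_le_mul_of_nonneg_left (sum_le_sum
        (f := fun j => (α j * (K ^ 2 - k j ^ 2)) ^ 2) fun j _ => ?_) hG.le)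
      · rw [← hO]
        refine sum_congr rfl fun e _ => intervalIntegral.integral_congr fun x hx => ?_
        rw [Set.uIcc_of_le (by linarith [(hL e).1])] at hx
        simp only [d1, d2, mul_sum, ← sum_add_distrib]
        congr 1
        refine sum_congr rfl fun j _ => ?_
        rw [((hf j).1.1 e).2 x hx]; ring
      · rw [mul_pow, mul_comm]
        exact mul_le_mul_of_nonneg_right
          (sq_le_sq' (abs_le.1 (hf j).2).1 (abs_le.1 (hf j).2).2) (sq_nonneg _)
    have se : ∑ e, ∑ p, est g z e p ^ 2 = ∑ p, z p ^ 2 := by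
      rw [Fintype.sum_prod_type (f := fun p : HI d N => z p ^ 2),
        ← sum_est g z fun y => ∑ a, y a ^ 2]
      exact sum_congr rfl fun v _ => Fintype.sum_prod_type _
    have a1 := sum_le_sum fun e (_ : e ∈ univ) => (h1 e).1
    have a2 := sum_le_sum fun e (_ : e ∈ univ) => (h1 e).2
    rw [← mul_sum, ← mul_sum] at a1
    rw [sum_add_distrib, ← mul_sum, ← mul_sum, se, hO] at a2
    have b1 := a1.trans (mul_le_mul_of_nonneg_left hH (by positivity))
    have b2 := a2.trans (add_le_add_right (mul_le_mul_of_nonneg_left hH (by positivity)) _)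
    have hA : 0 ≤ (∑ e, L e) * ∑ j, α j ^ 2 := by positivity
    have v0 : ∑ v, (S.vs v).pen (vst z v) = 0 := by
      refine sum_eq_zero fun v _ => vz (S.hσ v) _ fun i => ?_
      simp only [vst, zp, hzz, mul_sum, one_ne_zero, if_true, if_false, ← sum_neg_distrib]
      constructor <;> rw [sum_comm] <;> refine sum_congr rfl fun j _ => ?_
      · rw [← ((hf j).1.2.1 v i).1, mul_sum]
        exact sum_congr rfl fun _ _ => by ring
      · rw [← mul_neg, ← neg_div, ← ((hf j).1.2.1 v i).2, sum_div, mul_sum]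
        exact sum_congr rfl fun _ _ => by ring
    generalize (∑ e, L e) * ∑ j, α j ^ 2 = A at *
    have c1 : Λ / K ^ 2 * ((2 * K * τ) ^ 2 * A) = 4 * Λ * τ ^ 2 * A := by field_simp; ring
    have c2 : 2 * Λ ^ 2 / K ^ 2 * ((2 * K * τ) ^ 2 * A) = (4 * Λ * τ) ^ 2 / 2 * A := by
      field_simp; ring
    have c3 : (4 * Λ * τ) ^ 2 ≤ 1 := pow_le_one₀ (by positivity) hΛ
    have c4 : A ≤ 4 * Λ * ∑ p, z p ^ 2 := by nlinarith
    refine ⟨c4, ?_⟩
    have c5 := mul_le_mul_of_nonneg_left c4 (show 0 ≤ 4 * Λ * τ ^ 2 by positivity)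
    rw [Sys.pen, v0, zero_add]
    simp only [eds]
    nlinarith
  have hi : Function.Injective (Fintype.linearCombination ℝ zz) := by
    refine (injective_iff_map_eq_zero _).2 fun α hα => ?_
    have := (key α).1
    rw [hα] at this
    have h0 : ∑ j, α j ^ 2 ≤ 0 := by
      refine le_of_mul_le_mul_left ?_ hG
      simpa using this
    funext j
    exact pow_eq_zero_iff two_ne_zero |>.1 (le_antisymm
      ((single_le_sum (fun j _ => sq_nonneg (α j)) (mem_univ j)).trans h0) (sq_nonneg _))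
  have hr := LinearMap.finrank_range_of_inj hi
  rw [Module.finrank_fintype_fun_eq_card] at hr
  refine ⟨?_, LinearMap.range _, by rw [hr], ?_⟩
  · have := Submodule.finrank_le (LinearMap.range (Fintype.linearCombination ℝ zz))
    rw [hr, Module.finrank_fintype_fun_eq_card] at this
    simp only [Fintype.card_prod, Fintype.card_fin] at this
    have h2 : (Fintype.card ι : ℝ) ≤ N * d * 2 := by exact_mod_cast this
    linarith
  · rintro _ ⟨α, rfl⟩
    exact (key α).2

end Pool.Agent.P.MP_6b977f_mp.QG
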