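import Pool.Agent.P.MP_6b977f_mp.QG.IfaceA

/-! Step DROP. -/

namespace Pool.Agent.P.MP_6b977f_mp.QG

open Finset MeasureTheory Real Matrix RG
open scoped Classical

namespace DROPx

section ex
variable {ι : Type} [Fintype ι] (m : Mix ι) {v : ι → ℝ} (hv : ∀ j, 0 < v j)
  {f g : (ι → ℝ) → ℝ}
include hv

theorem int (hf : PG f) : Integrable fun y => f y * m.den v y :=
  ((kMIX ι m v hv).2.2.2.2.2.2 f hf).1

theorem ex_add (hf : PG f) (hg : PG g) : m.Ex v (fun y => f y + g y) = m.Ex v f + m.Ex v g := by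
  simp only [Mix.Ex, add_mul]
  exact integral_add (int m hv hf) (int m hv hg)

omit hv in
theorem ex_mul (c : ℝ) : m.Ex v (fun y => c * f y) = c * m.Ex v f := by
  simp only [Mix.Ex, mul_assoc]
  exact integral_const_mul _ _

theorem ex_sum {α : Type} (s : Finset α) {F : α → (ι → ℝ) → ℝ} (h : ∀ a ∈ s, PG (F a)) :
    m.Ex v (fun y => ∑ a ∈ s, F a y) = ∑ a ∈ s, m.Ex v (F a) := by
  simp only [Mix.Ex, sum_mul]
  exact integral_finsetSum _ fun a ha => int m hv (h a ha)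

theorem ex_mono (hf : PG f) (hg : PG g) (h : ∀ y, f y ≤ g y) : m.Ex v f ≤ m.Ex v g :=
  integral_mono (int m hv hf) (int m hv hg) fun y =>
    mul_le_mul_of_nonneg_right (h y) (Sb.den_pos m hv y).le

theorem ex_nonneg (h : ∀ y, 0 ≤ f y) : 0 ≤ m.Ex v f :=
  integral_nonneg fun y => mul_nonneg (h y) (Sb.den_pos m hv y).le

theorem ex_sq (l : ι) : m.Ex v (fun y => y l ^ 2) = m.E (fun x => x l ^ 2) + v l := by
  rw [Sb.Ex_eq, Sb.integral_den_sq hv]
  simp only [mul_add, sum_add_distrib, ← sum_mul, m.p1, one_mul, Mix.E]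

end ex

theorem ex_wsq {d : ℕ} (m : Mix (PI d)) {κ t : ℝ} (hκ : 0 < κ) (ht : 0 ≤ t) :
    m.Ex (vn d κ t) wsq = m.E wsq + d * κ ^ 2 := by
  have hv := vn_pos (d := d) hκ ht
  have h := ex_sum m hv univ (F := fun (j : Fin d) (y : PI d → ℝ) => y (j, 1) ^ 2)
    fun j _ => (PG.coord (j, (1 : Fin 2))).pow 2
  refine h.trans ?_
  simp only [ex_sq m hv, sum_add_distrib, Mix.E, wsq, mul_sum]
  rw [sum_comm]
  simp [vn]

theorem port_sub {d : ℕ} (O : Node d) (i : Fin d) (y : PI d → ℝ) :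
    ‖O.port i y - O.B i (up y)‖ ≤ √(wsq y) := by
  refine (pi_norm_le_iff_of_nonneg (sqrt_nonneg _)).2 fun a => abs_le_sqrt ?_
  have h := O.frame 1 fun j => y (j, 1)
  rw [Pi.sub_apply, O.port_split, add_sub_cancel_left, wsq, ← h]
  refine le_trans ?_ (single_le_sum (f := fun i => ∑ a, (∑ j, O.O (j, 1) (i, a) * y (j, 1)) ^ 2)
    (fun _ _ => sum_nonneg fun _ _ => sq_nonneg _) (mem_univ i))
  exact single_le_sum (f := fun a => (∑ j, O.O (j, 1) (i, a) * y (j, 1)) ^ 2)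
    (fun _ _ => sq_nonneg _) (mem_univ a)

theorem lip (D L : ℝ) (hD : 0 ≤ D) : ∃ K : ℝ, 0 ≤ K ∧ ∀ (q : Mix (Fin 2)) (v : Fin 2 → ℝ),
    (∀ j, 1 ≤ v j ∧ v j ≤ 4) → q.E (fun x => ‖x‖ ^ 2) ≤ L → ∀ T : ℝ, 1 ≤ T →
    ∀ (z z' : Fin 2 → ℝ) (r : ℝ), ‖z‖ ≤ D * T → ‖z' - z‖ ≤ r → ∀ a,
      |q.sc v a z' - q.sc v a z| ≤ K * T ^ 2 * r := by
  obtain ⟨C, hC, hP⟩ := kPOST (Fin 2) L
  refine ⟨1 + 16 * (D + 1) ^ 2 + 16 * |L| + C * (3 + 2 * D), by positivity, ?_⟩
  intro q v hv hq T hT z z' r hz hr a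
  have hL := Sb.L_nonneg q hq
  have r0 : 0 ≤ r := (norm_nonneg _).trans hr
  have hz' : ‖z'‖ ≤ D * T + r := by
    have := norm_add_le (z' - z) z
    rw [sub_add_cancel] at this
    linarith
  have T2 : 1 ≤ T ^ 2 := one_le_pow₀ hT
  have hv0 : ∀ j, 0 < v j := fun j => lt_of_lt_of_le one_pos (hv j).1
  rw [abs_of_nonneg hL]
  rcases le_total r 1 with h1 | h1
  · have hDT : 0 ≤ D * T := by positivity
    have h := Sb.SS_lip (x := q.x) q.p0 q.p1 (fun j => (hv j).1) (Sb.mom_le q hq)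
      (R := (D + 1) * T) (y := z) (y' := z') (by linarith) (by linarith) a
    rw [← Sb.sc_eq q hv0, ← Sb.sc_eq q hv0, Fintype.card_fin] at h
    push_cast at h
    refine h.trans (mul_le_mul ?_ hr (norm_nonneg _) (by positivity))
    have : 0 ≤ C * (3 + 2 * D) * T ^ 2 := by positivity
    nlinarith [mul_le_mul_of_nonneg_left T2 hL]
  · have b1 := (hP q v z hv hq).2.2.1 a
    have b2 := (hP q v z' hv hq).2.2.1 a
    have b3 : 2 + ‖z‖ + ‖z'‖ ≤ (3 + 2 * D) * T ^ 2 * r := by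
      have e1 : T ≤ T ^ 2 := by nlinarith
      have e2 : T ^ 2 ≤ T ^ 2 * r := by nlinarith
      have e3 : r ≤ T ^ 2 * r := by nlinarith
      have e4 : D * T ≤ D * (T ^ 2 * r) := mul_le_mul_of_nonneg_left (e1.trans e2) hD
      nlinarith
    have b4 := mul_le_mul_of_nonneg_left b3 (by linarith : 0 ≤ C)
    have b5 : 0 ≤ (1 + 16 * (D + 1) ^ 2 + 16 * L) * T ^ 2 * r := by positivity
    have := abs_sub (q.sc v a z') (q.sc v a z)
    nlinarith

end DROPx

open DROPx in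
theorem p_DROP (hEP : S_EP) :
    S_DROP := by
  intro d L
  obtain ⟨K, hK, hlip⟩ := lip d L (Nat.cast_nonneg d)
  refine ⟨2 * (1 + K ^ 2 * (1 + d)), by nlinarith [mul_nonneg (sq_nonneg K) (by positivity : (0 : ℝ) ≤ 1 + d)], ?_⟩
  intro O m q κ t ε T hS hT i a
  have hκ := hS.k0
  have ht : 0 ≤ t := by linarith [hS.t1]
  have hv := vn_pos (d := d) hκ ht
  have hw : ∀ _ : Fin d, 0 < κ ^ 2 + t := fun _ => by positivity
  have hq := vq_pos hκ ht
  have hq4 : ∀ j, 1 ≤ vq κ t j ∧ vq κ t j ≤ 4 := fun j => by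
    unfold vq
    constructor <;> nlinarith [hS.t1, hS.t2, hS.k1]
  obtain ⟨-, e2, e3⟩ := hEP d O m κ t hκ ht
  have pF := (kMIX _ (m.map up) _ hw).2.2.2.1
  have pm := (kMIX _ m _ hv).2.2.2.1
  have pq := (kMIX _ q _ hq).2.2.2.1 a
  obtain ⟨S, hSd⟩ : ∃ S, S = q.sc (vq κ t) a := ⟨_, rfl⟩
  obtain ⟨φ, hφ⟩ : ∃ φ : (Fin d → ℝ) → ℝ, φ = fun u =>
    O.B i (fun j => (m.map up).sc (fun _ => κ ^ 2 + t) j u) a - S (O.B i u) / 2 := ⟨_, rfl⟩
  obtain ⟨h, hh⟩ : ∃ h : (Fin d → ℝ) → ℝ, h = fun u => ind (‖u‖ ≤ T) * φ u := ⟨_, rfl⟩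
  rw [← hSd] at pq
  have pSB : PG fun u => S (O.B i u) := pq.comp fun b => O.PG_B i b
  have pφ : PG φ := hφ ▸ ((O.PG_B i a).comp pF).sub (pSB.div 2)
  have ph : PG h := hh ▸ (PG.ind (measurableSet_le measurable_norm measurable_const)).mul pφ
  have pu : ∀ {g : (Fin d → ℝ) → ℝ}, PG g → PG fun y : PI d → ℝ => g (up y) :=
    fun hg => hg.comp PG_up
  have pdf : PG (O.df m q κ t i a) :=
    ((O.PG_B i a).comp fun j => pm (j, 0)).sub ((hSd ▸ pq.comp fun b => O.PG_port i b).div 2)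
  obtain ⟨X, hX⟩ : ∃ X, X = (m.map up).Ex (fun _ => κ ^ 2 + t) fun u => h u ^ 2 := ⟨_, rfl⟩
  have hsq : ∀ u, h u ^ 2 = h u * φ u ∧ h u ^ 2 = ind (‖u‖ ≤ T) * φ u ^ 2 := fun u => by
    rw [hh]
    by_cases hu : ‖u‖ ≤ T
    · simp only [ind_pos hu]; constructor <;> ring
    · simp only [ind_neg hu]; constructor <;> ring
  have goal : X ≤ 2 * (1 + K ^ 2 * (1 + d)) * T ^ 4 * ε := by
    have x1 : X = m.Ex (vn d κ t) fun y => h (up y) ^ 2 := by rw [hX, e2 _ (ph.pow 2)]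
    have x2 : X = m.Ex (vn d κ t) fun y => ∑ j, O.O (j, 0) (i, a) *
        (m.sc (vn d κ t) (j, 0) y * h (up y)) + -1 / 2 * (h (up y) * S (O.B i (up y))) := by
      have : (fun u => h u ^ 2) = fun u => ∑ j, O.O (j, 0) (i, a) *
          ((m.map up).sc (fun _ => κ ^ 2 + t) j u * h u) + -1 / 2 * (h u * S (O.B i u)) := by
        funext u
        rw [(hsq u).1]
        simp only [← mul_assoc, ← sum_mul]
        rw [hφ]
        simp only [Node.B]
        ring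
      rw [hX, this, ex_add _ hw (PG.sum _ fun j _ => ((pF j).mul ph).cmul _) ((ph.mul pSB).cmul _),
        ex_add _ hv (PG.sum _ fun j _ => ((pm _).mul (pu ph)).cmul _) ((pu (ph.mul pSB)).cmul _),
        ex_sum _ hw _ fun j _ => ((pF j).mul ph).cmul _,
        ex_sum _ hv _ fun j _ => ((pm _).mul (pu ph)).cmul _]
      simp only [ex_mul, e3 h ph]
      rw [e2 _ (ph.mul pSB)]
    have x3 : X ≤ m.Ex (vn d κ t) fun y => 1 / 2 * h (up y) ^ 2 +
        (O.df m q κ t i a y ^ 2 + (K * T ^ 2) ^ 2 * wsq y) := by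
      rw [x2]
      refine ex_mono _ hv ((PG.sum _ fun j _ => ((pm _).mul (pu ph)).cmul _).add
        ((pu (ph.mul pSB)).cmul _)) ((((pu ph).pow 2).cmul _).add
          ((pdf.pow 2).add (PG_wsq.cmul _))) fun y => ?_
      have e : ∑ j, O.O (j, 0) (i, a) * (m.sc (vn d κ t) (j, 0) y * h (up y)) +
          -1 / 2 * (h (up y) * S (O.B i (up y))) =
          h (up y) * (O.df m q κ t i a y + (S (O.port i y) - S (O.B i (up y))) / 2) := by
        simp only [← mul_assoc, ← sum_mul, Node.df, ← hSd]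
        simp only [Node.B]
        ring
      rw [e]
      have w0 := wsq_nonneg y
      by_cases hu : ‖up y‖ ≤ T
      · have l := hlip q _ hq4 hS.moq T hT (O.B i (up y)) (O.port i y) _
          ((O.norm_B i _).trans (mul_le_mul_of_nonneg_left hu (Nat.cast_nonneg d)))
          (port_sub O i y) a
        rw [← hSd] at l
        have l2 := pow_le_pow_left₀ (abs_nonneg _) l 2
        rw [sq_abs, mul_pow, sq_sqrt w0] at l2
        generalize S (O.port i y) - S (O.B i (up y)) = s at l2 ⊢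
        generalize O.df m q κ t i a y = δ
        generalize h (up y) = η
        nlinarith [sq_nonneg (η - δ - s / 2), sq_nonneg (δ - s / 2), sq_nonneg s]
      · have : h (up y) = 0 := by rw [hh]; simp only [ind_neg hu, zero_mul]
        rw [this, zero_mul]
        positivity
    rw [ex_add _ hv (((pu ph).pow 2).cmul _) ((pdf.pow 2).add (PG_wsq.cmul _)),
      ex_add _ hv (pdf.pow 2) (PG_wsq.cmul _), ex_mul, ex_mul, ← x1, ex_wsq m hκ ht] at x3
    have x4 : (m.Ex (vn d κ t) fun y => O.df m q κ t i a y ^ 2) ≤ ε := by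
      refine le_trans ?_ hS.dd
      refine le_trans ?_ (single_le_sum
        (f := fun i => ∑ a, m.Ex (vn d κ t) fun y => O.df m q κ t i a y ^ 2)
        (fun _ _ => sum_nonneg fun _ _ => ex_nonneg _ hv fun _ => sq_nonneg _) (mem_univ i))
      exact single_le_sum (f := fun a => m.Ex (vn d κ t) fun y => O.df m q κ t i a y ^ 2)
        (fun _ _ => ex_nonneg _ hv fun _ => sq_nonneg _) (mem_univ a)
    have ε0 : 0 ≤ ε := (sq_nonneg _).trans hS.k2
    have x5 : m.E wsq + d * κ ^ 2 ≤ (1 + d) * ε := by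
      have := mul_le_mul_of_nonneg_left hS.k2 (Nat.cast_nonneg (α := ℝ) d)
      linarith [hS.om]
    have x6 := mul_le_mul_of_nonneg_left x5 (sq_nonneg (K * T ^ 2))
    have x7 : ε ≤ T ^ 4 * ε := le_mul_of_one_le_left ε0 (one_le_pow₀ hT)
    nlinarith
  refine le_trans (le_of_eq ?_) goal
  rw [hX]
  congr 1
  funext u
  rw [(hsq u).2, hφ, hSd]

end Pool.Agent.P.MP_6b977f_mp.QG
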