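import Pool.Agent.P.MP_6b977f_mp.QG.IfaceC

/-! Step DUH. -/

namespace Pool.Agent.P.MP_6b977f_mp.QG

open Finset MeasureTheory Real Matrix RG
open scoped Classical

namespace DUHx

theorem core (u w : ℝ → ℝ) (S l x : ℝ) (hu : Continuous u) (hw : Continuous w)
    (hx : x ∈ Set.Icc 0 l) (hS : 0 ≤ S) (h1 : ∫ y in (0 : ℝ)..x, u y * w y = S)
    (h2 : ∀ y, w y ^ 2 ≤ S) : S ≤ l * ∫ y in (0 : ℝ)..l, u y ^ 2 := by
  rcases (hx.1.trans hx.2).eq_or_lt with h0 | hl
  · have : x = 0 := le_antisymm (h0 ▸ hx.2) hx.1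
    rw [this, intervalIntegral.integral_same] at h1
    rw [← h1, ← h0, zero_mul]
  have h3 : ∫ y in (0 : ℝ)..x, 2 * l * (u y * w y) ≤ ∫ y in (0 : ℝ)..x, (l ^ 2 * u y ^ 2 + S) :=
    intervalIntegral.integral_mono_on hx.1 (Continuous.intervalIntegrable (by fun_prop) _ _)
      (Continuous.intervalIntegrable (by fun_prop) _ _)
      fun y _ => by nlinarith [h2 y, sq_nonneg (l * u y - w y)]
  rw [intervalIntegral.integral_const_mul, h1, intervalIntegral.integral_add
    (Continuous.intervalIntegrable (by fun_prop) _ _) intervalIntegrable_const,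
    intervalIntegral.integral_const_mul, intervalIntegral.integral_const, sub_zero,
    smul_eq_mul] at h3
  have h4 : ∫ y in (0 : ℝ)..x, u y ^ 2 ≤ ∫ y in (0 : ℝ)..l, u y ^ 2 :=
    intervalIntegral.integral_mono_interval le_rfl hx.1 hx.2
      (Filter.Eventually.of_forall fun y => sq_nonneg _)
      (Continuous.intervalIntegrable (by fun_prop) _ _)
  refine le_of_mul_le_mul_left ?_ hl
  nlinarith [mul_le_mul_of_nonneg_left h4 (sq_nonneg l), mul_le_mul_of_nonneg_right hx.2 hS]

end DUHx

theorem p_DUH :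
    S_DUH := by
  intro f k l hk hf x hx
  have hf' : ContDiff ℝ (1 + 1) f := by rw [one_add_one_eq_two]; exact hf
  have h1 : ContDiff ℝ 1 (deriv f) := hf'.deriv'
  have d0 : ∀ y, HasDerivAt f (deriv f y) y := fun y =>
    (hf.differentiable (by norm_num) y).hasDerivAt
  have d1 : ∀ y, HasDerivAt (deriv f) (deriv (deriv f) y) y := fun y =>
    (h1.differentiable (by norm_num) y).hasDerivAt
  have c2 : Continuous (deriv (deriv f)) := h1.continuous_deriv le_rfl
  have c0 : Continuous f := hf.continuous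
  obtain ⟨P, hP⟩ : ∃ P, P = f x * cos (k * x) - deriv f x / k * sin (k * x) - f 0 := ⟨_, rfl⟩
  obtain ⟨Q, hQ⟩ : ∃ Q, Q = f x * sin (k * x) + deriv f x / k * cos (k * x) - deriv f 0 / k :=
    ⟨_, rfl⟩
  have dG : ∀ y, HasDerivAt (fun y => P * (f y * cos (k * y) - deriv f y / k * sin (k * y)) +
      Q * (f y * sin (k * y) + deriv f y / k * cos (k * y)))
      ((deriv (deriv f) y + k ^ 2 * f y) / k * (Q * cos (k * y) - P * sin (k * y))) y := by
    intro y
    have e : HasDerivAt (fun y : ℝ => k * y) k y := by simpa using (hasDerivAt_id y).const_mul k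
    refine (((((d0 y).mul e.cos).sub (((d1 y).div_const k).mul e.sin)).const_mul P).add
      ((((d0 y).mul e.sin).add (((d1 y).div_const k).mul e.cos)).const_mul Q)).congr_deriv ?_
    field_simp
    ring
  have hI := intervalIntegral.integral_eq_sub_of_hasDerivAt (a := 0) (b := x) (fun y _ => dG y)
    (Continuous.intervalIntegrable (by fun_prop) _ _)
  have h := DUHx.core (fun y => (deriv (deriv f) y + k ^ 2 * f y) / k)
    (fun y => Q * cos (k * y) - P * sin (k * y)) (P ^ 2 + Q ^ 2) l x (by fun_prop) (by fun_prop) hx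
    (by positivity) (by
      rw [hI, mul_zero, cos_zero, sin_zero]
      linear_combination (-P) * hP - Q * hQ)
    (fun y => by
      nlinarith [sq_nonneg (Q * sin (k * y) + P * cos (k * y)), sin_sq_add_cos_sq (k * y)])
  simp only [div_pow, intervalIntegral.integral_div] at h
  rw [mul_div_assoc]
  refine le_trans (le_of_eq ?_) h
  simp only [f0, f1, Matrix.cons_val_zero, Matrix.cons_val_one]
  rw [hP, hQ]
  linear_combination (f 0 ^ 2 + (deriv f 0 / k) ^ 2 - f x ^ 2 - (deriv f x / k) ^ 2) *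
    sin_sq_add_cos_sq (k * x)

end Pool.Agent.P.MP_6b977f_mp.QG
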