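import Pool.Agent.P.MP_6b977f_mp.QG.IfaceA

/-! Step EDG. -/

namespace Pool.Agent.P.MP_6b977f_mp.QG

open Finset MeasureTheory Real Matrix RG
open scoped Classical

namespace EDGx

theorem abs_E_le {ι : Type} (m : Mix ι) {f g : (ι → ℝ) → ℝ} (h : ∀ y, |f y| ≤ g y) :
    |m.E f| ≤ m.E g :=
  (abs_sum_le_sum_abs _ _).trans (sum_le_sum fun ω _ => by
    rw [abs_mul, abs_of_nonneg (m.p0 ω)]; exact mul_le_mul_of_nonneg_left (h _) (m.p0 ω))

theorem E_nonneg {ι : Type} (m : Mix ι) {f : (ι → ℝ) → ℝ} (h : ∀ y, 0 ≤ f y) : 0 ≤ m.E f :=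
  sum_nonneg fun ω _ => mul_nonneg (m.p0 ω) (h _)

theorem norm_sub_E {ι : Type} (m : Mix ι) {f f' g : (ι → ℝ) → ℝ} (h : ∀ y, |f y - f' y| ≤ g y) :
    ‖∑ ω, (m.p ω : ℂ) * Complex.exp (Complex.I * f (m.x ω)) -
      ∑ ω, (m.p ω : ℂ) * Complex.exp (Complex.I * f' (m.x ω))‖ ≤ m.E g := by
  rw [← sum_sub_distrib]
  refine (norm_sum_le _ _).trans (sum_le_sum fun ω _ => ?_)
  rw [← mul_sub, norm_mul, Complex.norm_real, norm_eq_abs, abs_of_nonneg (m.p0 ω)]
  refine mul_le_mul_of_nonneg_left (le_trans ?_ (h _)) (m.p0 ω)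
  generalize f (m.x ω) = a
  generalize f' (m.x ω) = b
  have : Complex.exp (Complex.I * a) - Complex.exp (Complex.I * b) =
      Complex.exp (b * Complex.I) * (Complex.exp (Complex.I * (a - b : ℝ)) - 1) := by
    rw [mul_sub, ← Complex.exp_add]; push_cast; ring_nf
  rw [this, norm_mul, Complex.norm_exp_ofReal_mul_I, one_mul]
  exact Real.norm_exp_I_mul_ofReal_sub_one_le

theorem Ex_mono {ι : Type} [Fintype ι] (m : Mix ι) {v : ι → ℝ} (hv : ∀ j, 0 < v j)
    {f g : (ι → ℝ) → ℝ} (c : ℝ) (hf : PG f) (hg : PG g) (h : ∀ y, f y ≤ c * g y) :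
    m.Ex v f ≤ c * m.Ex v g := by
  obtain ⟨h0, -, -, -, -, -, h1⟩ := kMIX ι m v hv
  rw [Mix.Ex, Mix.Ex, ← integral_const_mul]
  exact integral_mono (h1 f hf).1 ((h1 g hg).1.const_mul c) fun y =>
    (mul_le_mul_of_nonneg_right (h y) (h0 y).le).trans_eq (mul_assoc _ _ _)

theorem port0 (θ : ℝ) (y : PI 2 → ℝ) (a : Fin 2) :
    (ed θ).port 0 y a = (y (a, 0) + y (a, 1)) / √2 := by
  fin_cases a <;> simp [Node.port, ed, edO_apply, Fintype.sum_prod_type] <;> ring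

theorem amgm {e : ℝ} (he : 0 < e) (a b : ℝ) : 2 * (a * b) ≤ e * a ^ 2 + b ^ 2 / e := by
  rw [← sub_le_iff_le_add', le_div_iff₀ he]; nlinarith [sq_nonneg (e * a - b)]

theorem cross {e : ℝ} (he : 0 < e) (y : PI 2 → ℝ) (p : PI 2) (b : Fin 2) :
    2 * |y p * y (b, 1)| ≤ e * ‖y‖ ^ 2 + 1 / e * wsq y := by
  have h1 : |y p| ≤ ‖y‖ := norm_le_pi_norm y p
  have h2 : y (b, 1) ^ 2 ≤ wsq y :=
    single_le_sum (f := fun j => y (j, 1) ^ 2) (fun _ _ => sq_nonneg _) (mem_univ b)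
  rw [abs_mul, one_div_mul_eq_div]
  refine (amgm he _ _).trans ?_
  rw [sq_abs (y (b, 1))]
  gcongr

end EDGx

open EDGx in
theorem p_EDG (hSTC : S_STC) (hST2 : S_ST2) :
    S_EDG := by
  intro β0 R hβ0
  have hK : 0 ≤ |R| * exp (2 * R ^ 2) / β0 + |R| := by positivity
  have hK2 : 0 ≤ 2 / β0 := by positivity
  refine ⟨1 + 2 / β0 + (|R| * exp (2 * R ^ 2) / β0 + |R|), by linarith, ?_⟩
  intro θ m κ t β e r hκ hκ1 ht2 ht3 hβ he he1 hr
  have hv := vn_pos (d := 2) hκ (show 0 ≤ t by linarith)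
  have hβ' : 0 < β := hβ0.trans_le hβ
  have hPG : ∀ p, PG fun y => m.sc (vn 2 κ t) p y + β * y p := fun p =>
    ((kMIX _ m _ hv).2.2.2.1 p).add ((PG.coord p).cmul β)
  have hPX : PG fun y => ∑ j, (m.sc (vn 2 κ t) (j, 0) y + β * y (j, 0)) ^ 2 :=
    PG.sum _ fun j _ => (hPG _).pow 2
  set X := m.Ex (vn 2 κ t) fun y => ∑ j, (m.sc (vn 2 κ t) (j, 0) y + β * y (j, 0)) ^ 2 with hX
  set W := m.E wsq with hW
  set M := m.E fun y => ‖y‖ ^ 2 with hM
  have X0 : 0 ≤ X := integral_nonneg fun y =>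
    mul_nonneg (sum_nonneg fun _ _ => sq_nonneg _) ((kMIX _ m _ hv).1 y).le
  have W0 : 0 ≤ W / e := div_nonneg (E_nonneg m wsq_nonneg) he.le
  have M0 : 0 ≤ e * M := mul_nonneg he.le (E_nonneg m fun _ => sq_nonneg _)
  have X1 : 0 ≤ X / e := div_nonneg X0 he.le
  have s2 : (√2 : ℝ) * √2 = 2 := mul_self_sqrt (by norm_num)
  have k4 : κ ^ 2 + t ≤ 4 := by nlinarith
  obtain ⟨Q, hQ, hr⟩ : ∃ Q, Q = e + e * M + X / e + W / e ∧
      (1 + 2 / β0 + (|R| * exp (2 * R ^ 2) / β0 + |R|)) * Q ≤ r :=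
    ⟨_, rfl, le_of_eq_of_le (by ring) hr⟩
  have Q0 : 0 ≤ Q := by linarith
  refine ⟨fun ξ hξ => ?_, fun a b => ?_⟩
  · have R0 : 0 ≤ R := (norm_nonneg _).trans hξ
    have hx : ∀ a, |ξ a| ≤ R := fun a => (norm_le_pi_norm ξ a).trans hξ
    have hx2 : ∑ a, ξ a ^ 2 ≤ 2 * R ^ 2 := by
      rw [Fin.sum_univ_two]
      linarith [sq_le_sq' (abs_le.1 (hx 0)).1 (abs_le.1 (hx 0)).2,
        sq_le_sq' (abs_le.1 (hx 1)).1 (abs_le.1 (hx 1)).2]
    set ζ : PI 2 → ℝ := fun p => if p.2 = 0 then ξ p.1 / √2 else 0 with hζ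
    have z1 : ∀ f : PI 2 → ℝ, ∑ p, ζ p * f p = (∑ a, ξ a * f (a, 0)) / √2 := fun f => by
      simp [sum_PI, hζ]; ring
    have z2 : ∀ f : PI 2 → ℝ, ∑ p, f p * ζ p ^ 2 = (∑ a, f (a, 0) * ξ a ^ 2) / 2 := fun f => by
      simp [sum_PI, hζ, div_pow]; ring
    have h1 := hSTC _ m _ ζ β (R * √X) hv hβ' (by positivity) ((Ex_mono m hv (R ^ 2)
      ((PG.sum _ fun p _ => (hPG p).cmul (ζ p)).pow 2) hPX fun y => by
        rw [z1, div_pow, sq_sqrt (by norm_num), div_le_iff₀ two_pos]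
        refine (sum_mul_sq_le_sq_mul_sq _ _ _).trans ?_
        rw [mul_right_comm, mul_comm _ 2]
        exact mul_le_mul_of_nonneg_right hx2 (sum_nonneg fun _ _ => sq_nonneg _)).trans_eq
      (by rw [mul_pow, sq_sqrt X0]))
    have z3 := z2 fun _ => 1
    have z4 := z2 (vn 2 κ t)
    simp only [one_mul] at z3
    simp only [vn, if_true, ← mul_sum] at z4
    rw [kKCH _ m _ ζ hv, z3, show ∑ j, vn 2 κ t j * ζ j ^ 2 = _ from z4] at h1
    set n := ∑ a, ξ a ^ 2 with hn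
    have n0 : 0 ≤ n := sum_nonneg fun _ _ => sq_nonneg _
    have h2 : ‖m.chi ζ - (exp (-((1 / β - κ ^ 2 - t) / 2 * n) / 2) : ℝ)‖ ≤
        R * exp (2 * R ^ 2) / β0 * Q := by
      have e1 : m.chi ζ - (exp (-((1 / β - κ ^ 2 - t) / 2 * n) / 2) : ℝ) =
          (exp ((κ ^ 2 + t) * n / 4) : ℝ) * (m.chi ζ * (exp (-((κ ^ 2 + t) * n / 2) / 2) : ℝ) -
            (exp (-(n / 2) / (2 * β)) : ℝ)) := by
        rw [mul_sub, mul_left_comm, ← Complex.ofReal_mul, ← Complex.ofReal_mul, ← exp_add,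
          ← exp_add, show (κ ^ 2 + t) * n / 4 + -((κ ^ 2 + t) * n / 2) / 2 = 0 by ring, exp_zero,
          Complex.ofReal_one, mul_one]
        congr 3
        ring
      have e2 : √X ≤ Q := by
        have := amgm he 1 √X
        rw [sq_sqrt X0] at this
        linarith [sqrt_nonneg X]
      have e3 : (κ ^ 2 + t) * n / 4 ≤ 2 * R ^ 2 := by nlinarith
      rw [e1, norm_mul, Complex.norm_real, norm_eq_abs, abs_of_pos (exp_pos _)]
      calc _ ≤ exp (2 * R ^ 2) * (R * Q / β0) :=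
            mul_le_mul (exp_le_exp.2 e3) (h1.trans (by gcongr)) (norm_nonneg _) (exp_pos _).le
        _ = _ := by ring
    have h3 : ‖(m.map ((ed θ).port 0)).chi ξ - m.chi ζ‖ ≤ R * Q := by
      refine (norm_sub_E m (f := fun y => ∑ a, ξ a * (ed θ).port 0 y a)
        (f' := fun y => ∑ p, ζ p * y p) (g := fun y => R * (e + 1 / e * wsq y))
        fun y => ?_).trans ?_
      · have e1 : ∑ a, ξ a * (ed θ).port 0 y a - ∑ p, ζ p * y p =
            (ξ 0 * y (0, 1) + ξ 1 * y (1, 1)) / √2 := by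
          simp only [z1, port0, Fin.sum_univ_two]; ring
        have a0 := amgm he 1 |y (0, 1)|
        have a1 := amgm he 1 |y (1, 1)|
        have a2 := mul_nonneg (one_div_pos.2 he).le (wsq_nonneg y)
        have a3 : |y (0, 1)| ^ 2 / e + |y (1, 1)| ^ 2 / e = 1 / e * wsq y := by
          rw [wsq, Fin.sum_univ_two, sq_abs, sq_abs]; ring
        rw [e1, abs_div, abs_of_nonneg (sqrt_nonneg 2)]
        refine (div_le_self (abs_nonneg _) (one_le_sqrt.2 one_le_two)).trans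
          ((abs_add_le _ _).trans ?_)
        rw [abs_mul, abs_mul]
        calc _ ≤ R * |y (0, 1)| + R * |y (1, 1)| := by gcongr <;> exact hx _
          _ = R * (|y (0, 1)| + |y (1, 1)|) := by ring
          _ ≤ _ := mul_le_mul_of_nonneg_left (by linarith) R0
      · rw [Mix.E_mul, Mix.E_add, Mix.E_const, Mix.E_mul, one_div_mul_eq_div]
        exact mul_le_mul_of_nonneg_left (by linarith) R0
    rw [abs_of_nonneg R0] at hr
    refine (norm_sub_le_norm_sub_add_norm_sub _ _ _).trans ((add_le_add h3 h2).trans ?_)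
    nlinarith [mul_nonneg hK2 Q0]
  · have h1 := hST2 _ m _ (a, 0) (b, 0) β e hv he
    have h2 : m.Ex (vn 2 κ t) (fun y => (m.sc (vn 2 κ t) (a, 0) y + β * y (a, 0)) ^ 2) ≤ X :=
      (Ex_mono m hv 1 ((hPG _).pow 2) hPX fun y => by
        rw [one_mul]
        exact single_le_sum (f := fun j => (m.sc (vn 2 κ t) (j, 0) y + β * y (j, 0)) ^ 2)
          (fun _ _ => sq_nonneg _) (mem_univ a)).trans_eq (one_mul _)
    have h3 : m.E (fun x => x (b, 0) ^ 2) ≤ M := m.E_mono fun y => by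
      rw [← sq_abs]
      exact pow_le_pow_left₀ (abs_nonneg _) (norm_le_pi_norm y _) 2
    have h4 : ind (((a, 0) : PI 2) = (b, 0)) = ind (a = b) := by simp
    simp only [h4, show ∀ j : Fin 2, vn 2 κ t (j, 0) = κ ^ 2 + t from fun _ => rfl] at h1
    set U := m.E fun x => x (a, 0) * x (b, 0) with hU
    have h5 : |U / 2 - ind (a = b) * ((1 / β - κ ^ 2 - t) / 2)| ≤ 2 / β0 * Q := by
      rw [show U / 2 - ind (a = b) * ((1 / β - κ ^ 2 - t) / 2) =
        (β * (U + ind (a = b) * (κ ^ 2 + t)) - ind (a = b)) / (2 * β) by field_simp; ring,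
        abs_div, abs_of_pos (by positivity : 0 < 2 * β)]
      calc _ ≤ 4 * Q / (2 * β0) := by
            gcongr
            refine h1.trans ((add_le_add (div_le_div_of_nonneg_right h2 he.le)
              (mul_le_mul_of_nonneg_left (add_le_add h3 k4) he.le)).trans ?_)
            linarith
        _ = _ := by ring
    have h6 : |m.E (fun y => (ed θ).port 0 y a * (ed θ).port 0 y b) - U / 2| ≤ Q := by
      have e1 : m.E (fun y => (ed θ).port 0 y a * (ed θ).port 0 y b) - U / 2 = m.E fun y =>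
          (y (a, 0) * y (b, 1) + y (b, 0) * y (a, 1) + y (a, 1) * y (b, 1)) / 2 := by
        simp only [hU, Mix.E, port0, div_mul_div_comm, s2, sum_div, ← sum_sub_distrib]
        exact sum_congr rfl fun _ _ => by ring
      rw [e1]
      refine (abs_E_le m (g := fun y => e * ‖y‖ ^ 2 + 1 / e * wsq y) fun y => ?_).trans ?_
      · have a1 := cross he y (a, 0) b
        have a2 := cross he y (b, 0) a
        have a3 := cross he y (a, 1) b
        have a4 := abs_add_three (y (a, 0) * y (b, 1)) (y (b, 0) * y (a, 1)) (y (a, 1) * y (b, 1))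
        rw [abs_div, abs_two]
        linarith [abs_nonneg (y (a, 0) * y (b, 1))]
      · rw [Mix.E_add, Mix.E_mul, Mix.E_mul, one_div_mul_eq_div]
        linarith
    refine (abs_sub_le _ _ _).trans ((add_le_add h6 h5).trans ?_)
    nlinarith [mul_nonneg hK Q0]

end Pool.Agent.P.MP_6b977f_mp.QG
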