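import Pool.Agent.P.MP_6b977f_mp.QG.IfaceB

/-! Step EIG1. -/

namespace Pool.Agent.P.MP_6b977f_mp.QG

open Finset MeasureTheory Real Matrix RG
open scoped Classical

namespace EIG1x

variable {H : Type} [Fintype H] [DecidableEq H]

/-- rotation by a right angle -/
def JJ (H : Type) [DecidableEq H] : Matrix (H × Fin 2) (H × Fin 2) ℝ :=
  Matrix.of fun p q => if p.1 = q.1 then !![0, -1; 1, 0] p.2 q.2 else 0

theorem JJ_sq : JJ H * -JJ H = 1 := by
  ext ⟨h, a⟩ ⟨k, b⟩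
  by_cases e : h = k <;> fin_cases a <;> fin_cases b <;>
    simp [JJ, Matrix.mul_apply, Fintype.sum_prod_type, Matrix.one_apply, e]

theorem det_sq {A : Matrix (H × Fin 2) (H × Fin 2) ℝ} (h0 : A * A = 1)
    (h1 : ∀ h k, A (h, 1) (k, 1) = -A (h, 0) (k, 0)) (h2 : ∀ h k, A (h, 1) (k, 0) = A (h, 0) (k, 1))
    (s : ℝ) : (1 + s • A).det ^ 2 = (1 - s ^ 2) ^ Fintype.card (H × Fin 2) := by
  have e1 : JJ H * A = -(A * JJ H) := by
    ext ⟨h, a⟩ ⟨k, b⟩
    fin_cases a <;> fin_cases b <;>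
      simp [JJ, Matrix.mul_apply, Fintype.sum_prod_type, h1, h2]
  have e2 : JJ H * (1 + s • A) = (1 - s • A) * JJ H := by
    rw [mul_add, sub_mul, mul_smul_comm, smul_mul_assoc, e1, mul_one, one_mul, smul_neg,
      sub_eq_add_neg]
  have e3 : (JJ H).det ≠ 0 := (Matrix.isUnit_det_of_right_inverse JJ_sq).ne_zero
  have e4 := congrArg Matrix.det e2
  rw [det_mul, det_mul, mul_comm, mul_left_inj' e3] at e4
  have e5 : (1 + s • A) * (1 - s • A) = (1 - s ^ 2) • 1 := by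
    simp only [add_mul, mul_sub, mul_smul_comm, smul_mul_assoc, h0, mul_one, one_mul]
    module
  have e6 := congrArg Matrix.det e5
  rwa [det_mul, ← e4, ← sq, det_smul, det_one, mul_one] at e6

end EIG1x

theorem p_EIG1 (hALG : S_ALG) :
    S_EIG1 := by
  intro d N m c S θ g s γ h0 h1 hγ
  obtain ⟨-, hX, -, hY, hQ⟩ := hALG d N m c S θ g
  have eX := EIG1x.det_sq hX (fun h k => by simp [Sys.Xm]; split_ifs <;> simp)
    (fun h k => by simp [Sys.Xm]) s
  have eY := EIG1x.det_sq hY (fun h k => by simp [Ym, rf]; split_ifs <;> simp)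
    (fun h k => by simp [Ym, rf]) (-s)
  have hs : (1 - s ^ 2) ^ Fintype.card (HI d N) ≠ 0 := pow_ne_zero _ (by nlinarith)
  have hd : (S.Qm θ g + γ ^ 2 • 1).det ≠ 0 := fun e => by
    obtain ⟨v, hv, e⟩ := Matrix.exists_mulVec_eq_zero_iff.2 e
    have e1 := congrArg (v ⬝ᵥ ·) e
    simp only [add_mulVec, dotProduct_add, hQ, smul_mulVec, one_mulVec, dotProduct_smul,
      dotProduct_zero, smul_eq_mul] at e1
    have e2 : 0 ≤ S.pen θ g v := add_nonneg (sum_nonneg fun _ _ => Node.pen_nonneg _ _)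
      (sum_nonneg fun _ _ => Node.pen_nonneg _ _)
    have e3 : 0 < γ ^ 2 := hγ ▸ div_pos (pow_pos (sub_pos.2 h1) 2) (by positivity)
    have e4 : 0 < v ⬝ᵥ v := (sum_nonneg fun _ _ => mul_self_nonneg _).lt_of_ne'
      fun e => hv (dotProduct_self_eq_zero.1 e)
    linarith [mul_pos e3 e4]
  have e1 : (2 * s) • (S.Qm θ g + γ ^ 2 • 1) = (1 + s ^ 2) • 1 - s • S.Xm - s • Ym θ g := by
    rw [smul_add, smul_smul, hγ, mul_div_cancel₀ _ (by positivity), Sys.Qm]
    module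
  have e2 : (1 + s • S.Xm) * ((2 * s) • (S.Qm θ g + γ ^ 2 • 1)) =
      (1 - s ^ 2 • (S.Xm * Ym θ g)) * (1 + -s • Ym θ g) := by
    simp only [e1, add_mul, mul_add, mul_sub, sub_mul, mul_smul_comm, smul_mul_assoc, hX, hY,
      mul_one, one_mul, mul_assoc]
    module
  have e3 := congrArg (fun A => A.det ^ 2) e2
  simp only [det_mul, mul_pow, eX, eY, neg_sq] at e3
  rw [mul_comm, mul_left_inj' hs, sq_eq_sq_iff_abs_eq_abs] at e3
  rw [← log_abs (det (1 - _)), ← e3, log_abs, det_smul, log_mul (by positivity) hd, log_pow]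
  simp only [Fintype.card_prod, Fintype.card_fin]
  push_cast
  ring

end Pool.Agent.P.MP_6b977f_mp.QG
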