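import Pool.Agent.P.MP_6b977f_mp.QG.IfaceB

/-! Step EIG2. -/

namespace Pool.Agent.P.MP_6b977f_mp.QG

open Finset MeasureTheory Real Matrix RG
open scoped Classical

namespace EIG2x

variable {H : Type} [Fintype H] [DecidableEq H]

/-- the real form of a complex matrix -/
def rm (U : Matrix H H ℂ) : Matrix (H × Fin 2) (H × Fin 2) ℝ := Matrix.of fun p q =>
  !![(U p.1 q.1).re, -(U p.1 q.1).im; (U p.1 q.1).im, (U p.1 q.1).re] p.2 q.2

/-- a two by two matrix at every port -/
def bl (H : Type) [DecidableEq H] (p : Matrix (Fin 2) (Fin 2) ℂ) :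
    Matrix (H × Fin 2) (H × Fin 2) ℂ := Matrix.of fun x y => if x.1 = y.1 then p x.2 y.2 else 0

theorem bl_mul (p : Matrix (Fin 2) (Fin 2) ℂ) (M : Matrix (H × Fin 2) (H × Fin 2) ℂ)
    (x y : H × Fin 2) :
    (bl H p * M) x y = p x.2 0 * M (x.1, 0) y + p x.2 1 * M (x.1, 1) y := by
  rw [Matrix.mul_apply, Fintype.sum_prod_type_right, Fin.sum_univ_two]
  simp [bl]

theorem mul_bl (p : Matrix (Fin 2) (Fin 2) ℂ) (M : Matrix (H × Fin 2) (H × Fin 2) ℂ)
    (x y : H × Fin 2) :
    (M * bl H p) x y = M x (y.1, 0) * p 0 y.2 + M x (y.1, 1) * p 1 y.2 := by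
  rw [Matrix.mul_apply, Fintype.sum_prod_type_right, Fin.sum_univ_two]
  simp [bl]

theorem det_rm (U : Matrix H H ℂ) : (rm U).det = ‖U.det‖ ^ 2 := by
  have h1 : bl H !![1, Complex.I; 1, -Complex.I] *
      bl H !![1 / 2, 1 / 2; -Complex.I / 2, Complex.I / 2] = 1 := by
    ext ⟨h, a⟩ ⟨h', b⟩
    rw [bl_mul]
    have hI : Complex.I * Complex.I = -1 := Complex.I_mul_I
    by_cases hh : h = h'
    · subst hh
      fin_cases a <;> fin_cases b <;> simp [bl] <;>
        first | linear_combination (-1 / 2 : ℂ) * hI | linear_combination (1 / 2 : ℂ) * hI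
    · simp [bl, hh]
  have h2 : (bl H !![1, Complex.I; 1, -Complex.I]).det ≠ 0 := by
    have := congrArg Matrix.det h1
    rw [det_mul, det_one] at this
    exact left_ne_zero_of_mul_eq_one this
  have h3 : bl H !![1, Complex.I; 1, -Complex.I] * (rm U).map Complex.ofRealHom =
      blockDiagonal ![U, U.map (starRingEnd ℂ)] * bl H !![1, Complex.I; 1, -Complex.I] := by
    ext ⟨h, a⟩ ⟨h', b⟩
    rw [bl_mul, mul_bl]
    fin_cases a <;> fin_cases b <;> simp [rm, blockDiagonal_apply] <;>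
      apply Complex.ext <;> simp
  have h4 := congrArg Matrix.det h3
  rw [det_mul, det_mul, mul_comm, det_blockDiagonal, Fin.prod_univ_two] at h4
  have h5 := mul_right_cancel₀ h2 h4
  have h6 : ((rm U).map Complex.ofRealHom).det = ((rm U).det : ℂ) :=
    (RingHom.map_det Complex.ofRealHom (rm U)).symm
  have h7 : (U.map (starRingEnd ℂ)).det = starRingEnd ℂ U.det :=
    (RingHom.map_det (starRingEnd ℂ) U).symm
  simp only [Matrix.cons_val_zero, Matrix.cons_val_one] at h5
  rw [h6, h7, Complex.mul_conj, Complex.normSq_eq_norm_sq] at h5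
  exact_mod_cast h5

open scoped ComplexOrder in
theorem norm_root {U : Matrix H H ℂ} (hU : U * Uᴴ = 1) {μ : ℂ} (hμ : U.charpoly.eval μ = 0) :
    ‖μ‖ = 1 := by
  have hU' : Uᴴ * U = 1 := mul_eq_one_comm.1 hU
  rw [Matrix.eval_charpoly] at hμ
  obtain ⟨v, hv, h0⟩ := Matrix.exists_mulVec_eq_zero_iff.2 hμ
  have h1 : U *ᵥ v = μ • v := by
    rw [Matrix.sub_mulVec, sub_eq_zero] at h0
    rw [← h0]
    ext i
    simp [Matrix.scalar_apply, Matrix.mulVec_diagonal]
  have h2 : star (U *ᵥ v) ⬝ᵥ (U *ᵥ v) = star v ⬝ᵥ v := by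
    rw [Matrix.star_mulVec, Matrix.dotProduct_mulVec, Matrix.vecMul_vecMul, hU', Matrix.vecMul_one]
  rw [h1, star_smul, smul_dotProduct, dotProduct_smul, smul_eq_mul, smul_eq_mul, ← mul_assoc] at h2
  have h3 : star v ⬝ᵥ v ≠ 0 := fun h => hv (dotProduct_star_self_eq_zero.1 h)
  have h4 : star μ * μ = 1 := mul_right_cancel₀ h3 (by rw [h2, one_mul])
  have h5 := congrArg norm h4
  rw [norm_mul, norm_star, norm_one] at h5
  have := norm_nonneg μ
  nlinarith

theorem exists_roots (U : Matrix H H ℂ) :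
    ∃ u : H → ℂ, ∀ t : ℂ, U.charpoly.eval t = ∏ j, (t - u j) := by
  have hs : U.charpoly.Splits := IsAlgClosed.splits _
  have hc : U.charpoly.roots.toList.length = Fintype.card H := by
    rw [Multiset.length_toList, ← hs.natDegree_eq_card_roots, Matrix.charpoly_natDegree_eq_dim]
  let e : H ≃ Fin U.charpoly.roots.toList.length := Fintype.equivFinOfCardEq hc.symm
  refine ⟨fun j => U.charpoly.roots.toList.get (e j), fun t => ?_⟩
  rw [Equiv.prod_comp e (fun i => t - U.charpoly.roots.toList.get i),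
    hs.eval_eq_prod_roots_of_monic U.charpoly_monic, ← List.prod_ofFn]
  conv_lhs => rw [← Multiset.coe_toList U.charpoly.roots, Multiset.map_coe, Multiset.prod_coe]
  congr 1
  conv_lhs => rw [← List.ofFn_get U.charpoly.roots.toList, List.map_ofFn]
  rfl

theorem det_one_sub {U : Matrix H H ℂ} {u : H → ℂ}
    (h : ∀ t : ℂ, U.charpoly.eval t = ∏ j, (t - u j)) (w : ℂ) :
    (1 - w • U).det = ∏ j, (1 - u j * w) := by
  by_cases hw : w = 0
  · simp [hw]
  have e : 1 - w • U = w • (Matrix.scalar H w⁻¹ - U) := by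
    rw [smul_sub]
    congr 1
    ext i j
    by_cases hij : i = j <;> simp [Matrix.scalar_apply, Matrix.one_apply, hij, hw]
  rw [e, det_smul, ← Matrix.eval_charpoly, h, ← Finset.card_univ, ← Finset.prod_const,
    ← Finset.prod_mul_distrib]
  refine Finset.prod_congr rfl fun j _ => ?_
  field_simp

variable {d N m : ℕ} {c : ℝ}

/-- the vertex matrices as one matrix -/
noncomputable def sg (S : Sys d N m c) (h k : Fin N × Fin d) : ℝ :=
  if h.1 = k.1 then S.σ h.1 h.2 k.2 else 0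

theorem sg_sum (S : Sys d N m c) (h k : Fin N × Fin d) :
    ∑ l, sg S h l * sg S k l = if h = k then 1 else 0 := by
  obtain ⟨v, i⟩ := h
  obtain ⟨v', i'⟩ := k
  rw [Fintype.sum_prod_type_right]
  by_cases hv : v = v'
  · subst hv
    have h2 : ∑ j, S.σ v i j * S.σ v i' j = if i = i' then 1 else 0 := by
      rw [← Matrix.one_apply, ← (S.hσ v).2.1, Matrix.mul_apply]
      exact sum_congr rfl fun j _ => by rw [(S.hσ v).1.apply j i']
    simp [sg, h2]
  · simp [sg, hv]

/-- the complex matrix -/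
noncomputable def Um (S : Sys d N m c) (θ : Fin m → ℝ) (g : Glue d N m) :
    Matrix (Fin N × Fin d) (Fin N × Fin d) ℂ := Matrix.of fun h k =>
  (sg S h ((cfg g).symm k) : ℂ) * Complex.exp ((-θ (g ((cfg g).symm k)).1 : ℝ) * Complex.I)

theorem Um_unit (S : Sys d N m c) (θ : Fin m → ℝ) (g : Glue d N m) :
    Um S θ g * (Um S θ g)ᴴ = 1 := by
  ext h k
  rw [Matrix.mul_apply, Matrix.one_apply]
  have e : ∀ l, Um S θ g h l * (Um S θ g)ᴴ l k =
      ((sg S h ((cfg g).symm l) * sg S k ((cfg g).symm l) : ℝ) : ℂ) := by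
    intro l
    have h1 := Complex.mul_conj (Complex.exp ((-θ (g ((cfg g).symm l)).1 : ℝ) * Complex.I))
    rw [Complex.normSq_eq_norm_sq, Complex.norm_exp_ofReal_mul_I] at h1
    simp only [Um, Matrix.conjTranspose_apply, Matrix.of_apply, star_mul', Complex.star_def,
      Complex.conj_ofReal]
    push_cast at h1 ⊢
    linear_combination (sg S h ((cfg g).symm l) * sg S k ((cfg g).symm l) : ℂ) * h1
  simp only [e]
  rw [← Complex.ofReal_sum, Equiv.sum_comp (cfg g).symm (fun l => sg S h l * sg S k l), sg_sum]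
  split_ifs <;> simp

theorem XY_apply (S : Sys d N m c) (θ : Fin m → ℝ) (g : Glue d N m) (h k : Fin N × Fin d)
    (a b : Fin 2) : (S.Xm * Ym θ g) (h, a) (k, b) =
      sg S h ((cfg g).symm k) * ((if a = 0 then 1 else -1) * rf (θ (g ((cfg g).symm k)).1) a b) := by
  rw [Matrix.mul_apply, Finset.sum_eq_single ((cfg g).symm k, a)]
  · simp only [Sys.Xm, Ym, sg, Matrix.of_apply, Equiv.apply_symm_apply, if_true, and_true]
    split_ifs <;> ring
  · rintro ⟨l, a'⟩ _ hne
    simp only [Sys.Xm, Ym, Matrix.of_apply]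
    by_cases ha : a = a'
    · subst ha
      have hl : ¬ k = cfg g l := fun e => hne (by rw [e, Equiv.symm_apply_apply])
      rw [if_neg hl, mul_zero]
    · rw [if_neg (fun e => ha e.2), zero_mul]
  · exact fun hn => absurd (mem_univ _) hn

theorem eq_rm (S : Sys d N m c) (θ : Fin m → ℝ) (g : Glue d N m) (φ r : ℝ) :
    1 - r • (S.Xm * Ym (fun e => θ e - φ) g) = rm (1 - circleMap 0 r φ • Um S θ g) := by
  ext ⟨h, a⟩ ⟨k, b⟩
  have e : (circleMap 0 r φ • Um S θ g) h k = ((r * sg S h ((cfg g).symm k) : ℝ) : ℂ) *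
      Complex.exp ((-(θ (g ((cfg g).symm k)).1 - φ) : ℝ) * Complex.I) := by
    simp only [Um, circleMap, Matrix.smul_apply, Matrix.of_apply, smul_eq_mul, zero_add]
    rw [show ((-(θ (g ((cfg g).symm k)).1 - φ) : ℝ) : ℂ) * Complex.I
      = φ * Complex.I + ((-θ (g ((cfg g).symm k)).1 : ℝ) : ℂ) * Complex.I by push_cast; ring,
      Complex.exp_add]
    push_cast
    ring
  have e1 := congrArg Complex.re e
  have e2 := congrArg Complex.im e
  rw [Complex.re_ofReal_mul, Complex.exp_ofReal_mul_I_re, Real.cos_neg] at e1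
  rw [Complex.im_ofReal_mul, Complex.exp_ofReal_mul_I_im, Real.sin_neg] at e2
  rw [Matrix.sub_apply, Matrix.smul_apply, XY_apply, smul_eq_mul]
  simp only [rm, Matrix.of_apply, Matrix.sub_apply, Complex.sub_re, Complex.sub_im, e1, e2]
  by_cases hk : h = k
  · subst hk
    fin_cases a <;> fin_cases b <;> simp [rf] <;> ring
  · fin_cases a <;> fin_cases b <;> simp [rf, hk] <;> ring

end EIG2x

theorem p_EIG2 (hALG : S_ALG) :
    S_EIG2 := by
  intro d N m c S θ g
  obtain ⟨u, hu⟩ := EIG2x.exists_roots (EIG2x.Um S θ g)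
  refine ⟨u, fun j => (EIG2x.norm_root (EIG2x.Um_unit S θ g) ?_).le, fun φ r => ?_⟩
  · rw [hu]
    exact Finset.prod_eq_zero (mem_univ j) (sub_self _)
  · rw [EIG2x.eq_rm, EIG2x.det_rm, EIG2x.det_one_sub hu, norm_prod, Finset.prod_pow]

end Pool.Agent.P.MP_6b977f_mp.QG
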