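import Pool.Agent.P.MP_6b977f_mp.QG.IfaceA

/-! Step EP. -/

namespace Pool.Agent.P.MP_6b977f_mp.QG

open Finset MeasureTheory Real Matrix RG
open scoped Classical

namespace EPx

theorem pup {d : ℕ} {κ t : ℝ} (hκ : 0 < κ) (ht : 0 ≤ t) (x : PI d → ℝ)
    (g : (Fin d → ℝ) → ℝ) (hg : PG g) : ∫ y, g (up y) * ker (vn d κ t) (y - x) =
      ∫ z, g z * ker (fun _ => κ ^ 2 + t) (z - up x) := by
  have e : ∀ y : PI d → ℝ,
      (fun k : Fin d => ∑ j, (if j = (k, 0) then (1 : ℝ) else 0) * y j) = up y :=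
    fun y => funext fun k => by simp [up]
  have := kPUSH (PI d) (Fin d) (fun k j => if j = (k, 0) then 1 else 0) (vn d κ t) x
    (fun _ => κ ^ 2 + t) g (vn_pos hκ ht) (fun _ => by positivity) (fun k => by
      simp only [ite_pow, one_pow, ite_mul, one_mul, ne_eq, OfNat.ofNat_ne_zero, not_false_eq_true,
        zero_pow, zero_mul, sum_ite_eq', mem_univ, if_true]
      simp [vn])
    (fun k l h => by simp [h.symm]) hg
  simpa only [e] using this

theorem pport {d : ℕ} (O : Node d) {κ t : ℝ} (hκ : 0 < κ) (ht : 0 ≤ t) (i : Fin d)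
    (x : PI d → ℝ) (g : (Fin 2 → ℝ) → ℝ) (hg : PG g) :
    ∫ y, g (O.port i y) * ker (vn d κ t) (y - x) = ∫ z, g z * ker (vq κ t) (z - O.port i x) := by
  have h : ∀ a b, ∑ j, O.O j (i, a) * O.O j (i, b) * vn d κ t j =
      if a = b then κ ^ 2 + t / 2 else 0 := by
    intro a b
    rw [sum_PI]
    simp only [vn, if_true, one_ne_zero, if_false, ← sum_mul, O.o2, O.o3]
    split_ifs <;> ring
  exact kPUSH (PI d) (Fin 2) (fun k j => O.O j (i, k)) (vn d κ t) x (vq κ t) g (vn_pos hκ ht)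
    (vq_pos hκ ht) (fun k => by simpa [sq, vq] using h k k)
    (fun k l hkl => by simpa [hkl] using h k l) hg

end EPx

theorem p_EP :
    S_EP := by
  intro d O m κ t hκ ht
  have hv := vn_pos (d := d) hκ ht
  have hw : ∀ _ : Fin d, 0 < κ ^ 2 + t := fun _ => by positivity
  refine ⟨fun g hg i => ?_, fun g hg => ?_, fun g hg j => ?_⟩
  · rw [((kMIX _ m _ hv).2.2.2.2.2.2 _ (hg.comp (O.PG_port i))).2.1,
      ((kMIX _ (m.map (O.port i)) _ (vq_pos hκ ht)).2.2.2.2.2.2 g hg).2.1]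
    exact sum_congr rfl fun ω _ => congrArg _ (EPx.pport O hκ ht i _ g hg)
  · rw [((kMIX _ m _ hv).2.2.2.2.2.2 _ (hg.comp PG_up)).2.1,
      ((kMIX _ (m.map up) _ hw).2.2.2.2.2.2 g hg).2.1]
    exact sum_congr rfl fun ω _ => congrArg _ (EPx.pup hκ ht _ g hg)
  · rw [((kMIX _ m _ hv).2.2.2.2.2.2 _ (hg.comp PG_up)).2.2,
      ((kMIX _ (m.map up) _ hw).2.2.2.2.2.2 g hg).2.2]
    exact sum_congr rfl fun ω _ => congrArg _ (EPx.pup hκ ht (m.x ω)
      (fun z => (m.x ω (j, 0) - z j) / (κ ^ 2 + t) * g z)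
      ((((PG.const _).sub (PG.coord j)).div _).mul hg))

end Pool.Agent.P.MP_6b977f_mp.QG
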