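import Pool.Agent.P.MP_6b977f_mp.QG.IfaceB

/-! Step FIB. -/

namespace Pool.Agent.P.MP_6b977f_mp.QG

open Finset MeasureTheory Real Matrix RG
open scoped Classical

namespace FIBx

lemma typ {d N : ℕ} {M : Cfg d N} (h : M ∈ Cf d N) :
    M.cycleType = Multiset.replicate (Fintype.card (Fin N × Fin d) / 2) 2 := by
  have e : M.cycleType = Multiset.replicate M.cycleType.card 2 :=
    Equiv.Perm.cycleType_of_pow_prime_eq_one (p := 2) (Equiv.ext fun x => (mem_Cf.1 h x).1)
  have s := M.sum_cycleType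
  rw [e, Multiset.sum_replicate, show M.support = univ from
    eq_univ_of_forall fun x => Equiv.Perm.mem_support.2 (mem_Cf.1 h x).2, card_univ] at s
  rw [e, ← s]
  simp

lemma fib {d N : ℕ} (m : ℕ) {M M' : Cfg d N} (h : M ∈ Cf d N) (h' : M' ∈ Cf d N) :
    #(univ.filter fun g : Glue d N m => cfg g = M) ≤
      #(univ.filter fun g : Glue d N m => cfg g = M') := by
  obtain ⟨u0, rfl⟩ := isConj_iff.1 (Equiv.Perm.isConj_iff_cycleType_eq.2 ((typ h).trans (typ h').symm))
  refine card_le_card_of_injOn (fun g => u0.symm.trans g) (fun g hg => ?_) fun g _ g' _ e => ?_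
  · simp only [coe_filter, mem_univ, true_and, Set.mem_setOf_eq] at hg ⊢
    subst hg
    rfl
  · ext1 x
    simpa using congrArg (fun u : Glue d N m => u (u0 x)) e

end FIBx

theorem p_FIB :
    S_FIB := by
  intro d N m P ε h
  obtain ⟨k, hk⟩ : ∃ k, ∀ M ∈ Cf d N, #(univ.filter fun g : Glue d N m => cfg g = M) = k := by
    rcases (Cf d N).eq_empty_or_nonempty with e | ⟨M, hM⟩
    · exact ⟨0, by simp [e]⟩
    · exact ⟨_, fun M' h' => le_antisymm (FIBx.fib m h' hM) (FIBx.fib m hM h')⟩
  have e1 : Fintype.card (Glue d N m) = #(Cf d N) * k := by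
    rw [← card_univ, card_eq_sum_card_fiberwise (f := cfg) (t := Cf d N) fun g _ => cfg_mem g,
      sum_congr rfl hk, sum_const, smul_eq_mul]
  have e2 : #(univ.filter fun g : Glue d N m => P (cfg g)) = #((Cf d N).filter P) * k := by
    rw [card_eq_sum_card_fiberwise (f := cfg) (t := (Cf d N).filter P) fun g hg => by
      simpa [cfg_mem g] using hg, ← smul_eq_mul, ← sum_const]
    refine sum_congr rfl fun M hM => ?_
    rw [← hk M (mem_filter.1 hM).1, filter_filter]
    exact congrArg _ (filter_congr fun g _ =>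
      ⟨fun e => e.2, fun e => ⟨e ▸ (mem_filter.1 hM).2, e⟩⟩)
  rw [e1, e2]
  push_cast
  rw [← mul_assoc]
  exact mul_le_mul_of_nonneg_right h (by positivity)

end Pool.Agent.P.MP_6b977f_mp.QG
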