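import Pool.Agent.P.MP_6b977f_mp.QG.IfaceB

/-! Step FM. -/

namespace Pool.Agent.P.MP_6b977f_mp.QG

open Finset MeasureTheory Real Matrix RG
open scoped Classical

namespace FMx

theorem emp {H : Type} [Fintype H] [Nonempty H] (l0 : H → Fin 2 → ℤ) : ∃ ν : LL (Fin 2),
    (∀ l, ν.p l = #(univ.filter fun h => l0 h = l) / Fintype.card H) ∧
    ∀ l1 : H → Fin 2 → ℤ, (∀ l, #(univ.filter fun h => l1 h = l) = #(univ.filter fun h => l0 h = l)) →
      ∀ f, ∑ h, f (l1 h) = Fintype.card H * ν.E f := by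
  have hD : (0 : ℝ) < Fintype.card H := by exact_mod_cast Fintype.card_pos
  have k : ∀ l1 : H → Fin 2 → ℤ,
      (∀ l, #(univ.filter fun h => l1 h = l) = #(univ.filter fun h => l0 h = l)) →
      ∀ f : (Fin 2 → ℤ) → ℝ, ∑ h, f (l1 h) = Fintype.card H *
        ∑ l ∈ univ.image l0, (#(univ.filter fun h => l0 h = l) / Fintype.card H : ℝ) * f l := by
    intro l1 h1 f
    rw [← sum_fiberwise_of_maps_to (g := l1) (t := univ.image l0) fun h _ => by
      obtain ⟨h', x⟩ := card_pos.1 (h1 _ ▸ card_pos.2 ⟨h, mem_filter.2 ⟨mem_univ h, rfl⟩⟩ :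
        0 < #(univ.filter fun h' => l0 h' = l1 h))
      exact mem_image.2 ⟨h', mem_univ _, (mem_filter.1 x).2⟩, mul_sum]
    refine sum_congr rfl fun l _ => ?_
    rw [sum_congr rfl fun h x => by rw [(mem_filter.1 x).2], sum_const, h1, nsmul_eq_mul]
    field_simp
  refine ⟨⟨univ.image l0, fun l => #(univ.filter fun h => l0 h = l) / Fintype.card H,
    fun l x => ?_, ?_⟩, fun _ => rfl, k⟩
  · obtain ⟨h, -, rfl⟩ := mem_image.1 x
    exact div_pos (Nat.cast_pos.2 (card_pos.2 ⟨h, mem_filter.2 ⟨mem_univ h, rfl⟩⟩)) hD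
  · have := k l0 (fun _ => rfl) fun _ => 1
    simp only [sum_const, card_univ, nsmul_eq_mul, mul_one] at this
    exact mul_left_cancel₀ hD.ne' (by rw [← this, mul_one])

theorem size (d N : ℕ) (R : ℝ) (hd : 1 ≤ d) (hN : 1 ≤ N) (hR : 1 ≤ R) :
    40 * R * log (exp 1 * (N * d)) + 40 * R * log (26 * R ^ 2 * (N * d + 1)) ≤
      40 * (32 * d + 3) * R * log (2 * N * R) := by
  have hd' : (1 : ℝ) ≤ d := by exact_mod_cast hd
  have hN' : (1 : ℝ) ≤ N := by exact_mod_cast hN
  have hNR : 1 ≤ N * R := one_le_mul_of_one_le_of_one_le hN' hR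
  have b0 : 1 ≤ (N : ℝ) * d := one_le_mul_of_one_le_of_one_le hN' hd'
  obtain ⟨Y, hY⟩ : ∃ Y, Y = 2 * N * R := ⟨_, rfl⟩
  rw [← hY]
  have hY2 : 2 ≤ Y := by rw [hY]; linarith
  have hl : 1 / 2 ≤ log Y := le_trans (by have := log_two_gt_d9; linarith)
    (log_le_log (by norm_num) hY2)
  have a1 : log (exp 1 * (N * d)) ≤ log (3 * d) + log Y := by
    rw [← log_mul (by positivity) (by positivity)]
    have b1 : exp 1 ≤ 3 := by have := exp_one_lt_d9; linarith
    have b3 : (N : ℝ) ≤ Y := by rw [hY]; nlinarith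
    refine log_le_log (by positivity) ?_
    calc exp 1 * (N * d) ≤ 3 * (Y * d) := by gcongr
      _ = _ := by ring
  have a2 : log (26 * R ^ 2 * (N * d + 1)) ≤ log (13 * d) + (2 : ℕ) * log Y := by
    rw [← log_pow, ← log_mul (by positivity) (by positivity)]
    refine log_le_log (by positivity) ?_
    calc 26 * R ^ 2 * (N * d + 1) ≤ 26 * R ^ 2 * (N * d * N + N * d * N) := by
          refine mul_le_mul_of_nonneg_left ?_ (by positivity)
          nlinarith [mul_le_mul_of_nonneg_left hN' (zero_le_one.trans b0)]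
      _ = _ := by rw [hY]; ring
  have a3 := log_le_self (by positivity : (0 : ℝ) ≤ 3 * d)
  have a4 := log_le_self (by positivity : (0 : ℝ) ≤ 13 * d)
  have a5 : log (exp 1 * (N * d)) + log (26 * R ^ 2 * (N * d + 1)) ≤ (32 * d + 3) * log Y := by
    push_cast at a2
    nlinarith
  nlinarith [mul_le_mul_of_nonneg_left a5 (by positivity : 0 ≤ 40 * R)]

theorem exch {X O : Type} [Fintype X] (S : Finset O) (P : O → ℝ) (f : X → O → ℝ) :
    ∑ x, ∑ o ∈ S, P o * f x o = ∑ o ∈ S, P o * ∑ x, f x o := by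
  rw [sum_comm]; simp only [mul_sum]

theorem cnt (hCNT : S_CNT) {H H' A : Type} [Fintype H] [Fintype H'] [i1 : DecidableEq H]
    [i2 : DecidableEq H'] [i3 : DecidableEq A] (lab : H → A) (lab' : H' → A) :
    (#(univ.filter fun g : H ≃ H' => ∀ h, lab' (g h) = lab h) : ℝ) ≤
      Fintype.card (H ≃ H') * (exp 1 * Fintype.card H) ^ #(univ.image lab) *
        exp (∑ h, log (#(univ.filter fun h' => lab h' = lab h) / Fintype.card H)) := by
  cases Subsingleton.elim i1 fun a b => Classical.propDecidable (a = b)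
  cases Subsingleton.elim i2 fun a b => Classical.propDecidable (a = b)
  cases Subsingleton.elim i3 fun a b => Classical.propDecidable (a = b)
  exact hCNT H H' A lab lab'

end FMx

theorem p_FM (hGN : S_GN) (hCNT : S_CNT) (hTYP : S_TYP) :
    S_FM := by
  intro d hd
  refine ⟨40 * (32 * d + 3), by positivity, ?_⟩
  intro N m R Z Ψ K w1 w2 g1 g2 b B F hN hR hF hΨ
  have : Nonempty (Fin N × Fin d) := ⟨(⟨0, hN⟩, ⟨0, hd⟩)⟩
  have hD : (Fintype.card (Fin N × Fin d) : ℝ) = N * d := by simp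
  obtain ⟨T, hT, hT'⟩ := hTYP (Fin N × Fin d) R hR
  let O := (Fin N → PI d → ℤ) × (Fin m → PI 2 → ℤ)
  let st : Glue d N m → (HI d N → ℤ) → O := fun g φ => (vst φ, est g φ)
  let lab : O → Fin N × Fin d → Fin 2 → ℤ := fun o h => at1 (o.1 h.1) h.2
  let lab' : O → Fin m × Fin 2 → Fin 2 → ℤ := fun o h => at1 (o.2 h.1) h.2
  let cn : O → (Fin 2 → ℤ) → ℕ := fun o l => #(univ.filter fun h => lab o h = l)
  let W : O → ℝ := fun o => ∑ v, w1 v (o.1 v) + ∑ e, w2 e (o.2 e)
  let cp : O → Glue d N m → Prop := fun o g => ∀ h, lab' o (g h) = lab o h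
  let X : O → ℝ := fun o => exp (-W o) * exp (∑ h, log (cn o (lab o h) / (N * d)))
  let Om : Finset O := B.biUnion fun g => (F g).image (st g)
  have hOm : ∀ o ∈ Om, ∃ g ∈ B, ∃ φ ∈ F g, st g φ = o := fun o ho => by
    obtain ⟨g, hg, ho⟩ := mem_biUnion.1 ho
    exact ⟨g, hg, mem_image.1 ho⟩
  have hcp : ∀ g φ, cp (st g φ) g := fun g φ h => funext fun a =>
    congrArg (fun x => φ (x, a)) (g.symm_apply_apply h)
  have hty : ∀ o ∈ Om, (#(univ.image (lab o)) : ℝ) ≤ 40 * R ∧ cn o ∈ T := fun o ho => by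
    obtain ⟨g, hg, φ, hφ, rfl⟩ := hOm o ho
    have := (((hF g hg).1 φ hφ).1)
    rw [Fintype.sum_prod_type] at this
    exact hT' _ this
  have h1e : (1 : ℝ) ≤ exp 1 * (N * d) := one_le_mul_of_one_le_of_one_le (one_le_exp zero_le_one)
    (one_le_mul_of_one_le_of_one_le (by exact_mod_cast hN) (by exact_mod_cast hd))
  have s1 : #B * Z ≤ ∑ o ∈ Om, exp (-W o) * #(univ.filter (cp o)) := by
    calc #B * Z ≤ ∑ g ∈ B, ∑ φ ∈ F g, exp (-W (st g φ)) := by
          rw [← nsmul_eq_mul]; exact card_nsmul_le_sum _ _ _ fun g hg => (hF g hg).2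
      _ ≤ ∑ g ∈ B, ∑ o ∈ Om, if cp o g then exp (-W o) else 0 := by
          refine sum_le_sum fun g hg => ?_
          rw [← sum_filter, ← sum_image (f := fun o => exp (-W o)) (g := st g) fun φ _ φ' _ h =>
            funext fun x => congrFun (congrFun (congrArg Prod.fst h) x.1.1) (x.1.2, x.2)]
          refine sum_le_sum_of_subset_of_nonneg (fun o ho => ?_) fun _ _ _ => (exp_pos _).le
          refine mem_filter.2 ⟨mem_biUnion.2 ⟨g, hg, ho⟩, ?_⟩
          obtain ⟨φ, -, rfl⟩ := mem_image.1 ho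
          exact hcp g φ
      _ ≤ ∑ g, ∑ o ∈ Om, if cp o g then exp (-W o) else 0 :=
          sum_le_sum_of_subset_of_nonneg (subset_univ _) fun _ _ _ =>
            sum_nonneg fun o _ => by positivity
      _ = _ := by
          rw [sum_comm]
          refine sum_congr rfl fun o _ => ?_
          rw [← sum_filter, sum_const, nsmul_eq_mul, mul_comm]
  have s2 : ∀ o ∈ Om, exp (-W o) * #(univ.filter (cp o)) ≤
      Fintype.card (Glue d N m) * exp (40 * R * log (exp 1 * (N * d))) * X o := by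
    intro o ho
    have a1 := FMx.cnt hCNT (lab o) (lab' o)
    rw [hD] at a1
    have a3 : (exp 1 * (N * d)) ^ #(univ.image (lab o)) ≤ exp (40 * R * log (exp 1 * (N * d))) := by
      rw [← exp_log (zero_lt_one.trans_le h1e), ← exp_nat_mul, log_exp]
      exact exp_le_exp.2 (mul_le_mul_of_nonneg_right (hty o ho).1 (log_nonneg h1e))
    rw [mul_left_comm]
    refine mul_le_mul_of_nonneg_left (a1.trans ?_) (exp_pos _).le
    gcongr
  have s3 : ∀ τ ∈ Om.image cn, ∑ o ∈ Om.filter (fun o => cn o = τ), X o ≤ exp Ψ := by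
    intro τ hτ
    obtain ⟨o0, ho0, rfl⟩ := mem_image.1 hτ
    have hne : (Om.filter fun o => cn o = cn o0).Nonempty := ⟨o0, mem_filter.2 ⟨ho0, rfl⟩⟩
    obtain ⟨ν, n1, n2⟩ := FMx.emp (lab o0)
    rw [hD] at n1 n2
    obtain ⟨μ, μ', P, b1, b2, b3, b4, b5⟩ := hGN _ _ _ _ _ W hne
    have n3 : ∀ o ∈ Om.filter (fun o => cn o = cn o0), ∀ f, ∑ h, f (lab o h) = N * d * ν.E f :=
      fun o ho => n2 _ (congrFun (mem_filter.1 ho).2)
    have n4 : ∀ c : ℝ, ∑ o ∈ Om.filter (fun o => cn o = cn o0), P o * c = c := fun c => by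
      rw [← sum_mul, b2, one_mul]
    have hm : (m : ℝ) * (2 : ℕ) = N * d := by
      obtain ⟨g, -⟩ := hOm o0 ho0
      have := Fintype.card_congr g
      simp only [Fintype.card_prod, Fintype.card_fin] at this
      exact_mod_cast this.symm
    have b6 := hΨ ⟨μ, μ', ν, fun f => by
        simp only [b3, FMx.exch]
        rw [← n4 (_ * _ * _)]
        refine sum_congr rfl fun o ho => ?_
        rw [← n3 o ho, Fintype.sum_prod_type], fun f => by
        simp only [b4, FMx.exch]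
        rw [← n4 (_ * _ * _), hm]
        refine sum_congr rfl fun o ho => ?_
        obtain ⟨g, -, φ, -, rfl⟩ := hOm o (mem_filter.1 ho).1
        rw [← n3 _ ho]
        exact congrArg _ (sum_est g φ f)⟩ fun k => by
      simp only [b3, b4, FMx.exch]
      rw [← n4 (b k), ← sum_add_distrib]
      refine sum_le_sum fun o ho => ?_
      rw [← mul_add]
      refine mul_le_mul_of_nonneg_left ?_ (b1 o ho)
      obtain ⟨g, hg, φ, hφ, rfl⟩ := hOm o (mem_filter.1 ho).1
      exact ((hF g hg).1 φ hφ).2 k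
    simp only [Fam.Phi, b3, b4, FMx.exch, ← sum_add_distrib, ← mul_add] at b6
    have b7 : ∀ o ∈ Om.filter (fun o => cn o = cn o0), X o = exp (-W o) * exp (-(N * d * ν.H)) := by
      intro o ho
      rw [LL.H, ← n3 o ho, sum_neg_distrib, neg_neg]
      simp only [X, n1, (mem_filter.1 ho).2]
      rfl
    rw [sum_congr rfl b7, ← sum_mul, ← exp_log (sum_pos (fun _ _ => exp_pos _) hne), ← exp_add,
      exp_le_exp]
    linarith
  have s5 : ∑ o ∈ Om, X o ≤ exp (40 * R * log (26 * R ^ 2 * (N * d + 1))) * exp Ψ := by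
    rw [← sum_fiberwise_of_maps_to (g := cn) (t := Om.image cn) fun o ho => mem_image_of_mem _ ho]
    refine (sum_le_card_nsmul _ _ _ s3).trans ?_
    rw [nsmul_eq_mul, ← hD]
    refine mul_le_mul_of_nonneg_right (le_trans (Nat.cast_le.2 (card_le_card fun τ hτ => ?_)) hT)
      (exp_pos _).le
    obtain ⟨o, ho, rfl⟩ := mem_image.1 hτ
    exact (hty o ho).2
  refine (s1.trans (sum_le_sum s2)).trans ?_
  rw [← mul_sum, mul_assoc]
  refine mul_le_mul_of_nonneg_left ((mul_le_mul_of_nonneg_left s5 (exp_pos _).le).trans ?_)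
    (Nat.cast_nonneg _)
  rw [← exp_add, ← exp_add, exp_le_exp]
  linarith [FMx.size d N R hd hN hR]

end Pool.Agent.P.MP_6b977f_mp.QG
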