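import Pool.Agent.P.MP_6b977f_mp.QG.IfaceB

/-! Step GN. -/

namespace Pool.Agent.P.MP_6b977f_mp.QG

open Finset MeasureTheory Real Matrix RG
open scoped Classical

namespace GNx

theorem law {O ι : Type} (Om : Finset O) (P : O → ℝ) (hP : ∀ o, 0 < P o) (h1 : ∑ o ∈ Om, P o = 1)
    (f : O → ι → ℤ) :
    ∃ μ : LL ι, (∀ o ∈ Om, f o ∈ μ.A) ∧ ∀ g, μ.E g = ∑ o ∈ Om, P o * g (f o) := by
  have hg : ∀ g : (ι → ℤ) → ℝ,
      ∑ s ∈ Om.image f, (∑ o ∈ Om, if f o = s then P o else 0) * g s =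
        ∑ o ∈ Om, P o * g (f o) := by
    intro g
    simp only [Finset.sum_mul]
    rw [Finset.sum_comm]
    refine Finset.sum_congr rfl fun o ho => ?_
    have : f o ∈ Om.image f := Finset.mem_image_of_mem f ho
    simp [this]
  refine ⟨⟨Om.image f, fun s => ∑ o ∈ Om, if f o = s then P o else 0, ?_, ?_⟩,
    fun o ho => Finset.mem_image_of_mem f ho, hg⟩
  · intro s hs
    obtain ⟨o, ho, rfl⟩ := Finset.mem_image.1 hs
    refine Finset.sum_pos' (fun o' _ => ?_) ⟨o, ho, by simpa using hP o⟩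
    split_ifs
    · exact (hP o').le
    · exact le_rfl
  · have := hg fun _ => 1
    simpa [h1] using this

end GNx

theorem p_GN :
    S_GN := by
  intro n n' ι ι' Om w hne
  set Z := ∑ o ∈ Om, Real.exp (-w o) with hZ
  have hZ0 : 0 < Z := Finset.sum_pos (fun _ _ => Real.exp_pos _) hne
  let P : (Fin n → ι → ℤ) × (Fin n' → ι' → ℤ) → ℝ := fun o => Real.exp (-w o) / Z
  have hP0 : ∀ o, 0 < P o := fun o => div_pos (Real.exp_pos _) hZ0
  have hP1 : ∑ o ∈ Om, P o = 1 := by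
    simp only [P]; rw [← Finset.sum_div, div_self hZ0.ne']
  choose μ hμA hμ using fun x : Fin n => GNx.law Om P hP0 hP1 fun o => o.1 x
  choose μ' hμA' hμ' using fun x : Fin n' => GNx.law Om P hP0 hP1 fun o => o.2 x
  refine ⟨μ, μ', P, fun o _ => (hP0 o).le, hP1, hμ, hμ', ?_⟩
  let q : (Fin n → ι → ℤ) × (Fin n' → ι' → ℤ) → ℝ :=
    fun o => (∏ x, (μ x).p (o.1 x)) * ∏ x, (μ' x).p (o.2 x)
  have hQ : ∑ o ∈ Om, q o ≤ 1 := by
    calc ∑ o ∈ Om, q o ≤ ∑ o ∈ (Fintype.piFinset fun x => (μ x).A) ×ˢ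
            (Fintype.piFinset fun x => (μ' x).A), q o := by
          refine Finset.sum_le_sum_of_subset_of_nonneg (fun o ho => Finset.mem_product.2
            ⟨Fintype.mem_piFinset.2 fun x => hμA x o ho,
              Fintype.mem_piFinset.2 fun x => hμA' x o ho⟩) fun o ho _ => ?_
          obtain ⟨a, b⟩ := Finset.mem_product.1 ho
          exact mul_nonneg
            (Finset.prod_nonneg fun x _ => ((μ x).pos _ (Fintype.mem_piFinset.1 a x)).le)
            (Finset.prod_nonneg fun x _ => ((μ' x).pos _ (Fintype.mem_piFinset.1 b x)).le)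
      _ = (∏ x, ∑ s ∈ (μ x).A, (μ x).p s) * ∏ x, ∑ s ∈ (μ' x).A, (μ' x).p s := by
          rw [Finset.sum_product, Finset.prod_univ_sum, Finset.prod_univ_sum, Finset.sum_mul_sum]
      _ = 1 := by simp [LL.one]
  have hpt : ∀ o ∈ Om, P o * Real.log Z - (∑ x, P o * -log ((μ x).p (o.1 x)) +
      ∑ x, P o * -log ((μ' x).p (o.2 x)) - P o * w o) ≤ q o - P o := by
    intro o ho
    have a1 : ∀ x, 0 < (μ x).p (o.1 x) := fun x => (μ x).pos _ (hμA x o ho)
    have a2 : ∀ x, 0 < (μ' x).p (o.2 x) := fun x => (μ' x).pos _ (hμA' x o ho)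
    have b1 : 0 < ∏ x, (μ x).p (o.1 x) := Finset.prod_pos fun x _ => a1 x
    have b2 : 0 < ∏ x, (μ' x).p (o.2 x) := Finset.prod_pos fun x _ => a2 x
    have hq : 0 < q o := mul_pos b1 b2
    have h1 := Real.log_le_sub_one_of_pos (div_pos hq (hP0 o))
    have h2 : Real.log (P o) = -w o - Real.log Z := by
      simp only [P]; rw [Real.log_div (Real.exp_pos _).ne' hZ0.ne', Real.log_exp]
    have h6 : Real.log (q o) = ∑ x, log ((μ x).p (o.1 x)) + ∑ x, log ((μ' x).p (o.2 x)) := by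
      simp only [q]
      rw [Real.log_mul b1.ne' b2.ne', Real.log_prod fun x _ => (a1 x).ne',
        Real.log_prod fun x _ => (a2 x).ne']
    rw [Real.log_div hq.ne' (hP0 o).ne', h2, h6] at h1
    have h3 := mul_le_mul_of_nonneg_left h1 (hP0 o).le
    have h4 : P o * (q o / P o - 1) = q o - P o := by
      have := (hP0 o).ne'; field_simp
    rw [h4] at h3
    refine le_trans (le_of_eq ?_) h3
    rw [← Finset.mul_sum, ← Finset.mul_sum, Finset.sum_neg_distrib, Finset.sum_neg_distrib]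
    ring
  have h5 := Finset.sum_le_sum hpt
  rw [Finset.sum_sub_distrib, Finset.sum_sub_distrib, Finset.sum_sub_distrib,
    Finset.sum_add_distrib, ← Finset.sum_mul, hP1, Finset.sum_comm,
    Finset.sum_comm (s := Om)] at h5
  simp only [LL.H, hμ, hμ']
  linarith

end Pool.Agent.P.MP_6b977f_mp.QG
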