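import Pool.Agent.P.MP_6b977f_mp.QG.IfaceC
import Pool.Agent.P.MP_6b977f_mp.QG.IfaceB

/-! Step HIGH. -/

namespace Pool.Agent.P.MP_6b977f_mp.QG

open Finset MeasureTheory Real Matrix RG
open scoped Classical

namespace HIGHx

theorem cnt {n J : ℕ} (jj : Fin n → ℕ) (hj : ∀ i, jj i < J) {P Q : ℕ → Prop}
    {_ : DecidablePred P} {_ : DecidablePred Q} {a b : ℝ} (ha : (#((range J).filter P) : ℝ) ≤ a)
    (hb : (#((range J).filter Q) : ℝ) ≤ b) (A B : ℝ)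
    (hA : 0 ≤ A) (hB : 0 ≤ B) (h1 : ∀ j, (#(univ.filter fun i => jj i = j) : ℝ) ≤ A)
    (h2 : ∀ i, jj i ≠ 0 → ¬ P (jj i) → Q (jj i) ∧ (#(univ.filter fun i' => jj i' = jj i) : ℝ) ≤ B) :
    (n : ℝ) ≤ A + a * A + b * B := by
  have e : n = ∑ j ∈ range J, #(univ.filter fun i => jj i = j) := by
    rw [← card_eq_sum_card_fiberwise fun i _ => mem_coe.2 (mem_range.2 (hj i)), card_univ,
      Fintype.card_fin]
  have k : ∀ j ∈ range J, (#(univ.filter fun i => jj i = j) : ℝ) ≤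
      (if j = 0 then A else 0) + (if P j then A else 0) + (if Q j then B else 0) := fun j _ => by
    have a1 : 0 ≤ if j = 0 then A else 0 := by positivity
    have a2 : 0 ≤ if P j then A else 0 := by positivity
    have a3 : 0 ≤ if Q j then B else 0 := by positivity
    by_cases x : j = 0
    · rw [if_pos x]; linarith [h1 j]
    by_cases y : P j
    · rw [if_pos y]; linarith [h1 j]
    rcases (univ.filter fun i => jj i = j).eq_empty_or_nonempty with z | ⟨i, z⟩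
    · rw [z, card_empty, Nat.cast_zero]; linarith
    obtain rfl := (mem_filter.1 z).2
    rw [if_pos (h2 i x y).1]
    linarith [(h2 i x y).2]
  have := sum_le_sum k
  rw [← Nat.cast_sum, ← e, sum_add_distrib, sum_add_distrib, sum_ite_eq', ← sum_filter, ← sum_filter,
    sum_const, sum_const, nsmul_eq_mul, nsmul_eq_mul] at this
  refine this.trans ?_
  have := mul_le_mul_of_nonneg_right ha hA
  have := mul_le_mul_of_nonneg_right hb hB
  split_ifs <;> linarith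

end HIGHx

theorem p_HIGH (hTR : S_TR) (hWIN : S_WIN) (hDIM : S_DIM) (hRESO : S_RESO) :
    S_HIGH := by
  intro d c Λ0 R ε hd hc hε
  obtain ⟨Λ, hΛ, hΛ0⟩ : ∃ Λ : ℝ, 1 ≤ Λ ∧ Λ0 ≤ Λ := ⟨_, le_max_left _ _, le_max_right _ _⟩
  obtain ⟨C, hC, hW⟩ := hWIN d c Λ hd hc hΛ
  have hd' : (3 : ℝ) ≤ d := by exact_mod_cast hd
  obtain ⟨τ, t0, t1, t2⟩ : ∃ τ : ℝ, 0 < τ ∧ 20 * Λ * τ ≤ 1 ∧ 48 * C * Λ * τ ≤ ε :=
    ⟨min (1 / (20 * Λ)) (ε / (48 * C * Λ)), by positivity,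
      (le_div_iff₀' (by positivity)).1 (min_le_left _ _),
      (le_div_iff₀' (by positivity)).1 (min_le_right _ _)⟩
  have k0 : 0 < ε / (48 * C) := by positivity
  obtain ⟨N0, hN0⟩ := hW ((ε / (48 * C)) ^ 2) R ε (ε * τ / (12 * d)) τ (by positivity) hε
    (by positivity) t0 t1
  obtain ⟨C', hC'⟩ := hRESO Λ ((ε / (48 * C)) ^ 2) τ (by positivity) t0
  rw [sqrt_sq k0.le] at hC'
  refine ⟨max N0 1, fun N hN m σ L hm hσ hL0 => ?_⟩
  have hL : ∀ e, 1 ≤ L e ∧ L e ≤ Λ := fun e => ⟨(hL0 e).1, (hL0 e).2.trans hΛ0⟩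
  have n1 : 1 ≤ N := le_of_max_le_right hN
  have n2 : N ≤ m := by nlinarith
  have n3 : (0 : ℝ) < N := by exact_mod_cast n1
  refine le_trans (Nat.cast_le.2 (card_le_card fun g hg => ?_))
    (hN0 N (le_of_max_le_left hN) m ⟨σ, hσ, hm⟩ L hL)
  refine mem_filter.2 ⟨mem_univ _, fun ⟨J0, hJ⟩ => (mem_filter.1 hg).2 ?_⟩
  refine ⟨max (τ * (J0 + 1)) (3 * (2 * d + C * τ * C') / ε), fun T hT n k f hf ho => ?_⟩
  have T1 : (J0 + 1 : ℝ) ≤ T / τ := (le_div_iff₀' t0).2 (le_of_max_le_left hT)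
  have T2 := (div_le_iff₀ hε).1 (le_of_max_le_right hT)
  have T3 : (0 : ℝ) ≤ J0 := Nat.cast_nonneg _
  have T4 : 0 ≤ T := by nlinarith [le_of_max_le_left hT]
  have j1 : ∀ i, ⌊k i / τ⌋₊ * τ ≤ k i ∧ k i ≤ (⌊k i / τ⌋₊ + 1) * τ := fun i =>
    ⟨(le_div_iff₀ t0).1 (Nat.floor_le (div_nonneg (hf i).1 t0.le)),
      (div_le_iff₀ t0).1 (Nat.lt_floor_add_one _).le⟩
  have dim := fun j : ℕ => hDIM d N m c ⟨σ, hσ, hm⟩ L g Λ ((j + 1) * τ) τ {i // ⌊k i / τ⌋₊ = j}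
    (fun i => k i) (fun i => f i) (n1.trans n2) hL (by positivity) t0 (by nlinarith)
    (fun i => ⟨(hf i).2.2.1, by
      have a := j1 i
      rw [i.2] at a
      have b := (hf i).1
      rw [abs_of_nonneg (by nlinarith)]
      nlinarith⟩) fun i i' h => ho _ _ fun e => h (Subtype.ext e)
  simp only [Fintype.card_subtype] at dim
  have J1 : ((⌊T / τ⌋₊ + 1 : ℕ) : ℝ) * τ ≤ 2 * T := by
    have := Nat.floor_le (by linarith : 0 ≤ T / τ)
    rw [← le_div_iff₀ t0, mul_div_assoc]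
    push_cast
    linarith
  have a1 := hJ (⌊T / τ⌋₊ + 1) (Nat.le_succ_of_le (Nat.le_floor (by linarith)))
  have a2 := hC' m L (⌊T / τ⌋₊ + 1) hL (n1.trans n2)
  have a3 := HIGHx.cnt (J := ⌊T / τ⌋₊ + 1) (fun i => ⌊k i / τ⌋₊) (fun i =>
    Nat.lt_succ_of_le (Nat.floor_mono (div_le_div_of_nonneg_right (hf i).2.1 t0.le)))
    a1 a2 (2 * d * N) (C * τ * N) (by positivity)
    (by positivity) (fun j => (dim j).1) fun i x y => by
      rw [not_or] at y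
      refine ⟨⟨k i, (j1 i).1, (j1 i).2, by_contra fun z => (hf i).2.2.2 ?_⟩, by_contra fun z => ?_⟩
      · refine hTR d N m c ⟨σ, hσ, hm⟩ L (k i) 0 ((ε / (48 * C)) ^ 2) R ε g
          (fun e => zero_le_one.trans (hL e).1) (lt_of_lt_of_le (by positivity) (j1 i).1)
          (fun k' z' b1 b2 b3 b4 s t b5 => by_contra fun b6 => y.1 ?_) (k i) (f i) le_rfl
          (by linarith) (not_lt.1 z) (hf i).2.2.1
        exact ⟨k', z', s, t, (j1 i).1.trans b1, by linarith [(j1 i).2], b3, b4, b5, not_le.1 b6⟩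
      · obtain ⟨V, b1, b2⟩ := (dim ⌊k i / τ⌋₊).2
        exact y.2 ⟨V, (not_le.1 z).le.trans b1, b2⟩
  have a4 : (N : ℝ) ≤ ∑ e, L e := by
    have := card_nsmul_le_sum univ L 1 fun e _ => (hL e).1
    rw [card_univ, Fintype.card_fin, nsmul_eq_mul, mul_one] at this
    exact (Nat.cast_le.2 n2).trans this
  obtain ⟨J, hJe⟩ : ∃ J : ℝ, J = ((⌊T / τ⌋₊ + 1 : ℕ) : ℝ) := ⟨_, rfl⟩
  have J0' : 0 ≤ J := hJe ▸ Nat.cast_nonneg _
  rw [← hJe] at a3 J1
  have b3 : ε * τ / (12 * d) * J * (2 * d * N) = ε * N / 6 * (J * τ) := by field_simp; ring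
  have b4 : ((4 * (ε / (48 * C)) + 4 * Λ * τ) * J + C') * (C * τ * N) =
      (ε + 48 * C * Λ * τ) / 12 * N * (J * τ) + C * τ * C' * N := by field_simp; ring
  have b5 : ε * N / 6 * (J * τ) ≤ ε * N / 6 * (2 * T) := by gcongr
  have b6 : (ε + 48 * C * Λ * τ) / 12 * N * (J * τ) ≤ (ε + ε) / 12 * N * (2 * T) := by gcongr
  have b7 := mul_le_mul_of_nonneg_right T2 n3.le
  have b8 : ε * N * T ≤ ε * (∑ e, L e) * T := by gcongr
  linarith

end Pool.Agent.P.MP_6b977f_mp.QG
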