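import Pool.Agent.P.MP_6b977f_mp.QG.IfaceA
import Pool.Agent.P.MP_6b977f_mp.RG.TINF

/-! Step INF. -/

namespace Pool.Agent.P.MP_6b977f_mp.QG

open Finset MeasureTheory Real Matrix RG
open scoped Classical

namespace INFx

theorem node {d : ℕ} (m : Mix (PI d)) {κ u s : ℝ} (hκ : 0 < κ) (hu : 0 ≤ u) (hs : 0 < s) :
    m.ent (vn d κ u) ≤ d / 2 * (log (2 * π * (κ ^ 2 + u)) + 1 + log (2 * π * s ^ 2)) +
      (∑ j, m.E fun y => y (j, 0) ^ 2) / (2 * (κ ^ 2 + u)) + (m.E wsq + d * κ ^ 2) / (2 * s ^ 2) := by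
  have v0 : 0 < κ ^ 2 + u := by positivity
  have h1 := RG.INFx.gib m (v := vn d κ u) (w := fun p => if p.2 = 0 then κ ^ 2 + u else s ^ 2)
    kKER kMIX kGIB (vn_pos hκ hu) fun p => by split_ifs <;> positivity
  have h2 : m.E wsq = ∑ j, m.E fun y => y (j, 1) ^ 2 := by
    simp only [Mix.E, wsq, mul_sum]
    exact sum_comm
  rw [sum_PI] at h1
  simp only [vn, if_true, one_ne_zero, if_false, sum_add_distrib, add_div _ (κ ^ 2 + u),
    add_div _ (κ ^ 2), ← sum_div, sum_const, card_univ, Fintype.card_fin, nsmul_eq_mul, ← h2] at h1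
  refine h1.trans_eq ?_
  field_simp
  ring

end INFx

theorem p_INF (hFD : S_FD) :
    S_INF := by
  intro n d O m q κ t s hM hκ ht hs
  have mono : MonotoneOn (PhiS m q κ) (Set.Ici 0) :=
    monotoneOn_of_deriv_nonneg (convex_Ici 0)
      (fun x hx => (hFD n d O m q κ x hM hκ hx).1.continuousAt.continuousWithinAt)
      (fun x hx =>
        (hFD n d O m q κ x hM hκ (interior_subset hx)).1.differentiableAt.differentiableWithinAt)
      fun x hx => by
        obtain ⟨a, b⟩ := hFD n d O m q κ x hM hκ (interior_subset hx)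
        rw [a.deriv]
        exact div_nonneg (sum_nonneg fun y _ => b y) zero_le_two
  refine le_of_forall_pos_le_add fun ε hε => ?_
  obtain ⟨S, hS⟩ : ∃ S, S = ∑ x, ∑ j, (m x).E fun y => y (j, 0) ^ 2 := ⟨_, rfl⟩
  obtain ⟨u, hu⟩ : ∃ u, u = t + |S| / ε := ⟨_, rfl⟩
  have tu : t ≤ u := hu ▸ le_add_of_nonneg_right (by positivity)
  have u0 : 0 ≤ u := ht.trans tu
  have v0 : 0 < κ ^ 2 + u := by positivity
  have h1 := sum_le_sum fun x (_ : x ∈ univ) => INFx.node (m x) hκ u0 hs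
  have h2 := kHLO _ q (vq κ u) (vq_pos hκ u0)
  have h3 : log (2 * π * (κ ^ 2 + u)) ≤ log 2 + log (2 * π * (κ ^ 2 + u / 2)) := by
    rw [← log_mul two_ne_zero (by positivity)]
    refine log_le_log (by positivity) ?_
    nlinarith [mul_pos pi_pos (pow_pos hκ 2)]
  have h4 : S / (2 * (κ ^ 2 + u)) ≤ ε := by
    rw [div_le_iff₀ (by positivity)]
    have : ε * u = ε * t + |S| := by rw [hu]; field_simp
    nlinarith [le_abs_self S, abs_nonneg S, mul_nonneg hε.le ht, mul_pos hε (pow_pos hκ 2)]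
  simp only [sum_add_distrib, ← sum_div, ← hS, sum_const, card_univ, Fintype.card_fin,
    nsmul_eq_mul] at h1
  simp only [vq, sum_const, card_univ, Fintype.card_fin, nsmul_eq_mul, Nat.cast_ofNat] at h2
  refine (mono ht u0 tu).trans ?_
  have h7 := mul_le_mul_of_nonneg_left (show log (2 * π * (κ ^ 2 + u)) + 1 - log 2 ≤
    q.ent (vq κ u) by linarith) (show (0 : ℝ) ≤ n * d / 2 by positivity)
  rw [PhiS, mul_assoc (n : ℝ) d (κ ^ 2)]
  linarith

end Pool.Agent.P.MP_6b977f_mp.QG
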