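import Pool.Agent.P.MP_6b977f_mp.QG.IfaceA

/-! Step ISO. -/

namespace Pool.Agent.P.MP_6b977f_mp.QG

open Finset MeasureTheory Real Matrix RG
open scoped Classical

namespace ISOx

theorem abs_sig {d : ℕ} {c : ℝ} {σ : Matrix (Fin d) (Fin d) ℝ} (h : NoBack c σ) (i j : Fin d) :
    |σ i j| ≤ 1 := by
  have e : ∑ k, σ i k * σ i k = 1 := by
    have := congrFun (congrFun h.2.1 i) i
    rw [Matrix.mul_apply, Matrix.one_apply_eq] at this
    rw [← this]
    exact sum_congr rfl fun k _ => by rw [h.1.apply i k]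
  have := single_le_sum (f := fun k => σ i k * σ i k) (fun _ _ => mul_self_nonneg _) (mem_univ j)
  exact abs_le_one_iff_mul_self_le_one.2 (by linarith)

theorem core {d : ℕ} {c : ℝ} {σ : Matrix (Fin d) (Fin d) ℝ} (h : NoBack c σ) {ε l a1 a2 s : ℝ}
    (hε : ε = 1 ∨ ε = -1) (ρ u y : Fin d → ℝ)
    (h1 : ∀ i, |(ρ i + ε * ∑ j, σ i j * ρ j) / 2 - y i / 2| ≤ s)
    (h2 : ∀ i, |y i - l - (a1 * ((u i + ε * ∑ j, σ i j * u j) / 2) +
      a2 * ((u i - ε * ∑ j, σ i j * u j) / 2))| ≤ s) (k : Fin d) :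
    |l * (1 - ε * ∑ j, σ k j) + a2 * (u k - ε * ∑ j, σ k j * u j)| ≤ 3 * (1 + d) * s := by
  set f : Fin d → ℝ := ρ + ε • σ *ᵥ ρ - l • (1 : Fin d → ℝ) - (a1 / 2) • (u + ε • σ *ᵥ u) -
    (a2 / 2) • (u - ε • σ *ᵥ u) with hf
  have hb : ∀ i, |f i| ≤ 3 * s := fun i => by
    have e : f i = 2 * ((ρ i + ε * ∑ j, σ i j * ρ j) / 2 - y i / 2) +
        (y i - l - (a1 * ((u i + ε * ∑ j, σ i j * u j) / 2) +
          a2 * ((u i - ε * ∑ j, σ i j * u j) / 2))) := by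
      simp only [hf, Pi.add_apply, Pi.sub_apply, Pi.smul_apply, smul_eq_mul, Pi.one_apply,
        Matrix.mulVec, dotProduct]
      ring
    have a := abs_le.1 (h1 i)
    have b := abs_le.1 (h2 i)
    rw [e, abs_le]
    constructor <;> linarith [a.1, a.2, b.1, b.2]
  have hS : |(σ *ᵥ f) k| ≤ d * (3 * s) := by
    refine (abs_sum_le_sum_abs (fun j => σ k j * f j) univ).trans ?_
    simpa using sum_le_card_nsmul univ (fun j => |σ k j * f j|) (3 * s) fun j _ => by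
      rw [abs_mul]
      exact (mul_le_of_le_one_left (abs_nonneg _) (abs_sig h k j)).trans (hb j)
  have e : l * (1 - ε * ∑ j, σ k j) + a2 * (u k - ε * ∑ j, σ k j * u j) =
      ε * (σ *ᵥ f) k - f k := by
    simp only [hf, Matrix.mulVec_add, Matrix.mulVec_sub, Matrix.mulVec_smul, Matrix.mulVec_mulVec,
      h.2.1, Matrix.one_mulVec, Pi.add_apply, Pi.sub_apply, Pi.smul_apply, smul_eq_mul,
      Pi.one_apply]
    simp only [Matrix.mulVec, dotProduct, Pi.one_apply, mul_one]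
    rcases hε with rfl | rfl <;> ring
  have a := abs_le.1 hS
  have b := abs_le.1 (hb k)
  rw [e, abs_le]
  rcases hε with rfl | rfl <;> constructor <;> nlinarith [a.1, a.2, b.1, b.2]

theorem two {l r a T e : ℝ} (h0 : |l * r| ≤ e) (h1 : |l * r + a * T| ≤ e) : |a * T| ≤ 2 * e := by
  have a := abs_le.1 h0
  have b := abs_le.1 h1
  rw [abs_le]
  constructor <;> linarith [a.1, a.2, b.1, b.2]

theorem big {l r e : ℝ} (h0 : |l * r| ≤ e) (hr : 1 ≤ r) : |l| ≤ e := by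
  rw [abs_mul, abs_of_nonneg (by linarith : 0 ≤ r)] at h0
  exact (le_mul_of_one_le_right (abs_nonneg _) hr).trans h0

theorem dsin {x θ κ e : ℝ} (hκ : 0 < κ) (h : κ ≤ sin θ ^ 2) (h0 : |sin θ * x| ≤ e) :
    |x| ≤ e / κ := by
  rw [le_div_iff₀ hκ]
  have h1 : sin θ ^ 2 ≤ |sin θ| := by
    rw [← sq_abs, sq]
    exact mul_le_of_le_one_left (abs_nonneg _) (abs_sin_le_one θ)
  rw [abs_mul] at h0
  nlinarith [abs_nonneg x]

theorem tri {x e : ℝ} {t : ℝ} (ht : |t| ≤ 1) (h : |x| ≤ e) : -e ≤ t * x ∧ t * x ≤ e :=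
  abs_le.1 (by rw [abs_mul]; exact (mul_le_of_le_one_left (abs_nonneg _) ht).trans h)

theorem scale {a T z e : ℝ} (hT : 0 < T) (h : |a * T| ≤ e) (hz : |z| ≤ T) : |a * z| ≤ e := by
  rw [abs_mul] at h ⊢
  rw [abs_of_pos hT] at h
  exact (mul_le_mul_of_nonneg_left hz (abs_nonneg _)).trans h

theorem edge {cs sn r0 r1 g0 g1 k0 k1 p0 p1 q0 q1 s : ℝ} (hc : |cs| ≤ 1) (hs : |sn| ≤ 1)
    (a0 : |r0 - g0 / 2| ≤ s) (a1 : |r1 - g1 / 2| ≤ s)
    (b0 : |cs * r0 + sn * r1 - k0 / 2| ≤ s) (b1 : |sn * r0 - cs * r1 - k1 / 2| ≤ s)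
    (c0 : |g0 - p0| ≤ s) (c1 : |g1 - p1| ≤ s) (d0 : |k0 - q0| ≤ s) (d1 : |k1 - q1| ≤ s) :
    |q0 - (cs * p0 + sn * p1)| ≤ 9 * s ∧ |q1 - (sn * p0 - cs * p1)| ≤ 9 * s := by
  have e1 := tri hc a0
  have e2 := tri hs a1
  have e3 := tri hs a0
  have e4 := tri hc a1
  have e5 := tri hc c0
  have e6 := tri hs c1
  have e7 := tri hs c0
  have e8 := tri hc c1
  have f0 := abs_le.1 b0
  have f1 := abs_le.1 b1
  have f2 := abs_le.1 d0
  have f3 := abs_le.1 d1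
  refine ⟨abs_le.2 ⟨?_, ?_⟩, abs_le.2 ⟨?_, ?_⟩⟩ <;>
    linarith [e1.1, e1.2, e2.1, e2.2, e3.1, e3.2, e4.1, e4.2, e5.1, e5.2, e6.1, e6.2, e7.1, e7.2,
      e8.1, e8.2, f0.1, f0.2, f1.1, f1.2, f2.1, f2.2, f3.1, f3.2]

end ISOx

theorem p_ISO :
    S_ISO := by
  intro d κ0 hd hκ
  have d0 : (0 : ℝ) ≤ d := Nat.cast_nonneg d
  set D : ℝ := 3 * (1 + d) with hD
  have D0 : 0 ≤ D := by positivity
  have p1 : 0 ≤ (9 + 2 * D) / κ0 := by positivity
  have p2 : 0 ≤ (18 + 4 * D) / κ0 := by positivity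
  refine ⟨3 + d + 3 * D + (9 + 2 * D) / κ0 + 2 * ((18 + 4 * D) / κ0), by linarith, ?_⟩
  intro c σ h θ G l A T s hθ hT hs haff hv he
  set C : ℝ := 3 + d + 3 * D + (9 + 2 * D) / κ0 + 2 * ((18 + 4 * D) / κ0) with hC
  have k : Fin d := ⟨0, hd⟩
  have nz : ∀ {n : ℕ}, ‖(0 : Fin n → ℝ)‖ ≤ T := by intro n; simpa using hT.le
  have ns : ∀ {n : ℕ} (j : Fin n), ‖(Pi.single j T : Fin n → ℝ)‖ ≤ T := by
    intro n j; rw [Pi.norm_single, Real.norm_eq_abs, abs_of_pos hT]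
  -- the vertex
  have V : ∀ u : Fin d → ℝ, ‖u‖ ≤ T →
      |l 0 * (1 - 1 * ∑ j, σ k j) + A 0 1 * (u k - 1 * ∑ j, σ k j * u j)| ≤ D * s ∧
      |l 1 * (1 - -1 * ∑ j, σ k j) + A 1 0 * (u k - -1 * ∑ j, σ k j * u j)| ≤ D * s := by
    intro u hu
    obtain ⟨ρ, hρ⟩ := hv u hu
    have hb : ∀ i, ‖(vx h).B i u‖ ≤ C * T := fun i => ((vx h).norm_B i u).trans
      (mul_le_mul (by linarith) hu (norm_nonneg _) (by linarith))
    constructor
    · refine ISOx.core h (a1 := A 0 0) (Or.inl rfl) ρ u (fun i => G 0 ((vx h).B i u))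
        (fun i => ?_) (fun i => ?_) k
      · simpa [vx_B] using hρ i 0
      · have := haff _ (hb i) 0
        rw [Fin.sum_univ_two, vx_B, vx_B] at this
        simpa [sub_eq_add_neg] using this
    · refine ISOx.core h (a1 := A 1 1) (Or.inr rfl) ρ u (fun i => G 1 ((vx h).B i u))
        (fun i => ?_) (fun i => ?_) k
      · simpa [vx_B] using hρ i 1
      · have := haff _ (hb i) 1
        rw [Fin.sum_univ_two, vx_B, vx_B, add_comm (A 1 0 * _)] at this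
        simpa [sub_eq_add_neg] using this
  have V0 := V 0 nz
  have V1 := V (Pi.single k T) (ns k)
  have es : ∑ j, σ k j * (Pi.single k T : Fin d → ℝ) j = 0 := by
    simp [Pi.single_apply, h.2.2.1]
  simp only [es, Pi.single_eq_same, mul_zero, sub_zero] at V1
  simp only [Pi.zero_apply, mul_zero, sum_const_zero, sub_zero, add_zero] at V0
  have A01 := ISOx.two V0.1 V1.1
  have A10 := ISOx.two V0.2 V1.2
  -- the edge
  have r0 : (0 : ℝ) < √2 := by positivity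
  have r1 : (1 : ℝ) ≤ √2 := Real.one_le_sqrt.2 (by norm_num)
  have r2 : (√2 : ℝ) ≤ 2 := Real.sqrt_le_iff.2 ⟨by norm_num, by norm_num⟩
  have E : ∀ x : ℝ, |x| ≤ T →
      |l 0 + (A 0 0 * (cos θ * (x / √2)) + A 0 1 * (sin θ * (x / √2))) -
        (cos θ * (l 0 + A 0 0 * (x / √2)) + sin θ * (l 1 + A 1 0 * (x / √2)))| ≤ 9 * s ∧
      |l 1 + (A 1 0 * (cos θ * (x / √2)) + A 1 1 * (sin θ * (x / √2))) -
        (sin θ * (l 0 + A 0 0 * (x / √2)) - cos θ * (l 1 + A 1 0 * (x / √2)))| ≤ 9 * s := by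
    intro x hx
    have hu : ‖(Pi.single 0 x : Fin 2 → ℝ)‖ ≤ T := by rwa [Pi.norm_single, Real.norm_eq_abs]
    obtain ⟨ρ, hρ⟩ := he _ hu
    have hb : ∀ i, ‖(ed θ).B i (Pi.single 0 x)‖ ≤ C * T := fun i => ((ed θ).norm_B i _).trans
      (mul_le_mul (by push_cast; linarith) hu (norm_nonneg _) (by linarith))
    refine ISOx.edge (r0 := ρ 0 / √2) (r1 := ρ 1 / √2) (g0 := G 0 ((ed θ).B 0 (Pi.single 0 x)))
      (g1 := G 1 ((ed θ).B 0 (Pi.single 0 x))) (k0 := G 0 ((ed θ).B 1 (Pi.single 0 x)))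
      (k1 := G 1 ((ed θ).B 1 (Pi.single 0 x))) (abs_cos_le_one θ) (abs_sin_le_one θ)
      ?_ ?_ ?_ ?_ ?_ ?_ ?_ ?_
    · simpa only [ed_B0] using hρ 0 0
    · simpa only [ed_B0] using hρ 0 1
    · have := hρ 1 0
      rw [ed_B1] at this
      convert this using 3
      simp [rf, Matrix.mulVec, dotProduct]; ring
    · have := hρ 1 1
      rw [ed_B1] at this
      convert this using 3
      simp [rf, Matrix.mulVec, dotProduct]; ring
    · have := haff _ (hb 0) 0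
      rw [Fin.sum_univ_two, ed_B0, ed_B0, sub_sub] at this
      simpa using this
    · have := haff _ (hb 0) 1
      rw [Fin.sum_univ_two, ed_B0, ed_B0, sub_sub] at this
      simpa using this
    · have := haff _ (hb 1) 0
      rw [Fin.sum_univ_two, ed_B1, ed_B1, sub_sub] at this
      simpa [rf, Matrix.mulVec, dotProduct, mul_div_assoc] using this
    · have := haff _ (hb 1) 1
      rw [Fin.sum_univ_two, ed_B1, ed_B1, sub_sub] at this
      simpa [rf, Matrix.mulVec, dotProduct, mul_div_assoc] using this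
  have E0 := E 0 (by simpa using hT.le)
  have E1 := (E T (abs_of_pos hT).le).2
  simp only [zero_div, mul_zero, add_zero] at E0
  have x0 := abs_le.1 E0.1
  have x1 := abs_le.1 E0.2
  have y1 := abs_le.1 E1
  have q1 : 0 ≤ (9 + 2 * D) / κ0 * s := mul_nonneg p1 hs
  have q2 : 0 ≤ (18 + 4 * D) / κ0 * s := mul_nonneg p2 hs
  have q3 : 0 ≤ D * s := mul_nonneg D0 hs
  have q4 : 0 ≤ (d : ℝ) * s := mul_nonneg d0 hs
  have hl : |l 0| ≤ D * s + (9 + 2 * D) / κ0 * s ∧ |l 1| ≤ D * s + (9 + 2 * D) / κ0 * s := by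
    rcases le_total (∑ j, σ k j) 0 with hr | hr
    · have a := ISOx.big V0.1 (by linarith)
      have a' := abs_le.1 a
      have b := ISOx.tri (abs_cos_le_one θ) a
      have e : |l 1| ≤ (9 + 2 * D) * s / κ0 := ISOx.dsin hκ hθ (abs_le.2
        ⟨by linarith [a'.1, a'.2, b.1, b.2, x0.1, x0.2],
          by linarith [a'.1, a'.2, b.1, b.2, x0.1, x0.2]⟩)
      rw [mul_div_right_comm] at e
      exact ⟨by linarith, by linarith⟩
    · have a := ISOx.big V0.2 (by linarith)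
      have a' := abs_le.1 a
      have b := ISOx.tri (abs_cos_le_one θ) a
      have e : |l 0| ≤ (9 + 2 * D) * s / κ0 := ISOx.dsin hκ hθ (abs_le.2
        ⟨by linarith [a'.1, a'.2, b.1, b.2, x1.1, x1.2],
          by linarith [a'.1, a'.2, b.1, b.2, x1.1, x1.2]⟩)
      rw [mul_div_right_comm] at e
      exact ⟨by linarith, by linarith⟩
  have t0 : |T / √2| ≤ T := by
    rw [abs_of_pos (by positivity)]; exact div_le_self hT.le r1
  have z1 := ISOx.tri (abs_cos_le_one θ) (ISOx.scale hT A10 t0)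
  have z2 : |(A 1 1 - A 0 0) * (T / √2)| ≤ (18 + 4 * D) * s / κ0 := ISOx.dsin hκ hθ (abs_le.2
    ⟨by linarith [z1.1, z1.2, x1.1, x1.2, y1.1, y1.2],
      by linarith [z1.1, z1.2, x1.1, x1.2, y1.1, y1.2]⟩)
  have z3 : |(A 1 1 - A 0 0) * T| ≤ 2 * ((18 + 4 * D) / κ0 * s) := by
    have e : (A 1 1 - A 0 0) * T = √2 * ((A 1 1 - A 0 0) * (T / √2)) := by field_simp
    rw [e, abs_mul, abs_of_pos r0, ← mul_div_right_comm]
    exact mul_le_mul r2 z2 (abs_nonneg _) (by norm_num)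
  refine ⟨-A 0 0, fun z hz a => ?_⟩
  have n0 : |z 0| ≤ T := (norm_le_pi_norm z 0).trans hz
  have n1 : |z 1| ≤ T := (norm_le_pi_norm z 1).trans hz
  have w := abs_le.1 (haff z (hz.trans (le_mul_of_one_le_left hT.le (by linarith))) a)
  rw [Fin.sum_univ_two] at w
  have w1 := abs_le.1 (ISOx.scale hT A01 n1)
  have w2 := abs_le.1 (ISOx.scale hT A10 n0)
  have w3 := abs_le.1 (ISOx.scale hT z3 n1)
  have w4 := abs_le.1 hl.1
  have w5 := abs_le.1 hl.2
  have eC : C * s = 3 * s + d * s + 3 * (D * s) + (9 + 2 * D) / κ0 * s +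
      2 * ((18 + 4 * D) / κ0 * s) := by rw [hC]; ring
  rw [eC, abs_le]
  revert w
  fin_cases a <;> intro w <;> simp only [Fin.zero_eta, Fin.mk_one, Fin.isValue] at w ⊢ <;>
    constructor <;>
    linarith [w.1, w.2, w1.1, w1.2, w2.1, w2.2, w3.1, w3.2, w4.1, w4.2, w5.1, w5.2]

end Pool.Agent.P.MP_6b977f_mp.QG
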