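import Pool.Agent.P.MP_6b977f_mp.QG.IfaceB
import Pool.Agent.P.MP_6b977f_mp.RG.LibJen

/-! Step JEN. -/

namespace Pool.Agent.P.MP_6b977f_mp.QG

open Finset MeasureTheory Real Matrix RG
open scoped Classical

namespace JENx

end JENx

theorem p_JEN :
    S_JEN := by
  intro ι _ u r0 r hu h0 h1 h2
  have hR : 0 < r := h0.trans h1
  have h₀ : ‖(r0 : ℂ)‖ < r := by rwa [Complex.norm_real, Real.norm_of_nonneg h0.le]
  obtain ⟨M, hMd⟩ : ∃ M, M = 2 / (r - r0) := ⟨_, rfl⟩
  have hM0 : 0 ≤ M := by rw [hMd]; exact div_nonneg zero_le_two (by linarith)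
  have hM : (r + ‖(r0 : ℂ)‖) / (r - ‖(r0 : ℂ)‖) ≤ M := by
    rw [Complex.norm_real, Real.norm_of_nonneg h0.le, hMd]
    exact div_le_div_of_nonneg_right (by linarith) (by linarith)
  have i0 : CircleIntegrable (fun w => ∑ j, log ‖1 - u j * w‖) 0 r :=
    (circleIntegrable_congr fun w _ => by simp).1
      (CircleIntegrable.sum Finset.univ fun (j : ι) _ => Jen.int_log (u j) r)
  have iY := Jen.int_neg i0
  refine ⟨iY, ?_⟩
  have i1 := fun j => Jen.int_ker (M := M) (B := 0) hR h₀ (Jen.int_log (u j) r)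
  have h3 : circleAverage (fun w => Jen.ker M 0 r r0 w * ∑ j, log ‖1 - u j * w‖) 0 r =
      -∑ j, log ‖1 - u j * r0‖ := by
    have e : (fun w => Jen.ker M 0 r r0 w * ∑ j, log ‖1 - u j * w‖) =
        ∑ j, fun w => Jen.ker M 0 r r0 w * log ‖1 - u j * w‖ := by
      ext w
      simp only [Finset.sum_apply, Finset.mul_sum]
    rw [e, circleAverage_sum fun j _ => i1 j, ← Finset.sum_neg_distrib]
    refine Finset.sum_congr rfl fun j _ => ?_
    rw [Jen.mean_lt hR h₀ (by nlinarith [hu j, norm_nonneg (u j)])]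
    ring
  have h4 := circleAverage_mono (iY.const_smul (a := -(M * (1 + 2 * 0)))) (Jen.int_ker hR h₀ i0)
    fun w hw => by
      have k1 := Jen.ker_nonneg hR h₀ hM le_rfl hw
      have k2 := Jen.ker_le hR h₀ hM0 le_rfl hw
      simp only [Pi.smul_apply, smul_eq_mul]
      nlinarith [mul_nonneg (sub_nonneg.2 k2) (le_max_right (-∑ j, log ‖1 - u j * w‖) 0),
        mul_nonneg k1 (sub_nonneg.2 (le_max_left (-∑ j, log ‖1 - u j * w‖) 0))]
  rw [circleAverage_smul, smul_eq_mul, h3] at h4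
  rw [← hMd]
  linarith

end Pool.Agent.P.MP_6b977f_mp.QG
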