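import Pool.Agent.P.MP_6b977f_mp.QG.IfaceB

/-! Step KEY. -/

namespace Pool.Agent.P.MP_6b977f_mp.QG

open Finset MeasureTheory Real Matrix RG
open scoped Classical

namespace KEYx

theorem split (z x y : ℝ) (hz : 0 < z) (hx : 0 ≤ x) :
    (√x + y) ^ 2 ≤ (1 + z) * x + (1 + z) / z * y ^ 2 := by
  have h : (1 + z) * √x ^ 2 + (1 + z) / z * y ^ 2 - (√x + y) ^ 2 = (z * √x - y) ^ 2 / z := by
    field_simp; ring
  have : 0 ≤ (z * √x - y) ^ 2 / z := by positivity
  rw [sq_sqrt hx] at h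
  linarith

theorem penR_le {n d : ℕ} (O : Fin n → Node d) (μ : Fin n → LL (PI d)) (δ z : ℝ) (hz : 0 < z) :
    penR O μ δ ≤ (1 + z) * penS O μ δ + n * ((1 + z) / z * (2 * d * δ) ^ 2) := by
  have h : ∀ x, (μ x).E (fun s => (√((O x).pen (rl δ s)) + 2 * d * δ) ^ 2) ≤
      (1 + z) * (μ x).E (fun s => (O x).pen (rl δ s)) + (1 + z) / z * (2 * d * δ) ^ 2 := fun x => by
    rw [← (μ x).E_mul, ← (μ x).E_const ((1 + z) / z * (2 * d * δ) ^ 2), ← (μ x).E_add]
    exact (μ x).E_mono fun s => split z _ _ hz ((O x).pen_nonneg _)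
  refine (sum_le_sum fun x _ => h x).trans (le_of_eq ?_)
  rw [sum_add_distrib, ← mul_sum, penS, sum_const, card_univ, Fintype.card_fin, nsmul_eq_mul]

end KEYx

theorem p_KEY (hFM : S_FM) (hVOL : S_VOL) :
    S_KEY := by
  intro d hd
  obtain ⟨C, hC, hFM⟩ := hFM d hd
  refine ⟨C + 2 * d ^ 2 + 14 * d, by positivity, ?_⟩
  intro N m c S θ δ η ζ z R Sb γ0 K g1 g2 b B hN hη hδ h1 hz hz2 hR hM hgap
  have hN' : (1 : ℝ) ≤ N := by exact_mod_cast hN
  have hm : (2 : ℝ) * m = d * N := by exact_mod_cast S.hm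
  set q : ℝ := δ ^ 2 / (z * η ^ 2) with hq
  have hq0 : 0 ≤ q := by positivity
  set β : ℝ := (1 - z) / (2 * η ^ 2) with hβ
  set a : ℝ := N * (d * log (2 * π * η ^ 2) - 2 * d * log δ - Sb - 6 * d * q) with ha
  have hF : ∀ g : Glue d N m, ∃ F : Finset (HI d N → ℤ), g ∈ B →
      (∀ φ ∈ F, ∑ p, (φ p : ℝ) ^ 2 ≤ R ^ 2 ∧ Con g1 g2 b g φ) ∧
        exp a / 3 ≤ ∑ φ ∈ F, exp (-(∑ v, β * (S.vs v).pen (rl δ (vst φ v)) +
          ∑ e, β * (eds θ e).pen (rl δ (est g φ e)))) := by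
    intro g
    by_cases hg : g ∈ B
    · obtain ⟨γ, ψ, b1, b2, b3, b4⟩ := hM g hg
      obtain ⟨F, f1, f2⟩ := hVOL d N m c S θ g ψ δ η γ ζ z hd hN hη hδ h1 b1 hz b3
      refine ⟨F, fun _ => ⟨fun φ hφ => b4 φ (f1 φ hφ), le_trans ?_ (f2.trans (le_of_eq ?_))⟩⟩
      · rw [ha, hq, mul_div_assoc]
        gcongr
      · refine sum_congr rfl fun φ _ => ?_
        rw [← mul_sum, ← mul_sum, ← mul_add]
        rfl
    · exact ⟨∅, fun h => absurd h hg⟩
  choose F hF using hF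
  have hz1 : 0 < 1 - z := by linarith
  have hd0 : (0 : ℝ) ≤ d := Nat.cast_nonneg d
  have h := hFM N m R (exp a / 3)
    (N * (d * (log 2 + log (2 * π * η ^ 2) + 4 * z - 2 * log δ) + (2 * d ^ 2 + 4 * d) * q - γ0)) K
    (fun v s => β * (S.vs v).pen (rl δ s)) (fun e s => β * (eds θ e).pen (rl δ s)) g1 g2 b B F hN hR
    hF (fun A hc => by
      have hr : 0 < (1 + z) / (1 - z) := by positivity
      have e := hgap A (η * √((1 + z) / (1 - z))) (by positivity) hc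
      unfold Sys.gap at e
      rw [mul_pow η, sq_sqrt hr.le] at e
      have b1 : log (2 * π * (η ^ 2 * ((1 + z) / (1 - z)))) ≤ log (2 * π * η ^ 2) + 4 * z := by
        rw [← mul_assoc, log_mul (by positivity) hr.ne']
        have c1 := log_le_sub_one_of_pos hr
        have c2 : (1 + z) / (1 - z) ≤ 1 + 4 * z := by
          rw [div_le_iff₀ hz1]; nlinarith
        linarith
      have b2 := add_le_add (KEYx.penR_le S.vs A.V δ z hz) (KEYx.penR_le (eds θ) A.W δ z hz)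
      have b3 : (penR S.vs A.V δ + penR (eds θ) A.W δ) / (2 * (η ^ 2 * ((1 + z) / (1 - z)))) ≤
          β * (penS S.vs A.V δ + penS (eds θ) A.W δ) + N * ((2 * d ^ 2 + 4 * d) * q) := by
        refine (div_le_div_of_nonneg_right b2 (by positivity)).trans ?_
        have c1 : ((1 + z) * penS S.vs A.V δ + N * ((1 + z) / z * (2 * d * δ) ^ 2) +
            ((1 + z) * penS (eds θ) A.W δ + m * ((1 + z) / z * (2 * (2 : ℕ) * δ) ^ 2))) /
            (2 * (η ^ 2 * ((1 + z) / (1 - z)))) =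
            β * (penS S.vs A.V δ + penS (eds θ) A.W δ) +
              (1 - z) * ((N * (2 * d ^ 2) + 4 * (2 * m)) * q) := by
          rw [hβ, hq]; push_cast; field_simp; ring
        rw [c1, hm]
        have c2 : 0 ≤ (N * (2 * (d : ℝ) ^ 2) + 4 * (d * N)) * q := by positivity
        nlinarith
      have b4 : ∑ v, (A.V v).E (fun s => β * (S.vs v).pen (rl δ s)) +
          ∑ e, (A.W e).E (fun s => β * (eds θ e).pen (rl δ s)) =
          β * (penS S.vs A.V δ + penS (eds θ) A.W δ) := by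
        simp only [LL.E_mul, penS, mul_add, mul_sum]
      rw [b4]
      have b5 := mul_le_mul_of_nonneg_left b1 (by positivity : (0 : ℝ) ≤ N * d)
      nlinarith)
  rw [← mul_div_assoc, div_le_iff₀ (by norm_num), ← le_div_iff₀ (exp_pos a)] at h
  refine h.trans ?_
  rw [mul_assoc, mul_div_assoc]
  refine mul_le_mul_of_nonneg_left ?_ (Nat.cast_nonneg _)
  have e3 : (3 : ℝ) ≤ exp 2 := by have := add_one_le_exp (2 : ℝ); linarith
  have hL : 0 ≤ R * log (2 * N * R) :=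
    mul_nonneg (by linarith) (log_nonneg (by nlinarith))
  rw [div_le_iff₀ (exp_pos a)]
  refine le_trans (mul_le_mul_of_nonneg_left e3 (exp_pos _).le) ?_
  rw [← exp_add, ← exp_add, exp_le_exp, ha, mul_div_assoc, ← hq]
  have c1 : 0 ≤ (N : ℝ) * ((C + 2 * d ^ 2 + 10 * d) * z + (C + 4 * d) * q) := by positivity
  have c2 : 0 ≤ (2 * (d : ℝ) ^ 2 + 14 * d) * (R * log (2 * N * R)) := by positivity
  nlinarith

end Pool.Agent.P.MP_6b977f_mp.QG
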