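import Pool.Agent.P.MP_6b977f_mp.QG.IfaceB

/-! Step KM. -/

namespace Pool.Agent.P.MP_6b977f_mp.QG

open Finset MeasureTheory Real Matrix RG
open scoped Classical

namespace KMx

/-- the two basic solutions -/
noncomputable def cs (k : ℝ) (a : Fin 2) (x : ℝ) : ℝ := ![cos (k * x), sin (k * x)] a

theorem km_eq (k l : ℝ) (a b : Fin 2) : Km k l a b = ∫ x in (0 : ℝ)..l, cs k a x * cs k b x := rfl

theorem cs_cont (k : ℝ) (a : Fin 2) : Continuous (cs k a) := by
  fin_cases a
  · show Continuous fun x => cos (k * x)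
    fun_prop
  · show Continuous fun x => sin (k * x)
    fun_prop

theorem cs_abs (k : ℝ) (a : Fin 2) (x : ℝ) : |cs k a x| ≤ 1 := by
  fin_cases a
  · exact abs_cos_le_one _
  · exact abs_sin_le_one _

theorem cs_lip (k k' : ℝ) (a : Fin 2) (x : ℝ) : |cs k a x - cs k' a x| ≤ |k - k'| * |x| := by
  rw [← abs_mul, sub_mul]
  fin_cases a
  · exact abs_cos_sub_cos_le _ _
  · exact abs_sin_sub_sin_le _ _

theorem ii (k l : ℝ) (a b : Fin 2) :
    IntervalIntegrable (fun x => cs k a x * cs k b x) volume 0 l :=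
  ((cs_cont k a).mul (cs_cont k b)).intervalIntegrable _ _

theorem f01 (k : ℝ) (z : Fin 2 → ℝ) (x : ℝ) : f0 k z x ^ 2 + f1 k z x ^ 2 = z 0 ^ 2 + z 1 ^ 2 := by
  unfold f0 f1
  linear_combination (z 0 ^ 2 + z 1 ^ 2) * sin_sq_add_cos_sq (k * x)

theorem d0 (k : ℝ) (z : Fin 2 → ℝ) (x : ℝ) : HasDerivAt (f0 k z) (k * f1 k z x) x := by
  have h : HasDerivAt (fun y : ℝ => k * y) k x := by simpa using (hasDerivAt_id x).const_mul k
  refine ((h.cos.const_mul (z 0)).add (h.sin.const_mul (z 1))).congr_deriv ?_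
  unfold f1
  ring

theorem d1 (k : ℝ) (z : Fin 2 → ℝ) (x : ℝ) : HasDerivAt (f1 k z) (-(k * f0 k z x)) x := by
  have h : HasDerivAt (fun y : ℝ => k * y) k x := by simpa using (hasDerivAt_id x).const_mul k
  refine ((h.cos.const_mul (z 1)).sub (h.sin.const_mul (z 0))).congr_deriv ?_
  unfold f0
  ring

theorem prim {k : ℝ} (hk : k ≠ 0) (l : ℝ) (z : Fin 2 → ℝ) :
    sq1 k l z = (z 0 ^ 2 + z 1 ^ 2) / 2 * l -
      (f0 k z l * f1 k z l - f0 k z 0 * f1 k z 0) / (2 * k) := by
  have h : ∀ x ∈ Set.uIcc (0 : ℝ) l, HasDerivAt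
      (fun y => (z 0 ^ 2 + z 1 ^ 2) / 2 * y - f0 k z y * f1 k z y / (2 * k)) (f0 k z x ^ 2) x := by
    intro x _
    have h1 : HasDerivAt (fun y : ℝ => (z 0 ^ 2 + z 1 ^ 2) / 2 * y) ((z 0 ^ 2 + z 1 ^ 2) / 2) x := by
      simpa using (hasDerivAt_id x).const_mul ((z 0 ^ 2 + z 1 ^ 2) / 2)
    refine (h1.sub (((d0 k z x).mul (d1 k z x)).div_const (2 * k))).congr_deriv ?_
    rw [← f01 k z x]
    field_simp
    ring
  have hc : Continuous fun x => f0 k z x ^ 2 := by
    unfold f0
    fun_prop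
  rw [sq1, intervalIntegral.integral_eq_sub_of_hasDerivAt h (hc.intervalIntegrable _ _)]
  ring

end KMx

open KMx in
theorem p_KM :
    S_KM := by
  intro k l hl
  refine ⟨fun z => ?_, ?_, fun a b => ?_, fun k' a b => ?_, fun hk h1 z => ?_⟩
  · simp only [km_eq, ← intervalIntegral.integral_mul_const]
    have i : ∀ a b, IntervalIntegrable (fun x => cs k a x * cs k b x * (z a * z b)) volume 0 l :=
      fun a b => (ii k l a b).mul_const _
    simp only [Fin.sum_univ_two]
    rw [← intervalIntegral.integral_add (i 0 0) (i 0 1), ← intervalIntegral.integral_add (i 1 0) (i 1 1),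
      ← intervalIntegral.integral_add ((i 0 0).add (i 0 1)) ((i 1 0).add (i 1 1)), sq1]
    refine intervalIntegral.integral_congr fun x _ => ?_
    simp only [f0, cs, Matrix.cons_val_zero, Matrix.cons_val_one]
    ring
  · rw [Fin.sum_univ_two, km_eq, km_eq, ← intervalIntegral.integral_add (ii k l 0 0) (ii k l 1 1),
      intervalIntegral.integral_congr (g := fun _ => (1 : ℝ)) fun x _ => by
        simp only [cs, Matrix.cons_val_zero, Matrix.cons_val_one]
        linear_combination sin_sq_add_cos_sq (k * x)]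
    simp
  · have := intervalIntegral.norm_integral_le_of_norm_le_const (a := 0) (b := l) (C := 1)
      (f := fun x => cs k a x * cs k b x) fun x _ => by
        rw [Real.norm_eq_abs, abs_mul]
        exact mul_le_one₀ (cs_abs k a x) (abs_nonneg _) (cs_abs k b x)
    rwa [Real.norm_eq_abs, ← km_eq, one_mul, sub_zero, abs_of_nonneg hl] at this
  · rw [km_eq, km_eq, ← intervalIntegral.integral_sub (ii k l a b) (ii k' l a b)]
    have := intervalIntegral.norm_integral_le_of_norm_le_const (a := 0) (b := l)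
      (C := 2 * l * |k - k'|)
      (f := fun x => cs k a x * cs k b x - cs k' a x * cs k' b x) fun x hx => by
        rw [Set.uIoc_of_le hl] at hx
        have hx' : |x| ≤ l := by rw [abs_of_pos hx.1]; exact hx.2
        have e : cs k a x * cs k b x - cs k' a x * cs k' b x =
            (cs k a x - cs k' a x) * cs k b x + cs k' a x * (cs k b x - cs k' b x) := by ring
        have h1 : |cs k a x - cs k' a x| ≤ |k - k'| * l :=
          (cs_lip k k' a x).trans (mul_le_mul_of_nonneg_left hx' (abs_nonneg _))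
        have h2 : |cs k b x - cs k' b x| ≤ |k - k'| * l :=
          (cs_lip k k' b x).trans (mul_le_mul_of_nonneg_left hx' (abs_nonneg _))
        have h3 := mul_le_of_le_one_right (abs_nonneg (cs k a x - cs k' a x)) (cs_abs k b x)
        have h4 := mul_le_of_le_one_left (abs_nonneg (cs k b x - cs k' b x)) (cs_abs k' a x)
        rw [Real.norm_eq_abs, e]
        refine (abs_add_le _ _).trans ?_
        rw [abs_mul, abs_mul]
        linarith
    rw [Real.norm_eq_abs, sub_zero, abs_of_nonneg hl] at this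
    refine this.trans (le_of_eq ?_)
    ring
  · have hk0 : 0 < k := by linarith
    rw [prim hk0.ne', Fin.sum_univ_two]
    have a1 := f01 k z l
    have a2 := f01 k z 0
    have hA : 0 ≤ z 0 ^ 2 + z 1 ^ 2 := by positivity
    have b1 : f0 k z l * f1 k z l - f0 k z 0 * f1 k z 0 ≤ z 0 ^ 2 + z 1 ^ 2 := by
      nlinarith [sq_nonneg (f0 k z l - f1 k z l), sq_nonneg (f0 k z 0 + f1 k z 0)]
    have b2 : (f0 k z l * f1 k z l - f0 k z 0 * f1 k z 0) / (2 * k) ≤ (z 0 ^ 2 + z 1 ^ 2) / 4 := by
      rw [div_le_iff₀ (by linarith)]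
      nlinarith [mul_le_mul_of_nonneg_left hk hA]
    nlinarith [mul_le_mul_of_nonneg_left h1 hA]

end Pool.Agent.P.MP_6b977f_mp.QG
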