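import Pool.Agent.P.MP_6b977f_mp.QG.IfaceA

/-! Step L2. -/

namespace Pool.Agent.P.MP_6b977f_mp.QG

open Finset MeasureTheory Real Matrix RG
open scoped Classical

namespace L2x

theorem out {T z n r : ℝ} (hT : 2 ≤ T) (hz : T < z) (hr : 0 ≤ r) (h : z ≤ n + r) :
    (1 + z) ^ 2 ≤ 16 * max (n - T / 4) 0 ^ 2 * (1 + r) ^ 2 + 4 * ((1 + r) ^ 2 * ind (T / 2 < r)) := by
  have i0 := ind_nonneg (T / 2 < r)
  rcases lt_or_ge (T / 2) n with h1 | h1
  · have h2 : 1 + z ≤ 4 * max (n - T / 4) 0 * (1 + r) := by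
      rw [max_eq_left (by linarith)]
      nlinarith [mul_nonneg (by linarith : 0 ≤ 4 * (n - T / 4) - 1) hr]
    have := pow_le_pow_left₀ (by linarith) h2 2
    rw [mul_pow, mul_pow] at this
    refine le_add_of_le_of_nonneg (by linarith) (by positivity)
  · rw [ind_pos (by linarith : T / 2 < r)]
    have := pow_le_pow_left₀ (by linarith) (by linarith : 1 + z ≤ 2 * (1 + r)) 2
    refine le_add_of_nonneg_of_le (by positivity) (by linarith)

end L2x

theorem p_L2 :
    S_L2 := by
  intro L c hc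
  obtain ⟨C, hC, hP⟩ := kPOST (Fin 2) L
  obtain ⟨K, hK, hT⟩ := kKT (Fin 2)
  have c0 : 0 < 1 / c := by positivity
  set D := C + 1 / c with hD
  have hD1 : 1 ≤ D ^ 2 * K := one_le_mul_of_one_le_of_one_le (one_le_pow₀ (by linarith)) hK
  refine ⟨32 * (D ^ 2 * K), by linarith, fun q v β s T h v1 v3 hL T2 s0 s1 hβ hN hh => ?_⟩
  have hv : ∀ _ : Fin 2, 0 < v := fun _ => by linarith
  obtain ⟨-, -, -, hsc, -, -, hE⟩ := kMIX (Fin 2) q (fun _ => v) hv
  have hG : PG fun z => ∑ a, (q.sc (fun _ => v) a z + β * z a) ^ 2 :=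
    PG.sum _ fun a _ => ((hsc a).add ((PG.coord a).cmul β)).pow 2
  rw [(hE _ hG).2.1]
  have key : ∀ x : Fin 2 → ℝ,
      ∫ z, (∑ a, (q.sc (fun _ => v) a z + β * z a) ^ 2) * ker (fun _ => v) (z - x) ≤
        32 * (D ^ 2 * K) * (max (‖x‖ - T / 4) 0 ^ 2 + (s + 1 / T)) := by
    intro x
    obtain ⟨hi, h1, -⟩ := kKER (Fin 2) (fun _ => v) x hv
    obtain ⟨h2, h3⟩ := hT (fun _ => v) x (T / 2) (fun _ => ⟨by linarith, by linarith⟩) (by linarith)
    have pn : PG fun z : Fin 2 → ℝ => ‖z - x‖ :=
      PG.norm.comp (B := fun z => z - x) fun k => (PG.coord k).sub (PG.const _)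
    have p1 : PG fun z : Fin 2 → ℝ => (1 + ‖z - x‖) ^ 2 := ((PG.const 1).add pn).pow 2
    have p2 : PG fun z : Fin 2 → ℝ => (1 + ‖z - x‖) ^ 2 * ind (T / 2 < ‖z - x‖) :=
      p1.mul (PG.ind (measurableSet_lt measurable_const pn.1))
    have i0 : Integrable fun z => ker (fun _ : Fin 2 => v) (z - x) := by
      simpa using hi _ (PG.const 1)
    set M := max (‖x‖ - T / 4) 0 ^ 2
    have M0 : 0 ≤ M := sq_nonneg _
    calc _ ≤ ∫ z, (2 * s * ker (fun _ => v) (z - x) +
          32 * D ^ 2 * M * ((1 + ‖z - x‖) ^ 2 * ker (fun _ => v) (z - x)) + 8 * D ^ 2 *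
          ((1 + ‖z - x‖) ^ 2 * ind (T / 2 < ‖z - x‖) * ker (fun _ => v) (z - x))) := by
          refine integral_mono (hi _ hG) (((i0.const_mul _).add ((hi _ p1).const_mul _)).add
            ((hi _ p2).const_mul _)) fun z => ?_
          have k0 := (ker_pos (v := fun _ : Fin 2 => v) hv (z - x)).le
          have j0 := ind_nonneg (T / 2 < ‖z - x‖)
          have b : ∑ a, (q.sc (fun _ => v) a z + β * z a) ^ 2 ≤ 2 * s + 2 * D ^ 2 *
              (16 * M * (1 + ‖z - x‖) ^ 2 + 4 * ((1 + ‖z - x‖) ^ 2 * ind (T / 2 < ‖z - x‖))) := by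
            rcases le_or_gt ‖z‖ T with hz | hz
            · have e := fun a => pow_le_pow_left₀ (abs_nonneg _) (hN z hz a) 2
              simp only [sq_abs] at e
              rw [Fin.sum_univ_two]
              refine le_add_of_le_of_nonneg ?_ (by positivity)
              nlinarith [e 0, e 1]
            · have e : ∀ a, (q.sc (fun _ => v) a z + β * z a) ^ 2 ≤ D ^ 2 * (1 + ‖z‖) ^ 2 := by
                intro a
                rw [← sq_abs, ← mul_pow]
                refine pow_le_pow_left₀ (abs_nonneg _) ((abs_add_le _ _).trans ?_) 2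
                have e1 := (hP q (fun _ => v) z (fun _ => ⟨v1, by linarith⟩) hL).2.2.1 a
                have e2 : |z a| ≤ 1 + ‖z‖ := (norm_le_pi_norm z a).trans (by linarith)
                rw [abs_mul, hD, add_mul]
                exact add_le_add e1 (mul_le_mul hβ e2 (abs_nonneg _) c0.le)
              have o := mul_le_mul_of_nonneg_left (L2x.out T2 hz
                (norm_nonneg (z - x)) (norm_le_norm_add_norm_sub' z x)) (sq_nonneg D)
              rw [Fin.sum_univ_two]
              linarith [e 0, e 1]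
          have := mul_le_mul_of_nonneg_right b k0
          simp only
          linarith
      _ ≤ _ := by
          rw [integral_add (by exact (i0.const_mul _).add ((hi _ p1).const_mul _))
            ((hi _ p2).const_mul _), integral_add (i0.const_mul _) ((hi _ p1).const_mul _),
            integral_const_mul, integral_const_mul, integral_const_mul, h1]
          have e1 := mul_le_mul_of_nonneg_left h3 (by positivity : 0 ≤ 32 * D ^ 2 * M)
          have e3 : K / (T / 2) ^ 2 ≤ 4 * K * (1 / T) := by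
            rw [mul_one_div, div_le_div_iff₀ (by positivity) (by positivity)]
            nlinarith [mul_nonneg (by linarith : 0 ≤ K) (by nlinarith : 0 ≤ T ^ 2 - T)]
          have e2 := mul_le_mul_of_nonneg_left (h2.trans e3) (by positivity : 0 ≤ 8 * D ^ 2)
          nlinarith [mul_le_mul_of_nonneg_right hD1 s0]
  refine (q.E_mono key).trans ?_
  rw [Mix.E_mul, Mix.E_add, Mix.E_const]
  exact mul_le_mul_of_nonneg_left (by linarith) (by positivity)

end Pool.Agent.P.MP_6b977f_mp.QG
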