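import Pool.Agent.P.MP_6b977f_mp.QG.IfaceA
import Pool.Agent.P.MP_6b977f_mp.RG.TRIE

/-! Step LAT1. -/

namespace Pool.Agent.P.MP_6b977f_mp.QG

open Finset MeasureTheory Real Matrix RG
open scoped Classical

namespace LAT1x

variable {ι : Type} [Fintype ι]

theorem cells {h : ℝ} (hh : 0 < h) {G : (ι → ℝ) → ℝ} (hG : Integrable G)
    (h0 : ∀ z, 0 ≤ G z) (U : Finset (ι → ℤ)) (a : (ι → ℤ) → ℝ)
    (ha : ∀ u z, ‖z - rl h u‖ ≤ h → a u ≤ G z) :
    h ^ Fintype.card ι * ∑ u ∈ U, a u ≤ ∫ z, G z := by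
  let c : (ι → ℤ) → Set (ι → ℝ) := fun u =>
    Set.pi Set.univ fun o => Set.Ico (rl h u o) (rl h u o + h)
  have hm : ∀ u, MeasurableSet (c u) := fun u => MeasurableSet.univ_pi fun _ => measurableSet_Ico
  have hd : Set.Pairwise (U : Set (ι → ℤ)) (Function.onFun Disjoint c) := fun u _ u' _ hne => by
    refine Set.disjoint_left.2 fun z hz hz' => hne (funext fun o => ?_)
    obtain ⟨h1, h2⟩ := hz o trivial
    obtain ⟨h3, h4⟩ := hz' o trivial
    simp only [rl] at h1 h2 h3 h4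
    have h5 : (u o : ℝ) < u' o + 1 := lt_of_mul_lt_mul_left (by linarith) hh.le
    have h6 : (u' o : ℝ) < u o + 1 := lt_of_mul_lt_mul_left (by linarith) hh.le
    have h7 : u o < u' o + 1 := by exact_mod_cast h5
    have h8 : u' o < u o + 1 := by exact_mod_cast h6
    omega
  refine le_trans ?_ (setIntegral_le_integral (s := ⋃ u ∈ U, c u) hG (ae_of_all _ h0))
  rw [integral_biUnion_finset U (fun u _ => hm u) hd fun u _ => hG.integrableOn, mul_sum]
  refine sum_le_sum fun u _ => ?_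
  have hv : volume.real (c u) = h ^ Fintype.card ι := by
    rw [Measure.real, volume_pi_Ico_toReal fun o => by simpa using hh.le]
    simp
  rw [← hv, mul_comm]
  refine setIntegral_ge_of_const_le_real (hm u) ?_ (fun z hz => ha u z ?_) hG.integrableOn
  · rw [volume_pi_Ico]
    exact ENNReal.prod_ne_top fun _ _ => ENNReal.ofReal_ne_top
  · refine (pi_norm_le_iff_of_nonneg hh.le).2 fun o => ?_
    obtain ⟨h1, h2⟩ := hz o trivial
    rw [Pi.sub_apply, norm_eq_abs, abs_le]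
    constructor <;> linarith

/-- the Riemann sums of the kernel -/
theorem rie {κ ε : ℝ} (hκ : 0 < κ) (hε : 0 < ε) : ∃ h0 : ℝ, 0 < h0 ∧ ∀ h : ℝ, 0 < h → h ≤ h0 →
    ∀ (U : Finset (ι → ℤ)) (y : ι → ℝ),
      h ^ Fintype.card ι * ∑ u ∈ U, ker (fun _ => κ ^ 2) (y - rl h u) ≤ 1 + ε := by
  obtain ⟨s, h0, hs, hh0, hc⟩ := RIEx.pick (Fintype.card ι) hε
    (fun s h => exp (h ^ 2 / (2 * κ ^ 2 * (s ^ 2 - 1)))) (fun s => by fun_prop) (by simp)
  refine ⟨h0, hh0, fun h hh hh' U y => ?_⟩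
  have hv : ∀ _ : ι, 0 < s ^ 2 * κ ^ 2 := fun _ => by positivity
  obtain ⟨k1, k2, -⟩ := kKER ι (fun _ => s ^ 2 * κ ^ 2) y hv
  have j1 : Integrable fun x => ker (fun _ => s ^ 2 * κ ^ 2) (x - y) := by
    simpa using k1 _ (PG.const 1)
  have hc' := hc h hh hh'
  set c := s * exp (h ^ 2 / (2 * κ ^ 2 * (s ^ 2 - 1))) with hcd
  have hc0 : 0 < c := by positivity
  refine (cells hh (j1.const_mul (c ^ Fintype.card ι))
    (fun z => (mul_pos (pow_pos hc0 _) (ker_pos hv _)).le) U _ fun u z hz => ?_).trans ?_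
  · rw [← card_univ, ← prod_const, ker, ker, ← prod_mul_distrib]
    refine prod_le_prod (fun j _ => (g1_pos (by positivity) _).le) fun j _ =>
      RIEx.one (by positivity) hs ?_
    have h1 : |(z - rl h u) j| ≤ ‖z - rl h u‖ := norm_le_pi_norm (z - rl h u) j
    refine le_trans (le_of_eq ?_) (h1.trans hz)
    simp only [Pi.sub_apply]
    congr 1
    ring
  · rw [integral_const_mul, k2, mul_one]
    exact hc'

/-- the point of the finer lattice -/
def pt (μ : LL ι) (K : ℕ) (ω : μ.A × (ι → Fin (K + 1))) : ι → ℤ :=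
  fun o => (K + 1 : ℕ) * ω.1.1 o + (ω.2 o : ℕ)

omit [Fintype ι] in
theorem pt_inj (μ : LL ι) (K : ℕ) : Function.Injective (pt μ K) := by
  rintro ⟨s, u⟩ ⟨s', u'⟩ h
  have key : ∀ o, s.1 o = s'.1 o ∧ u o = u' o := fun o => by
    have e := congrFun h o
    simp only [pt] at e
    have a := (u o).2
    have b := (u' o).2
    have hs : s.1 o = s'.1 o := by
      have a' : ((u o : ℕ) : ℤ) < (K + 1 : ℕ) := by exact_mod_cast a
      have b' : ((u' o : ℕ) : ℤ) < (K + 1 : ℕ) := by exact_mod_cast b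
      have a0 : (0 : ℤ) ≤ (u o : ℕ) := Int.natCast_nonneg _
      have b0 : (0 : ℤ) ≤ (u' o : ℕ) := Int.natCast_nonneg _
      have K0 : (0 : ℤ) < (K + 1 : ℕ) := by exact_mod_cast Nat.succ_pos K
      rcases lt_trichotomy (s.1 o) (s'.1 o) with l | l | l
      · nlinarith
      · exact l
      · nlinarith
    refine ⟨hs, Fin.ext ?_⟩
    rw [hs] at e
    exact_mod_cast add_left_cancel e
  exact Prod.ext (Subtype.ext (funext fun o => (key o).1)) (funext fun o => (key o).2)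

end LAT1x

theorem p_LAT1 :
    S_LAT1 := by
  intro ι _ μ δ κ ε hδ hκ hε
  obtain ⟨h0, h0p, hR⟩ := LAT1x.rie (ι := ι) hκ hε
  obtain ⟨K0, hK0⟩ := exists_nat_ge (δ / h0)
  refine ⟨K0, fun K hK => ?_⟩
  have hK' : (K0 : ℝ) ≤ K := by exact_mod_cast hK
  have K1 : (0 : ℝ) < K + 1 := by positivity
  have hh : δ / (K + 1) ≤ h0 := by
    rw [div_le_iff₀ K1]
    rw [div_le_iff₀ h0p] at hK0
    nlinarith
  have hB : 0 < (1 + ε) / δ ^ Fintype.card ι := by positivity
  have key := kLS ι (μ.mix δ K) (fun _ => κ ^ 2) μ.A Prod.fst (fun z => μ.p z.1)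
    ((1 + ε) / δ ^ Fintype.card ι) (fun _ => by positivity) (fun z => μ.pos _ z.2) ?_ hB ?_
  · refine le_trans ?_ key
    have e1 : μ.H = -∑ z : μ.A, μ.p z.1 * log (μ.p z.1) := by
      rw [LL.H, LL.E, Finset.sum_coe_sort μ.A fun s => μ.p s * log (μ.p s), ← sum_neg_distrib]
      exact sum_congr rfl fun s _ => by ring
    rw [e1, log_div (by positivity) (by positivity), log_pow]
    have := log_le_sub_one_of_pos (by positivity : 0 < 1 + ε)
    linarith
  · intro z
    rw [sum_filter]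
    change ∑ ω : μ.A × (ι → Fin (K + 1)),
      @ite ℝ (ω.1 = z) (Classical.propDecidable _)
        (μ.p ω.1 / (K + 1 : ℝ) ^ Fintype.card ι) 0 = _
    rw [Fintype.sum_prod_type, sum_eq_single z]
    · simp only [if_true, sum_const, card_univ, Fintype.card_fun, Fintype.card_fin, nsmul_eq_mul]
      push_cast
      field_simp
    · intro b _ hb
      simp [hb]
    · simp
  · intro y
    have h1 := hR (δ / (K + 1)) (by positivity) hh (univ.image (LAT1x.pt μ K)) y
    rw [sum_image fun a _ b _ h => LAT1x.pt_inj μ K h] at h1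
    change ∑ ω : μ.A × (ι → Fin (K + 1)),
      μ.p ω.1 / (K + 1 : ℝ) ^ Fintype.card ι / μ.p ω.1 * ker (fun _ => κ ^ 2)
        (y - fun o => δ * (ω.1.1 o + (ω.2 o : ℕ) / (K + 1 : ℝ))) ≤ _
    have e : ∀ ω : μ.A × (ι → Fin (K + 1)),
        μ.p ω.1 / (K + 1 : ℝ) ^ Fintype.card ι / μ.p ω.1 * ker (fun _ => κ ^ 2)
          (y - fun o => δ * (ω.1.1 o + (ω.2 o : ℕ) / (K + 1 : ℝ))) =
        1 / (K + 1 : ℝ) ^ Fintype.card ι *
          ker (fun _ => κ ^ 2) (y - rl (δ / (K + 1)) (LAT1x.pt μ K ω)) := fun ω => by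
      have hp := (μ.pos _ ω.1.2).ne'
      have : (fun o => δ * (ω.1.1 o + (ω.2 o : ℕ) / (K + 1 : ℝ))) =
          rl (δ / (K + 1)) (LAT1x.pt μ K ω) := by
        funext o
        simp only [rl, LAT1x.pt]
        push_cast
        field_simp
      rw [this]
      congr 1
      field_simp
    rw [sum_congr rfl fun ω _ => e ω, ← mul_sum, le_div_iff₀ (by positivity)]
    refine le_trans (le_of_eq ?_) h1
    rw [div_pow]
    ring

end Pool.Agent.P.MP_6b977f_mp.QG
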