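import Pool.Agent.P.MP_6b977f_mp.QG.IfaceA
import Pool.Agent.P.MP_6b977f_mp.RG.TLAT2

/-! Step LAT2. -/

namespace Pool.Agent.P.MP_6b977f_mp.QG

open Finset MeasureTheory Real Matrix RG
open scoped Classical

namespace LAT2x

open RG.LAT2x

variable {δ b : ℝ}

/-- the smoothed law -/
noncomputable def GG (μ : LL (Fin 2)) (δ b : ℝ) (w : Fin 2 → ℝ) : ℝ :=
  μ.E fun s => q1 δ b (w 0 - δ * s 0) * q1 δ b (w 1 - δ * s 1)

theorem GG_meas (μ : LL (Fin 2)) : Measurable (GG μ δ b) := by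
  have := q1_meas (δ := δ) (b := b)
  unfold GG LL.E
  fun_prop

theorem GG_int (μ : LL (Fin 2)) (hδ : 0 < δ) (hb : 0 < b) :
    Integrable (GG μ δ b) ∧ ∫ w, GG μ δ b w = (δ + 2 * √(π / b)) ^ 2 := by
  have I := fun (s : Fin 2 → ℤ) => (q2_int hδ hb (δ * s 0) (δ * s 1)).1.const_mul (μ.p s)
  refine ⟨integrable_finsetSum _ fun s _ => I s, ?_⟩
  unfold GG LL.E
  rw [integral_finsetSum _ fun s _ => I s]
  simp only [integral_const_mul, (q2_int hδ hb _ _).2, ← sum_mul, μ.one, one_mul]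

theorem GG_le (μ : LL (Fin 2)) (hb : 0 < b) (w : Fin 2 → ℝ) : GG μ δ b w ≤ 9 := by
  refine (μ.E_mono (g := fun _ => 9) fun s => ?_).trans (μ.E_const 9).le
  nlinarith [mul_le_mul (q1_le (δ := δ) hb (w 0 - δ * s 0)) (q1_le (δ := δ) hb
    (w 1 - δ * s 1)) (q1_pos _).le (by norm_num)]

theorem GG_log (μ : LL (Fin 2)) (hb : 0 < b) {s : Fin 2 → ℤ} (hs : s ∈ μ.A)
    {x0 x1 : ℝ} (h0 : 0 ≤ x0) (h0' : x0 ≤ δ) (h1 : 0 ≤ x1) (h1' : x1 ≤ δ) (w : Fin 2 → ℝ) :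
    0 < GG μ δ b w ∧ log (μ.p s) - b * (w 0 - δ * s 0 - x0) ^ 2 -
      b * (w 1 - δ * s 1 - x1) ^ 2 ≤ log (GG μ δ b w) := by
  have p := μ.pos s hs
  have p0 := q1_pos (δ := δ) (b := b) (w 0 - δ * s 0)
  have p1 := q1_pos (δ := δ) (b := b) (w 1 - δ * s 1)
  have g : μ.p s * (q1 δ b (w 0 - δ * s 0) * q1 δ b (w 1 - δ * s 1)) ≤ GG μ δ b w :=
    single_le_sum (f := fun s => μ.p s * (q1 δ b (w 0 - δ * s 0) * q1 δ b (w 1 - δ * s 1)))
      (fun s' h' => mul_nonneg (μ.pos _ h').le (mul_pos (q1_pos _) (q1_pos _)).le) hs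
  refine ⟨lt_of_lt_of_le (by positivity) g, le_trans ?_ (log_le_log (by positivity) g)⟩
  rw [log_mul p.ne' (by positivity), log_mul p0.ne' p1.ne']
  linarith [q1_ge hb h0 h0' (w 0 - δ * s 0), q1_ge hb h1 h1' (w 1 - δ * s 1)]

theorem PG_GG (μ : LL (Fin 2)) (hδ : 0 < δ) (hb : 0 < b) :
    PG fun w => log (GG μ δ b w) := by
  obtain ⟨s, hs⟩ : μ.A.Nonempty := nonempty_of_sum_ne_zero (by rw [μ.one]; exact one_ne_zero)
  have h := fun w => GG_log μ hb hs le_rfl hδ.le le_rfl hδ.le w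
  have p : PG fun w : Fin 2 → ℝ => log (μ.p s) -
      b * (w 0 - δ * s 0 - 0) ^ 2 - b * (w 1 - δ * s 1 - 0) ^ 2 :=
    ((PG.const _).sub (((((PG.coord 0).sub (PG.const _)).sub (PG.const _)).pow 2).cmul b)).sub
      (((((PG.coord 1).sub (PG.const _)).sub (PG.const _)).pow 2).cmul b)
  refine (p.abs.add (PG.const 9)).of_le (GG_meas μ).log fun w => ?_
  have h1 := (log_le_sub_one_of_pos (h w).1).trans (sub_le_sub_right (GG_le μ hb w) 1)
  refine le_trans (abs_le.2 ⟨?_, ?_⟩) (le_abs_self _)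
  · linarith [neg_abs_le _ |>.trans (h w).2]
  · linarith [abs_nonneg (log (μ.p s) -
      b * (w 0 - δ * s 0 - 0) ^ 2 - b * (w 1 - δ * s 1 - 0) ^ 2)]

theorem mixH0 (μ : LL (Fin 2)) (K : ℕ) :
    ∑ ω : μ.A × (Fin 2 → Fin (K + 1)),
      μ.p ω.1 / (K + 1) ^ Fintype.card (Fin 2) * log (μ.p ω.1.1) = -μ.H := by
  rw [LL.H, LL.E, ← Finset.sum_coe_sort μ.A, ← sum_neg_distrib]
  simp only [Fintype.sum_prod_type, sum_const, card_univ, Fintype.card_fun, Fintype.card_fin,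
    nsmul_eq_mul]
  refine sum_congr rfl fun s _ => ?_
  push_cast
  field_simp

theorem mixH (μ : LL (Fin 2)) (δ : ℝ) (K : ℕ) :
    ∑ ω : (μ.mix δ K).Ω, (μ.mix δ K).p ω * log (μ.p ω.1.1) = -μ.H := by
  rw [← mixH0 μ K]
  exact Finset.sum_congr (Finset.ext fun x => 
    ⟨fun _ => @Finset.mem_univ (μ.A × (Fin 2 → Fin (K + 1))) (_) x,
    fun _ => @Finset.mem_univ (μ.mix δ K).Ω (μ.mix δ K).fin x⟩) fun _ _ => rfl

end LAT2x

open LAT2x in
theorem p_LAT2 :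
    S_LAT2 := by
  intro μ δ ε hδ hε
  obtain ⟨b, hb, hZ⟩ : ∃ b : ℝ, 0 < b ∧ δ + 2 * √(π / b) = δ * (1 + ε / 4) :=
    ⟨π / (δ * ε / 8) ^ 2, by positivity, by
      rw [div_div_cancel₀ pi_pos.ne', sqrt_sq (by positivity)]; ring⟩
  refine ⟨√(ε / (8 * b)), by positivity, fun κ hκ hk K => ?_⟩
  have hk2 : 4 * b * κ ^ 2 ≤ ε / 2 := by
    have := (le_sqrt hκ.le (by positivity)).1 hk
    rw [le_div_iff₀ (by positivity)] at this
    linarith
  have hw : ∀ j : Fin 2, 0 < (fun _ => κ ^ 2) j := fun j => by positivity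
  obtain ⟨s0, hs0⟩ : μ.A.Nonempty := nonempty_of_sum_ne_zero (by rw [μ.one]; exact one_ne_zero)
  have Gp := fun w => (GG_log μ hb hs0 le_rfl hδ.le le_rfl hδ.le w).1
  obtain ⟨g1, g2⟩ := GG_int μ hδ hb
  rw [hZ] at g2
  set Z := δ * (1 + ε / 4) with hZd
  have Zp : 0 < Z := by positivity
  have lg : ∀ e, log (1 / Z ^ 2 * GG μ δ b e) = log (1 / Z ^ 2) + log (GG μ δ b e) := fun e =>
    log_mul (by positivity) (Gp _).ne'
  have pg : PG fun e => log (1 / Z ^ 2 * GG μ δ b e) := by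
    simp only [lg]
    exact (PG.const _).add (PG_GG μ hδ hb)
  refine (kGIB _ _ _ (fun e => 1 / Z ^ 2 * GG μ δ b e) hw
    (fun e => mul_pos (by positivity) (Gp _)) (g1.const_mul _) (by
      rw [integral_const_mul, g2]
      exact le_of_eq (by field_simp)) pg).trans ?_
  rw [((kMIX _ _ _ hw).2.2.2.2.2.2 _ pg).2.1]
  have key : ∀ ω : (μ.mix δ K).Ω,
      log (1 / Z ^ 2) - ε / 2 + log (μ.p ω.1.1) ≤
      ∫ y, log (1 / Z ^ 2 * GG μ δ b y) * ker (fun _ => κ ^ 2) (y - (μ.mix δ K).x ω) := by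
    rintro ⟨s, u⟩
    generalize hx : (μ.mix δ K).x (s, u) = x
    obtain ⟨k1, k2, -, k4⟩ := kKER _ (fun _ => κ ^ 2) x hw
    have q0 : PG fun y : Fin 2 → ℝ => (y 0 - x 0) ^ 2 := ((PG.coord 0).sub (PG.const _)).pow 2
    have q1 : PG fun y : Fin 2 → ℝ => (y 1 - x 1) ^ 2 := ((PG.coord 1).sub (PG.const _)).pow 2
    have hu : ∀ o, 0 ≤ δ * ((u o : ℕ) / (K + 1 : ℝ)) ∧ δ * ((u o : ℕ) / (K + 1 : ℝ)) ≤ δ := fun o =>
      ⟨by positivity, mul_le_of_le_one_right hδ.le ((div_le_one (by positivity)).2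
        (by exact_mod_cast (u o).2.le))⟩
    have hx0 : ∀ o, x o = δ * s.1 o + δ * ((u o : ℕ) / (K + 1 : ℝ)) := by
      intro o
      rw [← hx]
      simp only [LL.mix]
      ring
    set c := log (1 / Z ^ 2) + log (μ.p s.1) with hcd
    have j0 := (k1 _ (PG.const c))
    have j1 := (k1 _ q0).const_mul b
    have j2 := (k1 _ q1).const_mul b
    refine le_trans ?_ (integral_mono ((j0.sub j1).sub j2) (k1 _ pg) fun y => ?_)
    · simp only [Pi.sub_apply]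
      rw [integral_sub (by exact j0.sub j1) j2, integral_sub j0 j1, integral_const_mul,
        integral_const_mul, integral_const_mul, k2, k4, k4]
      have : 0 ≤ b * κ ^ 2 := by positivity
      linarith
    · have h := (GG_log μ hb s.2 (hu 0).1 (hu 0).2 (hu 1).1 (hu 1).2 y).2
      rw [sub_sub (y 0), sub_sub (y 1), ← hx0 0, ← hx0 1] at h
      simp only [Pi.sub_apply, lg, ← mul_assoc, ← sub_mul]
      refine mul_le_mul_of_nonneg_right ?_ (ker_pos hw _).le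
      linarith
  refine (neg_le_neg (sum_le_sum fun ω _ =>
    mul_le_mul_of_nonneg_left (key ω) ((μ.mix δ K).p0 ω))).trans ?_
  have e1 : ∑ ω : (μ.mix δ K).Ω, (μ.mix δ K).p ω * log (μ.p ω.1.1) = -μ.H := mixH μ δ K
  simp only [mul_add (b := log (1 / Z ^ 2) - ε / 2), sum_add_distrib, ← sum_mul,
    (μ.mix δ K).p1, e1]
  rw [log_div one_ne_zero (by positivity), log_pow, hZd, log_mul hδ.ne' (by positivity), log_one]
  have := log_le_sub_one_of_pos (by positivity : 0 < 1 + ε / 4)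
  push_cast
  linarith

end Pool.Agent.P.MP_6b977f_mp.QG
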