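import Pool.Agent.P.MP_6b977f_mp.QG.IfaceA

/-! Step LM. -/

namespace Pool.Agent.P.MP_6b977f_mp.QG

open Finset MeasureTheory Real Matrix RG
open scoped Classical

namespace LMx

theorem mix_E {ι : Type} [Fintype ι] (μ : LL ι) (δ : ℝ) (K : ℕ) (f : (ι → ℝ) → ℝ) :
    (μ.mix δ K).E f = μ.E fun s => (∑ r : ι → Fin (K + 1),
      f fun o => δ * (s o + (r o : ℕ) / (K + 1 : ℝ))) / Fintype.card (ι → Fin (K + 1)) := by
  rw [LL.E, ← Finset.sum_coe_sort μ.A]
  refine (Fintype.sum_prod_type (α₁ := μ.A) (α₂ := ι → Fin (K + 1)) _).trans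
    (sum_congr rfl fun s _ => ?_)
  rw [Fintype.card_fun, Fintype.card_fin, sum_div, mul_sum]
  refine sum_congr rfl fun r _ => ?_
  simp only [LL.mix]
  push_cast
  ring

theorem av {A B C : Type} [Fintype A] [Fintype B] [Fintype C] [Nonempty C] (e : A ≃ B × C)
    (h : B → ℝ) : (∑ a, h (e a).1) / Fintype.card A = (∑ b, h b) / Fintype.card B := by
  rw [e.sum_comp fun z => h z.1, Fintype.sum_prod_type, Fintype.card_congr e, Fintype.card_prod]
  simp only [sum_const, card_univ, nsmul_eq_mul, ← mul_sum]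
  have : (Fintype.card C : ℝ) ≠ 0 := by exact_mod_cast Fintype.card_ne_zero
  rw [Nat.cast_mul, mul_comm (Fintype.card B : ℝ), mul_div_mul_left _ _ this]

theorem av_at1 {d : ℕ} {F : Type} [Fintype F] [Nonempty F] [Fintype (PI d → F)]
    [Fintype (Fin 2 → F)] (i : Fin d) (h : (Fin 2 → F) → ℝ) :
    (∑ r : PI d → F, h (at1 r i)) / Fintype.card (PI d → F) =
      (∑ r, h r) / Fintype.card (Fin 2 → F) :=
  av ((Equiv.curry _ _ _).trans (Equiv.funSplitAt i (Fin 2 → F))) h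

theorem mink {d : ℕ} (u v : PI d → ℝ) {c : ℝ} (hc : 0 ≤ c) (h : wsq v ≤ c ^ 2) :
    wsq (u + v) ≤ (√(wsq u) + c) ^ 2 := by
  have h1 : ∑ j, u (j, 1) * v (j, 1) ≤ √(wsq u) * √(wsq v) :=
    Real.sum_mul_le_sqrt_mul_sqrt _ _ _
  have h2 : √(wsq u) * √(wsq v) ≤ √(wsq u) * c :=
    mul_le_mul_of_nonneg_left (sqrt_le_iff.2 ⟨hc, h⟩) (sqrt_nonneg _)
  have h3 : wsq (u + v) = wsq u + 2 * ∑ j, u (j, 1) * v (j, 1) + wsq v := by
    simp only [wsq, mul_sum, ← sum_add_distrib, Pi.add_apply]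
    exact sum_congr rfl fun _ _ => by ring
  nlinarith [sq_sqrt (wsq_nonneg u)]

theorem sum_sq_le {ι : Type} [Fintype ι] (z : ι → ℝ) :
    ∑ p, z p ^ 2 ≤ Fintype.card ι * ‖z‖ ^ 2 := by
  simpa using sum_le_card_nsmul univ (fun p => z p ^ 2) (‖z‖ ^ 2) fun p _ =>
    sq_le_sq.2 ((norm_le_pi_norm z p).trans (le_abs_self _))

theorem norm_sq_le {ι : Type} [Fintype ι] (z : ι → ℝ) : ‖z‖ ^ 2 ≤ ∑ p, z p ^ 2 := by
  refine (le_sqrt (norm_nonneg _) (sum_nonneg fun _ _ => sq_nonneg _)).1 ?_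
  exact (pi_norm_le_iff_of_nonneg (sqrt_nonneg _)).2 fun p => abs_le_sqrt
    (single_le_sum (f := fun p => z p ^ 2) (fun _ _ => sq_nonneg _) (mem_univ p))

end LMx

open LMx in
theorem p_LM :
    S_LM := by
  intro n d O μ ν δ K h
  have hM : Marg O (mixS O μ δ K) (ν.mix δ K) := fun g => by
    rw [mix_E, ← h]
    refine sum_congr rfl fun x _ => sum_congr rfl fun i _ => ?_
    rw [mixS, Mix.E_map, mix_E]
    congr 1
    funext s
    simp only [Node.port_wh]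
    exact @av_at1 d _ _ _ (_) (_) i fun r : Fin 2 → Fin (K + 1) =>
      g fun o => δ * (at1 s i o + (r o : ℕ) / (K + 1 : ℝ))
  refine ⟨hM, fun hδ => ⟨sum_le_sum fun x _ => ?_, ?_, ?_, ?_⟩⟩
  · rw [mixS, Mix.E_map]
    refine (μ x).mix_le hδ K fun s z hz => ?_
    have e : (O x).wh z = (O x).wh (rl δ s) + (O x).wh (z - rl δ s) := by
      rw [Node.wh, Node.wh, Node.wh, ← Matrix.mulVec_add, add_sub_cancel]
    rw [e]
    refine mink _ _ (by positivity) (((O x).pen_le _).trans ((sum_sq_le _).trans ?_))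
    have h1 : (Fintype.card (PI d) : ℝ) ≤ (2 * d) ^ 2 := by
      rw [Fintype.card_prod, Fintype.card_fin, Fintype.card_fin, mul_comm]
      exact_mod_cast Nat.le_self_pow two_ne_zero _
    rw [mul_pow]
    gcongr
  · have h1 : ∀ x, (μ x).E (fun s => (√((O x).pen (rl δ s)) + 2 * d * δ) ^ 2) ≤
        2 * (μ x).E (fun s => (O x).pen (rl δ s)) + 8 * d ^ 2 * δ ^ 2 := fun x => by
      rw [← LL.E_mul, ← (μ x).E_const (8 * d ^ 2 * δ ^ 2), ← LL.E_add]
      exact (μ x).E_mono fun s => by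
        nlinarith [sq_sqrt ((O x).pen_nonneg (rl δ s)),
          sq_nonneg (√((O x).pen (rl δ s)) - 2 * d * δ)]
    refine (sum_le_sum fun x _ => h1 x).trans (le_of_eq ?_)
    rw [sum_add_distrib, ← mul_sum, penS, sum_const, card_univ, Fintype.card_fin, nsmul_eq_mul]
    ring
  · rw [← LL.E_mul, ← ν.E_const (2 * δ ^ 2), ← LL.E_add]
    refine ν.mix_le hδ K fun s z hz => ?_
    have h1 : ‖z‖ ≤ ‖rl δ s‖ + δ := by linarith [norm_sub_norm_le z (rl δ s)]
    nlinarith [pow_le_pow_left₀ (norm_nonneg z) h1 2, sq_nonneg (‖rl δ s‖ - δ)]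
  · rw [mul_assoc 2, mul_assoc 2, ← hM, mul_sum]
    refine sum_le_sum fun x _ => ?_
    simp only [mixS, Mix.E_map, Node.port_wh]
    simp only [Mix.E]
    rw [sum_comm, mul_sum]
    refine sum_le_sum fun ω _ => ?_
    rw [← mul_sum, mul_left_comm]
    refine mul_le_mul_of_nonneg_left ((norm_sq_le _).trans ?_) (Mix.p0 _ ω)
    rw [Node.sq_wh, Fintype.sum_prod_type, mul_sum]
    exact sum_le_sum fun i _ => by simpa [at1] using sum_sq_le (at1 (((μ x).mix δ K).x ω) i)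

end Pool.Agent.P.MP_6b977f_mp.QG
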