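import Pool.Agent.P.MP_6b977f_mp.QG.IfaceA

/-! Step LNL. -/

namespace Pool.Agent.P.MP_6b977f_mp.QG

open Finset MeasureTheory Real Matrix RG
open scoped Classical

namespace LNLx

theorem E0 {ι : Type} [Fintype ι] (m : Mix ι) {f : (ι → ℝ) → ℝ} (h : ∀ y, 0 ≤ f y) : 0 ≤ m.E f :=
  sum_nonneg fun ω _ => mul_nonneg (m.p0 ω) (h _)

/-- a good node in a large set of nodes -/
theorem pick {n d : ℕ} (O : Fin n → Node d) (m : Fin n → Mix (PI d)) (q : Mix (Fin 2))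
    {κ t ε Y r : ℝ} (G : Finset (Fin n)) (k0 : 0 < κ) (k1 : κ ≤ 1) (k2 : κ ^ 2 ≤ ε) (t1 : 2 < t)
    (t2 : t < 3) (Y1 : 1 ≤ Y) (r0 : 0 < r) (hr : r ≤ #G) (hD : ∀ x, 0 ≤ (O x).D1 (m x) q κ t)
    (hq : q.E (fun y => ‖y‖ ^ 2) ≤ Y)
    (h : DS O m q κ t + ∑ x, (m x).E wsq + ε * ∑ x, (m x).E (fun y => ‖y‖ ^ 2) ≤ r * (Y * ε)) :
    ∃ x ∈ G, (O x).Stab (m x) q κ t (Y * ε) Y := by
  have e0 : 0 < ε := (pow_pos k0 2).trans_le k2
  have a1 : ∀ x, 0 ≤ (m x).E wsq := fun x => E0 _ wsq_nonneg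
  have a2 : ∀ x, 0 ≤ ε * (m x).E (fun y => ‖y‖ ^ 2) := fun x =>
    mul_nonneg e0.le (E0 _ fun _ => sq_nonneg _)
  rw [DS, mul_sum, ← sum_add_distrib, ← sum_add_distrib] at h
  obtain ⟨x, hx, h1⟩ := exists_le_of_sum_le (s := G) (g := fun _ => Y * ε)
    (card_pos.1 (Nat.cast_pos.1 (r0.trans_le hr)))
    (((sum_le_sum_of_subset_of_nonneg (subset_univ G) fun x _ _ =>
      add_nonneg (add_nonneg (hD x) (a1 x)) (a2 x)).trans h).trans (by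
        rw [sum_const, nsmul_eq_mul]; gcongr))
  have := hD x
  have := a1 x
  have := a2 x
  exact ⟨x, hx, k0, k1, by nlinarith, t1, t2, by linarith, by linarith,
    le_of_mul_le_mul_left (by linarith) e0, hq⟩

theorem many {m : ℕ} (θ : Fin m → ℝ) {κ0 : ℝ} (h0 : 0 < κ0) (h : κ0 * m ≤ ∑ e, sin (θ e) ^ 2) :
    κ0 / 2 * m ≤ #{e | κ0 / 2 ≤ sin (θ e) ^ 2} := by
  have k : ∑ e, sin (θ e) ^ 2 ≤ ∑ e, (κ0 / 2 + if κ0 / 2 ≤ sin (θ e) ^ 2 then (1 : ℝ) else 0) :=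
    sum_le_sum fun e _ => by
      have := sin_sq_le_one (θ e)
      split_ifs <;> linarith
  rw [sum_add_distrib, sum_boole, sum_const, card_univ, Fintype.card_fin, nsmul_eq_mul] at k
  linarith

theorem penS0 {n d : ℕ} (O : Fin n → Node d) (μ : Fin n → LL (PI d)) (δ : ℝ) : 0 ≤ penS O μ δ :=
  sum_nonneg fun x _ => (μ x).E_nonneg fun _ => (O x).pen_nonneg _

end LNLx

open LNLx in
theorem p_LNL (hFD : S_FD) (hLM : S_LM) (hAN : S_AN) (hNL : S_NL) :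
    S_LNL := by
  intro d c κ0 L M d3 c0 h0 hM
  have d3' : (3 : ℝ) ≤ d := by exact_mod_cast d3
  obtain ⟨L1, hL1⟩ : ∃ L1 : ℝ, L1 = 2 * |L| + 2 := ⟨_, rfl⟩
  have l1 : 2 ≤ L1 := by have := abs_nonneg L; linarith
  obtain ⟨X, hX⟩ : ∃ X : ℝ, X = 5 + 8 * d ^ 2 + 2 * d * L1 := ⟨_, rfl⟩
  have x1 : L1 ≤ X := by nlinarith
  obtain ⟨Y, hY⟩ : ∃ Y : ℝ, Y = X * (1 + 2 / κ0) := ⟨_, rfl⟩
  have y1 : X ≤ Y := by
    have : 0 < 2 / κ0 := by positivity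
    nlinarith
  have y2 : X ≤ κ0 / 2 * Y := by
    have : κ0 / 2 * Y = X * (κ0 / 2 + 1) := by rw [hY]; field_simp
    nlinarith
  obtain ⟨C, C1, hC⟩ := hNL d c (κ0 / 2) Y (by omega) c0 (by positivity)
  have M2 : 1 ≤ M ^ 2 := one_le_pow₀ hM
  refine ⟨(C + (2 * d + 8) + Y) * M ^ 2, by nlinarith, ?_⟩
  intro N m S θ F δ η ε T H T1 hε
  have e0 : 0 < ε := H.d0.trans_le H.d1
  have T0 := one_le_mul_of_one_le_of_one_le hM T1
  have T2 : 1 ≤ (M * T) ^ 2 := one_le_pow₀ T0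
  rw [mul_assoc, ← mul_pow] at hε
  have e1 : ε ≤ 1 := le_trans (le_mul_of_one_le_right e0.le (one_le_exp (mul_nonneg (by linarith) (sq_nonneg _)))) hε
  have n1 : (1 : ℝ) ≤ N := by exact_mod_cast H.n1
  have hm : 2 * (m : ℝ) = d * N := by exact_mod_cast S.hm
  have dd : δ ^ 2 ≤ ε := by nlinarith [H.d0, H.d1]
  have nm : (N : ℝ) ≤ m := by nlinarith
  have a4 : 0 < ε * N := by positivity
  have b1 : 2 * (m * ε) = d * (ε * N) := by rw [← mul_assoc, hm]; ring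
  have b2 : 2 * d * (ε * N) ≤ d ^ 2 * (ε * N) := mul_le_mul_of_nonneg_right (by nlinarith) a4.le
  have b3 : Y ≤ exp (Y * (M * T) ^ 2) := by
    have := add_one_le_exp (Y * (M * T) ^ 2)
    have := le_mul_of_one_le_right (a := Y) (by linarith) T2
    linarith
  have a1 : (N : ℝ) * d ^ 2 * δ ^ 2 ≤ N * d ^ 2 * ε := by gcongr
  have a2 : (m : ℝ) * δ ^ 2 ≤ m * ε := by gcongr
  obtain ⟨-, K, κ, t, k0, k1, k2, t1, t2, hD⟩ := hAN d N m c S θ F δ η ε H.d0 H.e0 e0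
  obtain ⟨v1, v2⟩ := hLM N d S.vs F.V F.ν δ K F.mV
  obtain ⟨v2, v3, v4, v5⟩ := v2 H.d0.le
  obtain ⟨w1, w2⟩ := hLM m 2 (eds θ) F.W F.ν δ K F.mW
  obtain ⟨w2, w3, -, w5⟩ := w2 H.d0.le
  have v6 := (hFD N d _ _ _ κ t v1 k0 (by linarith)).2
  have w6 := (hFD m 2 _ _ _ κ t w1 k0 (by linarith)).2
  have v7 : 0 ≤ DS S.vs (mixS S.vs F.V δ K) (F.ν.mix δ K) κ t := sum_nonneg fun x _ => v6 x
  have w7 : 0 ≤ DS (eds θ) (mixS (eds θ) F.W δ K) (F.ν.mix δ K) κ t := sum_nonneg fun x _ => w6 x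
  have q1 : (F.ν.mix δ K).E (fun z => ‖z‖ ^ 2) ≤ L1 := by
    have := H.mo
    have := le_abs_self L
    linarith
  have g1 := H.gp
  have g2 : ε ≤ ε * N := le_mul_of_one_le_right e0.le n1
  have p1 := H.pn
  have p2 := penS0 S.vs F.V δ
  have p3 := penS0 (eds θ) F.W δ
  have a3 : 2 * (N : ℝ) * d * (F.ν.mix δ K).E (fun z => ‖z‖ ^ 2) ≤ 2 * N * d * L1 :=
    mul_le_mul_of_nonneg_left q1 (by positivity)
  obtain ⟨v, -, hv⟩ := pick S.vs _ _ (r := N) univ k0 k1 k2 t1 t2 (Y := Y) (by linarith)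
    (by linarith) (by simp) v6 (by linarith) (by
      have := mul_le_mul_of_nonneg_left (v5.trans a3) e0.le
      have := mul_le_mul_of_nonneg_left y1 a4.le
      rw [hX] at this
      linarith)
  obtain ⟨e, he, hw⟩ := pick (eds θ) _ _ (r := κ0 / 2 * N) {e | κ0 / 2 ≤ sin (θ e) ^ 2} k0 k1 k2
    t1 t2 (Y := Y) (by linarith) (by positivity)
    (le_trans (mul_le_mul_of_nonneg_left nm (by positivity)) (many θ h0 H.nd)) w6
    (by linarith) (by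
      push_cast at w3 w5
      rw [hm, mul_comm (d : ℝ), show (N : ℝ) * d * 2 = 2 * N * d by ring] at w5
      have := mul_le_mul_of_nonneg_left (w5.trans a3) e0.le
      have := mul_le_mul_of_nonneg_left y2 a4.le
      rw [hX] at this
      linarith)
  obtain ⟨β, hβ⟩ := hC (S.σ v) (S.hσ v) (θ e) _ _ _ κ t (Y * ε) (M * T) (exp (-(M * T) ^ 2)) hv hw
    (mem_filter.1 he).2 T0 (exp_pos _) (exp_le_one_iff.2 (by linarith)) (by
      rw [← exp_nat_mul, mul_neg, exp_neg, ← one_div, le_div_iff₀ (exp_pos _)]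
      refine le_trans ?_ hε
      rw [add_mul, add_mul, exp_add, exp_add]
      push_cast
      calc _ = ε * (exp (C * (M * T) ^ 2) * exp ((2 * d + 8) * (M * T) ^ 2) * Y) := by ring
        _ ≤ _ := mul_le_mul_of_nonneg_left (mul_le_mul_of_nonneg_left b3 (by positivity)) e0.le)
  exact ⟨K, κ, t, β, k0, k1, k2, t1, t2, by linarith, hβ⟩

end Pool.Agent.P.MP_6b977f_mp.QG
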