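import Pool.Agent.P.MP_6b977f_mp.QG.IfaceA

/-! Step LOC. -/

namespace Pool.Agent.P.MP_6b977f_mp.QG

open Finset MeasureTheory Real Matrix RG
open scoped Classical

namespace LOCx

open Sb

theorem B_sub {d : ℕ} (O : Node d) (i : Fin d) (u u' : Fin d → ℝ) :
    O.B i u - O.B i u' = O.B i (u - u') := by
  funext a
  simp only [Node.B, Pi.sub_apply, mul_sub, sum_sub_distrib]

theorem cont_B {d : ℕ} (O : Node d) (i : Fin d) : Continuous (O.B i) := by
  refine continuous_pi fun a => ?_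
  simp only [Node.B]
  fun_prop

theorem small {C A T s ε : ℝ} {d : ℕ} (hC : 1 ≤ C) (hA : 1 ≤ A) (hT : 1 ≤ T) (hs : 0 < s)
    (hε0 : 0 < ε) (hε : ε * exp ((64 * C + 2 + (d + 1) * A) * T ^ 2) ≤ s ^ (d + 2)) :
    C * (T + 1) ^ 4 * ε < exp (-(A * T ^ 2)) * (s / 2) ^ 2 * (2 * (s / 2 / (A * T ^ 2))) ^ d := by
  have hT2 : 1 ≤ T ^ 2 := one_le_pow₀ hT
  obtain ⟨X, hX⟩ : ∃ X, X = A * T ^ 2 := ⟨_, rfl⟩
  rw [← hX]
  have hX1 : 1 ≤ X := hX ▸ one_le_mul_of_one_le_of_one_le hA hT2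
  have hXe : X ≤ exp X := by linarith [add_one_le_exp X]
  have e1 : exp (-X) * (s / 2) ^ 2 * (2 * (s / 2 / X)) ^ d = s ^ (d + 2) / (4 * X ^ d * exp X) := by
    rw [exp_neg, show 2 * (s / 2 / X) = s / X by ring, div_pow s X]
    field_simp
    ring
  rw [e1, lt_div_iff₀ (by positivity)]
  refine lt_of_lt_of_le ?_ hε
  have e2 : exp ((64 * C + 2 + (d + 1) * A) * T ^ 2) =
      exp (64 * C * T ^ 2) * exp (T ^ 2) ^ 2 * (exp X ^ d * exp X) := by
    rw [← exp_nat_mul, ← exp_nat_mul, ← exp_add, ← exp_add, ← exp_add, hX]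
    congr 1
    push_cast
    ring
  have k1 : 64 * C < exp (64 * C * T ^ 2) := by
    have := add_one_le_exp (64 * C * T ^ 2)
    have := le_mul_of_one_le_right (by linarith : 0 ≤ 64 * C) hT2
    linarith
  have k2 : (T ^ 2) ^ 2 ≤ exp (T ^ 2) ^ 2 :=
    pow_le_pow_left₀ (by linarith) (by linarith [add_one_le_exp (T ^ 2)]) 2
  have k3 : X ^ d ≤ exp X ^ d := pow_le_pow_left₀ (by linarith) hXe d
  have k4 : (T + 1) ^ 4 ≤ (2 * T) ^ 4 := pow_le_pow_left₀ (by linarith) (by linarith) 4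
  have k5 : 4 * (C * (T + 1) ^ 4) < exp (64 * C * T ^ 2) * exp (T ^ 2) ^ 2 := by
    have := mul_lt_mul k1 k2 (by positivity) (exp_pos _).le
    have := mul_le_mul_of_nonneg_left k4 (by linarith : 0 ≤ C)
    linarith
  have k6 := mul_lt_mul k5 (mul_le_mul_of_nonneg_right k3 (exp_pos X).le) (by positivity)
    (by positivity)
  rw [e2]
  have := mul_lt_mul_of_pos_left k6 hε0
  linarith

end LOCx

open LOCx Sb in
theorem p_LOC (hDROP : S_DROP) :
    S_LOC := by
  intro d L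
  obtain ⟨C, hC, hD⟩ := hDROP d L
  obtain ⟨A, hA⟩ : ∃ A : ℝ, A = 1 + d * (1 + 16 * d ^ 2 + 4 * d ^ 2 * |L|) +
    d * (1 + 64 * d ^ 2 + 16 * |L|) + (9 * d + d * |L|) := ⟨_, rfl⟩
  have p1 : 0 ≤ (d : ℝ) * (1 + 16 * d ^ 2 + 4 * d ^ 2 * |L|) := by positivity
  have p2 : 0 ≤ (d : ℝ) * (1 + 64 * d ^ 2 + 16 * |L|) := by positivity
  have p3 : 0 ≤ 9 * (d : ℝ) + d * |L| := by positivity
  have hA1 : 1 ≤ A := by linarith
  refine ⟨64 * C + 2 + (d + 1) * A, by nlinarith [Nat.cast_nonneg (α := ℝ) d], ?_⟩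
  intro O m q κ t ε T s h hT hs hs1 hε u hu i a
  have hL := L_nonneg m h.mom
  rw [abs_of_nonneg hL] at hA p1 p2 p3
  have hε0 : 0 < ε := lt_of_lt_of_le (pow_pos h.k0 2) h.k2
  have hT2 : 1 ≤ T ^ 2 := one_le_pow₀ hT
  have hv : 1 ≤ κ ^ 2 + t ∧ κ ^ 2 + t ≤ 4 := by
    have := h.t1; have := h.t2; have := h.k0; have := h.k1
    constructor <;> nlinarith
  have hv0 : ∀ _ : Fin d, 0 < κ ^ 2 + t := fun _ => by linarith [hv.1]
  have hq : ∀ b, 1 ≤ vq κ t b := fun b => by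
    have := h.t1
    simp only [vq]
    nlinarith [sq_nonneg κ]
  have hq0 : ∀ b, 0 < vq κ t b := fun b => one_pos.trans_le (hq b)
  have hFm := mom_le (m.map up) (L := L) ((m.E_mono fun x =>
    pow_le_pow_left₀ (norm_nonneg _) (norm_up x) 2).trans h.mom)
  have hqm := mom_le q h.moq
  have hR : T + 1 ≤ 2 * T := by linarith
  have hI := hD O m q κ t ε (T + 1) h (by linarith) i a
  simp only [sc_eq _ hv0, sc_eq _ hq0] at hI ⊢
  obtain ⟨g, hg⟩ : ∃ g : (Fin d → ℝ) → ℝ, g = fun u => O.B i (fun j => SS (m.map up).p (m.map up).x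
    (fun _ => κ ^ 2 + t) u j) a - SS q.p q.x (vq κ t) (O.B i u) a / 2 := ⟨_, rfl⟩
  have hgc : Continuous g := by
    rw [hg]
    exact ((continuous_apply a).comp ((cont_B O i).comp (continuous_pi fun j =>
      cont_SS (m.map up).p0 (m.map up).p1 j))).sub
      (((cont_SS q.p0 q.p1 a).comp (cont_B O i)).div_const 2)
  have hsup := sup_of_L2 g
    (fun y => Nc (fun _ : Fin d => κ ^ 2 + t) * ZZ (m.map up).p (m.map up).x (fun _ => κ ^ 2 + t) y)
    (T := T) (L := A * T ^ 2) (m := exp (-(A * T ^ 2))) (δ := s / 2)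
    (e := C * (T + 1) ^ 4 * ε) (by linarith)
    (by linarith [one_le_mul_of_one_le_of_one_le hA1 hT2]) (exp_pos _).le
    (by
      intro y y' hy hy'
      have k := fun j => SS_lip (x := (m.map up).x) (σ := fun _ => κ ^ 2 + t) (m.map up).p0
        (m.map up).p1 (fun _ => hv.1) hFm (hy.trans hR) (hy'.trans hR) j
      have hb : ∀ z : Fin d → ℝ, ‖z‖ ≤ T + 1 → ‖O.B i z‖ ≤ d * (2 * T) := fun z hz =>
        (O.norm_B i z).trans (mul_le_mul_of_nonneg_left (hz.trans hR) (Nat.cast_nonneg _))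
      have k' := SS_lip q.p0 q.p1 hq hqm (hb y hy) (hb y' hy') a
      simp only [Fintype.card_fin, Nat.cast_ofNat] at k k'
      rw [B_sub] at k'
      have l1 : 1 + 2 * (d * (2 * (d * (2 * T) ^ 2) + 2 * (d * L))) ≤
          (1 + 16 * d ^ 2 + 4 * d ^ 2 * L) * T ^ 2 := by
        have : 0 ≤ 4 * (d : ℝ) ^ 2 * L := by positivity
        linarith [mul_le_mul_of_nonneg_left hT2 this]
      have l2 : 1 + 2 * (2 * (2 * (2 * (d * (2 * T)) ^ 2) + 2 * (2 * L))) ≤
          (1 + 64 * d ^ 2 + 16 * L) * T ^ 2 := by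
        linarith [mul_le_mul_of_nonneg_left hT2 hL]
      have a1 := k'.trans (mul_le_mul l2 (O.norm_B i _) (norm_nonneg _) (by positivity))
      have a2 := (norm_le_pi_norm _ a).trans ((O.norm_B i _).trans (mul_le_mul_of_nonneg_left
        ((pi_norm_le_iff_of_nonneg (x := (fun j => SS (m.map up).p (m.map up).x
          (fun _ => κ ^ 2 + t) y' j) - fun j => SS (m.map up).p (m.map up).x
          (fun _ => κ ^ 2 + t) y j) (by positivity)).2 fun j => (k j).trans
            (mul_le_mul_of_nonneg_right l1 (norm_nonneg _))) (Nat.cast_nonneg _)))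
      rw [← B_sub, Real.norm_eq_abs, Pi.sub_apply] at a2
      have hAT : (d * (1 + 16 * d ^ 2 + 4 * d ^ 2 * L) + d * (1 + 64 * d ^ 2 + 16 * L)) *
          (T ^ 2 * ‖y' - y‖) ≤ A * (T ^ 2 * ‖y' - y‖) :=
        mul_le_mul_of_nonneg_right (by linarith) (by positivity)
      have p4 := mul_nonneg p2 (show 0 ≤ T ^ 2 * ‖y' - y‖ by positivity)
      rw [hg]
      rw [abs_le] at a1 a2 ⊢
      constructor <;> linarith [a1.1, a1.2, a2.1, a2.2])
    (by
      intro y hy
      have a := den_ge (m.map up) (v := fun _ => κ ^ 2 + t) (fun _ => hv) hFm (hy.trans hR)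
      rw [Fintype.card_fin] at a
      refine le_trans (exp_le_exp.2 (neg_le_neg ?_)) a
      have k1 : (9 * d + d * L) * T ^ 2 ≤ A * T ^ 2 :=
        mul_le_mul_of_nonneg_right (by linarith) (by positivity)
      have : 0 ≤ 5 * (d : ℝ) + d * L := by positivity
      linarith [mul_le_mul_of_nonneg_left hT2 this])
    (ContinuousOn.integrableOn_compact (isCompact_closedBall _ _) (Continuous.continuousOn
      ((continuous_const.mul cont_ZZ).mul (hgc.pow 2))))
    (by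
      refine le_of_eq_of_le ?_ hI
      rw [Ex_eq, ← integral_indicator measurableSet_closedBall]
      congr 1
      funext y
      simp only [Set.indicator, mem_closedBall_zero_iff, ind, hg]
      split_ifs <;> simp)
    (by rw [Fintype.card_fin]; exact small hC hA1 hT hs hε0 hε)
  have := hsup u hu
  rw [hg] at this
  linarith

end Pool.Agent.P.MP_6b977f_mp.QG
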