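import Pool.Agent.P.MP_6b977f_mp.QG.IfaceB
import Pool.Agent.P.MP_6b977f_mp.QG.IfaceA

/-! Step LOW. -/

namespace Pool.Agent.P.MP_6b977f_mp.QG

open Finset MeasureTheory Real Matrix RG
open scoped Classical

namespace LOWx

theorem pen0 {d : ℕ} (O : Node d) : O.pen 0 = 0 := by simp [Node.pen, Node.wh, wsq]

theorem pen_zero {d N m : ℕ} {c : ℝ} (S : Sys d N m c) (θ : Fin m → ℝ) (g : Glue d N m) :
    S.pen θ g 0 = 0 := by
  have h1 : ∀ v, (S.vs v).pen (vst (0 : HI d N → ℝ) v) = 0 := fun v => pen0 _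
  have h2 : ∀ e, (eds θ e).pen (est g (0 : HI d N → ℝ) e) = 0 := fun e => pen0 _
  simp only [Sys.pen, h1, h2, sum_const_zero, add_zero]

end LOWx

theorem p_LOW (hAN : S_AN) (hKEY : S_KEY) :
    S_LOW := by
  intro d hd
  obtain ⟨C, hC, h⟩ := hKEY d hd
  have hd1 : (1 : ℝ) ≤ d := by exact_mod_cast hd
  refine ⟨17 * C + 2 * d * (4 * d + 18) * C + 3, 1, by positivity,
    fun N hN m c S θ x γ hg hg1 hγ => ?_⟩
  have hN1 : (1 : ℝ) ≤ N := by exact_mod_cast hN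
  have ht1 : 1 ≤ (N : ℝ) ^ (1 / 10 : ℝ) := one_le_rpow hN1 (by norm_num)
  have e1 : ((N : ℝ) ^ (1 / 10 : ℝ)) ^ 10 = N := by
    rw [← rpow_mul_natCast (by linarith)]; norm_num
  rw [rpow_neg (by linarith), inv_le_iff_one_le_mul₀ (by linarith)] at hg
  generalize (N : ℝ) ^ (1 / 10 : ℝ) = t at ht1 e1 hg
  have ht0 : 0 < t := by linarith
  have hg0 : 0 < x := pos_of_mul_pos_left (one_pos.trans_le hg) ht0.le
  have hg3 : x ^ 3 ≤ (1 / 2) ^ 3 := by gcongr
  have ht8 : 1 ≤ t ^ 8 := one_le_pow₀ ht1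
  refine (h N m c S θ (x ^ 3) (x ^ 2 / 4) 1 x (2 * d * t ^ 8)
    (-(d * log 2) - (17 * C + 2 * d * (4 * d + 18) * C + 3) * x) 0 Empty
    (fun k => k.elim) (fun k => k.elim) (fun k => k.elim) _ hN (by positivity)
    (by positivity) (by linarith) hg0 hg1 (by nlinarith)
    (fun g hB => ⟨γ, 0, by linarith, (mem_filter.1 hB).2, ?_, fun φ hφ => ⟨?_, fun k => k.elim⟩⟩)
    (fun A η hη _ => ?_)).trans ?_
  · rw [LOWx.pen_zero]
    positivity
  · simp only [Pi.zero_apply, sub_zero, mul_pow, ← mul_sum, one_pow, one_mul, ← e1] at hφ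
    have k1 : 1 ≤ (x * t) ^ 6 := one_le_pow₀ hg
    have k2 : 0 ≤ ∑ p, (φ p : ℝ) ^ 2 := sum_nonneg fun _ _ => sq_nonneg _
    have k3 : 2 * d * t ^ 16 ≤ (2 * d * t ^ 8) ^ 2 := by
      have : 0 ≤ (2 * d * t ^ 16) * (2 * (d : ℝ) - 1) := mul_nonneg (by positivity) (by linarith)
      nlinarith
    nlinarith [mul_le_mul_of_nonneg_left k1 k2, mul_le_mul_of_nonneg_left hφ (pow_pos ht0 6).le]
  · rw [zero_mul]
    exact (hAN d N m c S θ A _ η 1 (by positivity) hη one_pos).1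
  · rw [mul_comm]
    refine mul_le_mul_of_nonneg_right (exp_le_exp.2 ?_) (Nat.cast_nonneg _)
    have k1 : log (2 * N * (2 * d * t ^ 8)) ≤ (4 * d + 18) * t := by
      rw [← e1, show 2 * t ^ 10 * (2 * d * t ^ 8) = 4 * d * t ^ 18 by ring,
        log_mul (by positivity) (by positivity), log_pow]
      push_cast
      nlinarith [log_le_sub_one_of_pos ht0, log_le_sub_one_of_pos (show 0 < 4 * (d : ℝ) by positivity)]
    have k2 : C * (x ^ 3) ^ 2 / (x * (x ^ 2 / 4) ^ 2) = 16 * C * x := by field_simp; ring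
    have k3 := mul_le_mul_of_nonneg_left k1 (show 0 ≤ C * (2 * d * t ^ 8) by positivity)
    have k4 : t ^ 9 ≤ x * N := by
      rw [← e1]; nlinarith [mul_le_mul_of_nonneg_left hg (pow_pos ht0 9).le]
    have k5 : 1 ≤ t ^ 9 := one_le_pow₀ ht1
    have k6 := mul_le_mul_of_nonneg_left k4 (show 0 ≤ 2 * d * (4 * d + 18) * C by positivity)
    rw [k2]
    nlinarith

end Pool.Agent.P.MP_6b977f_mp.QG
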