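import Pool.Agent.P.MP_6b977f_mp.QG.IfaceB
import Pool.Agent.P.MP_6b977f_mp.RG.Lib91

/-! Step MASS. -/

namespace Pool.Agent.P.MP_6b977f_mp.QG

open Finset MeasureTheory Real Matrix RG
open scoped Classical

namespace MASSx

theorem am0 {d N : ℕ} (z : HI d N → ℝ) (h : Fin N × Fin d) : 0 ≤ am z h := sqrt_nonneg _

theorem am_norm {d N : ℕ} (z : HI d N → ℝ) (h : Fin N × Fin d) :
    am z h = ‖(⟨z (h, 0), z (h, 1)⟩ : ℂ)‖ := by
  rw [Complex.norm_eq_sqrt_sq_add_sq]; rfl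

theorem am_cfg {d N m : ℕ} {c : ℝ} {S : Sys d N m c} {θ : Fin m → ℝ} {g : Glue d N m}
    {z : HI d N → ℝ} (hs : S.Sol θ g z) (h : Fin N × Fin d) : am z (cfg g h) = am z h := by
  have key : ∀ e, am z (g.symm (e, 1)) = am z (g.symm (e, 0)) := fun e => by
    have h0 := congrFun (hs.2 e) 0
    have h1 := congrFun (hs.2 e) 1
    simp only [at1, est, rf, Matrix.mulVec, dotProduct, Fin.sum_univ_two, Matrix.of_apply,
      Matrix.cons_val', Matrix.cons_val_zero, Matrix.cons_val_one, Matrix.cons_val_fin_one] at h0 h1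
    unfold am
    rw [h0, h1]
    congr 1
    linear_combination (z (g.symm (e, 0), 0) ^ 2 + z (g.symm (e, 0), 1) ^ 2) *
      sin_sq_add_cos_sq (θ e)
  obtain ⟨⟨e, s⟩, rfl⟩ := g.symm.surjective h
  rw [cfg_apply, Equiv.apply_symm_apply]
  fin_cases s
  · exact key e
  · exact (key e).symm

theorem am_tri {d N m : ℕ} {c : ℝ} {S : Sys d N m c} {θ : Fin m → ℝ} {g : Glue d N m}
    {z : HI d N → ℝ} (hs : S.Sol θ g z) (v : Fin N) (i : Fin d) :
    am z (v, i) ≤ ∑ j, |S.σ v i j| * am z (v, j) := by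
  have e : (starRingEnd ℂ) (⟨z ((v, i), 0), z ((v, i), 1)⟩ : ℂ) =
      ∑ j, (S.σ v i j : ℂ) * ⟨z ((v, j), 0), z ((v, j), 1)⟩ := by
    apply Complex.ext
    · simp [(hs.1 v i).1]
    · simp [(hs.1 v i).2]
  rw [am_norm, ← Complex.norm_conj, e]
  refine (norm_sum_le _ _).trans (le_of_eq (sum_congr rfl fun j _ => ?_))
  rw [norm_mul, Complex.norm_real, Real.norm_eq_abs, am_norm]

theorem jensen {d : ℕ} {c p b : ℝ} {σ : Matrix (Fin d) (Fin d) ℝ} (h : NoBack c σ) (p1 : 1 ≤ p)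
    (p2 : p < 2) (hb : 1 - c ≤ b) (x : Fin d → ℝ) (x0 : ∀ j, 0 ≤ x j) (i : Fin d) :
    (∑ j, |σ i j| * x j) ^ p ≤ b ^ (2 - p) * ∑ j ∈ univ.erase i, x j ^ p := by
  have h2 : ∑ j, σ i j ^ 2 = 1 := by
    have := congrFun (congrFun h.2.1 i) i
    rw [Matrix.mul_apply, Matrix.one_apply_eq] at this
    rw [← this]
    exact sum_congr rfl fun j _ => by rw [h.1.apply i j, sq]
  have e : ∀ j, |σ i j| * x j = σ i j ^ 2 * (x j / |σ i j|) := fun j => by
    by_cases u : σ i j = 0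
    · simp [u]
    · have := abs_pos.2 u
      rw [← sq_abs]; field_simp
  simp only [e]
  refine (Real.rpow_arith_mean_le_arith_mean_rpow univ _ _ (fun j _ => sq_nonneg _) h2
    (fun j _ => div_nonneg (x0 j) (abs_nonneg _)) p1).trans ?_
  rw [← sum_erase_add _ _ (mem_univ i), h.2.2.1, mul_sum, sq, zero_mul, zero_mul, add_zero]
  refine sum_le_sum fun j _ => ?_
  have b0 : 0 ≤ b := (abs_nonneg _).trans ((h.2.2.2 i j).trans hb)
  by_cases u : σ i j = 0
  · rw [u, sq, zero_mul, zero_mul]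
    exact mul_nonneg (rpow_nonneg b0 _) (rpow_nonneg (x0 j) _)
  · have a0 := abs_pos.2 u
    have : σ i j ^ 2 * (x j / |σ i j|) ^ p = |σ i j| ^ (2 - p) * x j ^ p := by
      rw [div_rpow (x0 j) a0.le, rpow_sub a0, rpow_two, sq_abs]; ring
    rw [this]
    exact mul_le_mul_of_nonneg_right
      (rpow_le_rpow a0.le ((h.2.2.2 i j).trans hb) (by linarith)) (rpow_nonneg (x0 j) _)

end MASSx

open MASSx in
theorem p_MASS :
    S_MASS := by
  intro d c p c0 p1 p2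
  obtain ⟨b, hb⟩ : ∃ b, b = 1 - min c (1 / 2) := ⟨_, rfl⟩
  have b0 : 0 < b := by have := min_le_right c (1 / 2); linarith
  have b1 : b < 1 := by have : 0 < min c (1 / 2) := lt_min c0 (by norm_num); linarith
  have b2 : 1 - c ≤ b := by have := min_le_left c (1 / 2); linarith
  obtain ⟨k, hk⟩ : ∃ k, k = b ^ (2 - p) := ⟨_, rfl⟩
  have k0 : 0 < k := hk ▸ rpow_pos_of_pos b0 _
  have k1 : k < 1 := hk ▸ rpow_lt_one b0.le b1 (by linarith)
  obtain ⟨n, hn⟩ := exists_nat_gt (4 * k / (1 - k))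
  have n0 : (0 : ℝ) < n := lt_trans (div_pos (by positivity) (by linarith)) hn
  have hn' : (1 - k) / 2 ≤ 1 - k * (1 + 1 / n * (1 + 1)) := by
    rw [div_lt_iff₀ (by linarith)] at hn
    have : k * (1 / n * (1 + 1)) ≤ (1 - k) / 2 := by
      rw [one_div, inv_mul_eq_div, ← mul_div_assoc, div_le_iff₀ n0]; linarith
    linarith
  have q0 : 0 < (1 - k) / 2 := by linarith
  refine ⟨1 / n, 1 + 4 * k * d ^ 3 / ((1 - k) / 2), by positivity,
    le_add_of_nonneg_right (by positivity), fun N m S θ g z t d0 hs hz t0 hK => ?_⟩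
  have h1 : ∀ h, cfg g (cfg g h) = h := fun h => (mem_Cf.1 (cfg_mem g) h).1
  obtain ⟨U, hU⟩ : ∃ U, U = univ.filter fun v : Fin N => ∃ i, t < am z (v, i) := ⟨_, rfl⟩
  have hnv : nv z t = #U := by rw [hU]; rfl
  rw [hnv] at hK ⊢
  obtain ⟨w, w0, w1, w2, w3⟩ := X91.ori (cfg g) h1 n (by exact_mod_cast n0) (d0 * N) hs U
    (by rwa [Fintype.card_fin])
  have p0 : 0 ≤ p := by linarith
  have G0 : ∀ h, 0 ≤ am z h ^ p := fun h => rpow_nonneg (am0 z h) _
  have key := fun i0 => X91.flow (cfg g) h1 U w (fun h => am z h ^ p) (1 / n) k 1 (t ^ p) w0 w1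
    w2 w3 G0 (fun y i => ?_) (fun h => ?_) (fun h u => ?_) k0.le (by positivity) zero_le_one
    (by positivity) i0
  · rw [Fintype.card_fin] at key
    have u1 : ∑ h ∈ univ.filter fun h => t < am z h, am z h ^ p ≤
        ∑ i, ∑ x ∈ U, am z (x, i) ^ p := by
      rw [sum_comm, ← sum_product' (f := fun x i => am z (x, i) ^ p)]
      refine sum_le_sum_of_subset_of_nonneg (fun h hh => ?_) fun h _ _ => G0 _
      rw [hU]
      exact mem_product.2 ⟨mem_filter.2 ⟨mem_univ _, h.2, (mem_filter.1 hh).2⟩, mem_univ _⟩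
    have u2 : (1 - k) / 2 * ∑ i, ∑ x ∈ U, am z (x, i) ^ p ≤ 4 * k * d ^ 3 * (t ^ p * #U) := by
      rw [mul_sum]
      refine (sum_le_card_nsmul _ _ _ fun i _ =>
        (mul_le_mul_of_nonneg_right hn' (sum_nonneg fun _ _ => G0 _)).trans (key i)).trans_eq ?_
      rw [card_univ, Fintype.card_fin, nsmul_eq_mul]; ring
    have u3 : ∑ i, ∑ x ∈ U, am z (x, i) ^ p ≤ 4 * k * d ^ 3 / ((1 - k) / 2) * (t ^ p * #U) := by
      rw [div_mul_eq_mul_div, le_div_iff₀ q0]; linarith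
    have u4 : 0 ≤ t ^ p * #U := by positivity
    linarith
  · rw [am_cfg hz, hk]
    exact (rpow_le_rpow (am0 _ _) (am_tri hz y i) p0).trans
      (jensen (S.hσ y) p1 p2 b2 (fun j => am z (y, j)) (fun j => am0 _ _) i)
  · rw [am_cfg hz, one_mul]
  · refine rpow_le_rpow (am0 _ _) (not_lt.1 fun a => u (Or.inl ?_)) p0
    rw [hU]
    exact mem_filter.2 ⟨mem_univ _, h.2, a⟩

end Pool.Agent.P.MP_6b977f_mp.QG
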