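import Pool.Agent.P.MP_6b977f_mp.QG.IfaceB

/-! Step NB. -/

namespace Pool.Agent.P.MP_6b977f_mp.QG

open Finset MeasureTheory Real Matrix RG
open scoped Classical

namespace NBx

variable {d N : ℕ} (z : HI d N → ℝ)

theorem am_nonneg (h : Fin N × Fin d) : 0 ≤ am z h := sqrt_nonneg _

theorem sum_am : ∑ h, am z h ^ 2 = ∑ q, z q ^ 2 := by
  rw [Fintype.sum_prod_type (f := fun q : HI d N => z q ^ 2)]
  refine sum_congr rfl fun h _ => ?_
  rw [Fin.sum_univ_two, am, sq_sqrt (by positivity)]

theorem nv_le (t : ℝ) : nv z t ≤ #(univ.filter fun h => t < am z h) := by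
  unfold nv
  refine Nat.cast_le.2 ((card_le_card ?_).trans (card_image_le (f := Prod.fst)))
  intro v hv
  obtain ⟨i, hi⟩ := (mem_filter.1 hv).2
  exact mem_image.2 ⟨(v, i), mem_filter.2 ⟨mem_univ _, hi⟩, rfl⟩

end NBx

open NBx in
theorem p_NB :
    S_NB := by
  intro d N z t C L p ht hC
  have hn := nv_le z t
  refine ⟨fun h => ?_, ?_, fun hL hp => ?_⟩
  · have h1 := card_filter_add_card_filter_not (s := univ.filter fun h => t < am z h)
      (fun h => am z h ≤ 2 * C * t)
    rw [filter_filter] at h1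
    have h2 : (#((univ.filter fun h => t < am z h).filter fun h => ¬ am z h ≤ 2 * C * t) : ℝ) *
        (2 * C * t) ≤ C * t * nv z t := by
      refine le_trans ?_ h
      rw [← nsmul_eq_mul]
      exact (card_nsmul_le_sum _ _ _ fun h hh => (not_le.1 (mem_filter.1 hh).2).le).trans
        (sum_le_sum_of_subset_of_nonneg (filter_subset _ _) fun h _ _ => am_nonneg z h)
    have h3 : (#((univ.filter fun h => t < am z h).filter fun h => ¬ am z h ≤ 2 * C * t) : ℝ) * 2 ≤
        nv z t := le_of_mul_le_mul_left (by linarith) (mul_pos hC ht)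
    rw [← h1, Nat.cast_add] at hn
    linarith
  · refine (mul_le_mul_of_nonneg_right hn (sq_nonneg t)).trans ?_
    rw [← nsmul_eq_mul, ← sum_am]
    exact (card_nsmul_le_sum _ (fun h => am z h ^ 2) _ fun h hh =>
      pow_le_pow_left₀ ht.le (mem_filter.1 hh).2.le 2).trans
      (sum_le_sum_of_subset_of_nonneg (filter_subset _ _) fun h _ _ => sq_nonneg _)
  · rw [mul_sum, sum_filter]
    refine sum_le_sum fun h _ => ?_
    split_ifs with hh
    · have h0 : 0 < am z h := ht.trans hh
      have h1 : am z h ^ 2 ≤ L :=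
        (single_le_sum (f := fun h => am z h ^ 2) (fun _ _ => sq_nonneg _) (mem_univ h)).trans
          ((sum_am z).le.trans hL)
      have h2 : am z h ^ 2 = (am z h ^ 2) ^ (1 - p / 2) * am z h ^ p := by
        rw [← rpow_two, ← rpow_mul h0.le, ← rpow_add h0]
        congr 1; ring
      have h3 : max (am z h - t) 0 ^ 2 ≤ am z h ^ 2 :=
        pow_le_pow_left₀ (le_max_right _ _) (max_le (by linarith) h0.le) 2
      refine h3.trans (h2.le.trans ?_)
      exact mul_le_mul_of_nonneg_right (rpow_le_rpow (sq_nonneg _) h1 (by linarith))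
        (rpow_nonneg h0.le _)
    · rw [max_eq_right (by linarith [not_lt.1 hh])]
      simp

end Pool.Agent.P.MP_6b977f_mp.QG
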