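import Pool.Agent.P.MP_6b977f_mp.QG.IfaceC
import Pool.Agent.P.MP_6b977f_mp.QG.IfaceB

/-! Step NET2. -/

namespace Pool.Agent.P.MP_6b977f_mp.QG

open Finset MeasureTheory Real Matrix RG
open scoped Classical

namespace NET2x

theorem dir (z : ℂ) : ∃ u ∈ ({1, -1, Complex.I, -Complex.I} : Finset ℂ), ‖z‖ / 2 ≤ (u * z).re := by
  have h := Complex.norm_le_abs_re_add_abs_im z
  by_cases h1 : |z.im| ≤ |z.re|
  · rcases abs_cases z.re with h2 | h2
    · exact ⟨1, by simp, by simp; linarith [h2.1]⟩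
    · exact ⟨-1, by simp, by simp; linarith [h2.1]⟩
  · rcases abs_cases z.im with h2 | h2
    · exact ⟨-Complex.I, by simp, by simp; linarith [h2.1]⟩
    · exact ⟨Complex.I, by simp, by simp; linarith [h2.1]⟩

theorem cpt (R : ℝ) : IsCompact {q : ℝ × ℝ | |q.1| + |q.2| ≤ R} := by
  refine Metric.isCompact_of_isClosed_isBounded (isClosed_le (by fun_prop) continuous_const) ?_
  refine (Metric.isBounded_closedBall (x := 0) (r := R)).subset fun q hq => ?_
  simp only [Set.mem_ofPred_eq] at hq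
  rw [mem_closedBall_zero_iff, Prod.norm_def, max_le_iff, Real.norm_eq_abs, Real.norm_eq_abs]
  constructor <;> linarith [abs_nonneg q.1, abs_nonneg q.2]

theorem nrm {d N m : ℕ} (g : Glue d N m) (z : HI d N → ℝ) :
    ∑ e, ‖at1 (est g z e) 0‖ ≤ m + ∑ p, z p ^ 2 := by
  have h := sum_est g z fun y => ∑ a, y a ^ 2
  rw [Fintype.sum_prod_type, ← h]
  have : ∀ e, ‖at1 (est g z e) 0‖ ≤ 1 + ∑ i, ∑ a, at1 (est g z e) i a ^ 2 := fun e => by
    refine (pi_norm_le_iff_of_nonneg (by positivity)).2 fun a => ?_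
    have a1 := single_le_sum (f := fun a => at1 (est g z e) 0 a ^ 2) (fun _ _ => sq_nonneg _)
      (mem_univ a)
    have a2 := single_le_sum (f := fun i => ∑ a, at1 (est g z e) i a ^ 2)
      (fun _ _ => by positivity) (mem_univ 0)
    rw [Real.norm_eq_abs]
    nlinarith [sq_nonneg (|at1 (est g z e) 0 a| - 1), sq_abs (at1 (est g z e) 0 a)]
  simpa [sum_add_distrib] using sum_le_sum fun e (_ : e ∈ univ) => this e

theorem lip (hCH : S_CH) (s t s' t' : ℝ) (z : Fin 2 → ℝ) :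
    ‖chI s t z - chI s' t' z‖ ≤ 2 * ((|s - s'| + |t - t'|) * ‖z‖) := by
  have h := (hCH 1 (2 * π) s t (by positivity)).1 1 s' t' z z
  simp only [sub_self, norm_zero, abs_zero, mul_zero, zero_mul, add_zero, zero_add] at h
  rw [chI, chI, ← sub_div, norm_div, Complex.norm_real, Real.norm_eq_abs,
    abs_of_pos (by positivity), div_le_iff₀ (by positivity)]
  linarith

end NET2x

open NET2x in
theorem p_NET2 (hCH : S_CH) :
    S_NET2 := by
  intro Λ M R ε hε
  let G : ℝ × ℝ → ℝ := fun q => exp (-(q.1 ^ 2 + q.2 ^ 2) / 2)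
  have hG : Continuous G := by fun_prop
  obtain ⟨δ, hδ, hu⟩ := Metric.uniformContinuousOn_iff.1
    ((cpt R).uniformContinuousOn_of_continuous hG.continuousOn) (ε / 8) (by positivity)
  obtain ⟨C, hC⟩ : ∃ C, C = 4 * Λ := ⟨_, rfl⟩
  have c0 : 0 < |C * (1 + M)| + 1 := by positivity
  obtain ⟨η, η0, η1, η2⟩ : ∃ η, 0 < η ∧ η ≤ δ ∧ η * (|C * (1 + M)| + 1) ≤ ε / 8 :=
    ⟨min δ (ε / 8 / _), lt_min hδ (div_pos (by positivity) c0), min_le_left _ _,
      (le_div_iff₀ c0).1 (min_le_right _ _)⟩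
  obtain ⟨S, hSK, hSf, hcov⟩ := finite_cover_balls_of_compact (cpt R) η0
  have un : ∀ u ∈ ({1, -1, Complex.I, -Complex.I} : Finset ℂ), ‖u‖ ≤ 1 := fun u h => by
    simp only [mem_insert, mem_singleton] at h
    rcases h with h | h | h | h <;> simp [h]
  refine ⟨(hSf.toFinset ×ˢ ({1, -1, Complex.I, -Complex.I} : Finset ℂ)).image
    fun q => (q.1.1, q.1.2, q.2), fun p hp => ?_, ?_⟩
  · obtain ⟨q, hq, rfl⟩ := mem_image.1 hp
    exact ⟨hSK (hSf.mem_toFinset.1 (mem_product.1 hq).1), un _ (mem_product.1 hq).2⟩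
  intro d N m L s t g z hm hL hz hst hbig
  obtain ⟨q, hqS, hq⟩ := Set.mem_iUnion₂.1 (hcov (show (s, t) ∈ _ from hst))
  obtain ⟨u, hu1, hu2⟩ := dir (dcI L s t g z)
  refine ⟨(q.1, q.2, u), mem_image.2 ⟨(q, u), mem_product.2 ⟨hSf.mem_toFinset.2 hqS, hu1⟩, rfl⟩, ?_⟩
  have e2 : |G (s, t) - G q| < ε / 8 := hu (s, t) hst q (hSK hqS) (lt_of_lt_of_le hq η1)
  rw [Metric.mem_ball, Prod.dist_eq, max_lt_iff, Real.dist_eq, Real.dist_eq] at hq
  have m0 : (0 : ℝ) < m := by exact_mod_cast hm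
  have Λ0 : 0 ≤ Λ := by linarith [(hL ⟨0, hm⟩).1, (hL ⟨0, hm⟩).2]
  have C0 : 0 ≤ C := by rw [hC]; positivity
  have sL : (m : ℝ) ≤ ∑ e, L e := by simpa using sum_le_sum fun e (_ : e ∈ univ) => (hL e).1
  have e0 : ∀ e, ‖(L e : ℂ) * chI s t (at1 (est g z e) 0) -
      (L e : ℂ) * chI q.1 q.2 (at1 (est g z e) 0)‖ ≤ η * C * ‖at1 (est g z e) 0‖ := fun e => by
    have l0 : 0 ≤ L e := zero_le_one.trans (hL e).1
    rw [← mul_sub, norm_mul, Complex.norm_real, Real.norm_eq_abs, abs_of_nonneg l0]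
    refine (mul_le_mul_of_nonneg_left (lip hCH _ _ _ _ _) l0).trans ?_
    refine le_trans (b := Λ * (2 * ((η + η) * ‖at1 (est g z e) 0‖))) ?_
      (le_of_eq (by rw [hC]; ring))
    gcongr
    exacts [(hL e).2, hq.1.le, hq.2.le]
  have e1 : ‖(∑ e, (L e : ℂ) * chI s t (at1 (est g z e) 0)) / (∑ e, L e : ℝ) -
      (∑ e, (L e : ℂ) * chI q.1 q.2 (at1 (est g z e) 0)) / (∑ e, L e : ℝ)‖ ≤ ε / 8 := by
    rw [← sub_div, ← sum_sub_distrib, norm_div, Complex.norm_real, Real.norm_eq_abs,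
      abs_of_pos (m0.trans_le sL), div_le_iff₀ (m0.trans_le sL)]
    refine ((norm_sum_le _ _).trans (sum_le_sum fun e _ => e0 e)).trans ?_
    rw [← mul_sum]
    have a := mul_le_mul_of_nonneg_left ((nrm g z).trans (add_le_add_right hz _))
      (mul_nonneg η0.le C0)
    have b : η * (C * (1 + M)) ≤ ε / 8 := by nlinarith [le_abs_self (C * (1 + M))]
    nlinarith
  have e3 : ‖dcI L s t g z - dcI L q.1 q.2 g z‖ ≤ ε / 4 := by
    rw [dcI, dcI, sub_sub_sub_comm, ← Complex.ofReal_sub]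
    refine (norm_sub_le _ _).trans ?_
    rw [Complex.norm_real, Real.norm_eq_abs]
    linarith
  have e4 : (u * (dcI L s t g z - dcI L q.1 q.2 g z)).re ≤ ε / 4 := by
    refine (Complex.re_le_norm _).trans ?_
    rw [norm_mul]
    exact (mul_le_of_le_one_left (norm_nonneg _) (un u hu1)).trans e3
  rw [mul_sub, Complex.sub_re] at e4
  show ε / 4 ≤ (u * dcI L q.1 q.2 g z).re
  linarith

end Pool.Agent.P.MP_6b977f_mp.QG
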