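import Pool.Agent.P.MP_6b977f_mp.QG.IfaceA

/-! Step NL. -/

namespace Pool.Agent.P.MP_6b977f_mp.QG

open Finset MeasureTheory Real Matrix RG
open scoped Classical

namespace NLx

theorem key {ε s D A C : ℝ} {n k : ℕ} (hε : 0 ≤ ε) (hs0 : 0 < s) (hs1 : s ≤ 1) (hD : 1 ≤ D)
    (hk : 2 * k ≤ n) (h : ε * exp C ≤ s ^ n) (hC : n * D + A ≤ C) :
    ε * exp A ≤ ((s / D) ^ 2) ^ k := by
  have hD0 : 0 < D := by linarith
  rw [← pow_mul]
  refine le_trans ?_ (pow_le_pow_of_le_one (by positivity) ((div_le_one hD0).2 (hs1.trans hD)) hk)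
  rw [div_pow, le_div_iff₀ (by positivity)]
  refine le_trans ?_ h
  rw [mul_assoc]
  refine mul_le_mul_of_nonneg_left ?_ hε
  have h1 : D ^ n ≤ exp (n * D) := by
    rw [exp_nat_mul]
    exact pow_le_pow_left₀ hD0.le (by linarith [add_one_le_exp D]) n
  calc exp A * D ^ n ≤ exp A * exp (n * D) := mul_le_mul_of_nonneg_left h1 (exp_pos _).le
    _ ≤ exp C := by rw [← exp_add]; exact exp_le_exp.2 (by linarith)

theorem lip {q : Mix (Fin 2)} {v L R : ℝ} (hv : 1 ≤ v) (h : q.E (fun y => ‖y‖ ^ 2) ≤ L)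
    (z z' : Fin 2 → ℝ) (hz : ‖z‖ ≤ R) (hz' : ‖z'‖ ≤ R) (a : Fin 2) :
    |q.sc (fun _ => v) a z - q.sc (fun _ => v) a z'| ≤ (1 + 16 * R ^ 2 + 16 * |L|) * ‖z - z'‖ := by
  have h0 : ∀ _ : Fin 2, 0 < v := fun _ => by linarith
  rw [Sb.sc_eq q h0, Sb.sc_eq q h0]
  refine (Sb.SS_lip q.p0 q.p1 (fun _ => hv) (Sb.mom_le q (h.trans (le_abs_self L))) hz' hz a).trans
    (le_of_eq ?_)
  simp only [Fintype.card_fin, Nat.cast_ofNat]
  ring

end NLx

open NLx in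
theorem p_NL (hLOC : S_LOC) (hINC : S_INC) (hAFF : S_AFF) (hISO : S_ISO) :
    S_NL := by
  intro d c κ0 L hd hc hκ0
  obtain ⟨Cd, hCd, hd'⟩ := hLOC d L
  obtain ⟨C2, hC2, h2'⟩ := hLOC 2 L
  obtain ⟨Ci, hCi, hi'⟩ := hINC d c hd hc
  obtain ⟨Co, hCo, ho'⟩ := hISO d κ0 hd hκ0
  have hL := abs_nonneg L
  set D0 : ℝ := Co * (11 * (Ci * (Co + (1 + 16 * (Ci * Co) ^ 2 + 16 * |L|))) + 1) with hD0
  have hD01 : 1 ≤ D0 := one_le_mul_of_one_le_of_one_le hCo (by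
    have : 0 ≤ 11 * (Ci * (Co + (1 + 16 * (Ci * Co) ^ 2 + 16 * |L|))) := by positivity
    linarith)
  refine ⟨((2 * d + 8 : ℕ) : ℝ) * D0 + (Cd * (Ci * Co) ^ 2 + C2), ?_, ?_⟩
  · have : 0 ≤ ((2 * d + 8 : ℕ) : ℝ) * D0 + Cd * (Ci * Co) ^ 2 := by positivity
    linarith
  intro σ h θ m m' q κ t ε T s hv he hθ hT hs0 hs1 hε
  have hε0 : 0 ≤ ε := (sq_nonneg κ).trans hv.k2
  have hv1 : 1 ≤ κ ^ 2 + t / 2 := by linarith [hv.t1, sq_nonneg κ]
  have hv2 : 0 < κ ^ 2 + t := by linarith [hv.t1, sq_nonneg κ]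
  have hT2 : 1 ≤ T ^ 2 := one_le_pow₀ hT
  have hTT : T ≤ T ^ 2 := le_self_pow₀ hT two_ne_zero
  have hT1 : T ≤ Co * T := le_mul_of_one_le_left (by linarith) hCo
  have hT3 : Co * T ≤ Ci * (Co * T) := le_mul_of_one_le_left (by linarith) hCi
  set K : ℝ := 1 + 16 * (Ci * (Co * T)) ^ 2 + 16 * |L| with hK
  have hK0 : 0 ≤ K := by positivity
  set D : ℝ := Co * (11 * (Ci * (Co * T + K)) + 1) with hD
  have hE0 : 0 ≤ Ci * (Co * T + K) := by positivity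
  have hD1 : 1 ≤ D := one_le_mul_of_one_le_of_one_le hCo (by linarith)
  have hDD : D ≤ D0 * T ^ 2 := by
    have a1 : Co * T ≤ Co * T ^ 2 := mul_le_mul_of_nonneg_left hTT (by linarith)
    have a2 : |L| ≤ |L| * T ^ 2 := le_mul_of_one_le_right hL hT2
    have a3 : Co * T + K ≤ (Co + (1 + 16 * (Ci * Co) ^ 2 + 16 * |L|)) * T ^ 2 := by
      rw [hK]; linarith
    have a4 := mul_le_mul_of_nonneg_left a3 (by linarith : 0 ≤ Ci)
    rw [hD, hD0, mul_assoc Co _ (T ^ 2)]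
    exact mul_le_mul_of_nonneg_left (by linarith) (by linarith)
  have hn : ((2 * d + 8 : ℕ) : ℝ) * D ≤ ((2 * d + 8 : ℕ) : ℝ) * (D0 * T ^ 2) :=
    mul_le_mul_of_nonneg_left hDD (Nat.cast_nonneg _)
  have b1 : 0 ≤ Cd * (Ci * (Co * T)) ^ 2 := by positivity
  have b2 : 0 ≤ C2 * T ^ 2 := by positivity
  have e1 : ε * exp (Cd * (Ci * (Co * T)) ^ 2) ≤ ((s / D) ^ 2) ^ (d + 2) :=
    key hε0 hs0 hs1 hD1 (by omega) hε (by linarith)
  have e2 : ε * exp (C2 * T ^ 2) ≤ ((s / D) ^ 2) ^ (2 + 2) :=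
    key hε0 hs0 hs1 hD1 (by omega) hε (by linarith)
  set r : ℝ := s / D with hr
  have hr0 : 0 < r := by positivity
  have hr1 : r ≤ 1 := (div_le_one (by linarith)).2 (hs1.trans hD1)
  have hrr : r ^ 2 ≤ r := pow_le_of_le_one hr0.le hr1 two_ne_zero
  have l1 := hd' _ m q κ t ε _ _ hv (hT.trans (hT1.trans hT3)) (by positivity) (hrr.trans hr1) e1
  have l2 := h2' _ m' q κ t ε _ _ he hT (by positivity) (hrr.trans hr1) e2
  have hlip : ∀ z z' : Fin 2 → ℝ, ‖z‖ ≤ Ci * (Co * T) → ‖z'‖ ≤ Ci * (Co * T) → ∀ a,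
      |q.sc (vq κ t) a z - q.sc (vq κ t) a z'| ≤ K * ‖z - z'‖ :=
    fun z z' hz hz' a => lip hv1 hv.moq z z' hz hz' a
  have i1 := hi' σ h (fun u => log ((m.map up).den (fun _ => κ ^ 2 + t) u))
    (fun j u => (m.map up).sc (fun _ => κ ^ 2 + t) j u) (fun a => q.sc (vq κ t) a) (Co * T) (r ^ 2) K r
    (hT.trans hT1) (by positivity) hK0 hr0 hr1
    (fun u w x => Sb.hasDerivAt_log_den _ (fun _ => hv2) u w x) l1 hlip
  have hee : Ci * (r ^ 2 * (Co * T) / r + K * r) = Ci * (Co * T + K) * r := by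
    field_simp
  rw [hee] at i1
  have a1 := fun a => hAFF (q.sc (vq κ t) a) (Co * T) _ K (by linarith)
    (fun z z' hz hz' => hlip z z' (hz.trans hT3) (hz'.trans hT3) a) fun z x hz hx b => i1 z x hz hx a b
  choose A hA using a1
  have hp : 0 ≤ 11 * (Ci * (Co * T + K) * r) := by positivity
  obtain ⟨β, hβ⟩ := ho' c σ h θ (fun a => q.sc (vq κ t) a) (fun a => q.sc (vq κ t) a 0) A T
    (11 * (Ci * (Co * T + K) * r) + r) hθ (by linarith) (by linarith)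
    (fun z hz a => (hA a z hz).trans (by linarith))
    (fun u hu => ⟨_, fun i a => (l1 u (hu.trans (hT1.trans hT3)) i a).trans (by linarith)⟩)
    (fun u hu => ⟨_, fun i a => (l2 u hu i a).trans (by linarith)⟩)
  refine ⟨β, fun z hz a => (hβ z hz a).trans (le_of_eq ?_)⟩
  have : D * r = s := by rw [hr]; field_simp
  rw [← this, hD]; ring

end Pool.Agent.P.MP_6b977f_mp.QG
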