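import Pool.Agent.P.MP_6b977f_mp.QG.IfaceC

/-! Step NRM2. -/

namespace Pool.Agent.P.MP_6b977f_mp.QG

open Finset MeasureTheory Real Matrix RG
open scoped Classical

namespace NRM2x

theorem rf_nrm (θ : ℝ) (u : Fin 2 → ℝ) : ∑ a, (rf θ *ᵥ u) a ^ 2 = ∑ a, u a ^ 2 := by
  have h' := sin_sq_add_cos_sq θ
  simp only [Fin.sum_univ_two, rf, Matrix.mulVec, dotProduct, Matrix.of_apply, Matrix.cons_val',
    Matrix.cons_val_zero, Matrix.cons_val_one, Matrix.cons_val_fin_one]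
  linear_combination (u 0 ^ 2 + u 1 ^ 2) * h'

end NRM2x

theorem p_NRM2 :
    S_NRM2 := by
  intro d N m c S L θ Λ g z hL hm hS hE
  have e1 : ∑ p, z p ^ 2 = ∑ e, ∑ i, ∑ a, at1 (est g z e) i a ^ 2 := by
    rw [sum_est g z fun u => ∑ a, u a ^ 2, Fintype.sum_prod_type]
  have e2 : ∀ e, ∑ i, ∑ a, at1 (est g z e) i a ^ 2 ≤
      4 * (L e / 2 * ∑ a, at1 (est g z e) 0 a ^ 2) := fun e => by
    rw [Fin.sum_univ_two, hS.2 e, NRM2x.rf_nrm]
    linarith [le_mul_of_one_le_left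
      (sum_nonneg (s := univ) fun a _ => sq_nonneg (at1 (est g z e) 0 a)) (hL e).1]
  have e3 : ∑ e, L e ≤ m * Λ := by
    simpa using sum_le_card_nsmul univ L Λ fun e _ => (hL e).2
  have e4 : (2 : ℝ) * m = d * N := by exact_mod_cast S.hm
  have e5 : (1 : ℝ) ≤ m * Λ := one_le_mul_of_one_le_of_one_le (by exact_mod_cast hm)
    ((hL ⟨0, hm⟩).1.trans (hL _).2)
  rw [e1]
  refine (sum_le_sum fun e _ => e2 e).trans ?_
  rw [← mul_sum, ← nrI, mul_assoc (4 * Λ), ← e4]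
  linarith [(abs_le.1 hE).2]

end Pool.Agent.P.MP_6b977f_mp.QG
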