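import Pool.Agent.P.MP_6b977f_mp.QG.IfaceC

/-! Step PEN2. -/

namespace Pool.Agent.P.MP_6b977f_mp.QG

open Finset MeasureTheory Real Matrix RG
open scoped Classical

namespace PEN2x

theorem se {d N m : ℕ} (g : Glue d N m) (z : HI d N → ℝ) :
    ∑ e, ∑ p, est g z e p ^ 2 = ∑ p, z p ^ 2 := by
  rw [Fintype.sum_prod_type (f := fun p : HI d N => z p ^ 2),
    ← sum_est g z fun y => ∑ a, y a ^ 2]
  exact sum_congr rfl fun v _ => Fintype.sum_prod_type _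

theorem pe (θ : ℝ) (z : PI 2 → ℝ) : (ed θ).pen z =
    ((z (0, 0) - cos θ * z (1, 0) - sin θ * z (1, 1)) ^ 2 +
      (z (0, 1) - sin θ * z (1, 0) + cos θ * z (1, 1)) ^ 2) / 2 := by
  have w0 : (ed θ).wh z (0, 1) = (z (0, 0) - cos θ * z (1, 0) - sin θ * z (1, 1)) / √2 := by
    simp [Node.wh, Matrix.mulVec, dotProduct, Fintype.sum_prod_type, ed, edO_apply, rf]; ring
  have w1 : (ed θ).wh z (1, 1) = (z (0, 1) - sin θ * z (1, 0) + cos θ * z (1, 1)) / √2 := by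
    simp [Node.wh, Matrix.mulVec, dotProduct, Fintype.sum_prod_type, ed, edO_apply, rf]; ring
  rw [Node.pen, wsq, Fin.sum_univ_two, w0, w1, div_pow, div_pow, sq_sqrt (by norm_num), add_div]

theorem ez (θ θ' δ : ℝ) (p : ℤ) (z : PI 2 → ℝ) (h : |θ' - θ - 2 * π * p| ≤ δ) :
    (ed θ').pen z ≤ 2 * (ed θ).pen z + 2 * δ ^ 2 * ∑ q, z q ^ 2 := by
  have c0 : cos (θ' - θ - 2 * π * p) = cos θ' * cos θ + sin θ' * sin θ := by
    rw [mul_comm, cos_sub_int_mul_two_pi, cos_sub]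
  have c4 := one_sub_sq_div_two_le_cos (x := θ' - θ - 2 * π * p)
  have c5 : (θ' - θ - 2 * π * p) ^ 2 ≤ δ ^ 2 := sq_le_sq' (abs_le.1 h).1 (abs_le.1 h).2
  have c6 : (cos θ' - cos θ) ^ 2 + (sin θ' - sin θ) ^ 2 ≤ δ ^ 2 := by
    nlinarith [sin_sq_add_cos_sq θ, sin_sq_add_cos_sq θ']
  rw [pe, pe, Fintype.sum_prod_type]
  simp only [Fin.sum_univ_two]
  generalize z (0, 0) = a
  generalize z (0, 1) = b
  generalize z (1, 0) = u
  generalize z (1, 1) = v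
  have k := mul_le_mul_of_nonneg_right c6 (show 0 ≤ u ^ 2 + v ^ 2 by positivity)
  have k1 : 0 ≤ δ ^ 2 * (a ^ 2 + b ^ 2) := by positivity
  have k2 : 0 ≤ δ ^ 2 * (u ^ 2 + v ^ 2) := by positivity
  nlinarith [sq_nonneg (a - cos θ * u - sin θ * v + ((cos θ' - cos θ) * u + (sin θ' - sin θ) * v)),
    sq_nonneg (b - sin θ * u + cos θ * v + ((sin θ' - sin θ) * u - (cos θ' - cos θ) * v))]

end PEN2x

theorem p_PEN2 :
    S_PEN2 := by
  intro d N m c S θ θ' p g z δ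
  refine ⟨fun h => ⟨h.1, fun e => ?_⟩, fun h => ?_⟩
  · beta_reduce
    rw [h.2 e, rf, rf, mul_comm (2 * π), cos_add_int_mul_two_pi, sin_add_int_mul_two_pi]
  · have a := sum_le_sum fun e (_ : e ∈ univ) => PEN2x.ez (θ e) (θ' e) δ (p e) (est g z e) (h e)
    rw [sum_add_distrib, ← mul_sum, ← mul_sum, PEN2x.se] at a
    have b : 0 ≤ ∑ v, (S.vs v).pen (vst z v) := sum_nonneg fun _ _ => Node.pen_nonneg _ _
    simp only [Sys.pen, eds]
    linarith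

end Pool.Agent.P.MP_6b977f_mp.QG
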