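import Pool.Agent.P.MP_6b977f_mp.QG.IfaceC

/-! Step RESO. -/

namespace Pool.Agent.P.MP_6b977f_mp.QG

open Finset MeasureTheory Real Matrix RG
open scoped Classical

namespace RESOx

theorem fib (J : ℕ) (u l : ℝ) (hl : 0 ≤ l) :
    (#((range J).filter fun j : ℕ => u ≤ j ∧ (j : ℝ) ≤ u + l) : ℝ) ≤ l + 1 := by
  have h : #((range J).filter fun j : ℕ => u ≤ j ∧ (j : ℝ) ≤ u + l) ≤ #(Icc ⌈u⌉ ⌊u + l⌋) :=
    card_le_card_of_injOn (fun j : ℕ => (j : ℤ)) (fun j hj => by
      obtain ⟨-, h1, h2⟩ := mem_filter.1 (mem_coe.1 hj)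
      exact mem_coe.2 (mem_Icc.2 ⟨Int.ceil_le.2 (by simpa using h1),
        Int.le_floor.2 (by simpa using h2)⟩)) fun a _ b _ e => by simpa using e
  rw [Int.card_Icc] at h
  refine (Nat.cast_le.2 h).trans ?_
  rw [← Int.cast_natCast, Int.toNat_eq_max]
  push_cast
  exact max_le (by linarith [Int.floor_le (u + l), Int.le_ceil u]) (by linarith)

theorem edge (J : ℕ) (a β : ℝ) (ha : 0 < a) (hβ : 0 ≤ β) :
    (#((range J).filter fun j : ℕ => |sin (j * a)| ≤ β) : ℝ) ≤ (J * a / π + 2) * (π * β / a + 1) := by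
  have hπ := pi_pos
  have h : (range J).filter (fun j : ℕ => |sin (j * a)| ≤ β) ⊆
      (range (⌊J * a / π + 1 / 2⌋₊ + 1)).biUnion fun n : ℕ => (range J).filter fun j : ℕ =>
        (n * π - π * β / 2) / a ≤ j ∧ (j : ℝ) ≤ (n * π - π * β / 2) / a + π * β / a := by
    intro j hj
    obtain ⟨h1, h2⟩ := mem_filter.1 hj
    have h3 : (j : ℝ) ≤ J := by exact_mod_cast (mem_range.1 h1).le
    refine mem_biUnion.2 ⟨⌊j * a / π + 1 / 2⌋₊, mem_range.2 (Nat.lt_succ_of_le
      (Nat.floor_le_floor (by gcongr))), mem_filter.2 ⟨h1, ?_⟩⟩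
    have h4 := Nat.floor_le (a := j * a / π + 1 / 2) (by positivity)
    have h5 := Nat.lt_floor_add_one (j * a / π + 1 / 2)
    set n := ⌊j * a / π + 1 / 2⌋₊
    have e : j * a = j * a / π * π := by field_simp
    have h6 : |j * a - n * π| ≤ π / 2 := abs_le.2 ⟨by nlinarith, by nlinarith⟩
    have h7 := mul_abs_le_abs_sin h6
    rw [sin_sub_nat_mul_pi, abs_mul, abs_neg_one_pow, one_mul, div_mul_eq_mul_div,
      div_le_iff₀ hπ] at h7
    obtain ⟨h8, h9⟩ := abs_le.1 (show |j * a - n * π| ≤ π * β / 2 by nlinarith)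
    rw [← add_div, div_le_iff₀ ha, le_div_iff₀ ha]
    constructor <;> linarith
  refine (Nat.cast_le.2 ((card_le_card h).trans card_biUnion_le)).trans ?_
  rw [Nat.cast_sum]
  refine (sum_le_card_nsmul _ _ _ fun n _ => fib J _ _ (by positivity)).trans ?_
  rw [card_range, nsmul_eq_mul]
  refine mul_le_mul_of_nonneg_right ?_ (by positivity)
  push_cast
  linarith [Nat.floor_le (a := J * a / π + 1 / 2) (by positivity)]

end RESOx

theorem p_RESO :
    S_RESO := by
  intro Λ κ τ hκ hτ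
  set β := √(2 * κ) + Λ * τ with hβ
  refine ⟨2 * (2 * (π * β / τ) + 2), fun m L J hL hm => ?_⟩
  have hΛ : 1 ≤ Λ := (hL ⟨0, hm⟩).1.trans (hL _).2
  have hb : 0 ≤ β := by positivity
  have hm' : (0 : ℝ) < m := by exact_mod_cast hm
  set R := (range J).filter fun j : ℕ => ∃ k : ℝ, j * τ ≤ k ∧ k ≤ (j + 1) * τ ∧
    ∑ e, sin (k * L e) ^ 2 < κ * m
  have h1 : ∀ j ∈ R, (m : ℝ) / 2 ≤ ∑ e, if |sin (j * (τ * L e))| ≤ β then 1 else 0 := by
    intro j hj
    obtain ⟨-, k, k1, k2, k3⟩ := mem_filter.1 hj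
    have : ∑ _e : Fin m, 2 * κ ≤ ∑ e, (sin (k * L e) ^ 2 +
        2 * κ * if |sin (j * (τ * L e))| ≤ β then 1 else 0) := by
      refine sum_le_sum fun e _ => ?_
      split_ifs with h
      · nlinarith [sq_nonneg (sin (k * L e))]
      · have a1 := abs_sin_sub_sin_le (j * (τ * L e)) (k * L e)
        have a2 : |j * (τ * L e) - k * L e| ≤ Λ * τ :=
          abs_le.2 ⟨by nlinarith [hL e], by nlinarith [hL e]⟩
        have a3 := abs_sub_abs_le_abs_sub (sin (j * (τ * L e))) (sin (k * L e))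
        have a4 : √(2 * κ) ≤ |sin (k * L e)| := by linarith [not_le.1 h]
        rw [sqrt_le_left (abs_nonneg _), sq_abs] at a4
        linarith
    rw [sum_add_distrib, sum_const, ← mul_sum, card_univ, Fintype.card_fin, nsmul_eq_mul] at this
    refine le_of_mul_le_mul_left ?_ (show 0 < 2 * κ by positivity)
    linarith
  have h2 : ∀ e, (∑ j ∈ R, if |sin (j * (τ * L e))| ≤ β then (1 : ℝ) else 0) ≤
      (β + Λ * τ) * J + (2 * (π * β / τ) + 2) := by
    intro e
    obtain ⟨l1, l2⟩ := hL e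
    have ha : 0 < τ * L e := by positivity
    rw [sum_boole]
    refine le_trans (Nat.cast_le.2 (card_le_card (filter_subset_filter _ (filter_subset _ _))))
      ((RESOx.edge J _ β ha hb).trans ?_)
    have e1 : J * (τ * L e) / π * (π * β / (τ * L e)) = β * J := by field_simp
    have e2 : J * (τ * L e) / π ≤ Λ * τ * J :=
      (div_le_self (by positivity) (by linarith [pi_gt_three])).trans
        (by nlinarith [mul_nonneg hτ.le J.cast_nonneg])
    have e3 : π * β / (τ * L e) ≤ π * β / τ :=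
      div_le_div_of_nonneg_left (by positivity) hτ (by nlinarith)
    nlinarith
  have h3 := card_nsmul_le_sum _ _ _ h1
  rw [sum_comm, nsmul_eq_mul] at h3
  have h4 := h3.trans (sum_le_card_nsmul _ _ _ fun e _ => h2 e)
  rw [card_univ, Fintype.card_fin, nsmul_eq_mul] at h4
  have h5 : (#R : ℝ) ≤ 2 * ((β + Λ * τ) * J + (2 * (π * β / τ) + 2)) :=
    le_of_mul_le_mul_left (by linarith) hm'
  have h6 : √(2 * κ) ≤ 2 * √κ := by
    rw [sqrt_le_left (by positivity), mul_pow, sq_sqrt hκ.le]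
    linarith
  nlinarith [mul_le_mul_of_nonneg_right h6 (J.cast_nonneg : (0 : ℝ) ≤ J)]

end Pool.Agent.P.MP_6b977f_mp.QG
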