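import Pool.Agent.P.MP_6b977f_mp.QG.IfaceA

/-! Step ROT. -/

namespace Pool.Agent.P.MP_6b977f_mp.QG

open Finset MeasureTheory Real Matrix RG
open scoped Classical

namespace ROTx

variable {d : ℕ} (O : Node d)

theorem ker_wh (v : ℝ) (u : PI d → ℝ) : ker (fun _ => v) (O.wh u) = ker (fun _ => v) u := by
  simp only [ker, g1, prod_div_distrib, ← exp_sum, ← sum_div, sum_neg_distrib, O.sq_wh]

theorem int_wh (g : (PI d → ℝ) → ℝ) : ∫ y, g (O.wh y) = ∫ y, g y := by
  have hdet : |(O.O.det)⁻¹| = 1 := by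
    have h := congrArg Matrix.det O.o1
    rw [Matrix.det_mul, Matrix.det_transpose, Matrix.det_one] at h
    rcases mul_self_eq_one_iff.1 h with h | h <;> simp [h]
  have hmap := Real.map_matrix_volume_pi_eq_smul_volume_pi (M := O.O) fun h => by simp [h] at hdet
  rw [hdet, ENNReal.ofReal_one, one_smul] at hmap
  have hc := (Matrix.toLin' O.O).continuous_of_finiteDimensional
  exact MeasurePreserving.integral_comp ⟨hc.measurable, hmap⟩
    (hc.measurableEmbedding (Function.LeftInverse.injective (g := (O.Oᵀ *ᵥ ·)) fun y => by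
      beta_reduce
      rw [Matrix.toLin'_apply, Matrix.mulVec_mulVec, O.o1', Matrix.one_mulVec])) g

end ROTx

theorem p_ROT :
    S_ROT := by
  intro d O m v _
  have e : ∀ y, (m.map O.wh).den (fun _ => v) (O.wh y) = m.den (fun _ => v) y := fun y =>
    sum_congr rfl fun ω _ => congrArg (m.p ω * ·) <|
      (congrArg _ (Matrix.mulVec_sub O.O y (m.x ω)).symm).trans (ROTx.ker_wh O v _)
  rw [Mix.ent, Mix.ent, Mix.Ex, Mix.Ex, ← ROTx.int_wh O]
  simp only [e]

end Pool.Agent.P.MP_6b977f_mp.QG
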