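import Pool.Agent.P.MP_6b977f_mp.QG.IfaceC
import Pool.Agent.P.MP_6b977f_mp.QG.IfaceB

/-! Step SMP. -/

namespace Pool.Agent.P.MP_6b977f_mp.QG

open Finset MeasureTheory Real Matrix RG
open scoped Classical

namespace SMPx

open Filter Topology in
theorem large {x ε : ℝ} (hx : 0 < x) (hε : 0 < ε) : ∃ N0 : ℕ, ∀ N : ℕ, N0 ≤ N →
    (N : ℝ) ^ (-(1 / 10) : ℝ) ≤ x ∧ exp (-(x * N)) ≤ ε := by
  have h1 : Tendsto (fun N : ℕ => (N : ℝ) ^ (-(1 / 10) : ℝ)) atTop (𝓝 0) :=
    (tendsto_rpow_neg_atTop (by norm_num)).comp tendsto_natCast_atTop_atTop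
  have h2 : Tendsto (fun N : ℕ => exp (-(x * N))) atTop (𝓝 0) :=
    tendsto_exp_neg_atTop_nhds_zero.comp (tendsto_natCast_atTop_atTop.const_mul_atTop hx)
  exact eventually_atTop.1 ((h1.eventually_le_const hx).and (h2.eventually_le_const hε))

end SMPx

theorem p_SMP (hALG : S_ALG) (hPEN : S_PEN) (hLOW : S_LOW) (hDET2 : S_DET2) (hCNTQ : S_CNTQ) :
    S_SMP := by
  intro d hd
  have d0 : (0 : ℝ) ≤ d := Nat.cast_nonneg d
  refine ⟨16 * d + 8, by linarith, fun r ε hr hr' hε => ?_⟩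
  obtain ⟨C, N1, hC, h1⟩ := hLOW d hd
  obtain ⟨N2, h2⟩ := hDET2 d (2 * r) (min r (ε / 2)) hd (by linarith) (by linarith)
    (lt_min hr (by linarith))
  set x := r / (C + 2) with hx
  have x0 : 0 < x := by positivity
  have x1 : (C + 2) * x = r := by rw [hx]; field_simp
  have x2 : C * x ≤ r := by nlinarith
  have x3 : 2 * x ≤ r := by nlinarith
  obtain ⟨N3, h3⟩ := SMPx.large x0 (half_pos hε)
  refine ⟨max (max N1 N2) (max N3 1), fun N hN m c S θ => ?_⟩
  simp only [max_le_iff] at hN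
  obtain ⟨⟨n1, n2⟩, n3, n4⟩ := hN
  have N0 : (0 : ℝ) < N := Nat.cast_pos.2 n4
  have y0 : 0 < 1 - 2 * r := by linarith
  set γ := √((2 * r) ^ 2 / (2 * (1 - 2 * r))) with hγ
  have g1 : γ ^ 2 = (2 * r) ^ 2 / (2 * (1 - 2 * r)) := sq_sqrt (by positivity)
  have g2 : 2 * r ^ 2 ≤ γ ^ 2 := by
    rw [g1, le_div_iff₀ (by positivity)]
    nlinarith [pow_pos hr 3]
  have a1 : (x ^ 2) ^ 2 ≤ r ^ 2 / 2 := by
    have : x ^ 2 ≤ r / 2 := by nlinarith
    nlinarith [sq_nonneg x, sq_nonneg r]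
  have e1 := h1 N n1 m c S θ x (x ^ 2) (h3 N n3).1 (by linarith) le_rfl
  have e2 := h2 N n2 m c S θ γ g1
  have c0 : (0 : ℝ) ≤ Fintype.card (Glue d N m) := Nat.cast_nonneg _
  have sub : (univ.filter fun g : Glue d N m => S.SM θ (r ^ 2) ((16 * d + 8) * r * N) g) ⊆
      (univ.filter fun g : Glue d N m => S.LD θ g (x ^ 2) ≤ -(d * log 2) - C * x) ∪
      univ.filter fun g : Glue d N m =>
        -(d * log (2 * (1 - 2 * r))) + min r (ε / 2) < S.LD θ g γ := by
    intro g hg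
    obtain ⟨V, hV, hz⟩ := (mem_filter.1 hg).2
    by_contra hn
    simp only [mem_union, mem_filter, mem_univ, true_and, not_or, not_le, not_lt] at hn
    obtain ⟨k1, k2⟩ := hn
    obtain ⟨s1, -, s2, -, s3⟩ := hALG d N m c S θ g
    have k3 := hCNTQ _ (S.Qm θ g) V (r ^ 2) ((x ^ 2) ^ 2) (γ ^ 2)
      (by rw [Sys.Qm, transpose_sub, transpose_smul, transpose_add, s1, s2, transpose_one])
      (fun z => by rw [s3]; exact ((hPEN d N m c S θ g).1 z).1) (sq_nonneg _) (by positivity)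
      (by nlinarith) fun z h => by rw [s3]; exact hz z h
    have k4 : (1 : ℝ) / 2 ≤ log ((r ^ 2 + γ ^ 2) / (r ^ 2 + (x ^ 2) ^ 2)) := by
      refine le_trans (by linarith [log_two_gt_d9]) (log_le_log two_pos ?_)
      rw [le_div_iff₀ (by positivity)]
      linarith
    have k5 : -(4 * r) ≤ log (1 - 2 * r) := by
      refine le_trans ?_ (one_sub_inv_le_log_of_pos y0)
      have : (1 - 2 * r)⁻¹ ≤ 1 + 4 * r := by
        rw [inv_le_iff_one_le_mul₀ y0]
        nlinarith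
      linarith
    rw [log_mul two_ne_zero y0.ne', Sys.LD, div_le_iff₀ (by positivity)] at k2
    rw [Sys.LD, lt_div_iff₀ (by positivity)] at k1
    have k6 := mul_le_mul hV k4 (by norm_num) (Nat.cast_nonneg _)
    have k7 := mul_le_mul_of_nonneg_left k5 (mul_nonneg d0 N0.le)
    have k8 := mul_le_mul_of_nonneg_right (min_le_left r (ε / 2)) N0.le
    have k9 := mul_le_mul_of_nonneg_right x2 N0.le
    nlinarith
  calc _ ≤ _ := Nat.cast_le.2 ((card_le_card sub).trans (card_union_le _ _))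
    _ ≤ ε / 2 * Fintype.card (Glue d N m) + ε / 2 * Fintype.card (Glue d N m) := by
      rw [Nat.cast_add]
      exact add_le_add (e1.trans (mul_le_mul_of_nonneg_right (h3 N n3).2 c0))
        (e2.trans (mul_le_mul_of_nonneg_right (min_le_right _ _) c0))
    _ = _ := by ring

end Pool.Agent.P.MP_6b977f_mp.QG
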