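import Pool.Agent.P.MP_6b977f_mp.QG.IfaceA

/-! Step ST2. -/

namespace Pool.Agent.P.MP_6b977f_mp.QG

open Finset MeasureTheory Real Matrix RG
open scoped Classical

namespace ST2x
variable {ι : Type} [Fintype ι] (m : Mix ι) {v : ι → ℝ}

theorem sc_coord (hv : ∀ j, 0 < v j) (j k : ι) :
    m.Ex v (fun y => m.sc v j y * y k) = -ind (j = k) := by
  have h := kIBP ι m v (Pi.single j 1) (fun y => y k) (fun _ => ind (j = k)) hv (PG.coord k)
    (PG.const _) fun y => by
      have := ((ContinuousLinearMap.proj (R := ℝ) (φ := fun _ : ι => ℝ) k).hasFDerivAt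
        (x := y)).hasLineDerivAt (Pi.single j 1)
      have e : (Pi.single j 1 : ι → ℝ) k = ind (j = k) := by
        simp [ind, Pi.single_apply, eq_comm]
      rw [← e]
      exact this
  have e1 : m.Ex v (fun _ => ind (j = k)) = ind (j = k) := by
    have := (kMIX ι m v hv).2.2.2.2.2.1
    simp only [Mix.Ex, one_mul] at this
    simp only [Mix.Ex, integral_const_mul, this, mul_one]
  rw [e1] at h
  rw [← h]
  simp [Pi.single_apply]

theorem mom (hv : ∀ j, 0 < v j) (j k : ι) :
    m.Ex v (fun y => y j * y k) = m.E (fun x => x j * x k) + ind (j = k) * v j := by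
  have hM := (kMIX ι m v hv).2.2.2.2.2.2
  have h1 := (hM (fun y => y k) (PG.coord k)).2.2 j
  rw [sc_coord m hv] at h1
  rw [(hM _ ((PG.coord j).mul (PG.coord k))).2.1]
  have e : ∀ x : ι → ℝ, ∫ y, y j * y k * ker v (y - x) =
      x j * x k - v j * ∫ y, (x j - y j) / v j * y k * ker v (y - x) := fun x => by
    obtain ⟨hi, h0, hm, -⟩ := kKER ι v x hv
    have a1 := hi _ ((((PG.const (x j)).sub (PG.coord j)).div (v j)).mul (PG.coord k))
    have a2 := hi _ ((PG.coord k).sub (PG.const (x k)))
    have a3 := hi _ (PG.const (1 : ℝ) (ι := ι))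
    simp only [one_mul] at a3
    have : ∀ y : ι → ℝ, y j * y k * ker v (y - x) =
        x j * ((y k - x k) * ker v (y - x)) + x j * x k * ker v (y - x) -
          v j * ((x j - y j) / v j * y k * ker v (y - x)) := fun y => by
      have := (hv j).ne'
      field_simp
      ring
    simp only [this]
    have a4 : Integrable fun y : ι → ℝ => x j * ((y k - x k) * ker v (y - x)) +
        x j * x k * ker v (y - x) := (a2.const_mul _).add (a3.const_mul _)
    rw [integral_sub a4 (a1.const_mul _),
      integral_add (a2.const_mul _) (a3.const_mul _), integral_const_mul, integral_const_mul,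
      integral_const_mul, hm k, h0]
    ring
  simp only [e, mul_sub, sum_sub_distrib, mul_left_comm _ (v j), ← mul_sum, ← h1, Mix.E]
  ring

end ST2x

theorem p_ST2 :
    S_ST2 := by
  intro ι _ m v j k β e hv he
  obtain ⟨hd, -, -, hs, -, -, hM⟩ := kMIX ι m v hv
  have ha : PG fun y : ι → ℝ => m.sc v j y + β * y j := (hs j).add ((PG.coord j).cmul β)
  have h1 : m.Ex v (fun y => (m.sc v j y + β * y j) * y k) =
      β * (m.E (fun x => x j * x k) + ind (j = k) * v j) - ind (j = k) := by
    rw [← ST2x.mom m hv, sub_eq_add_neg, ← ST2x.sc_coord m hv, Mix.Ex, Mix.Ex, Mix.Ex,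
      ← integral_const_mul, ← integral_add ((hM _ ((PG.coord j).mul (PG.coord k))).1.const_mul _)
        (hM _ ((hs j).mul (PG.coord k))).1]
    exact integral_congr_ae (ae_of_all _ fun y => by ring)
  have h2 : m.E (fun x => x k ^ 2) + v k = m.Ex v (fun y => y k ^ 2) := by
    have := ST2x.mom m hv k k
    rw [ind_pos rfl, one_mul] at this
    simp only [sq, this]
  have i1 := (hM _ (ha.pow 2)).1
  have i2 := (hM _ ((PG.coord k).pow 2)).1
  rw [← h1, h2, Mix.Ex, Mix.Ex, Mix.Ex, ← integral_div, ← integral_const_mul,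
    ← integral_add (i1.div_const _) (i2.const_mul _)]
  refine (abs_integral_le_integral_abs).trans (integral_mono
    (hM _ (ha.mul (PG.coord k))).1.abs ((i1.div_const _).add (i2.const_mul _)) fun y => ?_)
  have hp := (hd y).le
  dsimp only
  generalize m.sc v j y + β * y j = a
  generalize m.den v y = p at hp
  have : |a * y k| ≤ a ^ 2 / e + e * y k ^ 2 := by
    rw [abs_mul, ← sq_abs a, ← sq_abs (y k), div_add' _ _ _ he.ne', le_div_iff₀ he]
    nlinarith [sq_nonneg (|a| - e * |y k|), mul_nonneg (mul_nonneg (abs_nonneg a) (abs_nonneg (y k))) he.le]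
  rw [abs_mul, abs_of_nonneg hp]
  calc |a * y k| * p ≤ (a ^ 2 / e + e * y k ^ 2) * p := mul_le_mul_of_nonneg_right this hp
    _ = _ := by ring

end Pool.Agent.P.MP_6b977f_mp.QG
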