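import Pool.Agent.P.MP_6b977f_mp.QG.IfaceA

/-! Step STC. -/

namespace Pool.Agent.P.MP_6b977f_mp.QG

open Finset MeasureTheory Real Matrix RG
open scoped Classical

namespace STCx

variable {ι : Type} [Fintype ι] (m : Mix ι) {v : ι → ℝ} (ξ : ι → ℝ)

/-- the phase -/
noncomputable def th (ξ y : ι → ℝ) : ℝ := ∑ j, ξ j * y j

lemma PG_th : PG (th ξ) := PG.sum _ fun j _ => (PG.coord j).cmul _

lemma PG_cos (r a : ℝ) : PG fun y => cos (r * th ξ y + a) :=
  PG.bdd (((PG_th ξ).1.const_mul r).add_const a).cos 1 fun _ => abs_cos_le_one _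

lemma PG_sin (r a : ℝ) : PG fun y => sin (r * th ξ y + a) :=
  PG.bdd (((PG_th ξ).1.const_mul r).add_const a).sin 1 fun _ => abs_sin_le_one _

lemma int (hv : ∀ j, 0 < v j) {g : (ι → ℝ) → ℝ} (hg : PG g) :
    Integrable fun y => g y * m.den v y := ((kMIX ι m v hv).2.2.2.2.2.2 g hg).1

lemma der (hv : ∀ j, 0 < v j) (a r : ℝ) :
    HasDerivAt (fun r => m.Ex v fun y => cos (r * th ξ y + a))
      (-m.Ex v fun y => th ξ y * sin (r * th ξ y + a)) r := by
  have h := (hasDerivAt_integral_of_dominated_loc_of_deriv_le (μ := volume) (x₀ := r)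
    (F := fun r y => cos (r * th ξ y + a) * m.den v y)
    (F' := fun r y => -(th ξ y * sin (r * th ξ y + a)) * m.den v y)
    (bound := fun y => |th ξ y| * m.den v y) Filter.univ_mem
    (Filter.Eventually.of_forall fun x => (int m hv (PG_cos ξ x a)).1) (int m hv (PG_cos ξ r a))
    (int m hv ((PG_th ξ).mul (PG_sin ξ r a)).neg).1
    (Filter.Eventually.of_forall fun y x _ => ?_) (int m hv (PG_th ξ).abs)
    (Filter.Eventually.of_forall fun y x _ => ?_)).2
  · simp only [neg_mul, integral_neg] at h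
    exact h
  · have d := ((kMIX ι m v hv).1 y).le
    rw [Real.norm_eq_abs, abs_mul, abs_neg, abs_mul, abs_of_nonneg d]
    exact mul_le_mul_of_nonneg_right
      (mul_le_of_le_one_right (abs_nonneg _) (abs_sin_le_one _)) d
  · refine HasDerivAt.mul_const ?_ _
    have := (((hasDerivAt_id x).mul_const (th ξ y)).add_const a).cos
    exact this.congr_deriv (by simp only [id]; ring)

lemma ibp (hv : ∀ j, 0 < v j) (a r : ℝ) :
    m.Ex v (fun y => (∑ j, ξ j * m.sc v j y) * sin (r * th ξ y + a)) =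
      -(r * (∑ j, ξ j ^ 2) * m.Ex v fun y => cos (r * th ξ y + a)) := by
  rw [kIBP ι m v ξ _ (fun y => r * (∑ j, ξ j ^ 2) * cos (r * th ξ y + a)) hv (PG_sin ξ r a)
    ((PG_cos ξ r a).cmul _) fun y => ?_]
  · simp only [Mix.Ex, mul_assoc, integral_const_mul]
  · have e : (fun t : ℝ => sin (r * th ξ (y + t • ξ) + a)) =
        fun t => sin (r * (th ξ y + t * ∑ j, ξ j ^ 2) + a) := by
      funext t
      simp only [th, Pi.add_apply, Pi.smul_apply, smul_eq_mul, mul_add, sum_add_distrib, mul_sum]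
      congr 3
      exact sum_congr rfl fun j _ => by ring
    unfold HasLineDerivAt
    rw [e]
    have := ((((hasDerivAt_id (0 : ℝ)).mul_const (∑ j, ξ j ^ 2)).const_add (th ξ y)).const_mul r
      |>.add_const a).sin
    exact this.congr_deriv (by simp only [id, zero_mul, add_zero]; ring)

lemma cs (hv : ∀ j, 0 < v j) {W s : (ι → ℝ) → ℝ} (hW : PG W) (hs : PG s) (h1 : ∀ y, |s y| ≤ 1)
    {X : ℝ} (hX : 0 ≤ X) (h : m.Ex v (fun y => W y ^ 2) ≤ X ^ 2) :
    |m.Ex v fun y => W y * s y| ≤ X := by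
  refine le_of_forall_pos_le_add fun e he => ?_
  have hp : 0 < X + e := by linarith
  have k : |m.Ex v fun y => W y * s y| ≤
      ∫ y, (W y ^ 2 * m.den v y * (1 / (2 * (X + e))) + 1 * m.den v y * ((X + e) / 2)) := by
    refine (abs_integral_le_integral_abs).trans (integral_mono (int m hv (hW.mul hs)).abs
      (((int m hv (hW.pow 2)).mul_const _).add ((int m hv (PG.const 1)).mul_const _)) fun y => ?_)
    have d := ((kMIX ι m v hv).1 y).le
    have b : |W y * s y| ≤ W y ^ 2 * (1 / (2 * (X + e))) + (X + e) / 2 := by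
      rw [abs_mul]
      refine (mul_le_of_le_one_right (abs_nonneg _) (h1 y)).trans ?_
      rw [← sq_abs (W y), ← sub_nonneg]
      have : |W y| ^ 2 * (1 / (2 * (X + e))) + (X + e) / 2 - |W y| =
        (|W y| - (X + e)) ^ 2 / (2 * (X + e)) := by field_simp; ring
      rw [this]; positivity
    simp only
    rw [abs_mul, abs_of_nonneg d]
    nlinarith [mul_le_mul_of_nonneg_right b d]
  rw [integral_add ((int m hv (hW.pow 2)).mul_const _) ((int m hv (PG.const 1)).mul_const _),
    integral_mul_const, integral_mul_const] at k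
  have o : ∫ y, 1 * m.den v y = 1 := (kMIX ι m v hv).2.2.2.2.2.1
  rw [o] at k
  have q : (∫ y, W y ^ 2 * m.den v y) * (1 / (2 * (X + e))) ≤ (X + e) / 2 := by
    rw [mul_one_div, div_le_iff₀ (by positivity)]
    have : (∫ y, W y ^ 2 * m.den v y) ≤ X ^ 2 := h
    nlinarith
  linarith

lemma real (hv : ∀ j, 0 < v j) {β X : ℝ} (hβ : 0 < β) (hX : 0 ≤ X)
    (h : m.Ex v (fun y => (∑ j, ξ j * (m.sc v j y + β * y j)) ^ 2) ≤ X ^ 2) (a : ℝ) :
    (m.Ex v fun y => cos (th ξ y + a)) - cos a * exp (-(∑ j, ξ j ^ 2) / (2 * β)) ≤ X / β := by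
  set q := ∑ j, ξ j ^ 2 with hq
  have q0 : 0 ≤ q := sum_nonneg fun _ _ => sq_nonneg _
  have sc := (kMIX ι m v hv).2.2.2.1
  have pS : PG fun y => ∑ j, ξ j * m.sc v j y := PG.sum _ fun j _ => (sc j).cmul _
  have k : ∀ r, |β * (m.Ex v fun y => th ξ y * sin (r * th ξ y + a)) -
      r * q * m.Ex v fun y => cos (r * th ξ y + a)| ≤ X := fun r => by
    have := cs m hv (PG.sum _ fun j _ => ((sc j).add ((PG.coord j).cmul β)).cmul (ξ j))
      (PG_sin ξ r a) (fun _ => abs_sin_le_one _) hX h
    rw [sub_eq_add_neg, ← ibp m ξ hv, Mix.Ex, Mix.Ex, ← integral_const_mul,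
      ← integral_add ((int m hv ((PG_th ξ).mul (PG_sin ξ r a))).const_mul _)
        (int m hv (pS.mul (PG_sin ξ r a)))]
    refine le_trans (le_of_eq (congrArg _ (congrArg _ (funext fun y => ?_)))) this
    have : ∑ j, ξ j * (m.sc v j y + β * y j) = ∑ j, ξ j * m.sc v j y + β * th ξ y := by
      simp only [th, mul_add, sum_add_distrib, mul_sum, mul_left_comm]
    simp only [this]; ring
  have mv := norm_image_sub_le_of_norm_deriv_le_segment_01'
    (f := fun r => (m.Ex v fun y => cos (r * th ξ y + a)) * exp ((r ^ 2 - 1) * q / (2 * β)))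
    (f' := fun r => -((β * (m.Ex v fun y => th ξ y * sin (r * th ξ y + a)) -
      r * q * m.Ex v fun y => cos (r * th ξ y + a)) / β * exp ((r ^ 2 - 1) * q / (2 * β))))
    (C := X / β) (fun r _ => ?_) fun r hr => ?_
  · have o : m.Ex v (fun _ => cos a) = cos a := by
      have := (kMIX ι m v hv).2.2.2.2.2.1
      simp only [Mix.Ex, integral_const_mul, one_mul] at this ⊢
      rw [this, mul_one]
    simp only [one_mul, one_pow, sub_self, zero_mul, zero_div, exp_zero, mul_one, zero_add, o,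
      Real.norm_eq_abs] at mv
    refine le_trans (le_of_eq ?_) ((le_abs_self _).trans mv)
    congr 3
    ring
  · have := (der m ξ hv a r).mul
      (((((hasDerivAt_id r).pow 2).sub_const 1).mul_const q).div_const (2 * β)).exp
    refine (this.congr_deriv ?_).hasDerivWithinAt
    simp only [id, Pi.pow_apply]
    generalize (m.Ex v fun y => th ξ y * sin (r * th ξ y + a)) = A
    generalize (m.Ex v fun y => cos (r * th ξ y + a)) = B
    field_simp
    ring
  · rw [norm_neg, Real.norm_eq_abs, abs_mul, abs_div, abs_of_pos hβ, abs_of_pos (exp_pos _)]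
    refine (mul_le_of_le_one_right (by positivity) (exp_le_one_iff.2 ?_)).trans
      (div_le_div_of_nonneg_right (k r) hβ.le)
    refine div_nonpos_of_nonpos_of_nonneg (mul_nonpos_of_nonpos_of_nonneg ?_ q0) (by positivity)
    nlinarith [hr.1, hr.2]

end STCx

open STCx in
theorem p_STC :
    S_STC := by
  intro ι _ m v ξ β X hv hβ hX h
  set z := m.chv v ξ - (exp (-(∑ j, ξ j ^ 2) / (2 * β)) : ℝ) with hz
  have k := real m ξ hv hβ hX h (-z.arg)
  refine le_trans (le_of_eq ?_) k
  have e1 : (‖z‖ : ℝ) = (Complex.exp ((-z.arg : ℝ) * Complex.I) * z).re := by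
    nth_rewrite 3 [← Complex.norm_mul_exp_arg_mul_I z]
    rw [mul_left_comm, ← Complex.exp_add]
    simp
  have hi : Integrable fun y : ι → ℝ => Complex.exp ((-z.arg : ℝ) * Complex.I) *
      (Complex.exp (Complex.I * (∑ j, ξ j * y j : ℝ)) * (m.den v y : ℝ)) := by
    refine Integrable.const_mul (Integrable.bdd_mul (c := 1) ?_ (Continuous.aestronglyMeasurable (by fun_prop))
      (Filter.Eventually.of_forall fun u => ?_)) _
    · simpa using (int m hv (PG.const 1)).ofReal (𝕜 := ℂ)
    · rw [mul_comm, Complex.norm_exp_ofReal_mul_I]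
  rw [e1]
  nth_rewrite 2 [hz]
  rw [mul_sub, Complex.sub_re, Complex.re_mul_ofReal, Complex.exp_ofReal_mul_I_re, Mix.chv,
    ← integral_const_mul]
  congr 1
  refine (integral_re hi).symm.trans (integral_congr_ae (Filter.Eventually.of_forall fun y => ?_))
  simp only [RCLike.re_to_complex]
  rw [← mul_assoc, ← Complex.exp_add, Complex.re_mul_ofReal, mul_comm Complex.I, ← add_mul,
    ← Complex.ofReal_add, Complex.exp_ofReal_mul_I_re, add_comm]
  rfl

end Pool.Agent.P.MP_6b977f_mp.QG
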