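import Pool.Agent.P.MP_6b977f_mp.QG.IfaceC

/-! Step SYN. -/

namespace Pool.Agent.P.MP_6b977f_mp.QG

open Finset MeasureTheory Real Matrix RG
open scoped Classical

namespace SYNx

theorem first {X : Type} (c : ℕ → X) (h : (Set.range c).Finite) :
    ∃ l : ℕ, ∀ n, ∃ k, k ≤ n ∧ k ≤ l ∧ c k = c n := by
  obtain ⟨l, hl⟩ := (h.image fun x => sInf {k | c k = x}).bddAbove
  exact ⟨l, fun n => ⟨sInf {k | c k = c n}, Nat.sInf_le rfl, hl ⟨_, ⟨n, rfl⟩, rfl⟩,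
    Nat.sInf_mem (s := {k | c k = c n}) ⟨n, rfl⟩⟩⟩

end SYNx

theorem p_SYN :
    S_SYN := by
  intro m α δ hδ
  have hπ : 0 < 2 * π := by positivity
  obtain ⟨l, hl⟩ := SYNx.first
    (fun (n : ℕ) (e : Fin m) => ⌊Int.fract (n * α e / (2 * π)) * (2 * π / δ)⌋) (by
      refine (Set.Finite.pi' fun _ : Fin m => Set.finite_Icc (0 : ℤ) ⌊2 * π / δ⌋).subset ?_
      rintro _ ⟨n, rfl⟩ e
      exact ⟨Int.floor_nonneg.2 (mul_nonneg (Int.fract_nonneg _) (by positivity)),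
        Int.floor_le_floor (mul_le_of_le_one_left (by positivity) (Int.fract_lt_one _).le)⟩)
  refine ⟨l, fun n _ => ?_⟩
  obtain ⟨k, h1, h2, h3⟩ := hl n
  refine ⟨n - k, fun e => ⌊n * α e / (2 * π)⌋ - ⌊k * α e / (2 * π)⌋, by omega, by omega, fun e => ?_⟩
  have h4 := Int.abs_sub_lt_one_of_floor_eq_floor (congrFun h3 e).symm
  have e1 : ((n - k : ℕ) : ℝ) * α e - 2 * π * ((⌊n * α e / (2 * π)⌋ - ⌊k * α e / (2 * π)⌋ : ℤ) : ℝ) =
      δ * (Int.fract (n * α e / (2 * π)) * (2 * π / δ) -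
        Int.fract (k * α e / (2 * π)) * (2 * π / δ)) := by
    rw [Nat.cast_sub h1, Int.fract, Int.fract]
    push_cast
    field_simp
    ring
  rw [e1, abs_mul, abs_of_pos hδ]
  exact mul_le_of_le_one_right hδ.le h4.le

end Pool.Agent.P.MP_6b977f_mp.QG
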