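import Pool.Agent.P.MP_6b977f_mp.QG.IfaceA

/-! Step TH. -/

namespace Pool.Agent.P.MP_6b977f_mp.QG

open Finset MeasureTheory Real Matrix RG
open scoped Classical

namespace THx

/-- the embedding of the plane -/
def em (x : Fin 2 → ℝ) : VI 3 → ℝ := fun o => o.elim 0 x

theorem norm_em (x : Fin 2 → ℝ) : ‖em x‖ ≤ ‖x‖ :=
  (pi_norm_le_iff_of_nonneg (norm_nonneg _)).2 fun o => by
    cases o with
    | none => simp [em]
    | some k => exact norm_le_pi_norm x k

theorem ker_em (v : ℝ) (y : VI 3 → ℝ) (x : Fin 2 → ℝ) :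
    ker (fun _ => v) (y - em x) =
      g1 v (y none) * ker (fun _ => v) ((fun k : Fin 2 => y (some k)) - x) := by
  rw [ker, ker, Fintype.prod_option]
  simp only [Pi.sub_apply, em, Option.elim_none, sub_zero, Option.elim_some]

theorem sc_em (q : Mix (Fin 2)) {v : ℝ} (hv : 0 < v) (y : VI 3 → ℝ) (k : Fin 2) :
    (q.map em).sc (fun _ => v) (some k) y = q.sc (fun _ => v) k fun k : Fin 2 => y (some k) := by
  have g0 : g1 v (y none) ≠ 0 := by unfold g1; positivity
  have e1 : (q.map em).den (fun _ => v) y =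
      g1 v (y none) * q.den (fun _ => v) fun k : Fin 2 => y (some k) := by
    rw [Mix.den, Mix.den, mul_sum]
    exact sum_congr rfl fun ω _ => by
      show q.p ω * ker (fun _ => v) (y - em (q.x ω)) = _
      rw [ker_em]; ring
  rw [Mix.sc, Mix.sc, Mix.po, Mix.po, e1, ← mul_div_mul_left _
    (q.den (fun _ => v) fun k : Fin 2 => y (some k)) g0, mul_sum]
  congr 1
  exact sum_congr rfl fun ω _ => by
    show q.p ω * ker (fun _ => v) (y - em (q.x ω)) * ((q.x ω k - y (some k)) / v) = _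
    rw [ker_em]; ring

end THx

theorem p_TH :
    S_TH := by
  intro L
  obtain ⟨c, c0, c1, h⟩ := kTH 3 L le_rfl
  refine ⟨c, c0, c1, fun q v β s T v1 v3 hL hT s0 hs hN =>
    h (q.map THx.em) v β s T v1 v3 (le_trans ?_ hL) hT s0 hs fun y hy k => ?_⟩
  · exact sum_le_sum fun ω _ => mul_le_mul_of_nonneg_left
      (pow_le_pow_left₀ (norm_nonneg _) (THx.norm_em _) 2) (q.p0 ω)
  · rw [THx.sc_em q (by linarith) y k]
    exact hN (fun k : Fin 2 => y (some k)) (le_trans ((pi_norm_le_iff_of_nonneg (norm_nonneg _)).2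
      fun k => norm_le_pi_norm y (some k)) hy) k

end Pool.Agent.P.MP_6b977f_mp.QG
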