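import Pool.Agent.P.MP_6b977f_mp.QG.IfaceB

/-! Step TR. -/

namespace Pool.Agent.P.MP_6b977f_mp.QG

open Finset MeasureTheory Real Matrix RG
open scoped Classical

namespace TRx

end TRx

theorem p_TR (hODE : S_ODE) :
    S_TR := by
  intro d N m c S L K W κ R ε g hL hK hb k f k1 k2 hs ⟨e1, e2, e3⟩ s t hst
  have hk : 0 < k := hK.trans_le k1
  set z : HI d N → ℝ := fun p => if p.2 = 0 then val L f (g p.1) else der L f (g p.1) / k with hz
  have z0 : ∀ e, at1 (est g z e) 0 = ![f e 0, deriv (f e) 0 / k] := fun e => by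
    funext a; fin_cases a <;> simp [at1, est, hz, val, der]
  have o := fun e => hODE (f e) k (L e) hk (e1 e).1 (e1 e).2
  have hu : ∀ e, Set.uIcc 0 (L e) = Set.Icc 0 (L e) := fun e => Set.uIcc_of_le (hL e)
  have := hb k z k1 k2 hs ⟨⟨fun v i => ⟨by simpa [hz] using (e2 v i).1, ?_⟩, fun e => ?_⟩, ?_⟩ s t hst
  · refine le_trans (le_of_eq ?_) this
    unfold dch
    congr 3
    refine sum_congr rfl fun e _ => intervalIntegral.integral_congr fun x hx => ?_
    rw [hu] at hx
    simp only [z0, ← (o e x hx).1, ← (o e x hx).2]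
  · have := (e2 v i).2
    simp only [hz, one_ne_zero, if_false, ← mul_div_assoc, ← sum_div, this, neg_div]
  · obtain ⟨a0, a1⟩ := o e (L e) ⟨hL e, le_rfl⟩
    rw [z0]
    funext a
    fin_cases a
    · simpa [at1, est, hz, val, rf, Matrix.mulVec, dotProduct, f0, mul_comm] using a0
    · simp only [f1] at a1
      simp [at1, est, hz, der, rf, Matrix.mulVec, dotProduct, neg_div, a1]
      ring
  · rw [← e3]
    refine sum_congr rfl fun e _ => intervalIntegral.integral_congr fun x hx => ?_
    rw [hu] at hx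
    simp only [z0, ← (o e x hx).1]

end Pool.Agent.P.MP_6b977f_mp.QG
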