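import Pool.Agent.P.MP_6b977f_mp.QG.IfaceB
import Pool.Agent.P.MP_6b977f_mp.RG.LibTyp

/-! Step TYP. -/

namespace Pool.Agent.P.MP_6b977f_mp.QG

open Finset MeasureTheory Real Matrix RG
open scoped Classical

namespace TYPx

theorem img {H : Type} [Fintype H] (r : ℕ) (lab : H → Fin 2 → ℤ)
    (h : ∑ x, ∑ a, lab x a ^ 2 ≤ (r : ℤ) ^ 2) : #(univ.image lab) ≤ 11 * (r + 1) := by
  have h1 := C22.card_image_le (fun x => (lab x 0, lab x 1)) r 1
    (by simpa [Fin.sum_univ_two] using h)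
  refine le_trans (card_le_card_of_injOn (fun l => (l 0, l 1)) (fun l hl => ?_)
    fun l _ l' _ e => ?_) h1
  · obtain ⟨x, -, rfl⟩ := mem_image.1 (mem_coe.1 hl)
    exact mem_coe.2 (mem_image.2 ⟨x, mem_univ _, rfl⟩)
  · funext a
    fin_cases a
    exacts [congrArg Prod.fst e, congrArg Prod.snd e]

theorem box {H : Type} [Fintype H] (r : ℕ) (lab : H → Fin 2 → ℤ)
    (h : ∑ x, ∑ a, lab x a ^ 2 ≤ (r : ℤ) ^ 2) (x : H) :
    lab x ∈ Fintype.piFinset fun _ : Fin 2 => Icc (-(r : ℤ)) r := by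
  refine Fintype.mem_piFinset.2 fun a => mem_Icc.2 (abs_le.1 ?_)
  refine abs_le_of_sq_le_sq (le_trans ?_ h) (Int.natCast_nonneg _)
  exact (single_le_sum (f := fun a => lab x a ^ 2) (fun _ _ => sq_nonneg _) (mem_univ a)).trans
    (single_le_sum (f := fun x => ∑ a, lab x a ^ 2)
      (fun _ _ => sum_nonneg fun _ _ => sq_nonneg _) (mem_univ x))

end TYPx

theorem p_TYP :
    S_TYP := by
  intro H _ R hR
  obtain ⟨r, hr1, hr2⟩ : ∃ r : ℕ, R ≤ r ∧ (r : ℝ) ≤ 2 * R :=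
    ⟨⌈R⌉₊, Nat.le_ceil R, by linarith [Nat.ceil_lt_add_one (show 0 ≤ R by linarith)]⟩
  obtain ⟨U, hU⟩ : ∃ U, U = Fintype.piFinset fun _ : Fin 2 => Icc (-(r : ℤ)) r := ⟨_, rfl⟩
  have cU : #U = (2 * r + 1) ^ 2 := by
    have h2 : ((r : ℤ) + 1 - -(r : ℤ)).toNat = 2 * r + 1 := by omega
    rw [hU, Fintype.card_piFinset, prod_const, Int.card_Icc, h2, card_univ, Fintype.card_fin]
  have hm : ((11 * (r + 1) : ℕ) : ℝ) ≤ 40 * R := by
    push_cast
    linarith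
  refine ⟨((Fintype.piFinset fun _ : H => U).filter fun lab => #(univ.image lab) ≤ 11 * (r + 1)).image
    fun lab l => #(univ.filter fun h => lab h = l), ?_, fun lab hl => ?_⟩
  · refine le_trans (Nat.cast_le.2 (C22.card_types U (11 * (r + 1)) (Fintype.card H) _
      fun c hc => ?_)) ?_
    · obtain ⟨lab, h, rfl⟩ := mem_image.1 hc
      obtain ⟨h1, h2⟩ := mem_filter.1 h
      have hs : ∀ e, #(univ.filter fun h => lab h = e) ≠ 0 → e ∈ univ.image lab := fun e he => by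
        obtain ⟨x, hx⟩ := card_pos.1 (Nat.pos_of_ne_zero he)
        exact mem_image.2 ⟨x, mem_univ _, (mem_filter.1 hx).2⟩
      refine ⟨fun e => card_le_univ _, fun e he => ?_,
        (card_le_card fun e he => hs e (mem_filter.1 he).2).trans h2⟩
      obtain ⟨x, -, rfl⟩ := mem_image.1 (hs e he)
      exact Fintype.mem_piFinset.1 h1 x
    · have n0 : (1 : ℝ) ≤ Fintype.card H + 1 := by linarith [Nat.cast_nonneg (α := ℝ) (Fintype.card H)]
      have r0 : (0 : ℝ) ≤ r := Nat.cast_nonneg _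
      have a0 : (1 : ℝ) ≤ R ^ 2 := one_le_pow₀ hR
      have a1 : ((2 : ℝ) * r + 1) ^ 2 ≤ 25 * R ^ 2 := by nlinarith
      have a2 : ((#U * (Fintype.card H + 1) + 1 : ℕ) : ℝ) ≤ 26 * R ^ 2 * (Fintype.card H + 1) := by
        rw [cU]
        push_cast
        nlinarith [mul_le_mul_of_nonneg_right a1 (zero_le_one.trans n0)]
      have a3 : (1 : ℝ) ≤ 26 * R ^ 2 * (Fintype.card H + 1) := by nlinarith
      rw [Nat.cast_pow]
      refine (pow_le_pow_left₀ (Nat.cast_nonneg _) a2 _).trans ?_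
      rw [← exp_log (zero_lt_one.trans_le a3), ← exp_nat_mul, log_exp]
      exact exp_le_exp.2 (mul_le_mul_of_nonneg_right hm (log_nonneg a3))
  · have h : ∑ x, ∑ a, lab x a ^ 2 ≤ (r : ℤ) ^ 2 := by
      have : ∑ x, ∑ a, (lab x a : ℝ) ^ 2 ≤ (r : ℝ) ^ 2 :=
        hl.trans (pow_le_pow_left₀ (by linarith) hr1 2)
      exact_mod_cast this
    refine ⟨(Nat.cast_le.2 (TYPx.img r lab h)).trans hm, mem_image.2 ⟨lab, mem_filter.2
      ⟨Fintype.mem_piFinset.2 fun x => hU ▸ TYPx.box r lab h x, TYPx.img r lab h⟩, rfl⟩⟩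

end Pool.Agent.P.MP_6b977f_mp.QG
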