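import Pool.Agent.P.MP_6b977f_mp.QG.IfaceB
import Pool.Agent.P.MP_6b977f_mp.RG.LibVol

/-! Step VOL. -/

namespace Pool.Agent.P.MP_6b977f_mp.QG

open Finset MeasureTheory Real Matrix RG
open scoped Classical

namespace VOLx

open scoped MatrixOrder in
theorem ex_sqrt {ι : Type} [Fintype ι] [DecidableEq ι] (Q : Matrix ι ι ℝ) (h1 : Q.IsHermitian)
    (h2 : ∀ z, 0 ≤ z ⬝ᵥ Q *ᵥ z) : ∃ A : Matrix ι ι ℝ, A.IsHermitian ∧ A * A = Q := by
  have h : Q.PosSemidef := Matrix.PosSemidef.of_dotProduct_mulVec_nonneg h1 fun z => by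
    simpa using h2 z
  exact ⟨CFC.sqrt Q, (CFC.sqrt_nonneg Q).posSemidef.1, CFC.sqrt_mul_sqrt_self Q h.nonneg⟩

theorem sq_eq {ι : Type} [Fintype ι] (A : Matrix ι ι ℝ) (h : A.IsHermitian) (u : ι → ℝ) :
    ∑ x, ((A *ᵥ u) x - 0 * u x) ^ 2 = u ⬝ᵥ (A * A) *ᵥ u := by
  have ht : Aᵀ = A := by
    ext i j
    simpa using h.apply i j
  rw [← Matrix.mulVec_mulVec, Matrix.dotProduct_mulVec, ← Matrix.mulVec_transpose, ht]
  simp [dotProduct, sq]

end VOLx

theorem p_VOL (hALG : S_ALG) (hPEN : S_PEN) :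
    S_VOL := by
  intro d N m c S θ g ψ δ η γ ζ z hd hN hη hδ h1 h2 hz hψ
  have : Nonempty (HI d N) := ⟨((⟨0, hN⟩, ⟨0, hd⟩), 0)⟩
  obtain ⟨a1, -, a3, -, a5⟩ := hALG d N m c S θ g
  obtain ⟨b1, -, -⟩ := hPEN d N m c S θ g
  have hQ : (S.Qm θ g).IsHermitian := by
    have e : (S.Qm θ g)ᵀ = S.Qm θ g := by
      simp only [Sys.Qm, Matrix.transpose_sub, Matrix.transpose_one, Matrix.transpose_smul,
        Matrix.transpose_add, a1, a3]
    ext i j
    simpa using congrFun (congrFun e i) j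
  obtain ⟨A, hA, hAA⟩ := VOLx.ex_sqrt (S.Qm θ g) hQ fun u => by rw [a5]; exact (b1 u).1
  have hp : ∀ u, ∑ x, ((A *ᵥ u) x - 0 * u x) ^ 2 = S.pen θ g u := fun u => by
    rw [VOLx.sq_eq A hA, hAA, a5]
  have hζ : 0 < ζ := by linarith
  have hγ : 0 < γ := by
    by_contra hc
    nlinarith [mul_nonneg (neg_nonneg.2 (not_lt.1 hc)) hζ.le]
  have hd' : (1 : ℝ) ≤ d := by exact_mod_cast hd
  have hN' : (0 : ℝ) < N := by exact_mod_cast hN
  have hc : (Fintype.card (HI d N) : ℝ) = 2 * d * N := by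
    simp only [Fintype.card_prod, Fintype.card_fin]
    push_cast
    ring
  have h22 : (√2 : ℝ) ^ 2 = 2 := sq_sqrt (by norm_num)
  obtain ⟨F, hF⟩ := C22.exists_ball_finset ψ δ (ζ ^ 2 * (2 * d * N)) hδ
  refine ⟨F, fun φ h => (hF φ).1 h, ?_⟩
  have h := C22.vol_main A hA 0 γ η δ ζ z (√2) ψ (fun u => by rw [hp, h22]; exact (b1 u).2)
    hγ hη hδ hz (by linarith) (by linarith) (by
      rw [hp, hc]
      refine hψ.trans (mul_le_mul_of_nonneg_left ?_ (sq_nonneg _))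
      nlinarith) F
    (fun φ h => (hF φ).2 (by rwa [hc] at h))
  rw [hc, ← C22.log_det_eq A hA 0 γ hγ.ne', zero_smul, sub_zero, hAA, h22] at h
  refine le_trans (le_of_eq ?_) (h.trans (le_of_eq (sum_congr rfl fun φ _ => ?_)))
  · rw [div_eq_inv_mul, ← one_div]
    congr 2
    have e : N * S.LD θ g γ = 1 / 2 * log (S.Qm θ g + γ ^ 2 • 1).det := by
      unfold Sys.LD; field_simp
    rw [← e]
    ring
  · have e : rl δ φ = δ • fun y => (φ y : ℝ) := rfl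
    rw [hp, ← a5, ← a5, e, Matrix.mulVec_smul, dotProduct_smul, smul_dotProduct]
    simp only [smul_eq_mul]
    congr 1
    ring

end Pool.Agent.P.MP_6b977f_mp.QG
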