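import Pool.Agent.P.MP_6b977f_mp.QG.IfaceC
import Pool.Agent.P.MP_6b977f_mp.QG.IfaceB

/-! Step WIN. -/

namespace Pool.Agent.P.MP_6b977f_mp.QG

open Finset MeasureTheory Real Matrix RG
open scoped Classical

namespace WINx

theorem card_or {G : Type} [Fintype G] {A B : G → Prop} {_ : DecidablePred A}
    {_ : DecidablePred B} {_ : DecidablePred fun g => A g ∨ B g} {x y : ℝ}
    (hA : (#(univ.filter A) : ℝ) ≤ x) (hB : (#(univ.filter B) : ℝ) ≤ y) :
    (#(univ.filter fun g => A g ∨ B g) : ℝ) ≤ x + y := by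
  refine le_trans ?_ (add_le_add hA hB)
  exact_mod_cast (card_le_card fun g hg => by simpa using hg).trans
    (card_union_le (univ.filter A) (univ.filter B))

theorem nr (hAVG : S_AVG) {d N m : ℕ} {L : Fin m → ℝ} (hL : ∀ e, 0 ≤ L e) {k : ℝ} (hk : 0 < k)
    (g : Glue d N m) (z : HI d N → ℝ) :
    |nrI L g z - ∑ e, sq1 k (L e) (at1 (est g z e) 0)| ≤ (∑ p, z p ^ 2) / k := by
  rw [nrI, abs_sub_comm, ← sum_sub_distrib]
  refine (abs_sum_le_sum_abs _ _).trans ((sum_le_sum fun e _ =>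
    (hAVG k (L e) 0 0 _ hk (hL e)).2).trans ?_)
  rw [← sum_div, Fintype.sum_prod_type, ← sum_est g z fun y => ∑ a, y a ^ 2]
  refine div_le_div_of_nonneg_right (sum_le_sum fun e _ => ?_) hk.le
  exact single_le_sum (f := fun i => ∑ a, at1 (est g z e) i a ^ 2)
    (fun _ _ => by positivity) (mem_univ 0)

theorem dc (hAVG : S_AVG) {d N m : ℕ} (hm : 1 ≤ m) {L : Fin m → ℝ} (hL : ∀ e, 1 ≤ L e) {k : ℝ}
    (hk : 0 < k) (s t : ℝ) (g : Glue d N m) (z : HI d N → ℝ) :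
    ‖dch L k s t g z - dcI L s t g z‖ ≤ 4 * π / k := by
  have m0 : (0 : ℝ) < m := by exact_mod_cast hm
  have h1 : (m : ℝ) ≤ ∑ e, L e := by
    simpa using sum_le_sum fun e (_ : e ∈ (univ : Finset (Fin m))) => hL e
  rw [dch, dcI, sub_sub_sub_cancel_right, ← sub_div, ← sum_sub_distrib, norm_div,
    Complex.norm_real, Real.norm_of_nonneg (by linarith), div_le_iff₀ (by linarith)]
  refine (norm_sum_le _ _).trans ((sum_le_sum fun e _ =>
    (hAVG k (L e) s t _ hk (by linarith [hL e])).1).trans ?_)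
  rw [sum_const, card_univ, Fintype.card_fin, nsmul_eq_mul, mul_comm]
  exact mul_le_mul_of_nonneg_left h1 (by positivity)

end WINx

theorem p_WIN (hNRM : S_NRM) (hCONF2 : S_CONF2) (hSMP : S_SMP) (hPEN2 : S_PEN2) (hAVG : S_AVG) (hSYN : S_SYN) (hAP : S_AP) :
    S_WIN := by
  intro d c Λ hd hc hΛ
  obtain ⟨C, hC, h1⟩ := hSMP d (by omega)
  refine ⟨5 * Λ * C, by nlinarith, fun κ R ε ε' τ hκ hε hε' hτ hΛτ => ?_⟩
  obtain ⟨e1, e0, ea, eb⟩ : ∃ e1 : ℝ, 0 < e1 ∧ e1 ≤ ε / 2 ∧ e1 ≤ ε * ε' / 16 :=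
    ⟨min _ _, by positivity, min_le_left _ _, min_le_right _ _⟩
  obtain ⟨N1, h1⟩ := h1 (5 * Λ * τ) e1 (by positivity) (by linarith) e0
  obtain ⟨N2, h2⟩ := hCONF2 d c κ Λ R e1 hd hc hκ e0
  refine ⟨N1 + N2 + 1, fun N hN m S L hL => ?_⟩
  obtain ⟨δ, hδ, h2⟩ := h2 N (by omega)
  have hm : 1 ≤ m := by
    have := S.hm
    have := Nat.mul_pos (by omega : 0 < d) (by omega : 0 < N)
    omega
  have τ1 : τ ≤ 1 := by nlinarith
  obtain ⟨l, hl⟩ := hSYN m (fun e => τ * L e) (min δ (Λ * τ)) (by positivity)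
  obtain ⟨j0, hj0⟩ := exists_nat_ge ((2 + 4 * Λ * d * N + 8 * π / ε) / τ)
  rw [div_le_iff₀ hτ] at hj0
  have key := hAP (Glue d N m) (fun g j => S.BW L κ R ε τ g j ∨
      S.SM (fun e => (j + 1) * τ * L e) (8 * Λ ^ 2 * τ ^ 2) (5 * Λ * C * τ * N) g)
    (fun g j => (∃ (x : ℝ) (θ : Fin m → ℝ) (z : HI d N → ℝ) (s t : ℝ),
      j * τ ≤ x ∧ x ≤ j * τ + 1 ∧ (∀ e, |θ e - x * L e| ≤ δ) ∧ κ * m ≤ ∑ e, sin (θ e) ^ 2 ∧
        S.Sol θ g z ∧ |nrI L g z - ∑ e, L e| ≤ 1 ∧ |s| + |t| ≤ R ∧ e1 < ‖dcI L s t g z‖) ∨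
      S.SM (fun e => (j + 1) * τ * L e) ((5 * Λ * τ) ^ 2) (C * (5 * Λ * τ) * N) g)
    (fun s => ∃ p : Fin m → ℤ, ∀ e, |s * (τ * L e) - 2 * π * p e| ≤ min δ (Λ * τ)) l j0
    (2 * e1) ε' hε' (fun n hn => ?_) (fun g j s hj ⟨p, hp⟩ hb => ?_) fun j => ?_
  · refine le_of_mul_le_mul_left ?_ hε'
    convert key.trans (_ : _ ≤ ε' * (ε * Fintype.card (Glue d N m)))
    rw [← mul_assoc ε']
    exact mul_le_mul_of_nonneg_right (by linarith) (Nat.cast_nonneg _)
  · obtain ⟨s, p, a1, a2, a3⟩ := hl n hn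
    exact ⟨s, ⟨p, a3⟩, a1, a2⟩
  · rcases hb with ⟨k, z, s', t', a1, a2, a3, a4, a5, a6⟩ | ⟨V, a1, a2⟩
    · have b0 : (j0 : ℝ) * τ ≤ k :=
        (mul_le_mul_of_nonneg_right (by exact_mod_cast hj) hτ.le).trans a1
      have b1 : (0 : ℝ) ≤ 4 * Λ * d * N := by positivity
      have b2 : 0 ≤ 8 * π / ε := by positivity
      have k0 : 0 < k := by linarith
      refine Or.inl ⟨k + s * τ, fun e => k * L e + 2 * π * p e, z, s', t', by push_cast; linarith,
        by push_cast; linarith, fun e => ?_, ?_,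
        (hPEN2 d N m c S _ (fun _ => 0) p g z 0).1 a4.1, ?_, a5, ?_⟩
      · rw [abs_sub_comm]
        refine le_trans (le_of_eq ?_) ((hp e).trans (min_le_left _ _))
        congr 1
        ring
      · simpa only [mul_comm (2 * π), sin_add_int_mul_two_pi] using a3
      · rw [← a4.2]
        refine (WINx.nr hAVG (fun e => by linarith [(hL e).1]) k0 g z).trans ?_
        rw [div_le_one k0]
        exact (hNRM d N m c S L k Λ g z hL (by linarith) (by linarith) a4).trans (by linarith)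
      · have b3 := WINx.dc hAVG hm (fun e => (hL e).1) k0 s' t' g z
        have b4 : 4 * π / k ≤ ε / 2 := by
          have : 8 * π ≤ k * ε := (div_le_iff₀ hε).1 (by linarith)
          rw [div_le_iff₀ k0]
          linarith
        linarith [norm_sub_norm_le (dch L k s' t' g z) (dcI L s' t' g z)]
    · refine Or.inr ⟨V, le_trans (le_of_eq (by ring)) a1, fun z hz => ?_⟩
      refine ((hPEN2 d N m c S (fun e => (j + 1) * τ * L e) _ p g z (Λ * τ)).2 fun e => ?_).trans ?_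
      · refine le_trans (le_of_eq ?_) ((hp e).trans (min_le_right _ _))
        congr 1
        push_cast
        ring
      · have : 0 ≤ (Λ * τ) ^ 2 * ∑ q, z q ^ 2 := by positivity
        linarith [a2 z hz]
  · exact (WINx.card_or (h2 m S L (j * τ) hL) (h1 N (by omega) m c S _)).trans_eq (by ring)

end Pool.Agent.P.MP_6b977f_mp.QG
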