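import Pool.Agent.P.MP_6b977f_mp.QG.TODE
import Pool.Agent.P.MP_6b977f_mp.QG.TTR
import Pool.Agent.P.MP_6b977f_mp.QG.TKM
import Pool.Agent.P.MP_6b977f_mp.QG.TNRM
import Pool.Agent.P.MP_6b977f_mp.QG.TALG
import Pool.Agent.P.MP_6b977f_mp.QG.TEIG1
import Pool.Agent.P.MP_6b977f_mp.QG.TEIG2
import Pool.Agent.P.MP_6b977f_mp.QG.TJEN
import Pool.Agent.P.MP_6b977f_mp.QG.TEP
import Pool.Agent.P.MP_6b977f_mp.QG.TAV
import Pool.Agent.P.MP_6b977f_mp.QG.TFD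
import Pool.Agent.P.MP_6b977f_mp.QG.TINF
import Pool.Agent.P.MP_6b977f_mp.QG.TROT
import Pool.Agent.P.MP_6b977f_mp.QG.TLAT1
import Pool.Agent.P.MP_6b977f_mp.QG.TLAT2
import Pool.Agent.P.MP_6b977f_mp.QG.TLM
import Pool.Agent.P.MP_6b977f_mp.QG.TAN
import Pool.Agent.P.MP_6b977f_mp.QG.TGN
import Pool.Agent.P.MP_6b977f_mp.QG.TCNT
import Pool.Agent.P.MP_6b977f_mp.QG.TTYP
import Pool.Agent.P.MP_6b977f_mp.QG.TFM
import Pool.Agent.P.MP_6b977f_mp.QG.TPEN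
import Pool.Agent.P.MP_6b977f_mp.QG.TVOL
import Pool.Agent.P.MP_6b977f_mp.QG.TKEY
import Pool.Agent.P.MP_6b977f_mp.QG.TLOW
import Pool.Agent.P.MP_6b977f_mp.QG.TDET
import Pool.Agent.P.MP_6b977f_mp.QG.TFIB
import Pool.Agent.P.MP_6b977f_mp.QG.TMASS
import Pool.Agent.P.MP_6b977f_mp.QG.TNB
import Pool.Agent.P.MP_6b977f_mp.QG.TNRM2
import Pool.Agent.P.MP_6b977f_mp.QG.TDROP
import Pool.Agent.P.MP_6b977f_mp.QG.TLOC
import Pool.Agent.P.MP_6b977f_mp.QG.TINC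
import Pool.Agent.P.MP_6b977f_mp.QG.TAFF
import Pool.Agent.P.MP_6b977f_mp.QG.TISO
import Pool.Agent.P.MP_6b977f_mp.QG.TNL
import Pool.Agent.P.MP_6b977f_mp.QG.TLNL
import Pool.Agent.P.MP_6b977f_mp.QG.TTH
import Pool.Agent.P.MP_6b977f_mp.QG.TTAIL
import Pool.Agent.P.MP_6b977f_mp.QG.TAN1
import Pool.Agent.P.MP_6b977f_mp.QG.TCORE
import Pool.Agent.P.MP_6b977f_mp.QG.TCA
import Pool.Agent.P.MP_6b977f_mp.QG.TL2
import Pool.Agent.P.MP_6b977f_mp.QG.TRES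
import Pool.Agent.P.MP_6b977f_mp.QG.TSTC
import Pool.Agent.P.MP_6b977f_mp.QG.TST2
import Pool.Agent.P.MP_6b977f_mp.QG.TEDG
import Pool.Agent.P.MP_6b977f_mp.QG.TAN3
import Pool.Agent.P.MP_6b977f_mp.QG.TAN2
import Pool.Agent.P.MP_6b977f_mp.QG.TCH
import Pool.Agent.P.MP_6b977f_mp.QG.TCB2
import Pool.Agent.P.MP_6b977f_mp.QG.TNET2
import Pool.Agent.P.MP_6b977f_mp.QG.TCONF2
import Pool.Agent.P.MP_6b977f_mp.QG.TDET2
import Pool.Agent.P.MP_6b977f_mp.QG.TCNTQ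
import Pool.Agent.P.MP_6b977f_mp.QG.TSMP
import Pool.Agent.P.MP_6b977f_mp.QG.TPEN2
import Pool.Agent.P.MP_6b977f_mp.QG.TAVG
import Pool.Agent.P.MP_6b977f_mp.QG.TSYN
import Pool.Agent.P.MP_6b977f_mp.QG.TAP
import Pool.Agent.P.MP_6b977f_mp.QG.TWIN
import Pool.Agent.P.MP_6b977f_mp.QG.TDUH
import Pool.Agent.P.MP_6b977f_mp.QG.TDIM
import Pool.Agent.P.MP_6b977f_mp.QG.TRESO
import Pool.Agent.P.MP_6b977f_mp.QG.THIGH

/-! All steps put together. -/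

namespace Pool.Agent.P.MP_6b977f_mp.QG

theorem a_ODE : S_ODE := p_ODE

theorem a_TR : S_TR := p_TR a_ODE

theorem a_KM : S_KM := p_KM

theorem a_NRM : S_NRM := p_NRM a_KM

theorem a_ALG : S_ALG := p_ALG

theorem a_EIG1 : S_EIG1 := p_EIG1 a_ALG

theorem a_EIG2 : S_EIG2 := p_EIG2 a_ALG

theorem a_JEN : S_JEN := p_JEN

theorem a_EP : S_EP := p_EP

theorem a_AV : S_AV := p_AV a_EP

theorem a_FD : S_FD := p_FD a_AV

theorem a_INF : S_INF := p_INF a_FD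

theorem a_ROT : S_ROT := p_ROT

theorem a_LAT1 : S_LAT1 := p_LAT1

theorem a_LAT2 : S_LAT2 := p_LAT2

theorem a_LM : S_LM := p_LM

theorem a_AN : S_AN := p_AN a_FD a_INF a_ROT a_LAT1 a_LAT2 a_LM

theorem a_GN : S_GN := p_GN

theorem a_CNT : S_CNT := p_CNT

theorem a_TYP : S_TYP := p_TYP

theorem a_FM : S_FM := p_FM a_GN a_CNT a_TYP

theorem a_PEN : S_PEN := p_PEN

theorem a_VOL : S_VOL := p_VOL a_ALG a_PEN

theorem a_KEY : S_KEY := p_KEY a_FM a_VOL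

theorem a_LOW : S_LOW := p_LOW a_AN a_KEY

theorem a_DET : S_DET := p_DET a_EIG1 a_EIG2 a_JEN a_LOW

theorem a_FIB : S_FIB := p_FIB

theorem a_MASS : S_MASS := p_MASS

theorem a_NB : S_NB := p_NB

theorem a_NRM2 : S_NRM2 := p_NRM2

theorem a_DROP : S_DROP := p_DROP a_EP

theorem a_LOC : S_LOC := p_LOC a_DROP

theorem a_INC : S_INC := p_INC

theorem a_AFF : S_AFF := p_AFF

theorem a_ISO : S_ISO := p_ISO

theorem a_NL : S_NL := p_NL a_LOC a_INC a_AFF a_ISO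

theorem a_LNL : S_LNL := p_LNL a_FD a_LM a_AN a_NL

theorem a_TH : S_TH := p_TH

theorem a_TAIL : S_TAIL := p_TAIL

theorem a_AN1 : S_AN1 := p_AN1 a_LM a_LNL a_TH a_TAIL

theorem a_CORE : S_CORE := p_CORE a_PEN a_KEY

theorem a_CA : S_CA := p_CA a_AN1 a_PEN a_CORE

theorem a_L2 : S_L2 := p_L2

theorem a_RES : S_RES := p_RES a_AV

theorem a_STC : S_STC := p_STC

theorem a_ST2 : S_ST2 := p_ST2

theorem a_EDG : S_EDG := p_EDG a_STC a_ST2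

theorem a_AN3 : S_AN3 := p_AN3 a_LM a_LNL a_TH a_L2 a_RES a_EDG

theorem a_AN2 : S_AN2 := p_AN2 a_AN3

theorem a_CH : S_CH := p_CH

theorem a_CB2 : S_CB2 := p_CB2 a_AN2 a_PEN a_CORE a_CH

theorem a_NET2 : S_NET2 := p_NET2 a_CH

theorem a_CONF2 : S_CONF2 := p_CONF2 a_DET a_FIB a_MASS a_NB a_NRM2 a_CA a_CB2 a_NET2

theorem a_DET2 : S_DET2 := p_DET2 a_EIG1 a_EIG2 a_JEN a_LOW

theorem a_CNTQ : S_CNTQ := p_CNTQ

theorem a_SMP : S_SMP := p_SMP a_ALG a_PEN a_LOW a_DET2 a_CNTQ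

theorem a_PEN2 : S_PEN2 := p_PEN2

theorem a_AVG : S_AVG := p_AVG

theorem a_SYN : S_SYN := p_SYN

theorem a_AP : S_AP := p_AP

theorem a_WIN : S_WIN := p_WIN a_NRM a_CONF2 a_SMP a_PEN2 a_AVG a_SYN a_AP

theorem a_DUH : S_DUH := p_DUH

theorem a_DIM : S_DIM := p_DIM a_DUH

theorem a_RESO : S_RESO := p_RESO

theorem a_HIGH : S_HIGH := p_HIGH a_TR a_WIN a_DIM a_RESO

end Pool.Agent.P.MP_6b977f_mp.QG
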