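import Pool.Agent.P.MP_6b977f_mp.QG.IfaceD

/-! Step BS. -/

namespace Pool.Agent.P.MP_6b977f_mp.QG

open Finset MeasureTheory Real Matrix RG
open scoped Classical

namespace BSx

theorem c1 {w : ℝ → ℝ} (hw : ContDiff ℝ 2 w) : ContDiff ℝ 1 (deriv w) :=
  ContDiff.deriv' (n := 1) hw

theorem ibp {l k : ℝ} {u w : ℝ → ℝ} (hl : 0 ≤ l) (hu : ContDiff ℝ 1 u) (hw : ContDiff ℝ 2 w)
    (h : ∀ x ∈ Set.Icc 0 l, deriv (deriv w) x = -k ^ 2 * w x) :
    ∫ x in (0 : ℝ)..l, deriv u x * deriv w x =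
      k ^ 2 * (∫ x in (0 : ℝ)..l, u x * w x) - (u 0 * deriv w 0 + u l * -deriv w l) := by
  have h1 := intervalIntegral.integral_mul_deriv_eq_deriv_mul (a := 0) (b := l) (u := u)
    (v := deriv w) (u' := deriv u) (v' := fun x => -k ^ 2 * w x)
    (fun x _ => (hu.differentiable one_ne_zero x).hasDerivAt)
    (fun x hx => by
      rw [← h x (by rwa [Set.uIcc_of_le hl] at hx)]
      exact ((c1 hw).differentiable one_ne_zero x).hasDerivAt)
    ((hu.continuous_deriv le_rfl).intervalIntegrable _ _)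
    ((continuous_const.mul hw.continuous).intervalIntegrable _ _)
  simp only [mul_left_comm _ (-k ^ 2), intervalIntegral.integral_const_mul] at h1
  linarith

theorem ipd {d N m : ℕ} {σ : Fin N → Matrix (Fin d) (Fin d) ℝ} {L : Fin m → ℝ} {g : Glue d N m}
    {k : ℝ} {u f : Fin m → ℝ → ℝ} (hL : ∀ e, 0 < L e) (hu : ∀ e, ContDiff ℝ 1 (u e))
    (hf : Eigen σ L g k f) :
    ip L (fun e => deriv (u e)) (fun e => deriv (f e)) =
      k ^ 2 * ip L u f - ∑ a, val L u a * der L f a := by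
  simp only [ip, fun e => ibp (hL e).le (hu e) (hf.1 e).1 (hf.1 e).2, sum_sub_distrib, ← mul_sum]
  rw [Fintype.sum_prod_type]
  simp [val, der]

theorem bd {d N m : ℕ} {σ : Fin N → Matrix (Fin d) (Fin d) ℝ} {L : Fin m → ℝ} {g : Glue d N m}
    {k k' : ℝ} {u f : Fin m → ℝ → ℝ} (hσ : ∀ v, (σ v).IsSymm) (hu : Eigen σ L g k' u)
    (hf : Eigen σ L g k f) : ∑ a, val L u a * der L f a = 0 := by
  rw [← Equiv.sum_comp g, Fintype.sum_prod_type]
  refine sum_eq_zero fun v _ => ?_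
  have h1 : ∑ i, (∑ j, σ v i j * val L u (g (v, j))) * der L f (g (v, i)) =
      ∑ j, val L u (g (v, j)) * ∑ i, σ v j i * der L f (g (v, i)) := by
    simp only [sum_mul, mul_sum]
    rw [sum_comm]
    exact sum_congr rfl fun j _ => sum_congr rfl fun i _ => by rw [(hσ v).apply i j]; ring
  simp only [fun i => (hu.2.1 v i).1, fun i => (hf.2.1 v i).2, mul_neg, sum_neg_distrib] at h1
  linarith

theorem one {l : ℝ} (hl : 0 ≤ l) (s : Finset ℕ) (a : ℕ → ℝ) {H : ℝ → ℝ} {φ : ℕ → ℝ → ℝ}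
    (hH : Continuous H) (hφ : ∀ n, Continuous (φ n)) :
    ∑ n ∈ s, 2 * a n * ∫ x in (0 : ℝ)..l, H x * φ n x ≤ (∫ x in (0 : ℝ)..l, H x * H x) +
      ∑ i ∈ s, ∑ j ∈ s, a i * a j * ∫ x in (0 : ℝ)..l, φ i x * φ j x := by
  have e : ∀ i, ∑ j ∈ s, a i * a j * ∫ x in (0 : ℝ)..l, φ i x * φ j x =
      ∫ x in (0 : ℝ)..l, ∑ j ∈ s, a i * a j * (φ i x * φ j x) := fun i => by
    rw [intervalIntegral.integral_finsetSum fun j _ => Continuous.intervalIntegrable
      (by fun_prop) _ _]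
    simp only [intervalIntegral.integral_const_mul]
  simp only [e]
  simp only [← intervalIntegral.integral_const_mul]
  rw [← intervalIntegral.integral_finsetSum fun j _ => Continuous.intervalIntegrable
      (by fun_prop) _ _, ← intervalIntegral.integral_finsetSum fun j _ =>
      Continuous.intervalIntegrable (by fun_prop) _ _,
    ← intervalIntegral.integral_add (Continuous.intervalIntegrable (by fun_prop) _ _)
      (Continuous.intervalIntegrable (by fun_prop) _ _)]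
  refine intervalIntegral.integral_mono_on hl (Continuous.intervalIntegrable (by fun_prop) _ _)
    (Continuous.intervalIntegrable (by fun_prop) _ _) fun x _ => ?_
  have h1 : ∑ i ∈ s, ∑ j ∈ s, a i * a j * (φ i x * φ j x) =
      (∑ i ∈ s, a i * φ i x) * ∑ i ∈ s, a i * φ i x := by
    rw [sum_mul_sum]
    exact sum_congr rfl fun _ _ => sum_congr rfl fun _ _ => by ring
  have h2 : ∑ n ∈ s, 2 * a n * (H x * φ n x) = 2 * H x * ∑ i ∈ s, a i * φ i x := by
    rw [mul_sum]
    exact sum_congr rfl fun _ _ => by ring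
  rw [h1, h2]
  nlinarith [sq_nonneg (H x - ∑ i ∈ s, a i * φ i x)]

theorem all {m : ℕ} {L : Fin m → ℝ} (hL : ∀ e, 0 < L e) (s : Finset ℕ) (a : ℕ → ℝ)
    {H : Fin m → ℝ → ℝ} {φ : ℕ → Fin m → ℝ → ℝ} (hH : ∀ e, Continuous (H e))
    (hφ : ∀ n e, Continuous (φ n e)) :
    ∑ n ∈ s, 2 * a n * ip L H (φ n) ≤
      ip L H H + ∑ i ∈ s, ∑ j ∈ s, a i * a j * ip L (φ i) (φ j) := by
  have := sum_le_sum (s := univ) fun e _ => one (hL e).le s a (hH e) fun n => hφ n e
  rw [sum_add_distrib, sum_comm, sum_comm (s := univ)] at this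
  simp only [sum_comm (s := (univ : Finset (Fin m))), ← mul_sum] at this
  exact this

end BSx

open BSx in
theorem p_BS :
    S_BS := by
  intro d N m c S L g k f h s hm hL hf ho hh
  have hG : 0 < ∑ e, L e := sum_pos (fun e _ => hL e) ⟨⟨0, hm⟩, mem_univ _⟩
  have h1 : ∀ n, ip L (fun e => deriv (h e)) (fun e => deriv (f n e)) = k n ^ 2 * ip L h (f n) :=
    fun n => by
      rw [ipd hL (fun e => (hh e).1) (hf n), sum_eq_zero, sub_zero]
      intro a _
      rw [val, (hh _).2.1, (hh _).2.2, ite_self, zero_mul]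
  have h2 : ∀ i j, ip L (fun e => deriv (f i e)) (fun e => deriv (f j e)) =
      if i = j then k j ^ 2 * ∑ e, L e else 0 := fun i j => by
    rw [ipd hL (fun e => ((hf i).1 e).1.of_le one_le_two) (hf j),
      bd (fun v => (S.hσ v).1) (hf i) (hf j), sub_zero]
    split_ifs with e
    · rw [e, ← (hf j).2.2]
      simp only [ip, sq]
    · rw [ho i j e, mul_zero]
  have h3 := all hL s (fun n => ip L h (f n) / ∑ e, L e) (H := fun e => deriv (h e))
    (φ := fun n e => deriv (f n e)) (fun e => (hh e).1.continuous_deriv le_rfl)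
    fun n e => (c1 ((hf n).1 e).1).continuous
  simp only [h1, h2, mul_ite, mul_zero, sum_ite_eq] at h3
  rw [← sub_le_iff_le_add, ← sum_sub_distrib] at h3
  refine le_trans (le_of_eq (sum_congr rfl fun n hn => ?_)) h3
  rw [if_pos hn]
  field_simp
  ring

end Pool.Agent.P.MP_6b977f_mp.QG
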