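import Pool.Agent.P.MP_6b977f_mp.QG.IfaceD

/-! Step COP. -/

namespace Pool.Agent.P.MP_6b977f_mp.QG

open Finset MeasureTheory Real Matrix RG
open scoped Classical

namespace COPx

variable {α ι : Type} [MeasurableSpace α] {μ : Measure α}

theorem inner_toLp {f g : α → ℝ} (hf : MemLp f 2 μ) (hg : MemLp g 2 μ) :
    inner ℝ (hf.toLp f) (hg.toLp g) = ∫ z, f z * g z ∂μ := by
  rw [L2.inner_def]
  refine integral_congr_ae ?_
  filter_upwards [hf.coeFn_toLp, hg.coeFn_toLp] with z h1 h2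
  rw [h1, h2]
  simp [mul_comm]

theorem basis [DecidableEq ι] (e : ι → α → ℝ) (he : ∀ i, MemLp (e i) 2 μ)
    (ho : ∀ i j, ∫ z, e i z * e j z ∂μ = if i = j then 1 else 0)
    (hc : ∀ f, MemLp f 2 μ → (∀ i, ∫ z, f z * e i z ∂μ = 0) → f =ᵐ[μ] 0) :
    ∃ b : HilbertBasis ι ℝ (Lp ℝ 2 μ), ∀ i, b i = (he i).toLp (e i) := by
  have h1 : Orthonormal ℝ fun i => (he i).toLp (e i) := by
    rw [orthonormal_iff_ite]
    intro i j
    rw [inner_toLp, ho]
  have h2 : (Submodule.span ℝ (Set.range fun i => (he i).toLp (e i)))ᗮ = ⊥ := by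
    rw [Submodule.eq_bot_iff]
    intro F hF
    have : ∀ i, ∫ z, F z * e i z ∂μ = 0 := fun i => by
      have := (Submodule.mem_orthogonal' _ _).1 hF _ (Submodule.subset_span ⟨i, rfl⟩)
      rwa [← Lp.toLp_coeFn F (Lp.memLp F), inner_toLp] at this
    exact Lp.ext ((hc F (Lp.memLp F) this).trans (Lp.coeFn_zero ..).symm)
  exact ⟨HilbertBasis.mkOfOrthogonalEqBot h1 h2, fun i => by
    rw [HilbertBasis.coe_mkOfOrthogonalEqBot]⟩

theorem mem_cs (l : ℝ) (n : ℕ) : MemLp (cs l n) 2 (volume.restrict (Set.Ioo 0 l)) :=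
  MemLp.of_bound (Continuous.aestronglyMeasurable (by unfold cs; fun_prop))
    √((if n = 0 then 1 else 2) / l) (ae_of_all _ fun x => by
      rw [cs, norm_mul, Real.norm_of_nonneg (sqrt_nonneg _)]
      exact mul_le_of_le_one_right (sqrt_nonneg _) (abs_cos_le_one _))

end COPx

open COPx in
theorem p_COP (hCOS : S_COS) :
    S_COP := by
  intro l h h' hl m m'
  obtain ⟨h1, h2⟩ := hCOS l hl
  simp only [intervalIntegral.integral_of_le hl.le, integral_Ioc_eq_integral_Ioo] at h1 h2 ⊢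
  obtain ⟨b, hb⟩ := basis (cs l) (mem_cs l) h2 h1
  simpa only [hb, inner_toLp, mul_comm (cs l _ _)] using
    b.hasSum_inner_mul_inner (m.toLp h) (m'.toLp h')

end Pool.Agent.P.MP_6b977f_mp.QG
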