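import Pool.Agent.P.MP_6b977f_mp.QG.IfaceD

/-! Step COS. -/

namespace Pool.Agent.P.MP_6b977f_mp.QG

open Finset MeasureTheory Real Matrix RG
open scoped Classical

namespace COSx

lemma cos_mul (a b : ℕ) (x : ℝ) :
    cos (a * x) * cos (b * x) = (cos (Nat.dist a b * x) + cos ((a + b : ℕ) * x)) / 2 := by
  have h : cos (Nat.dist a b * x) = cos (a * x - b * x) := by
    rcases le_total a b with h | h
    · rw [Nat.dist_eq_sub_of_le h, Nat.cast_sub h, ← cos_neg, sub_mul, neg_sub]
    · rw [Nat.dist_eq_sub_of_le_right h, Nat.cast_sub h, sub_mul]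
  rw [h, Nat.cast_add, add_mul, cos_add, cos_sub]; ring

/-- a cosine -/
noncomputable def cc (t : ℝ) (n : ℕ) (x : ℝ) : ℝ := cos (n * (t * x))

/-- the span of the cosines -/
def V (t : ℝ) : Submodule ℝ (ℝ → ℝ) := Submodule.span ℝ (Set.range (cc t))

lemma cc_mem (t : ℝ) (a : ℕ) : cc t a ∈ V t := Submodule.subset_span ⟨a, rfl⟩

lemma V_of {t : ℝ} {v w : ℝ → ℝ} (h : v ∈ V t) (e : ∀ z, w z = v z) : w ∈ V t := funext e ▸ h

lemma V_mul (t : ℝ) : V t * V t ≤ V t := by
  rw [V, Submodule.span_mul_span, Submodule.span_le]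
  rintro _ ⟨_, ⟨a, rfl⟩, _, ⟨b, rfl⟩, rfl⟩
  have : cc t a * cc t b = (1 / 2 : ℝ) • (cc t (Nat.dist a b) + cc t (a + b)) := by
    funext z
    simp only [cc, Pi.mul_apply, Pi.smul_apply, Pi.add_apply, smul_eq_mul]
    rw [cos_mul]; ring
  change cc t a * cc t b ∈ V t
  rw [this]
  exact (V t).smul_mem _ (add_mem (cc_mem _ _) (cc_mem _ _))

lemma poly_mem (t : ℝ) (p : Polynomial ℝ) : (fun x => p.eval (cos (t * x))) ∈ V t := by
  induction p using Polynomial.induction_on with
  | C a => exact V_of ((V t).smul_mem a (cc_mem t 0)) fun z => by simp [cc]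
  | add p q hp hq => exact V_of ((V t).add_mem hp hq) fun z => by simp
  | monomial n a h =>
    exact V_of (V_mul t (Submodule.mul_mem_mul h (cc_mem t 1))) fun z => by
      simp [cc, pow_succ, mul_assoc]

lemma approx {l : ℝ} (hl : 0 < l) (g : ℝ → ℝ) (hg : Continuous g) (ε : ℝ) (hε : 0 < ε) :
    ∃ v ∈ V (π / l), ∀ z ∈ Set.Ioo 0 l, ‖v z - g z‖ < ε := by
  obtain ⟨p, hp⟩ := exists_polynomial_near_of_continuousOn (-1) 1
    (fun y => g (l / π * arccos y)) (Continuous.continuousOn (by fun_prop)) ε hε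
  refine ⟨_, poly_mem _ p, fun z hz => ?_⟩
  have h := hp _ (cos_mem_Icc (π / l * z))
  have h1 : π / l * z ≤ π := by
    rw [div_mul_eq_mul_div, div_le_iff₀ hl]
    exact mul_le_mul_of_nonneg_left hz.2.le pi_pos.le
  have h2 : l / π * (π / l * z) = z := by field_simp
  rwa [arccos_cos (mul_nonneg (div_pos pi_pos hl).le hz.1.le) h1, h2] at h

lemma c0 {l : ℝ} (hl : 0 < l) (m : ℕ) :
    ∫ x in (0 : ℝ)..l, cos (m * (π / l * x)) = if m = 0 then l else 0 := by
  split_ifs with h
  · simp [h]
  · have h1 : (m : ℝ) * (π / l) ≠ 0 := mul_ne_zero (Nat.cast_ne_zero.2 h) (div_pos pi_pos hl).ne'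
    have h2 : (m : ℝ) * (π / l) * l = m * π := by field_simp
    simp only [← mul_assoc]
    rw [intervalIntegral.integral_comp_mul_left _ h1, integral_cos, h2]
    simp

lemma cs_eq (l : ℝ) (n : ℕ) (x : ℝ) :
    cs l n x = √((if n = 0 then 1 else 2) / l) * cos (n * (π / l * x)) := by
  rw [cs, mul_div_assoc, mul_assoc]

end COSx

open COSx in
theorem p_COS :
    S_COS := by
  intro l hl
  refine ⟨fun f hf h0 => ?_, fun i j => ?_⟩
  · have : IsFiniteMeasure (volume.restrict (Set.Ioo (0 : ℝ) l)) :=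
      isFiniteMeasure_restrict.2 measure_Ioo_lt_top.ne
    have hi : Integrable f (volume.restrict (Set.Ioo 0 l)) := hf.integrable one_le_two
    have hV : ∀ v ∈ V (π / l), Integrable (fun z => v z * f z) (volume.restrict (Set.Ioo 0 l)) ∧
        ∫ z in Set.Ioo 0 l, v z * f z = 0 := fun v hv => by
      induction hv using Submodule.span_induction with
      | mem v hv =>
        obtain ⟨a, rfl⟩ := hv
        refine ⟨hi.bdd_mul (c := 1) (Continuous.aestronglyMeasurable (by unfold cc; fun_prop))
          (.of_forall fun z => abs_cos_le_one _), ?_⟩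
        have h1 := h0 a
        have h2 : 0 < √((if a = 0 then 1 else 2) / l) :=
          sqrt_pos.2 (div_pos (by split_ifs <;> norm_num) hl)
        simp only [cs_eq, mul_left_comm (f _)] at h1
        rw [intervalIntegral.integral_const_mul, intervalIntegral.integral_of_le hl.le,
          integral_Ioc_eq_integral_Ioo] at h1
        simpa only [cc, mul_comm] using (mul_eq_zero.1 h1).resolve_left h2.ne'
      | zero => simp
      | add v w _ _ hv hw =>
        simp only [Pi.add_apply, add_mul]
        exact ⟨hv.1.add hw.1, by rw [integral_add hv.1 hw.1, hv.2, hw.2, add_zero]⟩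
      | smul r v _ hv =>
        simp only [Pi.smul_apply, smul_eq_mul, mul_assoc]
        exact ⟨hv.1.const_mul r, by rw [integral_const_mul, hv.2, mul_zero]⟩
    refine ae_eq_zero_of_integral_contDiff_smul_eq_zero hi.locallyIntegrable fun g hg hs => ?_
    obtain ⟨C, hC⟩ := hg.continuous.bounded_above_of_compact_support hs
    have hgi : Integrable (fun z => g z * f z) (volume.restrict (Set.Ioo 0 l)) :=
      hi.bdd_mul hg.continuous.aestronglyMeasurable (.of_forall hC)
    have hI : 0 ≤ ∫ z in Set.Ioo 0 l, ‖f z‖ := integral_nonneg fun _ => norm_nonneg _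
    refine norm_le_zero_iff.1 (le_of_forall_pos_le_add fun ε hε => ?_)
    obtain ⟨v, hv, hvg⟩ := approx hl g hg.continuous (ε / ((∫ z in Set.Ioo 0 l, ‖f z‖) + 1))
      (by positivity)
    have e : ∫ z in Set.Ioo 0 l, g z • f z = ∫ z in Set.Ioo 0 l, (g z - v z) * f z := by
      simp only [sub_mul, smul_eq_mul]
      rw [integral_sub hgi (hV v hv).1, (hV v hv).2, sub_zero]
    rw [e, zero_add]
    refine (norm_integral_le_of_norm_le
      (hi.norm.const_mul (ε / ((∫ z in Set.Ioo 0 l, ‖f z‖) + 1)))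
      ((ae_restrict_iff' measurableSet_Ioo).2 (.of_forall fun z hz => ?_))).trans ?_
    · rw [norm_mul, norm_sub_rev]
      exact mul_le_mul_of_nonneg_right (hvg z hz).le (norm_nonneg _)
    · rw [integral_const_mul, div_mul_eq_mul_div, div_le_iff₀ (by positivity)]
      nlinarith
  · have h : ∀ x, cs l i x * cs l j x =
        √((if i = 0 then 1 else 2) / l) * √((if j = 0 then 1 else 2) / l) / 2 *
          (cos (Nat.dist i j * (π / l * x)) + cos ((i + j : ℕ) * (π / l * x))) := fun x => by
      rw [cs_eq, cs_eq, mul_mul_mul_comm, cos_mul]; ring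
    simp only [h]
    rw [intervalIntegral.integral_const_mul, intervalIntegral.integral_add
      (Continuous.intervalIntegrable (by fun_prop) _ _)
      (Continuous.intervalIntegrable (by fun_prop) _ _), c0 hl, c0 hl]
    by_cases g : i = j
    · subst g
      rw [mul_self_sqrt (div_nonneg (by split_ifs <;> norm_num) hl.le), Nat.dist_self, if_pos rfl,
        if_pos rfl, if_congr (show i + i = 0 ↔ i = 0 by omega) rfl rfl]
      split_ifs <;> field_simp <;> ring
    · rw [if_neg g, if_neg fun e => g (Nat.eq_of_dist_eq_zero e), if_neg (show ¬ i + j = 0 by omega)]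
      ring

end Pool.Agent.P.MP_6b977f_mp.QG
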