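import Pool.Agent.P.MP_6b977f_mp.QG.Defs

/-! The high energy form of the random wave model on a fixed quantum graph. -/

namespace Pool.Agent.P.MP_6b977f_mp.QG

open Finset

/-- for all large `T`, every orthogonal family of normalised eigenfunctions with frequency at most
`T` that are not close to the wave has at most `ε |G| T` members -/
def Few {d N m : ℕ} (σ : Fin N → Matrix (Fin d) (Fin d) ℝ) (L : Fin m → ℝ) (R ε : ℝ)
    (g : Glue d N m) : Prop :=
  ∃ T0 : ℝ, ∀ T : ℝ, T0 ≤ T → ∀ (n : ℕ) (k : Fin n → ℝ) (f : Fin n → Fin m → ℝ → ℝ),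
    (∀ j, 0 ≤ k j ∧ k j ≤ T ∧ Eigen σ L g (k j) (f j) ∧ ¬ Wave L (k j) (f j) R ε) →
    (∀ i j, i ≠ j → ∑ e, ∫ x in (0 : ℝ)..L e, f i e x * f j e x = 0) →
    (n : ℝ) ≤ ε * (∑ e, L e) * T

end Pool.Agent.P.MP_6b977f_mp.QG
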