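import Pool.Agent.P.MP_6b977f_mp.QG.IfaceB
import Pool.Agent.P.MP_6b977f_mp.QG.DefsH

/-! Statements for the high energy form. -/

namespace Pool.Agent.P.MP_6b977f_mp.QG

open Finset MeasureTheory Real Matrix RG
open scoped Classical

/-- the mean of the character over a period -/
noncomputable def chI (s t : ℝ) (z : Fin 2 → ℝ) : ℂ := ch1 1 (2 * π) s t z / (2 * π : ℝ)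

/-- the defect of the empirical characteristic function at infinite energy -/
noncomputable def dcI {d N m : ℕ} (L : Fin m → ℝ) (s t : ℝ) (g : Glue d N m) (z : HI d N → ℝ) : ℂ :=
  (∑ e, (L e : ℂ) * chI s t (at1 (est g z e) 0)) / (∑ e, L e : ℝ) - (exp (-(s ^ 2 + t ^ 2) / 2) : ℝ)

/-- the squared norm at infinite energy -/
noncomputable def nrI {d N m : ℕ} (L : Fin m → ℝ) (g : Glue d N m) (z : HI d N → ℝ) : ℝ :=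
  ∑ e, L e / 2 * ∑ a, at1 (est g z e) 0 a ^ 2

/-- there is a subspace of dimension at least `n` on which the penalty is small -/
def Sys.SM {d N m : ℕ} {c : ℝ} (S : Sys d N m c) (θ : Fin m → ℝ) (ρ n : ℝ) (g : Glue d N m) : Prop :=
  ∃ V : Submodule ℝ (HI d N → ℝ), n ≤ Module.finrank ℝ V ∧ ∀ z ∈ V, S.pen θ g z ≤ ρ * ∑ p, z p ^ 2

/-- a window with a solution far from the wave -/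
def Sys.BW {d N m : ℕ} {c : ℝ} (S : Sys d N m c) (L : Fin m → ℝ) (κ R ε τ : ℝ) (g : Glue d N m)
    (j : ℕ) : Prop :=
  ∃ (k : ℝ) (z : HI d N → ℝ) (s t : ℝ), j * τ ≤ k ∧ k ≤ (j + 1) * τ ∧
    κ * m ≤ ∑ e, sin (k * L e) ^ 2 ∧ S.Eig L k g z ∧ |s| + |t| ≤ R ∧ ε < ‖dch L k s t g z‖

-- deps: AN2 PEN CORE CH
def S_CB2 : Prop := ∀ (d : ℕ) (c κ0 Λ a : ℝ), 3 ≤ d → 0 < c → 0 < κ0 → 1 ≤ Λ → 0 < a → a ≤ 1 / 100 →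
  ∃ c0 : ℝ, 0 < c0 ∧ ∀ b R ε : ℝ, 0 < b → b ≤ c0 → 0 < ε → ∃ (s0 : ℝ) (N0 : ℕ), 0 < s0 ∧
  ∀ N : ℕ, N0 ≤ N → ∀ (m : ℕ) (S : Sys d N m c) (L θ : Fin m → ℝ) (s t : ℝ) (w : ℂ),
  (∀ e, 1 ≤ L e ∧ L e ≤ Λ) → κ0 * m ≤ ∑ e, sin (θ e) ^ 2 → |s| + |t| ≤ R → ‖w‖ ≤ 1 →
  (#(univ.filter fun g : Glue d N m => S.Good θ a g ∧ ∃ (θ' : Fin m → ℝ) (z : HI d N → ℝ),
    S.Sol θ' g z ∧ (∀ e, |θ' e - θ e| ≤ 2 * Λ * (N : ℝ) ^ (-(5 * a))) ∧ ∑ p, z p ^ 2 ≤ 4 * Λ * d * N ∧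
      |nrI L g z - ∑ e, L e| ≤ 1 ∧ ∑ h, max (am z h - √(b * log N)) 0 ^ 2 ≤ s0 * N ∧
      ε ≤ (w * dcI L s t g z).re) : ℝ) ≤ exp (-(N : ℝ) ^ (1 - a)) * Fintype.card (Glue d N m)

-- deps: CH
def S_NET2 : Prop := ∀ Λ M R ε : ℝ, 0 < ε → ∃ T : Finset (ℝ × ℝ × ℂ),
  (∀ p ∈ T, |p.1| + |p.2.1| ≤ R ∧ ‖p.2.2‖ ≤ 1) ∧
  ∀ (d N m : ℕ) (L : Fin m → ℝ) (s t : ℝ) (g : Glue d N m) (z : HI d N → ℝ), 1 ≤ m →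
    (∀ e, 1 ≤ L e ∧ L e ≤ Λ) → ∑ p, z p ^ 2 ≤ M * m → |s| + |t| ≤ R →
    ε < ‖dcI L s t g z‖ → ∃ p ∈ T, ε / 4 ≤ (p.2.2 * dcI L p.1 p.2.1 g z).re

-- deps:
def S_NRM2 : Prop := ∀ (d N m : ℕ) (c : ℝ) (S : Sys d N m c) (L θ : Fin m → ℝ) (Λ : ℝ)
  (g : Glue d N m) (z : HI d N → ℝ), (∀ e, 1 ≤ L e ∧ L e ≤ Λ) → 1 ≤ m → S.Sol θ g z →
  |nrI L g z - ∑ e, L e| ≤ 1 → ∑ p, z p ^ 2 ≤ 4 * Λ * d * N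

-- deps: DET FIB MASS NB NRM2 CA CB2 NET2
def S_CONF2 : Prop := ∀ (d : ℕ) (c κ Λ R ε : ℝ), 3 ≤ d → 0 < c → 0 < κ → 0 < ε →
  ∃ N0 : ℕ, ∀ N : ℕ, N0 ≤ N → ∃ δ : ℝ, 0 < δ ∧ ∀ (m : ℕ) (S : Sys d N m c) (L : Fin m → ℝ) (K : ℝ),
  (∀ e, 1 ≤ L e ∧ L e ≤ Λ) →
  (#(univ.filter fun g : Glue d N m => ∃ (x : ℝ) (θ : Fin m → ℝ) (z : HI d N → ℝ) (s t : ℝ),
    K ≤ x ∧ x ≤ K + 1 ∧ (∀ e, |θ e - x * L e| ≤ δ) ∧ κ * m ≤ ∑ e, sin (θ e) ^ 2 ∧ S.Sol θ g z ∧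
      |nrI L g z - ∑ e, L e| ≤ 1 ∧ |s| + |t| ≤ R ∧ ε < ‖dcI L s t g z‖) : ℝ) ≤
    ε * Fintype.card (Glue d N m)

-- deps: EIG1 EIG2 JEN LOW
def S_DET2 : Prop := ∀ (d : ℕ) (y ε : ℝ), 1 ≤ d → 0 < y → y ≤ 1 / 2 → 0 < ε →
  ∃ N0 : ℕ, ∀ N : ℕ, N0 ≤ N → ∀ (m : ℕ) (c : ℝ) (S : Sys d N m c) (θ : Fin m → ℝ) (γ : ℝ),
  γ ^ 2 = y ^ 2 / (2 * (1 - y)) →
  (#(univ.filter fun g : Glue d N m => -(d * log (2 * (1 - y))) + ε < S.LD θ g γ) : ℝ) ≤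
    ε * Fintype.card (Glue d N m)

-- deps:
def S_CNTQ : Prop := ∀ (ι : Type) [Fintype ι] [DecidableEq ι] (Q : Matrix ι ι ℝ)
  (V : Submodule ℝ (ι → ℝ)) (ρ a b : ℝ), Qᵀ = Q → (∀ z, 0 ≤ z ⬝ᵥ Q *ᵥ z) → 0 ≤ ρ → 0 < a → a ≤ b →
  (∀ z ∈ V, z ⬝ᵥ Q *ᵥ z ≤ ρ * ∑ p, z p ^ 2) →
  Module.finrank ℝ V * log ((ρ + b) / (ρ + a)) ≤ log (Q + b • 1).det - log (Q + a • 1).det

-- deps: ALG PEN LOW DET2 CNTQ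
def S_SMP : Prop := ∀ d : ℕ, 1 ≤ d → ∃ C : ℝ, 1 ≤ C ∧ ∀ r ε : ℝ, 0 < r → r ≤ 1 / 4 → 0 < ε →
  ∃ N0 : ℕ, ∀ N : ℕ, N0 ≤ N → ∀ (m : ℕ) (c : ℝ) (S : Sys d N m c) (θ : Fin m → ℝ),
  (#(univ.filter fun g : Glue d N m => S.SM θ (r ^ 2) (C * r * N) g) : ℝ) ≤
    ε * Fintype.card (Glue d N m)

-- deps:
def S_PEN2 : Prop := ∀ (d N m : ℕ) (c : ℝ) (S : Sys d N m c) (θ θ' : Fin m → ℝ) (p : Fin m → ℤ)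
  (g : Glue d N m) (z : HI d N → ℝ) (δ : ℝ),
  (S.Sol θ g z → S.Sol (fun e => θ e + 2 * π * p e) g z) ∧
  ((∀ e, |θ' e - θ e - 2 * π * p e| ≤ δ) →
    S.pen θ' g z ≤ 2 * S.pen θ g z + 2 * δ ^ 2 * ∑ q, z q ^ 2)

-- deps:
def S_AVG : Prop := ∀ (k l s t : ℝ) (z : Fin 2 → ℝ), 0 < k → 0 ≤ l →
  ‖ch1 k l s t z - l * chI s t z‖ ≤ 4 * π / k ∧
  |sq1 k l z - l / 2 * ∑ a, z a ^ 2| ≤ (∑ a, z a ^ 2) / k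

-- deps:
def S_SYN : Prop := ∀ (m : ℕ) (α : Fin m → ℝ) (δ : ℝ), 0 < δ → ∃ l : ℕ, ∀ n : ℕ, l ≤ n →
  ∃ (s : ℕ) (p : Fin m → ℤ), s ≤ n ∧ n ≤ s + l ∧ ∀ e, |s * α e - 2 * π * p e| ≤ δ

-- deps:
def S_AP : Prop := ∀ (G : Type) [Fintype G] (b b' : G → ℕ → Prop) (P : ℕ → Prop) (l j0 : ℕ)
  (η ε : ℝ), 0 < ε → (∀ n, l ≤ n → ∃ s, P s ∧ s ≤ n ∧ n ≤ s + l) →
  (∀ g j s, j0 ≤ j → P s → b g j → b' g (j + s)) →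
  (∀ j, (#(univ.filter fun g => b' g j) : ℝ) ≤ η * Fintype.card G) →
  ε * #(univ.filter fun g => ¬ ∃ J0 : ℕ, ∀ J, J0 ≤ J → (#((range J).filter (b g)) : ℝ) ≤ ε * J) ≤
    8 * η * Fintype.card G

-- deps: NRM CONF2 SMP PEN2 AVG SYN AP
def S_WIN : Prop := ∀ (d : ℕ) (c Λ : ℝ), 3 ≤ d → 0 < c → 1 ≤ Λ → ∃ C : ℝ, 1 ≤ C ∧
  ∀ κ R ε ε' τ : ℝ, 0 < κ → 0 < ε → 0 < ε' → 0 < τ → 20 * Λ * τ ≤ 1 →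
  ∃ N0 : ℕ, ∀ N : ℕ, N0 ≤ N → ∀ (m : ℕ) (S : Sys d N m c) (L : Fin m → ℝ), (∀ e, 1 ≤ L e ∧ L e ≤ Λ) →
  (#(univ.filter fun g : Glue d N m => ¬ ∃ J0 : ℕ, ∀ J, J0 ≤ J →
    (#((range J).filter fun j => S.BW L κ R ε τ g j ∨
      S.SM (fun e => (j + 1) * τ * L e) (8 * Λ ^ 2 * τ ^ 2) (C * τ * N) g) : ℝ) ≤ ε' * J) : ℝ) ≤
    ε * Fintype.card (Glue d N m)

-- deps:
def S_DUH : Prop := ∀ (f : ℝ → ℝ) (k l : ℝ), 0 < k → ContDiff ℝ 2 f → ∀ x ∈ Set.Icc 0 l,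
  (f x - f0 k ![f 0, deriv f 0 / k] x) ^ 2 + (deriv f x / k - f1 k ![f 0, deriv f 0 / k] x) ^ 2 ≤
    l * (∫ y in (0 : ℝ)..l, (deriv (deriv f) y + k ^ 2 * f y) ^ 2) / k ^ 2

-- deps: DUH
def S_DIM : Prop := ∀ (d N m : ℕ) (c : ℝ) (S : Sys d N m c) (L : Fin m → ℝ) (g : Glue d N m)
  (Λ K τ : ℝ) (ι : Type) [Fintype ι] (k : ι → ℝ) (f : ι → Fin m → ℝ → ℝ), 1 ≤ m →
  (∀ e, 1 ≤ L e ∧ L e ≤ Λ) → 0 < K → 0 < τ → 4 * Λ * τ ≤ 1 →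
  (∀ j, Eigen S.σ L g (k j) (f j) ∧ |K ^ 2 - k j ^ 2| ≤ 2 * K * τ) →
  (∀ i j, i ≠ j → ∑ e, ∫ x in (0 : ℝ)..L e, f i e x * f j e x = 0) →
  (Fintype.card ι : ℝ) ≤ 2 * d * N ∧
    S.SM (fun e => K * L e) (8 * Λ ^ 2 * τ ^ 2) (Fintype.card ι) g

-- deps:
def S_RESO : Prop := ∀ Λ κ τ : ℝ, 0 < κ → 0 < τ → ∃ C : ℝ, ∀ (m : ℕ) (L : Fin m → ℝ) (J : ℕ),
  (∀ e, 1 ≤ L e ∧ L e ≤ Λ) → 1 ≤ m →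
  (#((range J).filter fun j : ℕ => ∃ k : ℝ, j * τ ≤ k ∧ k ≤ (j + 1) * τ ∧
    ∑ e, sin (k * L e) ^ 2 < κ * m) : ℝ) ≤ (4 * √κ + 4 * Λ * τ) * J + C

-- deps: TR WIN DIM RESO
def S_HIGH : Prop := ∀ (d : ℕ) (c Λ R ε : ℝ), 3 ≤ d → 0 < c → 0 < ε →
  ∃ N0 : ℕ, ∀ N : ℕ, N0 ≤ N → ∀ (m : ℕ) (σ : Fin N → Matrix (Fin d) (Fin d) ℝ) (L : Fin m → ℝ),
  2 * m = d * N → (∀ v, NoBack c (σ v)) → (∀ e, 1 ≤ L e ∧ L e ≤ Λ) →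
  (#(univ.filter fun g : Glue d N m => ¬ Few σ L R ε g) : ℝ) ≤ ε * Fintype.card (Glue d N m)

end Pool.Agent.P.MP_6b977f_mp.QG
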