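import Pool.Agent.P.MP_6b977f_mp.QG.IfaceD
import Pool.Agent.P.MP_6b977f_mp.QG.IfaceC

/-! Step DENS. -/

namespace Pool.Agent.P.MP_6b977f_mp.QG

open Finset MeasureTheory Real Matrix RG
open scoped Classical

namespace DENSx

lemma dens (hEXB : S_EXB) (hWL : S_WL) (hFIN : S_FIN) {d N m : ℕ} {c Λ R ε : ℝ} (S : Sys d N m c)
    {L : Fin m → ℝ} {g : Glue d N m} (hε : 0 < ε) (hm : 1 ≤ m) (hL : ∀ e, 1 ≤ L e ∧ L e ≤ Λ)
    (h : Few S.σ L R (ε / 16) g) : Dens S.σ L R ε g := by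
  have hL0 : ∀ e, 0 < L e := fun e => one_pos.trans_le (hL e).1
  refine ⟨hEXB d N m c S L g hm hL0, fun k f hb => ?_⟩
  obtain ⟨T0, hT⟩ := h
  obtain ⟨M1, hM1⟩ := Filter.eventually_atTop.1
    ((hFIN d N m c S L g Λ k f hm hL hb).eventually_ge_atTop T0)
  refine ⟨max M1 m, fun M hM => ?_⟩
  obtain ⟨s, hs⟩ : ∃ s, s = (range M).filter fun n => ¬ Wave L (k n) (f n) R ε := ⟨_, rfl⟩
  rw [← hs]
  have hmem : ∀ j : Fin #s, (s.orderEmbOfFin rfl j) < M ∧
      ¬ Wave L (k (s.orderEmbOfFin rfl j)) (f (s.orderEmbOfFin rfl j)) R ε := fun j => by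
    have := s.orderEmbOfFin_mem rfl j
    generalize s.orderEmbOfFin rfl j = a at this
    rw [hs, mem_filter, mem_range] at this
    exact this
  have h1 := hT (k M) (hM1 M (le_of_max_le_left hM)) #s (fun j => k (s.orderEmbOfFin rfl j))
    (fun j => f (s.orderEmbOfFin rfl j))
    (fun j => ⟨(hb.eig _).1, hb.mono (hmem j).1.le, (hb.eig _).2, fun hw =>
      (hmem j).2 fun a b hab => (hw a b hab).trans (by linarith)⟩)
    fun i j hij => hb.orth _ _ fun e => hij ((s.orderEmbOfFin rfl).injective e)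
  have h2 := hWL d N m c S L g k f hm hL0 hb M
  have h3 : (m : ℝ) ≤ M := Nat.cast_le.2 (le_of_max_le_right hM)
  have h4 : 2 * π * (M + m) ≤ 2 * 4 * (M + M) :=
    mul_le_mul (by linarith [pi_le_four]) (by linarith) (by positivity) (by norm_num)
  have h5 := mul_le_mul_of_nonneg_left (h2.trans h4) (show 0 ≤ ε / 16 by positivity)
  rw [mul_assoc] at h1
  linarith

end DENSx

theorem p_DENS (hHIGH : S_HIGH) (hEXB : S_EXB) (hWL : S_WL) (hFIN : S_FIN) :
    S_DENS := by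
  intro d c Λ R ε hd hc hε
  obtain ⟨N0, h⟩ := hHIGH d c Λ R (ε / 16) hd hc (by positivity)
  refine ⟨max N0 1, fun N hN m σ L hm hσ hL => ?_⟩
  have h1 := h N (le_of_max_le_left hN) m σ L hm hσ hL
  have hN1 : 1 ≤ N := le_of_max_le_right hN
  have hm1 : 1 ≤ m := by
    have := Nat.mul_le_mul hd hN1
    omega
  have h2 : #(univ.filter fun g : Glue d N m => ¬ Dens σ L R ε g) ≤
      #(univ.filter fun g : Glue d N m => ¬ Few σ L R (ε / 16) g) :=
    card_le_card (monotone_filter_right _ fun g _ =>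
      mt (DENSx.dens hEXB hWL hFIN ⟨σ, hσ, hm⟩ hε hm1 hL))
  refine ((Nat.cast_le.2 h2).trans h1).trans ?_
  exact mul_le_mul_of_nonneg_right (by linarith) (Nat.cast_nonneg _)

end Pool.Agent.P.MP_6b977f_mp.QG
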