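import Pool.Agent.P.MP_6b977f_mp.QG.IfaceD

/-! Step END. -/

namespace Pool.Agent.P.MP_6b977f_mp.QG

open Finset MeasureTheory Real Matrix RG
open scoped Classical

namespace ENDx

theorem cs_cont (l : ℝ) (n : ℕ) : Continuous (cs l n) := by
  unfold cs
  fun_prop

theorem cs_le {l : ℝ} (hl : 0 < l) (n : ℕ) (x : ℝ) : |cs l n x| ≤ √(2 / l) := by
  unfold cs
  rw [abs_mul, abs_of_nonneg (Real.sqrt_nonneg _)]
  have h1 : √((if n = 0 then 1 else 2) / l) ≤ √(2 / l) := by
    refine Real.sqrt_le_sqrt (div_le_div_of_nonneg_right ?_ hl.le)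
    split_ifs <;> norm_num
  calc _ ≤ √((if n = 0 then 1 else 2) / l) * 1 :=
        mul_le_mul_of_nonneg_left (Real.abs_cos_le_one _) (Real.sqrt_nonneg _)
    _ ≤ _ := by rw [mul_one]; exact h1

theorem memLp_cont {l : ℝ} {h : ℝ → ℝ} (hh : Continuous h) :
    MemLp h 2 (volume.restrict (Set.Ioo 0 l)) := by
  obtain ⟨C, hC⟩ := (isCompact_Icc (a := (0 : ℝ)) (b := l)).exists_bound_of_continuousOn
    hh.continuousOn
  refine MemLp.of_bound hh.aestronglyMeasurable C ?_
  filter_upwards [ae_restrict_mem measurableSet_Ioo] with x hx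
  exact hC x (Set.Ioo_subset_Icc_self hx)

end ENDx

theorem p_END (hCOS : S_COS) :
    S_END := by
  intro l f hl hf hs y hy
  obtain ⟨h1, h2⟩ := hCOS l hl
  set c : ℕ → ℝ := fun n => ∫ x in (0 : ℝ)..l, f x * cs l n x with hc
  have hb : ∀ n x, ‖c n * cs l n x‖ ≤ |c n| * √(2 / l) := by
    intro n x
    rw [Real.norm_eq_abs, abs_mul]
    exact mul_le_mul_of_nonneg_left (ENDx.cs_le hl n x) (abs_nonneg _)
  have hsb : Summable fun n => |c n| * √(2 / l) := hs.mul_right _
  have hsum : ∀ x, Summable fun n => c n * cs l n x := fun x =>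
    Summable.of_norm_bounded hsb fun n => hb n x
  set s : ℝ → ℝ := fun x => ∑' n, c n * cs l n x with hsdef
  have hsc : Continuous s :=
    continuous_tsum (fun n => continuous_const.mul (ENDx.cs_cont l n)) hsb hb
  have hcoef : ∀ j, ∫ x in (0 : ℝ)..l, s x * cs l j x = c j := by
    intro j
    have h3 : HasSum (fun n => ∫ x in (0 : ℝ)..l, c n * cs l n x * cs l j x)
        (∫ x in (0 : ℝ)..l, s x * cs l j x) := by
      refine intervalIntegral.hasSum_integral_of_dominated_convergence
        (fun n _ => |c n| * √(2 / l) * √(2 / l)) (fun n => ?_) (fun n => ?_) ?_ ?_ ?_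
      · exact ((continuous_const.mul (ENDx.cs_cont l n)).mul
          (ENDx.cs_cont l j)).aestronglyMeasurable
      · refine Filter.Eventually.of_forall fun t _ => ?_
        rw [norm_mul]
        exact mul_le_mul (hb n t) (ENDx.cs_le hl j t) (norm_nonneg _) (by positivity)
      · exact Filter.Eventually.of_forall fun t _ => hsb.mul_right _
      · exact intervalIntegrable_const
      · exact Filter.Eventually.of_forall fun t _ => (hsum t).hasSum.mul_right _
    have h4 : ∀ n, ∫ x in (0 : ℝ)..l, c n * cs l n x * cs l j x = if n = j then c j else 0 := by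
      intro n
      simp_rw [mul_assoc]
      rw [intervalIntegral.integral_const_mul, h2]
      split_ifs with h
      · rw [h, mul_one]
      · rw [mul_zero]
    simp_rw [h4] at h3
    exact h3.unique (hasSum_ite_eq j (c j))
  have h5 : (fun x => f x - s x) =ᵐ[volume.restrict (Set.Ioo 0 l)] 0 := by
    refine h1 _ (ENDx.memLp_cont (hf.sub hsc)) fun n => ?_
    simp_rw [sub_mul]
    have e1 : Continuous fun x => f x * cs l n x := hf.mul (ENDx.cs_cont l n)
    have e2 : Continuous fun x => s x * cs l n x := hsc.mul (ENDx.cs_cont l n)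
    rw [intervalIntegral.integral_sub (e1.intervalIntegrable _ _) (e2.intervalIntegrable _ _),
      hcoef n]
    exact sub_self _
  have h6 : Set.EqOn (fun x => f x - s x) 0 (Set.Ioo 0 l) :=
    Measure.eqOn_Ioo_of_ae_eq volume h5 (hf.sub hsc).continuousOn continuousOn_const
  have h7 : Set.EqOn (fun x => f x - s x) 0 (closure (Set.Ioo 0 l)) :=
    h6.closure (hf.sub hsc) continuous_const
  rw [closure_Ioo hl.ne] at h7
  have h8 : f y = s y := sub_eq_zero.1 (h7 hy)
  rw [h8]
  exact (hsum y).hasSum

end Pool.Agent.P.MP_6b977f_mp.QG
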