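import Pool.Agent.P.MP_6b977f_mp.QG.IfaceD
import Pool.Agent.P.MP_6b977f_mp.EB.EXH
import Pool.Agent.P.MP_6b977f_mp.EB.ENUM

/-! Step EX1. -/

namespace Pool.Agent.P.MP_6b977f_mp.QG

open Finset MeasureTheory Real Matrix RG Filter Topology
open scoped Classical

namespace EX1x

variable {ι : Type}

abbrev H (ι : Type) : Type := lp (fun _ : ι => ℝ) 2

lemma inner_eq (x y : H ι) : HasSum (fun ξ => x ξ * y ξ) (inner ℝ x y) := by
  simpa [mul_comm] using lp.hasSum_inner (𝕜 := ℝ) x y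

lemma nsq (x : H ι) : HasSum (fun ξ => x ξ ^ 2) (‖x‖ ^ 2) := by
  simpa only [sq, real_inner_self_eq_norm_mul_norm] using inner_eq x x

lemma mem2 {f : ι → ℝ} (h : Summable fun ξ => f ξ ^ 2) : Memℓp f 2 :=
  memℓp_gen (by simpa using h)

lemma mulOp (a : ι → ℝ) (c : ℝ) (hc : 0 ≤ c) (h : ∀ ξ, |a ξ| ≤ c) :
    ∃ A : H ι →L[ℝ] H ι, (∀ x ξ, A x ξ = a ξ * x ξ) ∧ ‖A‖ ≤ c := by
  have hb : ∀ x : H ι, (Summable fun ξ => (a ξ * x ξ) ^ 2) ∧
      ∑' ξ, (a ξ * x ξ) ^ 2 ≤ c ^ 2 * ‖x‖ ^ 2 := fun x => by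
    have h1 : ∀ ξ, (a ξ * x ξ) ^ 2 ≤ c ^ 2 * x ξ ^ 2 := fun ξ => by
      rw [mul_pow, ← sq_abs (a ξ)]; gcongr; exact h ξ
    have h2 := (nsq x).mul_left (c ^ 2)
    have h3 := Summable.of_nonneg_of_le (fun ξ => sq_nonneg _) h1 h2.summable
    exact ⟨h3, hasSum_le h1 h3.hasSum h2⟩
  let L : H ι →ₗ[ℝ] H ι :=
    { toFun := fun x => ⟨fun ξ => a ξ * x ξ, mem2 (hb x).1⟩
      map_add' := fun x y => lp.ext (funext fun ξ => by simp [mul_add])
      map_smul' := fun c x => lp.ext (funext fun ξ => by simp [mul_left_comm]) }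
  have hL : ∀ x, ‖L x‖ ≤ c * ‖x‖ := fun x => by
    refine (pow_le_pow_iff_left₀ (norm_nonneg _) (by positivity) two_ne_zero).1 ?_
    rw [← (nsq (L x)).tsum_eq, mul_pow]
    exact (hb x).2
  exact ⟨L.mkContinuous c hL, fun _ _ => rfl, L.mkContinuous_norm_le hc hL⟩

lemma cpt_fin (a : ι → ℝ) (T : Finset ι) : ∃ A : H ι →L[ℝ] H ι, IsCompactOperator A ∧
    ∀ x ξ, A x ξ = if ξ ∈ T then a ξ * x ξ else 0 := by
  induction T using Finset.induction_on with
  | empty => exact ⟨0, isCompactOperator_zero, by simp⟩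
  | insert η T hη ih =>
    obtain ⟨A, h1, h2⟩ := ih
    refine ⟨A + (lp.singleContinuousLinearMap ℝ (fun _ : ι => ℝ) 2 η).comp
      (a η • lp.evalCLM ℝ (fun _ : ι => ℝ) 2 η), h1.add
      ((isCompactOperator_of_locallyCompactSpace_dom
        (a η • lp.evalCLM ℝ (fun _ : ι => ℝ) 2 η)).clm_comp
          (lp.singleContinuousLinearMap ℝ (fun _ : ι => ℝ) 2 η)), fun x ξ => ?_⟩
    change A x ξ + lp.single (E := fun _ : ι => ℝ) 2 η (a η * x η) ξ = _
    by_cases e : ξ = η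
    · subst e; simp [h2, hη]
    · simp [h2, e]

lemma cpt (a : ι → ℝ) (S : H ι →L[ℝ] H ι) (hS : ∀ x ξ, S x ξ = a ξ * x ξ) (Box : ℕ → Finset ι)
    (h : ∀ N : ℕ, 0 < N → ∀ ξ, ξ ∉ Box N → |a ξ| ≤ (√N)⁻¹) : IsCompactOperator S := by
  choose A h1 h2 using fun N => cpt_fin a (Box N)
  refine isCompactOperator_of_tendsto (l := atTop) (F := A) ?_ (Eventually.of_forall h1)
  rw [tendsto_iff_norm_sub_tendsto_zero]
  refine squeeze_zero' (Eventually.of_forall fun _ => norm_nonneg _)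
    ((eventually_gt_atTop 0).mono fun N hN => ?_)
    (tendsto_inv_atTop_zero.comp (tendsto_sqrt_atTop.comp tendsto_natCast_atTop_atTop))
  obtain ⟨B, h3, h4⟩ := mulOp (fun ξ => if ξ ∈ Box N then 0 else -a ξ) (√N)⁻¹ (by positivity)
    fun ξ => by
      split_ifs with e
      · simp
      · rw [abs_neg]; exact h N hN ξ e
  refine le_of_eq_of_le (congrArg _ ?_) h4
  ext x ξ
  rw [h3]
  by_cases e : ξ ∈ Box N <;> simp [h2, hS, e]

lemma op {P : Type} [Fintype P] (lam : ι → ℝ) (u : P → ι → ℝ) (h0 : ∀ a, 0 ≤ lam a)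
    (hf : ∀ t, {a | lam a ≤ t}.Finite) (hu : ∀ p, Summable fun a => u p a ^ 2 / (1 + lam a))
    (hc : ∀ c : P → ℝ, (Summable fun a => (∑ p, c p * u p a) ^ 2) → ∀ a, ∑ p, c p * u p a = 0) :
    ∃ T : H ι →L[ℝ] H ι, IsCompactOperator T ∧ (∀ x y, inner ℝ (T x) y = inner ℝ x (T y)) ∧
      (∀ x, T x = 0 → x = 0) ∧ ∀ (k : ℝ) (x : H ι), k ≠ 0 → ‖x‖ = 1 → T x = k • x →
        0 < k ∧ k ≤ 1 ∧ (∀ p, HasSum (fun a => u p a * x a) 0) ∧
          ∃ c : P → ℝ, ∀ a, (lam a - (k⁻¹ - 1)) * x a = ∑ p, c p * u p a := by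
  obtain ⟨r, r1, r2⟩ : ∃ r : ι → ℝ, (∀ a, 1 ≤ r a) ∧ ∀ a, r a ^ 2 = 1 + lam a :=
    ⟨fun a => √(1 + lam a), fun a => one_le_sqrt.2 (by linarith [h0 a]),
      fun a => sq_sqrt (by linarith [h0 a])⟩
  have r0 : ∀ a, 0 < r a := fun a => one_pos.trans_le (r1 a)
  obtain ⟨S, hS, nS⟩ := mulOp (fun a => (r a)⁻¹) 1 zero_le_one fun a => by
    rw [abs_of_pos (inv_pos.2 (r0 a))]; exact inv_le_one_of_one_le₀ (r1 a)
  have sS : ∀ x y, inner ℝ (S x) y = inner ℝ x (S y) := fun x y =>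
    (inner_eq (S x) y).unique (by simpa only [hS, mul_left_comm, mul_assoc] using inner_eq x (S y))
  have iS : ∀ x, S x = 0 → x = 0 := fun x h => lp.ext (funext fun a => by
    have := congrArg (fun z : H ι => z a) h
    simpa [hS, (r0 a).ne'] using this)
  obtain ⟨w, hw⟩ : ∃ w : P → H ι, ∀ p a, w p a = (r a)⁻¹ * u p a :=
    ⟨fun p => ⟨fun a => (r a)⁻¹ * u p a, mem2 (by
      simpa only [div_pow, r2, inv_mul_eq_div] using hu p)⟩, fun _ _ => rfl⟩
  set W : Submodule ℝ (H ι) := Submodule.span ℝ (Set.range w) with hW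
  have : FiniteDimensional ℝ W := FiniteDimensional.span_of_finite ℝ (Set.finite_range w)
  have hm : ∀ z ∈ W, ∃ c : P → ℝ, ∀ a, z a = (r a)⁻¹ * ∑ p, c p * u p a := fun z hz => by
    obtain ⟨c, rfl⟩ := (Submodule.mem_span_range_iff_exists_fun ℝ).1 hz
    refine ⟨c, fun a => ?_⟩
    rw [lp.coeFn_sum, Finset.sum_apply, mul_sum]
    exact sum_congr rfl fun p _ => by
      rw [lp.coeFn_smul, Pi.smul_apply, hw, smul_eq_mul, mul_left_comm]
  set Q : H ι →L[ℝ] H ι := Wᗮ.starProjection with hQ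
  have q1 : ∀ z, Q z ∈ Wᗮ := fun z => Wᗮ.starProjection_apply_mem z
  have q2 : ∀ z, z - Q z ∈ W := fun z => by
    have := Wᗮ.sub_starProjection_mem_orthogonal z
    rwa [Submodule.orthogonal_orthogonal] at this
  have q3 : ∀ x y, inner ℝ (Q x) y = inner ℝ x (Q y) := fun x y =>
    Wᗮ.inner_starProjection_left_eq_right x y
  refine ⟨S.comp (Q.comp S), ?_, fun x y => ?_, fun x h => ?_, fun k x hk hx h => ?_⟩
  · refine (cpt _ S hS (fun N => (hf N).toFinset) fun N hN a ha => ?_).comp_clm (Q.comp S)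
    rw [abs_of_pos (inv_pos.2 (r0 a))]
    refine inv_anti₀ (sqrt_pos.2 (by exact_mod_cast hN)) (sqrt_le_iff.2 ⟨(r0 a).le, ?_⟩)
    have : ¬ lam a ≤ N := by simpa using ha
    rw [r2]; linarith
  · change inner ℝ (S (Q (S x))) y = inner ℝ x (S (Q (S y)))
    rw [sS, q3, sS]
  · have h1 : Q (S x) = 0 := iS _ h
    have h2 := q2 (S x)
    rw [h1, sub_zero] at h2
    obtain ⟨c, e⟩ := hm _ h2
    have e2 : ∀ a, x a = ∑ p, c p * u p a := fun a =>
      mul_left_cancel₀ (inv_pos.2 (r0 a)).ne' ((hS x a).symm.trans (e a))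
    exact lp.ext (funext fun a => (e2 a).trans
      (hc c (by simpa only [e2] using (nsq x).summable) a))
  · set y := Q (S x) with hy
    have h1 : S y = k • x := h
    have h3 : ∀ a, (r a)⁻¹ * y a = k * x a := fun a => by
      simpa only [hS, lp.coeFn_smul, Pi.smul_apply, smul_eq_mul] using
        congrArg (fun z : H ι => z a) h1
    have a1 : k = ‖y‖ ^ 2 := by
      have b1 := sS x y
      have b2 : inner ℝ (S x - y) y = 0 := (Submodule.mem_orthogonal _ _).1 (q1 _) _ (q2 _)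
      rw [h1, inner_smul_right, real_inner_self_eq_norm_sq, hx] at b1
      rw [inner_sub_left, real_inner_self_eq_norm_sq] at b2
      linarith
    have a2 : ‖y‖ ≤ 1 := by
      have b1 := S.le_of_opNorm_le nS x
      have b2 : ‖y‖ ≤ ‖S x‖ := Wᗮ.norm_starProjection_apply_le _
      rw [hx] at b1
      linarith
    refine ⟨lt_of_le_of_ne (a1 ▸ sq_nonneg _) hk.symm,
      a1 ▸ pow_le_one₀ (norm_nonneg _) a2, fun p => ?_, ?_⟩
    · have b1 := (inner_eq (w p) y).mul_left k⁻¹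
      rw [(Submodule.mem_orthogonal _ _).1 (q1 _) _ (Submodule.subset_span ⟨p, rfl⟩),
        mul_zero] at b1
      refine b1.congr_fun fun a => ?_
      rw [hw, mul_right_comm, h3]
      field_simp
    · obtain ⟨c, e⟩ := hm _ (q2 (S x))
      refine ⟨fun p => -k⁻¹ * c p, fun a => ?_⟩
      have b1 := e a
      have b2 := h3 a
      have b3 := r2 a
      have b4 := (r0 a).ne'
      rw [lp.coeFn_sub, Pi.sub_apply, hS] at b1
      simp only [mul_assoc, ← mul_sum]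
      have b5 : y a = r a * (k * x a) := by rw [← b2]; field_simp
      have b6 : ∑ p, c p * u p a = x a - r a * y a := by
        have := congrArg (r a * ·) b1
        simp only [mul_sub, mul_inv_cancel_left₀ b4] at this
        exact this.symm
      rw [b6, b5, show lam a = r a ^ 2 - 1 by linarith]
      field_simp
      ring

end EX1x

open EX1x in
theorem p_EX1 :
    S_EX1 := by
  intro ι P _ lam u hι h0 hf hu hc
  obtain ⟨T, t1, t2, t3, t4⟩ := op lam u h0 hf hu hc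
  obtain ⟨B, k, b1, b2, b3, b4⟩ := EB.exh_main t1 t2
  have h := fun b : B => t4 _ _ (b2 b).1 (b1.1 b) (b2 b).2
  have hB : Infinite B := by
    rw [← not_finite_iff_infinite]
    intro _
    have := Module.Finite.of_injective (LinearMap.pi fun b : B => innerₗ _ b.1)
      ((injective_iff_map_eq_zero _).2 fun x hx => t3 x (b4 x (congrFun hx)))
    have := (HilbertBasis.ofRepr (.refl ℝ _) :
      HilbertBasis ι ℝ (lp (fun _ : ι => ℝ) 2)).orthonormal.linearIndependent.finite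
    exact not_finite ι
  obtain ⟨e, he⟩ := EB.t_enum B (fun b => (k b)⁻¹ - 1) hB fun a =>
    (b3 (|a| + 1)⁻¹ (by positivity)).subset fun b hb => by
      refine le_trans ?_ (le_abs_self (k b))
      rw [inv_le_comm₀ (by positivity) (h b).1]
      linarith [le_abs_self a, show (k b)⁻¹ - 1 ≤ a from hb]
  refine ⟨_, fun j => (e j).1, he, fun j => sub_nonneg.2 ((one_le_inv₀ (h _).1).2 (h _).2.1),
    fun i j => ?_, fun x hx hz => ?_, fun j => (h _).2.2⟩
  · simpa [orthonormal_iff_ite.1 b1] using inner_eq (e i).1 (e j).1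
  · refine congrArg Subtype.val (t3 ⟨x, mem2 hx⟩ (b4 _ fun b => ?_))
    obtain ⟨j, rfl⟩ := e.surjective b
    rw [real_inner_comm]
    exact (inner_eq ⟨x, mem2 hx⟩ (e j).1).unique (hz j)

end Pool.Agent.P.MP_6b977f_mp.QG
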