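import Pool.Agent.P.MP_6b977f_mp.QG.IfaceD

/-! Step EX2. -/

namespace Pool.Agent.P.MP_6b977f_mp.QG

open Finset MeasureTheory Real Matrix RG
open scoped Classical

namespace EX2x

/-- solutions of the equation with their derivative -/
def Sol (k : ℝ) (f f' : ℝ → ℝ) : Prop :=
  (∀ y, HasDerivAt f (f' y) y) ∧ ∀ y, HasDerivAt f' (-k ^ 2 * f y) y

theorem Sol.cont {k : ℝ} {f f' : ℝ → ℝ} (h : Sol k f f') : Continuous f :=
  continuous_iff_continuousAt.2 fun y => (h.1 y).continuousAt

theorem sol_cos (k A : ℝ) : Sol k (fun y => A * cos (k * y)) fun y => -(A * k * sin (k * y)) := by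
  refine ⟨fun y => ?_, fun y => ?_⟩
  · exact ((((hasDerivAt_id' y).const_mul k).cos).const_mul A).congr_deriv (by ring)
  · exact ((((hasDerivAt_id' y).const_mul k).sin).const_mul (A * k)).neg.congr_deriv (by ring)

theorem Sol.add {k : ℝ} {f f' g g' : ℝ → ℝ} (h : Sol k f f') (h' : Sol k g g') :
    Sol k (fun y => f y + g y) fun y => f' y + g' y :=
  ⟨fun y => (h.1 y).add (h'.1 y), fun y => ((h.2 y).add (h'.2 y)).congr_deriv (by ring)⟩

theorem part (k α : ℝ) : ∃ u u', Sol k u u' ∧ u' 0 = α := by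
  rcases eq_or_ne k 0 with rfl | hk
  · exact ⟨fun y => α * y, fun _ => α, ⟨fun y => by simpa using (hasDerivAt_id y).const_mul α,
      fun y => by simpa using hasDerivAt_const y α⟩, rfl⟩
  · refine ⟨fun y => α / k * sin (k * y), fun y => α * cos (k * y), ⟨fun y => ?_, fun y => ?_⟩,
      by simp⟩
    · exact ((((hasDerivAt_id' y).const_mul k).sin).const_mul (α / k)).congr_deriv (by field_simp)
    · exact ((sol_cos k α).1 y).congr_deriv (by field_simp)

theorem green {k l : ℝ} {f f' : ℝ → ℝ} (h : Sol k f f') (hl : 0 < l) (n : ℕ) :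
    ((n * π / l) ^ 2 - k ^ 2) * ∫ y in (0 : ℝ)..l, f y * cs l n y =
      -(f' 0 * cs l n 0 + -f' l * cs l n l) := by
  have hc := sol_cos (n * π / l) √((if n = 0 then 1 else 2) / l)
  rw [← intervalIntegral.integral_const_mul, intervalIntegral.integral_eq_sub_of_hasDerivAt
    (f := fun y => f' y * cs l n y - f y *
      -(√((if n = 0 then 1 else 2) / l) * (n * π / l) * sin (n * π / l * y)))]
  · rw [div_mul_cancel₀ _ hl.ne', sin_nat_mul_pi, mul_zero (n * π / l), sin_zero]
    ring
  · intro y _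
    exact (((h.2 y).mul (hc.1 y)).sub ((h.1 y).mul (hc.2 y))).congr_deriv (by simp only [cs]; ring)
  · exact (continuous_const.mul (h.cont.mul hc.cont)).intervalIntegrable _ _

theorem cs_le {l : ℝ} (hl : 0 < l) (n : ℕ) (y : ℝ) : |cs l n y| ≤ √(2 / l) := by
  rw [cs, abs_mul, abs_of_nonneg (sqrt_nonneg _)]
  refine (mul_le_of_le_one_right (sqrt_nonneg _) (abs_cos_le_one _)).trans (sqrt_le_sqrt ?_)
  gcongr
  split_ifs <;> norm_num

theorem summ {l k α β : ℝ} {x : ℕ → ℝ} (hl : 0 < l)
    (h : ∀ n : ℕ, ((n * π / l) ^ 2 - k ^ 2) * x n = -(α * cs l n 0 + β * cs l n l)) :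
    Summable fun n => |x n| := by
  set B := (|α| + |β|) * √(2 / l)
  have hs : Summable fun n : ℕ => 2 * B * (l / π) ^ 2 * (1 / (n : ℝ) ^ 2) :=
    (summable_one_div_nat_pow.2 one_lt_two).mul_left _
  refine hs.of_norm_bounded_eventually_nat ?_
  have ht : Filter.Tendsto (fun n : ℕ => (n * π / l) ^ 2) Filter.atTop Filter.atTop :=
    (Filter.tendsto_pow_atTop two_ne_zero).comp
      ((tendsto_natCast_atTop_atTop.atTop_mul_const pi_pos).atTop_div_const hl)
  filter_upwards [ht.eventually_ge_atTop (2 * k ^ 2), Filter.eventually_gt_atTop 0] with n h1 h2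
  have h3 : (0 : ℝ) < n := Nat.cast_pos.2 h2
  have h4 : |((n * π / l) ^ 2 - k ^ 2) * x n| ≤ B := by
    rw [h, abs_neg]
    refine (abs_add_le _ _).trans ?_
    rw [abs_mul, abs_mul]
    nlinarith [mul_le_mul_of_nonneg_left (cs_le hl n 0) (abs_nonneg α),
      mul_le_mul_of_nonneg_left (cs_le hl n l) (abs_nonneg β)]
  rw [abs_mul, abs_of_nonneg (by nlinarith [sq_nonneg k])] at h4
  have h5 : 2 * B * (l / π) ^ 2 * (1 / (n : ℝ) ^ 2) = 2 * B / (n * π / l) ^ 2 := by
    field_simp
  rw [Real.norm_eq_abs, abs_abs, h5, le_div_iff₀ (by positivity)]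
  nlinarith [mul_le_mul_of_nonneg_right h1 (abs_nonneg (x n))]

end EX2x

open EX2x in
theorem p_EX2 (hCOS : S_COS) (hEND : S_END) :
    S_EX2 := by
  intro l k α β x hl hk hx
  obtain ⟨u, u', hu, u0⟩ := part k α
  have hw : ∀ n : ℕ, (0 : ℝ) ≤ n * π / l := fun n => by positivity
  obtain ⟨f, f', hf, f0, fl, fn⟩ : ∃ f f', Sol k f f' ∧ f' 0 = α ∧ -f' l = β ∧
      ∀ n : ℕ, n * π / l = k → ∫ y in (0 : ℝ)..l, f y * cs l n y = x n := by
    by_cases hr : ∃ n : ℕ, n * π / l = k
    · obtain ⟨n, rfl⟩ := hr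
      set s := √((if n = 0 then 1 else 2) / l) with hs
      have s0 : 0 < s := sqrt_pos.2 (div_pos (by split_ifs <;> norm_num) hl)
      have h1 := (sol_cos (n * π / l) ((x n - ∫ y in (0 : ℝ)..l, u y * cs l n y) * s)).add hu
      refine ⟨_, _, h1, by simp [u0], ?_, fun n' e => ?_⟩
      · have h2 := green h1 hl n
        have h3 := hx n
        rw [sub_self, zero_mul] at h2 h3
        have h4 : cs l n l ≠ 0 := by
          rw [cs, div_mul_cancel₀ _ hl.ne', cos_nat_mul_pi]
          positivity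
        refine mul_right_cancel₀ h4 ?_
        rw [mul_zero, sin_zero, mul_zero, neg_zero, zero_add, u0] at h2
        linarith
      · obtain rfl : n' = n := by
          have := mul_right_cancel₀ pi_pos.ne' ((div_left_inj' hl.ne').1 e)
          exact_mod_cast this
        have hc : Continuous (cs l n') := (sol_cos _ _).cont
        have h2 := (hCOS l hl).2 n' n'
        simp only [add_mul, mul_assoc]
        have hu' := hu.cont
        rw [intervalIntegral.integral_add (Continuous.intervalIntegrable (by fun_prop) _ _)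
          (Continuous.intervalIntegrable (by fun_prop) _ _), intervalIntegral.integral_const_mul]
        simp only [← mul_assoc]
        rw [show ∫ y in (0 : ℝ)..l, s * cos (n' * π / l * y) * cs l n' y = 1 from
          h2.trans (if_pos rfl)]
        ring
    · have h0 : k * sin (k * l) ≠ 0 := by
        refine mul_ne_zero (fun e => hr ⟨0, by simp [e]⟩) fun e => hr ?_
        obtain ⟨n, hn⟩ := sin_eq_zero_iff.1 e
        have h1 : (0 : ℝ) ≤ n := nonneg_of_mul_nonneg_left (hn ▸ mul_nonneg hk hl.le) pi_pos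
        obtain ⟨n, rfl⟩ := Int.eq_ofNat_of_zero_le (show 0 ≤ n by exact_mod_cast h1)
        exact ⟨n, by rw [div_eq_iff hl.ne', ← hn, Int.cast_natCast]⟩
      refine ⟨_, _, (sol_cos k ((β + u' l) / (k * sin (k * l)))).add hu, by simp [u0], ?_,
        fun n e => (hr ⟨n, e⟩).elim⟩
      simp only [mul_assoc]
      rw [div_mul_cancel₀ _ h0]
      ring
  have d1 : deriv f = f' := funext fun y => (hf.1 y).deriv
  have d2 : deriv f' = fun y => -k ^ 2 * f y := funext fun y => (hf.2 y).deriv
  have hy : ∀ n, ∫ y in (0 : ℝ)..l, f y * cs l n y = x n := fun n => by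
    by_cases e : n * π / l = k
    · exact fn n e
    · refine mul_left_cancel₀ (a := (n * π / l) ^ 2 - k ^ 2)
        (fun h => e ((pow_left_inj₀ (hw n) hk two_ne_zero).1 (sub_eq_zero.1 h))) ?_
      rw [green hf hl, hx, f0, fl]
  have hE := hEND l f hl hf.cont (by simpa only [hy] using summ hl hx)
  simp only [hy] at hE
  refine ⟨f, ?_, fun y => by rw [d1, d2], by rw [d1, f0], by rw [d1, fl], hy,
    hE 0 ⟨le_rfl, hl.le⟩, hE l ⟨hl.le, le_rfl⟩⟩
  rw [show (2 : WithTop ℕ∞) = 1 + 1 from rfl, contDiff_succ_iff_deriv, d1, contDiff_one_iff_deriv,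
    d2]
  exact ⟨fun y => (hf.1 y).differentiableAt, by simp, fun y => (hf.2 y).differentiableAt,
    continuous_const.mul hf.cont⟩

end Pool.Agent.P.MP_6b977f_mp.QG
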