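import Pool.Agent.P.MP_6b977f_mp.QG.IfaceD

/-! Step EXB. -/

namespace Pool.Agent.P.MP_6b977f_mp.QG

open Finset MeasureTheory Real Matrix RG
open scoped Classical

namespace EXBx

theorem hs_one {m : ℕ} (e : Fin m) (φ : ℕ → ℝ) (s : ℝ) (h : HasSum φ s) :
    HasSum (fun b : Fin m × ℕ => if e = b.1 then φ b.2 else 0) s := by
  have hi : Function.Injective (fun n : ℕ => ((e, n) : Fin m × ℕ)) := fun a b hab => by
    simpa using hab
  refine (hi.hasSum_iff ?_).1 ?_
  · rintro ⟨e', n⟩ hb
    have : e ≠ e' := fun h' => hb ⟨n, by simp [h']⟩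
    simp [this]
  · simpa [Function.comp_def] using h

theorem hs_prod {m : ℕ} (f : Fin m × ℕ → ℝ) (s : Fin m → ℝ)
    (h : ∀ e, HasSum (fun n => f (e, n)) (s e)) : HasSum f (∑ e, s e) := by
  have := hasSum_sum (s := univ) fun e _ => hs_one e _ _ (h e)
  convert this using 1
  funext b
  simp

theorem memLp_cont (l : ℝ) (f : ℝ → ℝ) (hf : Continuous f) :
    MemLp f 2 (volume.restrict (Set.Ioo 0 l)) := by
  obtain ⟨C, hC⟩ := (isCompact_Icc (a := (0 : ℝ)) (b := l)).exists_bound_of_continuousOn
    hf.continuousOn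
  refine MemLp.of_bound hf.aestronglyMeasurable C ?_
  exact ae_restrict_of_forall_mem measurableSet_Ioo fun x hx => hC x (Set.Ioo_subset_Icc_self hx)

theorem cs_zero (l : ℝ) (n : ℕ) : cs l n 0 = √((if n = 0 then 1 else 2) / l) := by simp [cs]

theorem cs_end (l : ℝ) (hl : 0 < l) (n : ℕ) :
    cs l n l = √((if n = 0 then 1 else 2) / l) * (-1) ^ n := by
  rw [cs, div_mul_cancel₀ _ hl.ne', cos_nat_mul_pi]

theorem cs_sq (l : ℝ) (hl : 0 < l) (n : ℕ) (x : ℝ) : |cs l n x| ≤ √(2 / l) := by
  rw [cs, abs_mul, abs_of_nonneg (sqrt_nonneg _)]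
  refine (mul_le_of_le_one_right (sqrt_nonneg _) (abs_cos_le_one _)).trans (sqrt_le_sqrt ?_)
  split_ifs
  · gcongr
    norm_num
  · exact le_rfl

theorem two_zero (l a b : ℝ) (hl : 0 < l)
    (h : Summable fun n : ℕ => (a * cs l n 0 + b * cs l n l) ^ 2) : a = 0 ∧ b = 0 := by
  have ht := h.tendsto_atTop_zero
  have hs : 0 < √(2 / l) := sqrt_pos.2 (by positivity)
  have h1 := ht.comp (f := fun n : ℕ => 2 * n + 2)
    (Filter.tendsto_atTop_mono (fun n => by simp only [id]; omega) Filter.tendsto_id)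
  have h2 := ht.comp (f := fun n : ℕ => 2 * n + 1)
    (Filter.tendsto_atTop_mono (fun n => by simp only [id]; omega) Filter.tendsto_id)
  have e1 : ((fun n : ℕ => (a * cs l n 0 + b * cs l n l) ^ 2) ∘ fun n : ℕ => 2 * n + 2) =
      fun _ => ((a + b) * √(2 / l)) ^ 2 := by
    funext n
    simp only [Function.comp, cs_zero, cs_end l hl]
    rw [if_neg (by omega), pow_add, pow_mul]
    norm_num
    ring
  have e2 : ((fun n : ℕ => (a * cs l n 0 + b * cs l n l) ^ 2) ∘ fun n : ℕ => 2 * n + 1) =
      fun _ => ((a - b) * √(2 / l)) ^ 2 := by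
    funext n
    simp only [Function.comp, cs_zero, cs_end l hl]
    rw [if_neg (by omega), pow_add, pow_mul]
    norm_num
    ring
  rw [e1] at h1
  rw [e2] at h2
  have h3 := tendsto_nhds_unique h1 tendsto_const_nhds
  have h4 := tendsto_nhds_unique h2 tendsto_const_nhds
  have h5 : a + b = 0 := by
    have := pow_eq_zero_iff (two_ne_zero) |>.1 h3.symm
    exact (mul_eq_zero.1 this).resolve_right hs.ne'
  have h6 : a - b = 0 := by
    have := pow_eq_zero_iff (two_ne_zero) |>.1 h4.symm
    exact (mul_eq_zero.1 this).resolve_right hs.ne'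
  constructor <;> linarith

theorem sum_inv (l : ℝ) (hl : 0 < l) : Summable fun n : ℕ => 1 / (1 + (n * π / l) ^ 2) := by
  rw [← summable_nat_add_iff 1]
  have h : Summable fun n : ℕ => (l / π) ^ 2 * (1 / ((n + 1 : ℕ) : ℝ) ^ 2) :=
    ((summable_nat_add_iff 1).2 (summable_one_div_nat_pow.2 one_lt_two)).mul_left _
  refine Summable.of_nonneg_of_le (fun n => by positivity) (fun n => ?_) h
  have hn : (0 : ℝ) < ((n + 1 : ℕ) : ℝ) := by positivity
  have hp := pi_pos
  have : (l / π) ^ 2 * (1 / ((n + 1 : ℕ) : ℝ) ^ 2) = 1 / (((n + 1 : ℕ) : ℝ) * π / l) ^ 2 := by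
    field_simp
  rw [this]
  exact one_div_le_one_div_of_le (by positivity) (by linarith)

/-- the end point -/
def en {m : ℕ} (L : Fin m → ℝ) (a : Fin m × Fin 2) : ℝ := if a.2 = 0 then 0 else L a.1

/-- evaluation at an end -/
noncomputable def ww {m : ℕ} (L : Fin m → ℝ) (a : Fin m × Fin 2) (b : Fin m × ℕ) : ℝ :=
  if a.1 = b.1 then cs (L a.1) b.2 (en L a) else 0

/-- the projection -/
noncomputable def QQ {d N : ℕ} (σ : Fin N → Matrix (Fin d) (Fin d) ℝ) (v : Fin N) (i j : Fin d) :
    ℝ := ((if i = j then 1 else 0) - σ v i j) / 2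

/-- the projection of a vector -/
noncomputable def Qc {d N : ℕ} (σ : Fin N → Matrix (Fin d) (Fin d) ℝ) (c : Fin N × Fin d → ℝ)
    (p : Fin N × Fin d) : ℝ := ∑ i, QQ σ p.1 p.2 i * c (p.1, i)

/-- the constraints -/
noncomputable def uu {d N m : ℕ} (σ : Fin N → Matrix (Fin d) (Fin d) ℝ) (L : Fin m → ℝ)
    (g : Glue d N m) (p : Fin N × Fin d) (b : Fin m × ℕ) : ℝ :=
  ∑ j, QQ σ p.1 p.2 j * ww L (g (p.1, j)) b

theorem comb {d N m : ℕ} (σ : Fin N → Matrix (Fin d) (Fin d) ℝ) (hσ : ∀ v, (σ v).IsSymm)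
    (L : Fin m → ℝ) (g : Glue d N m) (c : Fin N × Fin d → ℝ) (e : Fin m) (n : ℕ) :
    ∑ p, c p * uu σ L g p (e, n) =
      Qc σ c (g.symm (e, 0)) * cs (L e) n 0 + Qc σ c (g.symm (e, 1)) * cs (L e) n (L e) := by
  have h1 : ∑ p, c p * uu σ L g p (e, n) = ∑ p, Qc σ c p * ww L (g p) (e, n) := by
    simp only [Fintype.sum_prod_type, uu, Qc, mul_sum, sum_mul]
    refine sum_congr rfl fun v _ => ?_
    rw [sum_comm]
    refine sum_congr rfl fun j _ => sum_congr rfl fun i _ => ?_
    have : QQ σ v i j = QQ σ v j i := by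
      simp only [QQ, (hσ v).apply i j, eq_comm (a := i)]
    rw [this]
    ring
  rw [h1, ← g.symm.sum_comp]
  simp only [Equiv.apply_symm_apply, Fintype.sum_prod_type, ww]
  rw [sum_eq_single e]
  · simp [Fin.sum_univ_two, en]
  · intro e' _ he
    simp [he]
  · simp

theorem sigQ {d N : ℕ} (σ : Fin N → Matrix (Fin d) (Fin d) ℝ) (hσ : ∀ v, σ v * σ v = 1)
    (c : Fin N × Fin d → ℝ) (v : Fin N) (i : Fin d) :
    ∑ j, σ v i j * Qc σ c (v, j) = -Qc σ c (v, i) := by
  simp only [Qc, mul_sum]
  rw [sum_comm, ← sum_neg_distrib]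
  refine sum_congr rfl fun l _ => ?_
  have h1 : ∑ j, σ v i j * σ v j l = if i = l then 1 else 0 := by
    rw [← Matrix.mul_apply, hσ v, Matrix.one_apply]
  have h2 : ∑ j, σ v i j * (QQ σ v j l * c (v, l)) =
      ((∑ j, σ v i j * if j = l then 1 else 0) - ∑ j, σ v i j * σ v j l) / 2 * c (v, l) := by
    rw [← sum_sub_distrib, sum_div, sum_mul]
    refine sum_congr rfl fun j _ => ?_
    rw [QQ]
    ring
  rw [h2, h1, QQ]
  simp only [mul_ite, mul_one, mul_zero, sum_ite_eq', mem_univ, if_true]
  ring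

end EXBx

open EXBx in
theorem p_EXB (hEX1 : S_EX1) (hCOS : S_COS) (hCOP : S_COP) (hEX2 : S_EX2) :
    S_EXB := by
  intro d N m c0 S L g hm hL
  have hne : Nonempty (Fin m) := ⟨⟨0, hm⟩⟩
  have hsy : ∀ v, (S.σ v).IsSymm := fun v => (S.hσ v).1
  have hsq : ∀ v, S.σ v * S.σ v = 1 := fun v => (S.hσ v).2.1
  obtain ⟨κ, x, hmono, hκ, hon, hco, hj⟩ := hEX1 (Fin m × ℕ) (Fin N × Fin d)
    (fun a => (a.2 * π / L a.1) ^ 2) (uu S.σ L g) inferInstance (fun a => sq_nonneg _)
    (by
      intro t
      refine ((Set.finite_univ (α := Fin m)).prod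
        (Set.finite_Iic ⌈∑ e, √t * L e / π⌉₊)).subset ?_
      rintro ⟨e, n⟩ hb
      refine ⟨trivial, ?_⟩
      simp only [Set.mem_ofPred_eq] at hb
      have hp := pi_pos
      have h1 : n * π / L e ≤ √t := le_sqrt_of_sq_le hb
      have h2 : (n : ℝ) ≤ √t * L e / π := by
        rw [div_le_iff₀ (hL e)] at h1
        rwa [le_div_iff₀ hp]
      have h3 : √t * L e / π ≤ ∑ e, √t * L e / π :=
        single_le_sum (f := fun e => √t * L e / π)
          (fun e _ => by have := hL e; positivity) (mem_univ e)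
      show n ≤ _
      exact_mod_cast (h2.trans h3).trans (Nat.le_ceil _))
    (by
      intro p
      refine (hs_prod _ _ fun e => Summable.hasSum ?_).summable
      set B : ℝ := ∑ j, |QQ S.σ p.1 p.2 j| * √(2 / L e) with hB
      refine Summable.of_nonneg_of_le (fun n => by positivity) (fun n => ?_)
        ((sum_inv (L e) (hL e)).mul_left (B ^ 2))
      have h1 : |uu S.σ L g p (e, n)| ≤ B := by
        refine (abs_sum_le_sum_abs _ _).trans (sum_le_sum fun j _ => ?_)
        rw [abs_mul]
        refine mul_le_mul_of_nonneg_left ?_ (abs_nonneg _)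
        rw [ww]
        split_ifs with h
        · simp only at h
          rw [h]
          exact cs_sq _ (hL e) _ _
        · rw [abs_zero]
          exact sqrt_nonneg _
      rw [mul_one_div]
      refine div_le_div_of_nonneg_right ?_ (by positivity)
      exact sq_le_sq' (abs_le.1 h1).1 (abs_le.1 h1).2)
    (by
      rintro c hc ⟨e, n⟩
      have h1 := hc.prod_factor e
      simp only [comb S.σ hsy] at h1
      obtain ⟨h2, h3⟩ := two_zero _ _ _ (hL e) h1
      rw [comb S.σ hsy, h2, h3]
      simp)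
  choose hval cc hcc using hj
  have hF := fun j e => hEX2 (L e) (√(κ j)) (-Qc S.σ (cc j) (g.symm (e, 0)))
    (-Qc S.σ (cc j) (g.symm (e, 1))) (fun n => x j (e, n)) (hL e) (sqrt_nonneg _) (by
      intro n
      have := hcc j (e, n)
      rw [comb S.σ hsy] at this
      rw [sq_sqrt (hκ j), this]
      ring)
  choose F hF1 hF2 hF3 hF4 hF5 hF6 hF7 using hF
  set G : ℝ := ∑ e, L e with hG
  have hG0 : 0 < G := sum_pos (fun e _ => hL e) univ_nonempty
  have hs0 : 0 < √G := sqrt_pos.2 hG0
  have hmem : ∀ j e, MemLp (F j e) 2 (volume.restrict (Set.Ioo 0 (L e))) :=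
    fun j e => memLp_cont _ _ (hF1 j e).continuous
  have hip : ∀ i j, ∑ e, ∫ y in (0 : ℝ)..L e, F i e y * F j e y = if i = j then 1 else 0 := by
    intro i j
    refine (hs_prod (fun a => x i a * x j a) _ fun e => ?_).unique (hon i j)
    have := hCOP (L e) (F i e) (F j e) (hL e) (hmem i e) (hmem j e)
    simpa only [hF5] using this
  have hip' : ∀ i j, ∑ e, ∫ y in (0 : ℝ)..L e, (√G * F i e y) * (√G * F j e y) =
      G * if i = j then 1 else 0 := by
    intro i j
    rw [← hip, mul_sum]
    refine sum_congr rfl fun e _ => ?_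
    rw [← intervalIntegral.integral_const_mul]
    refine intervalIntegral.integral_congr fun y _ => ?_
    have := mul_self_sqrt hG0.le
    linear_combination (F i e y * F j e y) * this
  have hv : ∀ j a, HasSum (fun b => ww L a b * x j b) (val L (F j) a) := by
    rintro j ⟨e, i⟩
    have h1 : HasSum (fun n => x j (e, n) * cs (L e) n (en L (e, i))) (val L (F j) (e, i)) := by
      by_cases hi : i = 0
      · simpa [en, val, hi] using hF6 j e
      · simpa [en, val, hi] using hF7 j e
    convert hs_one e _ _ h1 using 1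
    funext b
    rw [ww]
    split_ifs with h
    · simp only at h
      subst h
      ring
    · simp
  have hd : ∀ j a, der L (F j) a = -Qc S.σ (cc j) (g.symm a) := by
    rintro j ⟨e, i⟩
    by_cases hi : i = 0
    · subst hi
      simpa [der] using hF3 j e
    · have h1 : i = 1 := by omega
      subst h1
      simpa [der] using hF4 j e
  refine ⟨fun j => √(κ j), fun j e y => √G * F j e y, ⟨fun j => ⟨sqrt_nonneg _, ?_, ?_, ?_⟩,
    ?_, ?_, fun a b hab => sqrt_le_sqrt (hmono hab)⟩⟩
  · intro e
    refine ⟨contDiff_const.mul (hF1 j e), fun y _ => ?_⟩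
    rw [deriv_const_mul_field', deriv_const_mul_field']
    simp only [hF2]
    ring
  · intro v i
    have hv' : ∀ a, val L (fun e y => √G * F j e y) a = √G * val L (F j) a := by
      intro a
      simp only [val]
      split_ifs <;> rfl
    have hd' : ∀ a, der L (fun e y => √G * F j e y) a = √G * der L (F j) a := by
      intro a
      simp only [der, deriv_const_mul_field']
      split_ifs <;> ring
    simp only [hv', hd', hd, Equiv.symm_apply_apply]
    constructor
    · have h1 : HasSum (fun b => uu S.σ L g (v, i) b * x j b)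
          (∑ l, QQ S.σ v i l * val L (F j) (g (v, l))) := by
        have := hasSum_sum (s := univ) fun l _ => (hv j (g (v, l))).mul_left (QQ S.σ v i l)
        simpa only [uu, sum_mul, mul_assoc] using this
      have h2 := h1.unique (hval j (v, i))
      have h3 : ∑ l, QQ S.σ v i l * val L (F j) (g (v, l)) =
          (val L (F j) (g (v, i)) - ∑ l, S.σ v i l * val L (F j) (g (v, l))) / 2 := by
        have : val L (F j) (g (v, i)) =
            ∑ l, (if i = l then 1 else 0) * val L (F j) (g (v, l)) := by simp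
        rw [this, ← sum_sub_distrib, sum_div]
        refine sum_congr rfl fun l _ => ?_
        rw [QQ]
        ring
      have h4 : ∑ l, S.σ v i l * (√G * val L (F j) (g (v, l))) =
          √G * ∑ l, S.σ v i l * val L (F j) (g (v, l)) := by
        rw [mul_sum]
        exact sum_congr rfl fun l _ => by ring
      rw [h4]
      congr 1
      linarith
    · have h4 : ∑ l, S.σ v i l * (√G * -Qc S.σ (cc j) (v, l)) =
          -√G * ∑ l, S.σ v i l * Qc S.σ (cc j) (v, l) := by
        rw [mul_sum]
        exact sum_congr rfl fun l _ => by ring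
      rw [h4, sigQ S.σ hsq]
      ring
  · have := hip' j j
    simp only [if_true, mul_one] at this
    simpa only [sq] using this
  · intro i j hij
    rw [hip' i j, if_neg hij, mul_zero]
  · intro h hh h0 e
    have hy := hco (fun a => ∫ y in (0 : ℝ)..L a.1, h a.1 y * cs (L a.1) a.2 y)
      (by
        refine (hs_prod _ (fun e => ∫ y in (0 : ℝ)..L e, h e y * h e y) fun e => ?_).summable
        simpa only [sq] using hCOP (L e) (h e) (h e) (hL e) (hh e) (hh e))
      (by
        intro j
        have h1 : ∑ e, ∫ y in (0 : ℝ)..L e, h e y * F j e y = 0 := by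
          have h2 := h0 j
          have h3 : ∑ e, ∫ y in (0 : ℝ)..L e, h e y * (√G * F j e y) =
              √G * ∑ e, ∫ y in (0 : ℝ)..L e, h e y * F j e y := by
            rw [mul_sum]
            refine sum_congr rfl fun e _ => ?_
            rw [← intervalIntegral.integral_const_mul]
            refine intervalIntegral.integral_congr fun y _ => ?_
            ring
          rw [h3] at h2
          exact (mul_eq_zero.1 h2).resolve_left hs0.ne'
        have h4 := hs_prod (fun a : Fin m × ℕ =>
          (∫ y in (0 : ℝ)..L a.1, h a.1 y * cs (L a.1) a.2 y) * x j a)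
          (fun e => ∫ y in (0 : ℝ)..L e, h e y * F j e y) fun e => by
            have := hCOP (L e) (h e) (F j e) (hL e) (hh e) (hmem j e)
            simpa only [hF5] using this
        rwa [h1] at h4)
    exact (hCOS (L e) (hL e)).1 (h e) (hh e) fun n => congrFun hy (e, n)

end Pool.Agent.P.MP_6b977f_mp.QG
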