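import Pool.Agent.P.MP_6b977f_mp.QG.IfaceD

/-! Step PV. -/

namespace Pool.Agent.P.MP_6b977f_mp.QG

open Finset MeasureTheory Real Matrix RG
open scoped Classical

namespace PVx

/-- the Hilbert space of the graph -/
abbrev HS {m : ℕ} (L : Fin m → ℝ) : Type :=
  PiLp 2 (fun e : Fin m => Lp ℝ 2 (volume.restrict (Set.Ioo (0 : ℝ) (L e))))

theorem memLp_of_cont (l : ℝ) (h : ℝ → ℝ) (hh : Continuous h) :
    MemLp h 2 (volume.restrict (Set.Ioo (0 : ℝ) l)) := by
  obtain ⟨C, hC⟩ := (isCompact_Icc (a := (0 : ℝ)) (b := l)).exists_bound_of_continuousOn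
    hh.continuousOn
  refine MemLp.of_bound hh.aestronglyMeasurable C ?_
  filter_upwards [ae_restrict_mem measurableSet_Ioo] with x hx
  exact hC x (Set.Ioo_subset_Icc_self hx)

/-- the class of a square integrable family -/
noncomputable def toH {m : ℕ} (L : Fin m → ℝ) (h : Fin m → ℝ → ℝ)
    (hh : ∀ e, MemLp (h e) 2 (volume.restrict (Set.Ioo 0 (L e)))) : HS L :=
  WithLp.toLp 2 fun e => (hh e).toLp (h e)

theorem inner_eq {m : ℕ} (L : Fin m → ℝ) (hL : ∀ e, 0 < L e) (a b : HS L)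
    (h h' : Fin m → ℝ → ℝ)
    (ha : ∀ e, (a e : ℝ → ℝ) =ᵐ[volume.restrict (Set.Ioo 0 (L e))] h e)
    (hb : ∀ e, (b e : ℝ → ℝ) =ᵐ[volume.restrict (Set.Ioo 0 (L e))] h' e) :
    inner ℝ a b = ip L h h' := by
  rw [PiLp.inner_apply, ip]
  refine Finset.sum_congr rfl fun e _ => ?_
  rw [L2.inner_def, intervalIntegral.integral_of_le (hL e).le, integral_Ioc_eq_integral_Ioo]
  refine integral_congr_ae ?_
  filter_upwards [ha e, hb e] with x h1 h2
  rw [h1, h2]
  simp [mul_comm]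

theorem toH_ae {m : ℕ} (L : Fin m → ℝ) (h : Fin m → ℝ → ℝ)
    (hh : ∀ e, MemLp (h e) 2 (volume.restrict (Set.Ioo 0 (L e)))) (e : Fin m) :
    (toH L h hh e : ℝ → ℝ) =ᵐ[volume.restrict (Set.Ioo 0 (L e))] h e :=
  (hh e).coeFn_toLp

end PVx

open PVx in
theorem p_PV :
    S_PV := by
  intro m L f G hL hG hf horth hcomp h hh
  have hfm : ∀ n e, MemLp (f n e) 2 (volume.restrict (Set.Ioo 0 (L e))) :=
    fun n e => memLp_of_cont _ _ (hf n e)
  have hhm : ∀ e, MemLp (h e) 2 (volume.restrict (Set.Ioo 0 (L e))) :=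
    fun e => memLp_of_cont _ _ (hh e)
  have hs : 0 < √G := Real.sqrt_pos.2 hG
  have hss : √G * √G = G := Real.mul_self_sqrt hG.le
  set v : ℕ → HS L := fun n => (√G)⁻¹ • toH L (f n) (hfm n) with hv
  have hon : Orthonormal ℝ v := by
    rw [orthonormal_iff_ite]
    intro i j
    simp only [hv, inner_smul_left, inner_smul_right]
    rw [inner_eq L hL _ _ (f i) (f j) (toH_ae L _ _) (toH_ae L _ _), horth]
    split_ifs with hij
    · simp only [conj_trivial]
      field_simp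
      nlinarith [hss]
    · simp
  have hbot : (Submodule.span ℝ (Set.range v))ᗮ = ⊥ := by
    rw [Submodule.eq_bot_iff]
    intro x hx
    have h0 : ∀ n, ip L (fun e => (x e : ℝ → ℝ)) (f n) = 0 := by
      intro n
      have h1 : inner ℝ (v n) x = 0 :=
        (Submodule.mem_orthogonal _ _).1 hx _ (Submodule.subset_span ⟨n, rfl⟩)
      rw [real_inner_comm] at h1
      simp only [hv, inner_smul_right] at h1
      rw [inner_eq L hL x _ (fun e => (x e : ℝ → ℝ)) (f n)
        (fun e => Filter.EventuallyEq.rfl) (toH_ae L _ _)] at h1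
      rcases mul_eq_zero.1 h1 with h2 | h2
      · exact absurd h2 (inv_ne_zero hs.ne')
      · exact h2
    have h2 := hcomp (fun e => (x e : ℝ → ℝ)) (fun e => Lp.memLp (x e)) h0
    ext1 e
    exact (Lp.eq_zero_iff_ae_eq_zero).2 (h2 e)
  have hsum := (HilbertBasis.mkOfOrthogonalEqBot hon hbot).hasSum_inner_mul_inner
    (toH L h hhm) (toH L h hhm)
  rw [inner_eq L hL _ _ h h (toH_ae L _ _) (toH_ae L _ _)] at hsum
  refine (funext fun n => ?_ : (fun n => ip L h (f n) ^ 2 / G) = _) ▸ hsum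
  rw [HilbertBasis.coe_mkOfOrthogonalEqBot, real_inner_comm (toH L h hhm) (v n)]
  simp only [hv, inner_smul_right]
  rw [inner_eq L hL _ _ h (f n) (toH_ae L _ _) (toH_ae L _ _)]
  field_simp
  rw [sq (√G), hss]
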