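import Pool.Agent.P.MP_6b977f_mp.QG.IfaceD

/-! Step SN. -/

namespace Pool.Agent.P.MP_6b977f_mp.QG

open Finset MeasureTheory Real Matrix RG
open scoped Classical

namespace SNx

theorem icos {l : ℝ} (hl : 0 < l) (n : ℤ) :
    ∫ x in (0 : ℝ)..l, cos (n * π / l * x) = if n = 0 then l else 0 := by
  split_ifs with h
  · subst h; simp
  · have hc : (n : ℝ) * π / l ≠ 0 :=
      div_ne_zero (mul_ne_zero (Int.cast_ne_zero.2 h) pi_ne_zero) hl.ne'
    rw [intervalIntegral.integral_comp_mul_left (fun x => cos x) hc, integral_cos]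
    have e : (n : ℝ) * π / l * l = n * π := by field_simp
    rw [e, mul_zero, sin_zero, sin_int_mul_pi]; simp

theorem iprod {l : ℝ} (hl : 0 < l) (i j : ℕ) (s : ℝ) :
    ∫ x in (0 : ℝ)..l, (cos ((((i : ℤ) - j : ℤ) : ℝ) * π / l * x) +
      s * cos ((((i : ℤ) + j + 2 : ℤ) : ℝ) * π / l * x)) / 2 = if i = j then l / 2 else 0 := by
  rw [intervalIntegral.integral_div, intervalIntegral.integral_add
    (Continuous.intervalIntegrable (by fun_prop) _ _)
    (Continuous.intervalIntegrable (by fun_prop) _ _), intervalIntegral.integral_const_mul,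
    icos hl, icos hl, if_neg (show ¬ ((i : ℤ) + j + 2 = 0) by omega)]
  by_cases h : i = j
  · subst h; simp
  · rw [if_neg (by omega), if_neg h]; simp

theorem isin {l : ℝ} (hl : 0 < l) (i j : ℕ) :
    ∫ x in (0 : ℝ)..l, sin ((i + 1) * π / l * x) * sin ((j + 1) * π / l * x) =
      if i = j then l / 2 else 0 := by
  rw [← iprod hl i j (-1)]
  refine intervalIntegral.integral_congr fun x _ => ?_
  have e1 : (((i : ℤ) - j : ℤ) : ℝ) * π / l * x = (i + 1) * π / l * x - (j + 1) * π / l * x := by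
    push_cast; ring
  have e2 : (((i : ℤ) + j + 2 : ℤ) : ℝ) * π / l * x =
      (i + 1) * π / l * x + (j + 1) * π / l * x := by
    push_cast; ring
  simp only [e1, e2, cos_sub, cos_add]; ring

theorem icc {l : ℝ} (hl : 0 < l) (i j : ℕ) :
    ∫ x in (0 : ℝ)..l, cos ((i + 1) * π / l * x) * cos ((j + 1) * π / l * x) =
      if i = j then l / 2 else 0 := by
  rw [← iprod hl i j 1]
  refine intervalIntegral.integral_congr fun x _ => ?_
  have e1 : (((i : ℤ) - j : ℤ) : ℝ) * π / l * x = (i + 1) * π / l * x - (j + 1) * π / l * x := by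
    push_cast; ring
  have e2 : (((i : ℤ) + j + 2 : ℤ) : ℝ) * π / l * x =
      (i + 1) * π / l * x + (j + 1) * π / l * x := by
    push_cast; ring
  simp only [e1, e2, cos_sub, cos_add]; ring

theorem isq {l : ℝ} {J : ℕ} (u : Fin J → ℝ → ℝ) (hu : ∀ j, Continuous (u j)) (b : Fin J → ℝ)
    (h : ∀ i j, ∫ x in (0 : ℝ)..l, u i x * u j x = if i = j then l / 2 else 0) :
    ∫ x in (0 : ℝ)..l, (∑ j, b j * u j x) * (∑ j, b j * u j x) = l / 2 * ∑ j, b j ^ 2 := by
  have e : ∀ x, (∑ j, b j * u j x) * (∑ j, b j * u j x) =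
      ∑ i, ∑ j, b i * b j * (u i x * u j x) := fun x => by
    rw [Finset.sum_mul_sum]
    exact Finset.sum_congr rfl fun i _ => Finset.sum_congr rfl fun j _ => by ring
  simp only [e]
  rw [intervalIntegral.integral_finsetSum fun i _ =>
    Continuous.intervalIntegrable (by fun_prop) _ _, Finset.mul_sum]
  refine Finset.sum_congr rfl fun i _ => ?_
  rw [intervalIntegral.integral_finsetSum fun j _ =>
    Continuous.intervalIntegrable (by fun_prop) _ _]
  simp only [intervalIntegral.integral_const_mul, h, mul_ite, mul_zero]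
  rw [Finset.sum_ite_eq]; simp; ring

end SNx

theorem p_SN :
    S_SN := by
  intro l T J a h hl hT hh
  obtain rfl : h = fun x => ∑ j, a j * sin ((j + 1) * π / l * x) := funext hh
  refine ⟨by fun_prop, by simp, ?_, ?_, ?_⟩
  · refine Finset.sum_eq_zero fun j _ => ?_
    have e : (((j : ℕ) : ℝ) + 1) * π / l * l = ((j : ℕ) + 1 : ℕ) * π := by
      push_cast; field_simp
    rw [e, sin_nat_mul_pi, mul_zero]
  · exact SNx.isq (fun j x => sin ((j + 1) * π / l * x)) (fun j => by fun_prop) a fun i j => by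
      rw [SNx.isin hl]; simp [Fin.ext_iff]
  · have hd : ∀ x, deriv (fun x => ∑ j : Fin J, a j * sin ((j + 1) * π / l * x)) x =
        ∑ j : Fin J, (a j * ((j + 1) * π / l)) * cos ((j + 1) * π / l * x) := fun x => by
      refine HasDerivAt.deriv (HasDerivAt.fun_sum fun j _ => ?_)
      have := (((hasDerivAt_id x).const_mul ((((j : ℕ) : ℝ) + 1) * π / l)).sin).const_mul (a j)
      refine this.congr_deriv ?_
      simp only [id, mul_one]; ring
    simp only [hd]
    rw [SNx.isq (fun j x => cos ((j + 1) * π / l * x)) (fun j => by fun_prop)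
      (fun j => a j * ((j + 1) * π / l)) fun i j => by rw [SNx.icc hl]; simp [Fin.ext_iff]]
    rw [mul_left_comm, Finset.mul_sum _ _ (T ^ 2)]
    refine mul_le_mul_of_nonneg_left (Finset.sum_le_sum fun j _ => ?_) (by positivity)
    rw [mul_pow, mul_comm]
    refine mul_le_mul_of_nonneg_right (pow_le_pow_left₀ (by positivity) (le_trans ?_ hT) 2)
      (sq_nonneg _)
    have : (((j : ℕ) : ℝ) + 1) ≤ J := by exact_mod_cast j.2
    gcongr

end Pool.Agent.P.MP_6b977f_mp.QG
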