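import Pool.Agent.P.MP_6b977f_mp.QG.IfaceD

/-! Step WL. -/

namespace Pool.Agent.P.MP_6b977f_mp.QG

open Finset MeasureTheory Real Matrix RG
open scoped Classical

namespace WLx

theorem ker {ι : Type} [Fintype ι] {M : ℕ} (c : Fin M → ι → ℝ) (h : M < Fintype.card ι) :
    ∃ a : ι → ℝ, a ≠ 0 ∧ ∀ n, ∑ p, c n p * a p = 0 := by
  obtain ⟨a, a1, a2⟩ := (Submodule.ne_bot_iff _).1
    (LinearMap.ker_ne_bot_of_finrank_lt (f := Matrix.mulVecLin (Matrix.of c)) (by simpa using h))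
  exact ⟨a, a2, fun n => congrFun (LinearMap.mem_ker.1 a1) n⟩

end WLx

theorem p_WL (hPV : S_PV) (hBS : S_BS) (hSN : S_SN) :
    S_WL := by
  intro d N m c S L g k f hm hL hE M
  by_contra hc
  rw [not_le] at hc
  have : Nonempty (Fin m) := ⟨⟨0, hm⟩⟩
  have hG : 0 < ∑ e, L e := sum_pos (fun e _ => hL e) univ_nonempty
  have hk : 0 < k M := (mul_pos_iff_of_pos_left hG).1 (lt_of_le_of_lt (by positivity) hc)
  obtain ⟨J, hJ⟩ : ∃ J : Fin m → ℕ, ∀ e, J e = ⌊k M / 2 * L e / π⌋₊ := ⟨_, fun _ => rfl⟩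
  have h1 : ∀ e, J e * π / L e ≤ k M / 2 := fun e => by
    have := hL e
    rw [div_le_iff₀ this, ← le_div_iff₀ pi_pos, hJ]
    exact Nat.floor_le (by positivity)
  have h2 : M < Fintype.card (Σ e, Fin (J e)) := by
    have a1 : ∑ e, k M / 2 * L e / π ≤ ∑ e, ((J e : ℝ) + 1) :=
      sum_le_sum fun e _ => by rw [hJ]; exact (Nat.lt_floor_add_one _).le
    rw [← sum_div, ← mul_sum, sum_add_distrib, div_le_iff₀ pi_pos] at a1
    simp only [sum_const, card_univ, Fintype.card_fin, nsmul_eq_mul, mul_one] at a1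
    simp only [Fintype.card_sigma, Fintype.card_fin]
    rw [← Nat.cast_lt (α := ℝ), Nat.cast_sum]
    nlinarith [pi_pos]
  have hf : ∀ n e, Continuous (f n e) := fun n e => ((hE.eig n).2.1 e).1.continuous
  obtain ⟨a, a0, ha⟩ := WLx.ker (fun (n : Fin M) (p : Σ e, Fin (J e)) =>
    ∫ x in (0 : ℝ)..L p.1, sin (((p.2 : ℕ) + 1) * π / L p.1 * x) * f n p.1 x) h2
  obtain ⟨h, hh⟩ : ∃ h : Fin m → ℝ → ℝ, ∀ e x,
      h e x = ∑ j : Fin (J e), a ⟨e, j⟩ * sin (((j : ℕ) + 1) * π / L e * x) := ⟨_, fun _ _ => rfl⟩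
  have sn := fun e => hSN (L e) (k M / 2) (J e) (fun j => a ⟨e, j⟩) (h e) (hL e) (h1 e) (hh e)
  have h3 : ∀ n, n < M → ip L h (f n) = 0 := fun n hn => by
    rw [← ha ⟨n, hn⟩, Fintype.sum_sigma, ip]
    refine sum_congr rfl fun e _ => ?_
    have := hf n e
    simp only [hh, sum_mul, mul_assoc]
    rw [intervalIntegral.integral_finsetSum fun j _ => Continuous.intervalIntegrable (by fun_prop) _ _]
    exact sum_congr rfl fun j _ => by rw [intervalIntegral.integral_const_mul, mul_comm]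
  have h4 : ip L h h = ∑ e, L e / 2 * ∑ j, a ⟨e, j⟩ ^ 2 := sum_congr rfl fun e _ => (sn e).2.2.2.1
  have h5 : 0 < ip L h h := by
    obtain ⟨⟨e, j⟩, hp⟩ := Function.ne_iff.1 a0
    have := fun e => (hL e).le
    rw [h4]
    refine sum_pos' (fun e _ => mul_nonneg (by linarith [hL e]) (by positivity)) ⟨e, mem_univ _, ?_⟩
    exact mul_pos (by linarith [hL e]) (sum_pos' (fun _ _ => sq_nonneg _)
      ⟨j, mem_univ _, sq_pos_of_ne_zero hp⟩)
  have h6 : ip L (fun e => deriv (h e)) (fun e => deriv (h e)) ≤ (k M / 2) ^ 2 * ip L h h := by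
    rw [h4, mul_sum]
    exact sum_le_sum fun e _ => (sn e).2.2.2.2
  have pv := hPV m L f _ hL hG hf (fun i j => by
    split_ifs with e
    · rw [e, ← (hE.eig j).2.2.2, ip]
      simp only [sq]
    · exact hE.orth i j e) hE.complete h fun e => (sn e).1.continuous
  have h7 : k M ^ 2 * ip L h h ≤ (k M / 2) ^ 2 * ip L h h := by
    refine hasSum_le_of_sum_le (pv.mul_left _) fun s => le_trans (sum_le_sum fun n _ => ?_)
      ((hBS d N m c S L g k f h s hm hL (fun n => (hE.eig n).2) hE.orth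
        fun e => ⟨(sn e).1, (sn e).2.1, (sn e).2.2.1⟩).trans h6)
    rcases lt_or_ge n M with hn | hn
    · simp [h3 n hn]
    · rw [mul_div_assoc]
      exact mul_le_mul_of_nonneg_right (pow_le_pow_left₀ hk.le (hE.mono hn) 2) (by positivity)
  nlinarith [mul_pos (pow_pos hk 2) h5]

end Pool.Agent.P.MP_6b977f_mp.QG
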