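import Pool.Agent.P.MP_6b977f_mp.QG.All
import Pool.Agent.P.MP_6b977f_mp.QG.TEX1
import Pool.Agent.P.MP_6b977f_mp.QG.TCOS
import Pool.Agent.P.MP_6b977f_mp.QG.TCOP
import Pool.Agent.P.MP_6b977f_mp.QG.TEND
import Pool.Agent.P.MP_6b977f_mp.QG.TEX2
import Pool.Agent.P.MP_6b977f_mp.QG.TEXB
import Pool.Agent.P.MP_6b977f_mp.QG.TPV
import Pool.Agent.P.MP_6b977f_mp.QG.TBS
import Pool.Agent.P.MP_6b977f_mp.QG.TSN
import Pool.Agent.P.MP_6b977f_mp.QG.TWL
import Pool.Agent.P.MP_6b977f_mp.QG.TFIN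
import Pool.Agent.P.MP_6b977f_mp.QG.TDENS

/-! The steps for the form with eigenbases put together. -/

namespace Pool.Agent.P.MP_6b977f_mp.QG

theorem a_EX1 : S_EX1 := p_EX1

theorem a_COS : S_COS := p_COS

theorem a_COP : S_COP := p_COP a_COS

theorem a_END : S_END := p_END a_COS

theorem a_EX2 : S_EX2 := p_EX2 a_COS a_END

theorem a_EXB : S_EXB := p_EXB a_EX1 a_COS a_COP a_EX2

theorem a_PV : S_PV := p_PV

theorem a_BS : S_BS := p_BS

theorem a_SN : S_SN := p_SN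

theorem a_WL : S_WL := p_WL a_PV a_BS a_SN

theorem a_FIN : S_FIN := p_FIN a_DIM

theorem a_DENS : S_DENS := p_DENS a_HIGH a_EXB a_WL a_FIN

end Pool.Agent.P.MP_6b977f_mp.QG
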