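import Pool.Agent.P.MP_6b977f_mp.QG.Base

/-! Basic facts on nodes, lattice laws and glued systems. -/

namespace Pool.Agent.P.MP_6b977f_mp.QG

open Finset MeasureTheory Real Matrix RG
open scoped Classical

theorem vn_pos {d : ℕ} {κ t : ℝ} (hκ : 0 < κ) (ht : 0 ≤ t) (p : PI d) : 0 < vn d κ t p := by
  unfold vn; split_ifs <;> positivity

theorem vq_pos {κ t : ℝ} (hκ : 0 < κ) (ht : 0 ≤ t) (a : Fin 2) : 0 < vq κ t a := by
  unfold vq; positivity

theorem vn_zero (d : ℕ) (κ : ℝ) : vn d κ 0 = fun _ => κ ^ 2 := by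
  funext p; simp [vn]

theorem vq_zero (κ : ℝ) : vq κ 0 = fun _ => κ ^ 2 := by
  funext p; simp [vq]

theorem wsq_nonneg {d : ℕ} (y : PI d → ℝ) : 0 ≤ wsq y := sum_nonneg fun _ _ => sq_nonneg _

theorem norm_up {d : ℕ} (y : PI d → ℝ) : ‖up y‖ ≤ ‖y‖ :=
  (pi_norm_le_iff_of_nonneg (norm_nonneg _)).2 fun j => norm_le_pi_norm y (j, 0)

theorem norm_at1 {d : ℕ} (y : PI d → ℝ) (i : Fin d) : ‖at1 y i‖ ≤ ‖y‖ :=
  (pi_norm_le_iff_of_nonneg (norm_nonneg _)).2 fun a => norm_le_pi_norm y (i, a)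

theorem PG_up {d : ℕ} (j : Fin d) : PG fun y : PI d → ℝ => up y j := PG.coord (j, (0 : Fin 2))

theorem PG_wsq {d : ℕ} : PG (wsq (d := d)) := PG.sum _ fun j _ => (PG.coord (j, (1 : Fin 2))).pow 2

theorem sum_PI {d : ℕ} (f : PI d → ℝ) : ∑ p, f p = ∑ j, f (j, 0) + ∑ j, f (j, 1) := by
  rw [Fintype.sum_prod_type_right, Fin.sum_univ_two]

namespace Node
variable {d : ℕ} (O : Node d)

theorem o1' : O.Oᵀ * O.O = 1 := mul_eq_one_comm.1 O.o1

/-- the columns are orthonormal -/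
theorem col (p q : PI d) : ∑ r, O.O r p * O.O r q = if p = q then 1 else 0 := by
  have := congrFun (congrFun O.o1' p) q
  rwa [Matrix.mul_apply, Matrix.one_apply] at this

/-- the rows are orthonormal -/
theorem row (p q : PI d) : ∑ r, O.O p r * O.O q r = if p = q then 1 else 0 := by
  have := congrFun (congrFun O.o1 p) q
  rwa [Matrix.mul_apply, Matrix.one_apply] at this

/-- the blocks of the defects are isotropic too -/
theorem o3 (i : Fin d) (a b : Fin 2) :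
    ∑ j, O.O (j, 1) (i, a) * O.O (j, 1) (i, b) = if a = b then 1 / 2 else 0 := by
  have h := O.col (i, a) (i, b)
  rw [sum_PI, O.o2] at h
  by_cases hab : a = b <;> simp [hab] at h ⊢ <;> linarith

theorem abs_O (p q : PI d) : |O.O p q| ≤ 1 := by
  have h := O.row p p
  rw [if_pos rfl] at h
  have := single_le_sum (f := fun r => O.O p r * O.O p r) (fun _ _ => mul_self_nonneg _) (mem_univ q)
  exact abs_le_one_iff_mul_self_le_one.2 (by linarith)

theorem port_eq (i : Fin d) (y : PI d → ℝ) : O.port i y = at1 (O.Oᵀ *ᵥ y) i := rfl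

theorem port_wh (i : Fin d) (z : PI d → ℝ) : O.port i (O.wh z) = at1 z i := by
  rw [port_eq, wh, Matrix.mulVec_mulVec, o1', Matrix.one_mulVec]

theorem port_split (i : Fin d) (y : PI d → ℝ) (a : Fin 2) :
    O.port i y a = O.B i (up y) a + ∑ j, O.O (j, 1) (i, a) * y (j, 1) := sum_PI _

theorem sq_wh (z : PI d → ℝ) : ∑ p, O.wh z p ^ 2 = ∑ p, z p ^ 2 := by
  have : O.wh z ⬝ᵥ O.wh z = z ⬝ᵥ z := by
    rw [wh, Matrix.dotProduct_mulVec, Matrix.vecMul_mulVec, o1', Matrix.vecMul_one]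
  simpa [dotProduct, sq] using this

/-- the blocks of either kind form a tight frame -/
theorem frame (c : Fin 2) (u : Fin d → ℝ) :
    ∑ i, ∑ a, (∑ j, O.O (j, c) (i, a) * u j) ^ 2 = ∑ j, u j ^ 2 := by
  rw [← Fintype.sum_prod_type (f := fun p : PI d => (∑ j, O.O (j, c) p * u j) ^ 2)]
  simp only [sq, sum_mul_sum]
  rw [sum_comm]
  refine sum_congr rfl fun j _ => ?_
  rw [sum_comm]
  have e : ∀ k, ∑ p : PI d, O.O (j, c) p * u j * (O.O (k, c) p * u k) =
      (if j = k then 1 else 0) * (u j * u k) := fun k => by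
    have := O.row (j, c) (k, c)
    simp only [Prod.mk.injEq, and_true] at this
    rw [← this, sum_mul]
    exact sum_congr rfl fun _ _ => by ring
  simp [e]

theorem sq_B (u : Fin d → ℝ) : ∑ i, ∑ a, O.B i u a ^ 2 = ∑ j, u j ^ 2 := O.frame 0 u

theorem pen_nonneg (z : PI d → ℝ) : 0 ≤ O.pen z := wsq_nonneg _

theorem pen_le (z : PI d → ℝ) : O.pen z ≤ ∑ p, z p ^ 2 := by
  rw [← sq_wh, sum_PI]
  exact le_add_of_nonneg_left (sum_nonneg fun _ _ => sq_nonneg _)

theorem norm_B (i : Fin d) (u : Fin d → ℝ) : ‖O.B i u‖ ≤ d * ‖u‖ := by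
  refine (pi_norm_le_iff_of_nonneg (by positivity)).2 fun a => (abs_sum_le_sum_abs _ _).trans ?_
  simpa using sum_le_card_nsmul univ (fun j => |O.O (j, 0) (i, a) * u j|) ‖u‖ fun j _ => by
    rw [abs_mul]
    exact (mul_le_of_le_one_left (abs_nonneg _) (O.abs_O _ _)).trans (norm_le_pi_norm u j)

theorem norm_wh (z : PI d → ℝ) : ‖O.wh z‖ ≤ 2 * d * ‖z‖ := by
  refine (pi_norm_le_iff_of_nonneg (by positivity)).2 fun p => (abs_sum_le_sum_abs _ _).trans ?_
  have := sum_le_card_nsmul univ (fun q => |O.O p q * z q|) ‖z‖ fun q _ => by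
    rw [abs_mul]
    exact (mul_le_of_le_one_left (abs_nonneg _) (O.abs_O _ _)).trans (norm_le_pi_norm z q)
  simpa [mul_comm (d : ℝ) 2] using this

theorem PG_port (i : Fin d) (a : Fin 2) : PG fun y => O.port i y a :=
  PG.sum _ fun p _ => (PG.coord p).cmul _

theorem PG_B (i : Fin d) (a : Fin 2) : PG fun u => O.B i u a :=
  PG.sum _ fun p _ => (PG.coord p).cmul _

end Node

theorem vx_B {d : ℕ} {c : ℝ} {σ : Matrix (Fin d) (Fin d) ℝ} (h : NoBack c σ) (i : Fin d)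
    (u : Fin d → ℝ) (a : Fin 2) :
    (vx h).B i u a = (u i + (if a = 0 then 1 else -1) * ∑ j, σ i j * u j) / 2 := by
  simp only [Node.B, vx, vxO_apply, fun j => h.1.apply i j, div_mul_eq_mul_div, add_mul, ← sum_div,
    sum_add_distrib, mul_assoc, ← mul_sum, eq_comm (a := (0 : Fin 2))]
  simp

theorem ed_B0 (θ : ℝ) (u : Fin 2 → ℝ) (a : Fin 2) : (ed θ).B 0 u a = u a / √2 := by
  fin_cases a <;> simp [Node.B, ed, edO_apply, div_mul_eq_mul_div]

theorem ed_B1 (θ : ℝ) (u : Fin 2 → ℝ) (a : Fin 2) : (ed θ).B 1 u a = (rf θ *ᵥ u) a / √2 := by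
  fin_cases a <;> simp [Node.B, ed, edO_apply, rf, Matrix.mulVec, dotProduct] <;> ring

theorem rf_sq (θ : ℝ) : rf θ * rf θ = 1 := by
  have h' := sin_sq_add_cos_sq θ
  ext a b
  fin_cases a <;> fin_cases b <;> simp [rf, Matrix.mul_apply] <;> nlinarith

namespace LL
variable {ι : Type} (μ : LL ι)

theorem E_mono {f g : (ι → ℤ) → ℝ} (h : ∀ s, f s ≤ g s) : μ.E f ≤ μ.E g :=
  sum_le_sum fun s hs => mul_le_mul_of_nonneg_left (h s) (μ.pos s hs).le

theorem E_const (c : ℝ) : μ.E (fun _ => c) = c := by rw [E, ← sum_mul, μ.one, one_mul]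

theorem E_add (f g : (ι → ℤ) → ℝ) : μ.E (fun s => f s + g s) = μ.E f + μ.E g := by
  simp only [E, mul_add, sum_add_distrib]

theorem E_mul (c : ℝ) (f : (ι → ℤ) → ℝ) : μ.E (fun s => c * f s) = c * μ.E f := by
  simp only [E, mul_sum, mul_left_comm]

theorem E_sum {α : Type} (t : Finset α) (f : α → (ι → ℤ) → ℝ) :
    μ.E (fun s => ∑ a ∈ t, f a s) = ∑ a ∈ t, μ.E (f a) := by
  simp only [E, mul_sum]; rw [sum_comm]

theorem E_nonneg {f : (ι → ℤ) → ℝ} (h : ∀ s, 0 ≤ f s) : 0 ≤ μ.E f :=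
  sum_nonneg fun s hs => mul_nonneg (μ.pos s hs).le (h s)

/-- the points of the finer lattice are close to the points of the lattice -/
theorem mix_le [Fintype ι] {δ : ℝ} (hδ : 0 ≤ δ) (K : ℕ) {f : (ι → ℝ) → ℝ} {g : (ι → ℤ) → ℝ}
    (h : ∀ s x, ‖x - rl δ s‖ ≤ δ → f x ≤ g s) : (μ.mix δ K).E f ≤ μ.E g := by
  have k : (μ.mix δ K).E f ≤ ∑ ω : μ.A × (ι → Fin (K + 1)),
      μ.p ω.1 / (K + 1) ^ Fintype.card ι * g ω.1 := by
    refine sum_le_sum fun ω _ => mul_le_mul_of_nonneg_left (h _ _ ?_) ((μ.mix δ K).p0 ω)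
    refine (pi_norm_le_iff_of_nonneg hδ).2 fun o => ?_
    have e : ((μ.mix δ K).x ω - rl δ ω.1.1) o = δ * ((ω.2 o : ℕ) / (K + 1 : ℝ)) := by
      simp only [mix, rl, Pi.sub_apply]; ring
    have b : ((ω.2 o : ℕ) : ℝ) / (K + 1 : ℝ) ≤ 1 := by
      rw [div_le_one (by positivity)]
      exact_mod_cast (ω.2 o).2.le
    rw [e, Real.norm_eq_abs, abs_of_nonneg (by positivity)]
    exact mul_le_of_le_one_right hδ b
  refine k.trans (le_of_eq ?_)
  simp only [Fintype.sum_prod_type, sum_const, card_univ, Fintype.card_fun, Fintype.card_fin,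
    nsmul_eq_mul]
  rw [E, ← Finset.sum_coe_sort μ.A]
  refine sum_congr rfl fun s _ => ?_
  push_cast
  field_simp

end LL

theorem at1_rl {d : ℕ} (δ : ℝ) (s : PI d → ℤ) (i : Fin d) : at1 (rl δ s) i = rl δ (at1 s i) := rfl

theorem vst_rl {d N : ℕ} (δ : ℝ) (φ : HI d N → ℤ) (v : Fin N) : vst (rl δ φ) v = rl δ (vst φ v) := rfl

theorem est_rl {d N m : ℕ} (g : Glue d N m) (δ : ℝ) (φ : HI d N → ℤ) (e : Fin m) :
    est g (rl δ φ) e = rl δ (est g φ e) := rfl

/-- a sum over ports, seen from the vertices -/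
theorem sum_vst {α : Type} {d N : ℕ} (z : HI d N → α) (f : (Fin 2 → α) → ℝ) :
    ∑ v, ∑ i, f (at1 (vst z v) i) = ∑ h : Fin N × Fin d, f fun a => z (h, a) :=
  (Fintype.sum_prod_type (f := fun h : Fin N × Fin d => f fun a => z (h, a))).symm

/-- a sum over ports, seen from the edges -/
theorem sum_est {α : Type} {d N m : ℕ} (g : Glue d N m) (z : HI d N → α) (f : (Fin 2 → α) → ℝ) :
    ∑ e, ∑ i, f (at1 (est g z e) i) = ∑ h : Fin N × Fin d, f fun a => z (h, a) := by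
  rw [← Equiv.sum_comp g.symm, Fintype.sum_prod_type]
  rfl

theorem cfg_apply {d N m : ℕ} (g : Glue d N m) (h : Fin N × Fin d) :
    cfg g h = g.symm ((g h).1, (g h).2.rev) := rfl

theorem cfg_mem {d N m : ℕ} (g : Glue d N m) : cfg g ∈ Cf d N := by
  refine mem_Cf.2 fun h => ⟨by simp [cfg_apply], fun e => ?_⟩
  rw [cfg_apply, Equiv.symm_apply_eq] at e
  have := congrArg Prod.snd e
  revert this
  generalize (g h).2 = a
  fin_cases a <;> simp

end Pool.Agent.P.MP_6b977f_mp.QG
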