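import Pool.Agent.P.MP_6b977f_mp.QG.Defs
import Pool.Agent.P.MP_6b977f_mp.RG.IfaceB
import Pool.Agent.P.MP_6b977f_mp.RG.IfaceA

/-! Nodes, lattice laws, the entropy functional, the matrices of a glued system. -/

namespace Pool.Agent.P.MP_6b977f_mp.QG

open Finset MeasureTheory Real Matrix RG
open scoped Classical

/-! ### nodes -/

/-- coordinates at a node with `d` ports: `(i, a)` is coordinate `a` at port `i`; after
whitening `(j, 0)` are the coordinates `u` of a solution and `(j, 1)` the defects `w` -/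
abbrev PI (d : ℕ) := Fin d × Fin 2

/-- an orthogonal change of coordinates whose blocks are isotropic -/
structure Node (d : ℕ) where
  O : Matrix (PI d) (PI d) ℝ
  o1 : O * Oᵀ = 1
  o2 : ∀ i a b, ∑ j, O (j, 0) (i, a) * O (j, 0) (i, b) = if a = b then 1 / 2 else 0

/-- the coordinates `u` -/
def up {d : ℕ} (y : PI d → ℝ) : Fin d → ℝ := fun j => y (j, 0)

/-- the squared norm of the defects -/
def wsq {d : ℕ} (y : PI d → ℝ) : ℝ := ∑ j, y (j, 1) ^ 2

/-- the data at one port -/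
def at1 {α : Type} {d : ℕ} (s : PI d → α) (i : Fin d) : Fin 2 → α := fun a => s (i, a)

/-- variances at a node -/
def vn (d : ℕ) (κ t : ℝ) : PI d → ℝ := fun p => if p.2 = 0 then κ ^ 2 + t else κ ^ 2

/-- variances at a port -/
noncomputable def vq (κ t : ℝ) : Fin 2 → ℝ := fun _ => κ ^ 2 + t / 2

namespace Node
variable {d : ℕ} (O : Node d)

/-- from port data to whitened coordinates -/
noncomputable def wh (z : PI d → ℝ) : PI d → ℝ := O.O *ᵥ z

/-- from whitened coordinates to the data at port `i` -/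
noncomputable def port (i : Fin d) (y : PI d → ℝ) : Fin 2 → ℝ := fun a => ∑ p, O.O p (i, a) * y p

/-- the data at port `i` of the solution with coordinates `u` -/
noncomputable def B (i : Fin d) (u : Fin d → ℝ) : Fin 2 → ℝ := fun a => ∑ j, O.O (j, 0) (i, a) * u j

/-- the penalty -/
noncomputable def pen (z : PI d → ℝ) : ℝ := wsq (O.wh z)

/-- the part of the node score that is not a function of the port -/
noncomputable def df (m : Mix (PI d)) (q : Mix (Fin 2)) (κ t : ℝ) (i : Fin d) (a : Fin 2)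
    (y : PI d → ℝ) : ℝ :=
  O.B i (fun j => m.sc (vn d κ t) (j, 0) y) a - q.sc (vq κ t) a (O.port i y) / 2

/-- the deficit of one node -/
noncomputable def D1 (m : Mix (PI d)) (q : Mix (Fin 2)) (κ t : ℝ) : ℝ :=
  ∑ i, ∑ a, m.Ex (vn d κ t) fun y => O.df m q κ t i a y ^ 2

/-- the hypotheses of the stability statements -/
structure Stab (m : Mix (PI d)) (q : Mix (Fin 2)) (κ t ε L : ℝ) : Prop where
  k0 : 0 < κ
  k1 : κ ≤ 1
  k2 : κ ^ 2 ≤ ε
  t1 : 2 < t
  t2 : t < 3
  dd : O.D1 m q κ t ≤ ε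
  om : m.E wsq ≤ ε
  mom : m.E (fun y => ‖y‖ ^ 2) ≤ L
  moq : q.E (fun y => ‖y‖ ^ 2) ≤ L

end Node

/-- the reflection that carries the data at one end of an edge to the other end -/
noncomputable def rf (θ : ℝ) : Matrix (Fin 2) (Fin 2) ℝ := !![cos θ, sin θ; sin θ, -cos θ]

theorem NoBack.mul {d : ℕ} {c : ℝ} {σ : Matrix (Fin d) (Fin d) ℝ} (h : NoBack c σ) (i k : Fin d)
    (s t : ℝ) : ∑ j, ((if i = j then 1 else 0) + s * σ i j) / 2 *
      (((if k = j then 1 else 0) + t * σ k j) / 2) =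
        ((1 + s * t) * (if i = k then 1 else 0) + (s + t) * σ i k) / 4 := by
  have h2 : ∑ j, σ i j * σ k j = if i = k then 1 else 0 := by
    rw [← Matrix.one_apply, ← h.2.1, Matrix.mul_apply]
    exact sum_congr rfl fun j _ => by rw [h.1.apply j k]
  have e : ∀ j, ((if i = j then 1 else 0) + s * σ i j) / 2 *
      (((if k = j then 1 else 0) + t * σ k j) / 2) =
      ((if i = j then 1 else 0) * ((if k = j then 1 else 0) + t * σ k j) +
        s * (σ i j * if k = j then 1 else 0) + s * t * (σ i j * σ k j)) / 4 := fun j => by ring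
  simp only [e, ← sum_div, sum_add_distrib, ← mul_sum, h2]
  simp only [ite_mul, one_mul, zero_mul, mul_ite, mul_one, mul_zero, sum_ite_eq, mem_univ, if_true]
  rw [h.1.apply i k]
  by_cases hik : i = k
  · subst hik; simp; ring
  · simp [hik, Ne.symm hik]; ring

/-- the matrix of a vertex -/
noncomputable def vxO {d : ℕ} (σ : Matrix (Fin d) (Fin d) ℝ) : Matrix (PI d) (PI d) ℝ :=
  Matrix.of fun p q =>
    ((if p.1 = q.1 then 1 else 0) + (if p.2 = q.2 then 1 else -1) * σ p.1 q.1) / 2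

theorem vxO_apply {d : ℕ} (σ : Matrix (Fin d) (Fin d) ℝ) (i j : Fin d) (a b : Fin 2) :
    vxO σ (i, a) (j, b) = ((if i = j then 1 else 0) + (if a = b then 1 else -1) * σ i j) / 2 := rfl

/-- the node of a vertex -/
noncomputable def vx {d : ℕ} {c : ℝ} {σ : Matrix (Fin d) (Fin d) ℝ} (h : NoBack c σ) : Node d where
  O := vxO σ
  o1 := by
    ext ⟨i, a⟩ ⟨k, b⟩
    rw [Matrix.mul_apply, Fintype.sum_prod_type_right, Fin.sum_univ_two]
    simp only [Matrix.transpose_apply, vxO_apply]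
    rw [h.mul, h.mul]
    by_cases hik : i = k <;> fin_cases a <;> fin_cases b <;> simp [Matrix.one_apply, hik] <;> ring
  o2 := by
    intro i a b
    have := h.mul i i (if 0 = a then 1 else -1) (if 0 = b then 1 else -1)
    simp only [vxO_apply, fun j => h.1.apply i j, eq_comm (b := i)]
    rw [this, h.2.2.1]
    fin_cases a <;> fin_cases b <;> simp <;> norm_num

/-- the matrix of an edge -/
noncomputable def edO (θ : ℝ) : Matrix (PI 2) (PI 2) ℝ :=
  Matrix.of fun p q => (if q.1 = 0 then (if p.1 = q.2 then 1 else 0) else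
    (if p.2 = 0 then 1 else -1) * rf θ p.1 q.2) / √2

theorem edO_apply (θ : ℝ) (j c i a : Fin 2) : edO θ (j, c) (i, a) =
    (if i = 0 then (if j = a then 1 else 0) else (if c = 0 then 1 else -1) * rf θ j a) / √2 := rfl

/-- the node of an edge -/
noncomputable def ed (θ : ℝ) : Node 2 where
  O := edO θ
  o1 := by
    have h : (√2 : ℝ) * √2 = 2 := mul_self_sqrt (by norm_num)
    have h' := sin_sq_add_cos_sq θ
    ext ⟨i, a⟩ ⟨k, b⟩
    simp only [Matrix.mul_apply, Matrix.transpose_apply, edO_apply, Fintype.sum_prod_type,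
      Fin.sum_univ_two, div_mul_div_comm, h]
    fin_cases i <;> fin_cases a <;> fin_cases k <;> fin_cases b <;> simp [rf] <;> nlinarith
  o2 := by
    have h : (√2 : ℝ) * √2 = 2 := mul_self_sqrt (by norm_num)
    have h' := sin_sq_add_cos_sq θ
    intro i a b
    simp only [edO_apply, Fin.sum_univ_two, div_mul_div_comm, h]
    fin_cases i <;> fin_cases a <;> fin_cases b <;> simp [rf] <;> nlinarith

/-! ### families of nodes -/

section side
variable {n d : ℕ} (O : Fin n → Node d) (m : Fin n → Mix (PI d)) (q : Mix (Fin 2))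

/-- `q` is the mean law of the ports -/
def Marg : Prop := ∀ g : (Fin 2 → ℝ) → ℝ,
  ∑ x, ∑ i, (m x).E (fun y => g ((O x).port i y)) = n * d * q.E g

/-- the entropy functional along the flow -/
noncomputable def PhiS (κ t : ℝ) : ℝ := ∑ x, (m x).ent (vn d κ t) - n * d / 2 * q.ent (vq κ t)

/-- the deficit -/
noncomputable def DS (κ t : ℝ) : ℝ := ∑ x, (O x).D1 (m x) q κ t

end side

/-- the score is nearly linear on the square of radius `T` -/
def NL2 (q : Mix (Fin 2)) (v θ s T : ℝ) : Prop :=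
  ∀ z : Fin 2 → ℝ, ‖z‖ ≤ T → ∀ a, |q.sc (fun _ => v) a z + θ * z a| ≤ s

/-! ### lattice laws -/

/-- a finitely supported law on integer vectors -/
structure LL (ι : Type) where
  A : Finset (ι → ℤ)
  p : (ι → ℤ) → ℝ
  pos : ∀ s ∈ A, 0 < p s
  one : ∑ s ∈ A, p s = 1

/-- the real vector of an integer vector -/
def rl {ι : Type} (δ : ℝ) (s : ι → ℤ) : ι → ℝ := fun o => δ * s o

namespace LL
variable {ι : Type} (μ : LL ι)

/-- expectation -/
noncomputable def E (g : (ι → ℤ) → ℝ) : ℝ := ∑ s ∈ μ.A, μ.p s * g s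

/-- entropy -/
noncomputable def H : ℝ := μ.E fun s => -log (μ.p s)

/-- the lattice law spread over a finer lattice -/
noncomputable def mix [Fintype ι] (δ : ℝ) (K : ℕ) : Mix ι where
  Ω := μ.A × (ι → Fin (K + 1))
  p ω := μ.p ω.1 / (K + 1) ^ Fintype.card ι
  p0 ω := div_nonneg (μ.pos _ ω.1.2).le (by positivity)
  p1 := by
    simp only [Fintype.sum_prod_type, sum_const, card_univ, Fintype.card_fun, Fintype.card_fin,
      nsmul_eq_mul]
    rw [← mul_sum, ← sum_div, Finset.sum_coe_sort μ.A μ.p, μ.one]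
    push_cast
    field_simp
  x ω := fun o => δ * (ω.1.1 o + (ω.2 o : ℕ) / (K + 1 : ℝ))

end LL

/-- `ν` is the mean law of the ports -/
def LMarg {n d : ℕ} (μ : Fin n → LL (PI d)) (ν : LL (Fin 2)) : Prop :=
  ∀ g : (Fin 2 → ℤ) → ℝ, ∑ x, ∑ i, (μ x).E (fun s => g (at1 s i)) = n * d * ν.E g

/-- the mixtures at the nodes, in whitened coordinates -/
noncomputable def mixS {n d : ℕ} (O : Fin n → Node d) (μ : Fin n → LL (PI d)) (δ : ℝ) (K : ℕ) :
    Fin n → Mix (PI d) := fun x => ((μ x).mix δ K).map (O x).wh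

/-- the mean penalty -/
noncomputable def penS {n d : ℕ} (O : Fin n → Node d) (μ : Fin n → LL (PI d)) (δ : ℝ) : ℝ :=
  ∑ x, (μ x).E fun s => (O x).pen (rl δ s)

/-- the mean penalty with the rounding error -/
noncomputable def penR {n d : ℕ} (O : Fin n → Node d) (μ : Fin n → LL (PI d)) (δ : ℝ) : ℝ :=
  ∑ x, (μ x).E fun s => (√((O x).pen (rl δ s)) + 2 * d * δ) ^ 2

/-- vertex matrices without back-scattering, and the count of ports -/
structure Sys (d N m : ℕ) (c : ℝ) where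
  σ : Fin N → Matrix (Fin d) (Fin d) ℝ
  hσ : ∀ v, NoBack c (σ v)
  hm : 2 * m = d * N

/-- laws at the vertices and at the edges with a common mean law of the ports -/
structure Fam (d N m : ℕ) where
  V : Fin N → LL (PI d)
  W : Fin m → LL (PI 2)
  ν : LL (Fin 2)
  mV : LMarg V ν
  mW : LMarg W ν

/-- the entropy of the nodes minus the entropy of the ports -/
noncomputable def Fam.Phi {d N m : ℕ} (F : Fam d N m) : ℝ :=
  ∑ v, (F.V v).H + ∑ e, (F.W e).H - N * d * F.ν.H

/-- the nodes of the edges -/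
noncomputable def eds {m : ℕ} (θ : Fin m → ℝ) : Fin m → Node 2 := fun e => ed (θ e)

/-- coordinates of a glued system -/
abbrev HI (d N : ℕ) := (Fin N × Fin d) × Fin 2

/-- the data at a vertex -/
def vst {α : Type} {d N : ℕ} (z : HI d N → α) (v : Fin N) : PI d → α := fun p => z ((v, p.1), p.2)

/-- the data at an edge -/
def est {α : Type} {d N m : ℕ} (g : Glue d N m) (z : HI d N → α) (e : Fin m) : PI 2 → α :=
  fun p => z (g.symm (e, p.1), p.2)

/-- the other end of an edge -/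
def sw {m : ℕ} : Equiv.Perm (Fin m × Fin 2) := Equiv.prodCongr (Equiv.refl _) Fin.revPerm

/-- the configuration of a gluing -/
def cfg {d N m : ℕ} (g : Glue d N m) : Cfg d N := g.trans (sw.trans g.symm)

/-- the involution of the edges -/
noncomputable def Ym {d N m : ℕ} (θ : Fin m → ℝ) (g : Glue d N m) : Matrix (HI d N) (HI d N) ℝ :=
  Matrix.of fun p q => if q.1 = cfg g p.1 then rf (θ (g p.1).1) p.2 q.2 else 0

/-- the amplitude at a port -/
noncomputable def am {d N : ℕ} (z : HI d N → ℝ) (h : Fin N × Fin d) : ℝ :=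
  √(z (h, 0) ^ 2 + z (h, 1) ^ 2)

/-- the number of vertices with a port of amplitude above `t` -/
noncomputable def nv {d N : ℕ} (z : HI d N → ℝ) (t : ℝ) : ℝ :=
  #(univ.filter fun v : Fin N => ∃ i, t < am z (v, i))

namespace Sys
variable {d N m : ℕ} {c : ℝ} (S : Sys d N m c)

/-- the nodes of the vertices -/
noncomputable def vs : Fin N → Node d := fun v => vx (S.hσ v)

/-- the gap in the entropy inequality -/
noncomputable def gap (θ : Fin m → ℝ) (F : Fam d N m) (δ η : ℝ) : ℝ :=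
  N * d * (log 2 + log (2 * π * η ^ 2) - 2 * log δ) +
    (penR S.vs F.V δ + penR (eds θ) F.W δ) / (2 * η ^ 2) - F.Phi

/-- the involution of the vertices -/
noncomputable def Xm : Matrix (HI d N) (HI d N) ℝ := Matrix.of fun p q =>
  if p.1.1 = q.1.1 ∧ p.2 = q.2 then (if p.2 = 0 then 1 else -1) * S.σ p.1.1 p.1.2 q.1.2 else 0

/-- the matrix of the penalty -/
noncomputable def Qm (θ : Fin m → ℝ) (g : Glue d N m) : Matrix (HI d N) (HI d N) ℝ :=
  1 - (1 / 2 : ℝ) • (S.Xm + Ym θ g)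

/-- the total penalty -/
noncomputable def pen (θ : Fin m → ℝ) (g : Glue d N m) (z : HI d N → ℝ) : ℝ :=
  ∑ v, (S.vs v).pen (vst z v) + ∑ e, (eds θ e).pen (est g z e)

/-- the logarithm of the determinant -/
noncomputable def LD (θ : Fin m → ℝ) (g : Glue d N m) (γ : ℝ) : ℝ :=
  log (S.Qm θ g + γ ^ 2 • 1).det / (2 * N)

/-- the determinant is not too large -/
def Good (θ : Fin m → ℝ) (a : ℝ) (g : Glue d N m) : Prop :=
  ∃ γ : ℝ, (N : ℝ) ^ (-(2 * a)) ≤ γ ∧ S.LD θ g γ ≤ -(d * log 2) + (N : ℝ) ^ (-a)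

/-- exact solutions -/
def Sol (θ : Fin m → ℝ) (g : Glue d N m) (z : HI d N → ℝ) : Prop :=
  (∀ v i, ∑ j, S.σ v i j * z ((v, j), 0) = z ((v, i), 0) ∧
    ∑ j, S.σ v i j * z ((v, j), 1) = -z ((v, i), 1)) ∧
  ∀ e, at1 (est g z e) 1 = rf (θ e) *ᵥ at1 (est g z e) 0

end Sys

/-- the value at `x` of the solution with data `z` at the origin -/
noncomputable def f0 (k : ℝ) (z : Fin 2 → ℝ) (x : ℝ) : ℝ := z 0 * cos (k * x) + z 1 * sin (k * x)

/-- its derivative divided by `k` -/
noncomputable def f1 (k : ℝ) (z : Fin 2 → ℝ) (x : ℝ) : ℝ := z 1 * cos (k * x) - z 0 * sin (k * x)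

/-- the integral of the square over an edge -/
noncomputable def sq1 (k l : ℝ) (z : Fin 2 → ℝ) : ℝ := ∫ x in (0 : ℝ)..l, f0 k z x ^ 2

/-- the integral of the character over an edge -/
noncomputable def ch1 (k l s t : ℝ) (z : Fin 2 → ℝ) : ℂ :=
  ∫ x in (0 : ℝ)..l, Complex.exp (Complex.I * (s * f0 k z x + t * f1 k z x : ℝ))

/-- the defect of the empirical characteristic function -/
noncomputable def dch {d N m : ℕ} (L : Fin m → ℝ) (k s t : ℝ) (g : Glue d N m) (z : HI d N → ℝ) : ℂ :=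
  (∑ e, ch1 k (L e) s t (at1 (est g z e) 0)) / (∑ e, L e : ℝ) - (exp (-(s ^ 2 + t ^ 2) / 2) : ℝ)

/-- normalised solutions -/
def Sys.Eig {d N m : ℕ} {c : ℝ} (S : Sys d N m c) (L : Fin m → ℝ) (k : ℝ) (g : Glue d N m)
    (z : HI d N → ℝ) : Prop :=
  S.Sol (fun e => k * L e) g z ∧ ∑ e, sq1 k (L e) (at1 (est g z e) 0) = ∑ e, L e

/-- the conclusion in terms of the data at the ports -/
def Sys.BerryZ {d N m : ℕ} {c : ℝ} (S : Sys d N m c) (L : Fin m → ℝ) (K W κ R ε : ℝ)
    (g : Glue d N m) : Prop :=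
  ∀ (k : ℝ) (z : HI d N → ℝ), K ≤ k → k ≤ K + W → κ * m ≤ ∑ e, sin (k * L e) ^ 2 → S.Eig L k g z →
    ∀ s t : ℝ, |s| + |t| ≤ R → ‖dch L k s t g z‖ ≤ ε

/-- the matrix of the quadratic form `sq1` -/
noncomputable def Km (k l : ℝ) (a b : Fin 2) : ℝ :=
  ∫ x in (0 : ℝ)..l, ![cos (k * x), sin (k * x)] a * ![cos (k * x), sin (k * x)] b

/-- the characteristic function of the data at the origin of an edge -/
noncomputable def LL.ch0 (μ : LL (PI 2)) (δ : ℝ) (ξ : Fin 2 → ℝ) : ℂ :=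
  ∑ s ∈ μ.A, (μ.p s : ℂ) * Complex.exp (Complex.I * (∑ a, ξ a * rl δ (at1 s 0) a : ℝ))

/-- the hypotheses on a family with a small gap -/
structure Sys.Hyp {d N m : ℕ} {c : ℝ} (S : Sys d N m c) (θ : Fin m → ℝ) (F : Fam d N m)
    (δ η ε κ0 L : ℝ) : Prop where
  n1 : 1 ≤ N
  nd : κ0 * m ≤ ∑ e, sin (θ e) ^ 2
  d0 : 0 < δ
  d1 : δ ≤ ε
  e0 : 0 < η
  gp : S.gap θ F δ η ≤ ε * N
  pn : penS S.vs F.V δ + penS (eds θ) F.W δ ≤ ε * N
  mo : F.ν.E (fun s => ‖rl δ s‖ ^ 2) ≤ L

/-- linear constraints on an integer vector -/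
def Con {d N m : ℕ} {K : Type} (g1 : K → Fin N → (PI d → ℤ) → ℝ) (g2 : K → Fin m → (PI 2 → ℤ) → ℝ)
    (b : K → ℝ) (g : Glue d N m) (φ : HI d N → ℤ) : Prop :=
  ∀ k, ∑ v, g1 k v (vst φ v) + ∑ e, g2 k e (est g φ e) ≤ b k

/-- the same constraints on a family of laws -/
def Fam.Con {d N m : ℕ} {K : Type} (F : Fam d N m) (g1 : K → Fin N → (PI d → ℤ) → ℝ)
    (g2 : K → Fin m → (PI 2 → ℤ) → ℝ) (b : K → ℝ) : Prop :=
  ∀ k, ∑ v, (F.V v).E (g1 k v) + ∑ e, (F.W e).E (g2 k e) ≤ b k

end Pool.Agent.P.MP_6b977f_mp.QG
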