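import Mathlib

/-! Quantum graphs without back-scattering and the one-dimensional random wave. -/

namespace Pool.Agent.P.MP_6b977f_mp.QG

open Finset
open scoped Classical

/-- a real symmetric vertex scattering matrix with square one, without back-scattering and
without full transmission -/
def NoBack {d : ℕ} (c : ℝ) (σ : Matrix (Fin d) (Fin d) ℝ) : Prop :=
  σ.IsSymm ∧ σ * σ = 1 ∧ (∀ i, σ i i = 0) ∧ ∀ i j, |σ i j| ≤ 1 - c

/-- the ways to attach the two ends of `m` edges to the `d` ports of `N` vertices -/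
abbrev Glue (d N m : ℕ) := Fin N × Fin d ≃ Fin m × Fin 2

/-- the value of `f` at an end of an edge; edge `e` is the interval `[0, L e]` -/
def val {m : ℕ} (L : Fin m → ℝ) (f : Fin m → ℝ → ℝ) (a : Fin m × Fin 2) : ℝ :=
  if a.2 = 0 then f a.1 0 else f a.1 (L a.1)

/-- the derivative of `f` at an end of an edge, in the direction into the edge -/
noncomputable def der {m : ℕ} (L : Fin m → ℝ) (f : Fin m → ℝ → ℝ) (a : Fin m × Fin 2) : ℝ :=
  if a.2 = 0 then deriv (f a.1) 0 else -deriv (f a.1) (L a.1)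

/-- `f` is a real eigenfunction with eigenvalue `k ^ 2`, and the mean of its square is one -/
def Eigen {d N m : ℕ} (σ : Fin N → Matrix (Fin d) (Fin d) ℝ) (L : Fin m → ℝ) (g : Glue d N m)
    (k : ℝ) (f : Fin m → ℝ → ℝ) : Prop :=
  (∀ e, ContDiff ℝ 2 (f e) ∧ ∀ x ∈ Set.Icc 0 (L e), deriv (deriv (f e)) x = -k ^ 2 * f e x) ∧
  (∀ v i, ∑ j, σ v i j * val L f (g (v, j)) = val L f (g (v, i)) ∧
    ∑ j, σ v i j * der L f (g (v, j)) = -der L f (g (v, i))) ∧
  ∑ e, ∫ x in (0 : ℝ)..L e, f e x ^ 2 = ∑ e, L e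

/-- at a uniform point `x` of the graph the pair `(f x, f' x / k)` is close to a standard
Gaussian vector -/
def Wave {m : ℕ} (L : Fin m → ℝ) (k : ℝ) (f : Fin m → ℝ → ℝ) (R ε : ℝ) : Prop :=
  ∀ s t : ℝ, |s| + |t| ≤ R →
    ‖(∑ e, ∫ x in (0 : ℝ)..L e, Complex.exp (Complex.I * (s * f e x + t * (deriv (f e) x / k) : ℝ))) /
        (∑ e, L e : ℝ) - (Real.exp (-(s ^ 2 + t ^ 2) / 2) : ℝ)‖ ≤ ε

/-- every eigenfunction in the window, away from the Dirichlet resonances, is close to the wave -/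
def Berry {d N m : ℕ} (σ : Fin N → Matrix (Fin d) (Fin d) ℝ) (L : Fin m → ℝ) (K W κ R ε : ℝ)
    (g : Glue d N m) : Prop :=
  ∀ (k : ℝ) (f : Fin m → ℝ → ℝ), K ≤ k → k ≤ K + W → κ * m ≤ ∑ e, Real.sin (k * L e) ^ 2 →
    Eigen σ L g k f → Wave L k f R ε

end Pool.Agent.P.MP_6b977f_mp.QG
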