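import Pool.Agent.P.MP_6b977f_mp.QG.Defs

/-! Eigenbases of a quantum graph and the density of the eigenfunctions far from the wave. -/

namespace Pool.Agent.P.MP_6b977f_mp.QG

open Finset MeasureTheory
open scoped Classical

/-- a complete orthogonal system of normalised eigenfunctions, by non-decreasing frequency -/
structure EBasis {d N m : ℕ} (σ : Fin N → Matrix (Fin d) (Fin d) ℝ) (L : Fin m → ℝ) (g : Glue d N m)
    (k : ℕ → ℝ) (f : ℕ → Fin m → ℝ → ℝ) : Prop where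
  eig : ∀ n, 0 ≤ k n ∧ Eigen σ L g (k n) (f n)
  orth : ∀ i j, i ≠ j → ∑ e, ∫ x in (0 : ℝ)..L e, f i e x * f j e x = 0
  complete : ∀ h : Fin m → ℝ → ℝ, (∀ e, MemLp (h e) 2 (volume.restrict (Set.Ioo 0 (L e)))) →
    (∀ n, ∑ e, ∫ x in (0 : ℝ)..L e, h e x * f n e x = 0) →
    ∀ e, h e =ᵐ[volume.restrict (Set.Ioo 0 (L e))] 0
  mono : Monotone k

/-- an eigenbasis exists, and in every eigenbasis the eigenfunctions that are not close to the
wave have upper density at most `ε` -/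
def Dens {d N m : ℕ} (σ : Fin N → Matrix (Fin d) (Fin d) ℝ) (L : Fin m → ℝ) (R ε : ℝ)
    (g : Glue d N m) : Prop :=
  (∃ k f, EBasis σ L g k f) ∧ ∀ k f, EBasis σ L g k f → ∃ M0 : ℕ, ∀ M, M0 ≤ M →
    (#((range M).filter fun n => ¬ Wave L (k n) (f n) R ε) : ℝ) ≤ ε * M

end Pool.Agent.P.MP_6b977f_mp.QG
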