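import Pool.Agent.P.MP_6b977f_mp.QG.Defs

/-! A vertex matrix without back-scattering in degree four. -/

namespace Pool.Agent.P.MP_6b977f_mp.QG

theorem noBack_four : NoBack (1 / 5) (!![0, 0, 3 / 5, 4 / 5; 0, 0, 4 / 5, -3 / 5;
    3 / 5, 4 / 5, 0, 0; 4 / 5, -3 / 5, 0, 0] : Matrix (Fin 4) (Fin 4) ℝ) := by
  refine ⟨?_, ?_, fun i => ?_, fun i j => ?_⟩
  · ext i j; fin_cases i <;> fin_cases j <;> simp
  · ext i j; fin_cases i <;> fin_cases j <;> simp [Matrix.mul_apply, Fin.sum_univ_four] <;> norm_num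
  · fin_cases i <;> simp
  · fin_cases i <;> fin_cases j <;> simp [abs_le] <;> norm_num

end Pool.Agent.P.MP_6b977f_mp.QG
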