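import Pool.Agent.P.MP_6b977f_mp.QG.IfaceC
import Pool.Agent.P.MP_6b977f_mp.QG.DefsB

/-! Statements for the form with eigenbases. -/

namespace Pool.Agent.P.MP_6b977f_mp.QG

open Finset MeasureTheory Real Matrix RG Filter
open scoped Classical

/-- the normalised cosines of the interval `[0, l]` -/
noncomputable def cs (l : ℝ) (n : ℕ) (x : ℝ) : ℝ :=
  √((if n = 0 then 1 else 2) / l) * cos (n * π / l * x)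

/-- the scalar product on the graph -/
noncomputable def ip {m : ℕ} (L : Fin m → ℝ) (f h : Fin m → ℝ → ℝ) : ℝ :=
  ∑ e, ∫ x in (0 : ℝ)..L e, f e x * h e x

-- deps:
def S_EX1 : Prop := ∀ (ι P : Type) [Fintype P] (lam : ι → ℝ) (u : P → ι → ℝ), Infinite ι →
  (∀ a, 0 ≤ lam a) → (∀ t, {a | lam a ≤ t}.Finite) →
  (∀ p, Summable fun a => u p a ^ 2 / (1 + lam a)) →
  (∀ c : P → ℝ, (Summable fun a => (∑ p, c p * u p a) ^ 2) → ∀ a, ∑ p, c p * u p a = 0) →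
  ∃ (κ : ℕ → ℝ) (x : ℕ → ι → ℝ), Monotone κ ∧ (∀ j, 0 ≤ κ j) ∧
    (∀ i j, HasSum (fun a => x i a * x j a) (if i = j then 1 else 0)) ∧
    (∀ y : ι → ℝ, (Summable fun a => y a ^ 2) → (∀ j, HasSum (fun a => y a * x j a) 0) → y = 0) ∧
    ∀ j, (∀ p, HasSum (fun a => u p a * x j a) 0) ∧
      ∃ c : P → ℝ, ∀ a, (lam a - κ j) * x j a = ∑ p, c p * u p a

-- deps:
def S_COS : Prop := ∀ l : ℝ, 0 < l →
  (∀ h : ℝ → ℝ, MemLp h 2 (volume.restrict (Set.Ioo 0 l)) →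
    (∀ n, ∫ x in (0 : ℝ)..l, h x * cs l n x = 0) → h =ᵐ[volume.restrict (Set.Ioo 0 l)] 0) ∧
  ∀ i j, ∫ x in (0 : ℝ)..l, cs l i x * cs l j x = if i = j then 1 else 0

-- deps: COS
def S_COP : Prop := ∀ (l : ℝ) (h h' : ℝ → ℝ), 0 < l → MemLp h 2 (volume.restrict (Set.Ioo 0 l)) →
  MemLp h' 2 (volume.restrict (Set.Ioo 0 l)) →
  HasSum (fun n => (∫ x in (0 : ℝ)..l, h x * cs l n x) * ∫ x in (0 : ℝ)..l, h' x * cs l n x)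
    (∫ x in (0 : ℝ)..l, h x * h' x)

-- deps: COS
def S_END : Prop := ∀ (l : ℝ) (f : ℝ → ℝ), 0 < l → Continuous f →
  (Summable fun n => |∫ x in (0 : ℝ)..l, f x * cs l n x|) → ∀ y ∈ Set.Icc 0 l,
  HasSum (fun n => (∫ x in (0 : ℝ)..l, f x * cs l n x) * cs l n y) (f y)

-- deps: COS END
def S_EX2 : Prop := ∀ (l k α β : ℝ) (x : ℕ → ℝ), 0 < l → 0 ≤ k →
  (∀ n : ℕ, ((n * π / l) ^ 2 - k ^ 2) * x n = -(α * cs l n 0 + β * cs l n l)) →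
  ∃ f : ℝ → ℝ, ContDiff ℝ 2 f ∧ (∀ y, deriv (deriv f) y = -k ^ 2 * f y) ∧ deriv f 0 = α ∧
    -deriv f l = β ∧ (∀ n, ∫ y in (0 : ℝ)..l, f y * cs l n y = x n) ∧
    HasSum (fun n => x n * cs l n 0) (f 0) ∧ HasSum (fun n => x n * cs l n l) (f l)

-- deps: EX1 COS COP EX2
def S_EXB : Prop := ∀ (d N m : ℕ) (c : ℝ) (S : Sys d N m c) (L : Fin m → ℝ) (g : Glue d N m),
  1 ≤ m → (∀ e, 0 < L e) → ∃ k f, EBasis S.σ L g k f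

-- deps:
def S_PV : Prop := ∀ (m : ℕ) (L : Fin m → ℝ) (f : ℕ → Fin m → ℝ → ℝ) (G : ℝ), (∀ e, 0 < L e) →
  0 < G → (∀ n e, Continuous (f n e)) → (∀ i j, ip L (f i) (f j) = if i = j then G else 0) →
  (∀ h : Fin m → ℝ → ℝ, (∀ e, MemLp (h e) 2 (volume.restrict (Set.Ioo 0 (L e)))) →
    (∀ n, ip L h (f n) = 0) → ∀ e, h e =ᵐ[volume.restrict (Set.Ioo 0 (L e))] 0) →
  ∀ h : Fin m → ℝ → ℝ, (∀ e, Continuous (h e)) → HasSum (fun n => ip L h (f n) ^ 2 / G) (ip L h h)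

-- deps:
def S_BS : Prop := ∀ (d N m : ℕ) (c : ℝ) (S : Sys d N m c) (L : Fin m → ℝ) (g : Glue d N m)
  (k : ℕ → ℝ) (f : ℕ → Fin m → ℝ → ℝ) (h : Fin m → ℝ → ℝ) (s : Finset ℕ), 1 ≤ m → (∀ e, 0 < L e) →
  (∀ n, Eigen S.σ L g (k n) (f n)) → (∀ i j, i ≠ j → ip L (f i) (f j) = 0) →
  (∀ e, ContDiff ℝ 1 (h e) ∧ h e 0 = 0 ∧ h e (L e) = 0) →
  ∑ n ∈ s, k n ^ 2 * ip L h (f n) ^ 2 / ∑ e, L e ≤
    ip L (fun e => deriv (h e)) fun e => deriv (h e)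

-- deps:
def S_SN : Prop := ∀ (l T : ℝ) (J : ℕ) (a : Fin J → ℝ) (h : ℝ → ℝ), 0 < l → J * π / l ≤ T →
  (∀ x, h x = ∑ j, a j * sin ((j + 1) * π / l * x)) →
  ContDiff ℝ 1 h ∧ h 0 = 0 ∧ h l = 0 ∧ ∫ x in (0 : ℝ)..l, h x * h x = l / 2 * ∑ j, a j ^ 2 ∧
    ∫ x in (0 : ℝ)..l, deriv h x * deriv h x ≤ T ^ 2 * (l / 2 * ∑ j, a j ^ 2)

-- deps: PV BS SN
def S_WL : Prop := ∀ (d N m : ℕ) (c : ℝ) (S : Sys d N m c) (L : Fin m → ℝ) (g : Glue d N m)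
  (k : ℕ → ℝ) (f : ℕ → Fin m → ℝ → ℝ), 1 ≤ m → (∀ e, 0 < L e) → EBasis S.σ L g k f →
  ∀ M : ℕ, (∑ e, L e) * k M ≤ 2 * π * (M + m)

-- deps: DIM
def S_FIN : Prop := ∀ (d N m : ℕ) (c : ℝ) (S : Sys d N m c) (L : Fin m → ℝ) (g : Glue d N m)
  (Λ : ℝ) (k : ℕ → ℝ) (f : ℕ → Fin m → ℝ → ℝ), 1 ≤ m → (∀ e, 1 ≤ L e ∧ L e ≤ Λ) →
  EBasis S.σ L g k f → Tendsto k atTop atTop

-- deps: HIGH EXB WL FIN
def S_DENS : Prop := ∀ (d : ℕ) (c Λ R ε : ℝ), 3 ≤ d → 0 < c → 0 < ε →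
  ∃ N0 : ℕ, ∀ N : ℕ, N0 ≤ N → ∀ (m : ℕ) (σ : Fin N → Matrix (Fin d) (Fin d) ℝ) (L : Fin m → ℝ),
  2 * m = d * N → (∀ v, NoBack c (σ v)) → (∀ e, 1 ≤ L e ∧ L e ≤ Λ) →
  (#(univ.filter fun g : Glue d N m => ¬ Dens σ L R ε g) : ℝ) ≤ ε * Fintype.card (Glue d N m)

end Pool.Agent.P.MP_6b977f_mp.QG
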