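import Pool.Agent.P.MP_6b977f_mp.RG.IfaceA

/-! The characteristic function of a Gaussian mixture. -/

namespace Pool.Agent.P.MP_6b977f_mp.QG

open Finset MeasureTheory Real RG
open scoped Classical

namespace KCHx

open ProbabilityTheory

noncomputable def f (v ξ a u : ℝ) : ℂ := Complex.exp (Complex.I * (ξ * u : ℝ)) * (g1 v (u - a) : ℝ)

lemma g1_eq {v : ℝ} (hv : 0 < v) (a u : ℝ) : g1 v (u - a) = gaussianPDFReal a v.toNNReal u := by
  simp only [g1, gaussianPDFReal, Real.coe_toNNReal _ hv.le]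
  rw [div_eq_inv_mul]

lemma f_int {v : ℝ} (hv : 0 < v) (ξ a : ℝ) : Integrable (f v ξ a) := by
  unfold f
  refine Integrable.bdd_mul (c := 1) ?_ (by fun_prop) (Filter.Eventually.of_forall fun u => ?_)
  · simp only [g1_eq hv]
    exact (integrable_gaussianPDFReal a v.toNNReal).ofReal
  · rw [mul_comm, Complex.norm_exp_ofReal_mul_I]

lemma f_val {v : ℝ} (hv : 0 < v) (ξ a : ℝ) : ∫ u, f v ξ a u =
    Complex.exp (Complex.I * (ξ * a : ℝ)) * (exp (-(v * ξ ^ 2) / 2) : ℝ) := by
  have h := charFun_gaussianReal (μ := a) (v := v.toNNReal) ξ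
  rw [charFun_apply_real, integral_gaussianReal_eq_integral_smul
    (by simpa using hv)] at h
  have e : ∀ u, f v ξ a u = gaussianPDFReal a v.toNNReal u • Complex.exp (ξ * u * Complex.I) := by
    intro u
    rw [f, g1_eq hv, Complex.real_smul, mul_comm]
    congr 2
    push_cast
    ring
  simp only [e]
  rw [h, Complex.ofReal_exp, ← Complex.exp_add, Real.coe_toNNReal _ hv.le]
  congr 1
  push_cast
  ring

end KCHx

open KCHx in
theorem kKCH : RG.S_KCH := by
  intro ι _ m v ξ hv
  have e : ∀ y : ι → ℝ, Complex.exp (Complex.I * (∑ j, ξ j * y j : ℝ)) * (m.den v y : ℝ) =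
      ∑ ω, (m.p ω : ℂ) * ∏ j, f (v j) (ξ j) (m.x ω j) (y j) := by
    intro y
    simp only [Mix.den, ker, f, prod_mul_distrib, ← Complex.exp_sum, ← mul_sum, Pi.sub_apply]
    push_cast
    rw [mul_sum]
    exact sum_congr rfl fun ω _ => by ring
  unfold Mix.chv Mix.chi
  simp only [e]
  have hi : ∀ ω, Integrable fun y : ι → ℝ => ∏ j, f (v j) (ξ j) (m.x ω j) (y j) := fun ω =>
    Integrable.fintype_prod fun j => f_int (hv j) (ξ j) (m.x ω j)
  rw [integral_finsetSum _ fun ω _ => (hi ω).const_mul _, sum_mul]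
  refine sum_congr rfl fun ω _ => ?_
  rw [integral_const_mul, integral_fintype_prod_volume_eq_prod
    (fun j => f (v j) (ξ j) (m.x ω j)), mul_assoc]
  simp only [f_val (hv _), prod_mul_distrib, ← Complex.exp_sum, ← mul_sum,
    ← Complex.ofReal_prod, ← Real.exp_sum, ← Complex.ofReal_sum, ← sum_div, sum_neg_distrib]

end Pool.Agent.P.MP_6b977f_mp.QG
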