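import Pool.Agent.P.MP_6b977f_mp.QG.Api
import Pool.Agent.P.MP_6b977f_mp.QG.LibKch
import Pool.Agent.P.MP_6b977f_mp.RG.TKER
import Pool.Agent.P.MP_6b977f_mp.RG.TMIX
import Pool.Agent.P.MP_6b977f_mp.RG.TDER
import Pool.Agent.P.MP_6b977f_mp.RG.TIBP
import Pool.Agent.P.MP_6b977f_mp.RG.TDB
import Pool.Agent.P.MP_6b977f_mp.RG.TPUSH
import Pool.Agent.P.MP_6b977f_mp.RG.TGIB
import Pool.Agent.P.MP_6b977f_mp.RG.THLO
import Pool.Agent.P.MP_6b977f_mp.RG.TLS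
import Pool.Agent.P.MP_6b977f_mp.RG.TPOST
import Pool.Agent.P.MP_6b977f_mp.RG.TTH
import Pool.Agent.P.MP_6b977f_mp.RG.TKT
import Pool.Agent.P.MP_6b977f_mp.RG.TPAIR
import Pool.Agent.P.MP_6b977f_mp.RG.TSP

/-! The general facts on Gaussian mixtures and on configurations that are already proved. -/

namespace Pool.Agent.P.MP_6b977f_mp.QG

theorem kKER : RG.S_KER := RG.p_KER

theorem kMIX : RG.S_MIX := RG.p_MIX kKER

theorem kDER : RG.S_DER := RG.p_DER kMIX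

theorem kIBP : RG.S_IBP := RG.p_IBP kMIX kDER

theorem kDB : RG.S_DB := RG.p_DB kKER kMIX kDER kIBP

theorem kPUSH : RG.S_PUSH := RG.p_PUSH kKER

theorem kGIB : RG.S_GIB := RG.p_GIB kMIX

theorem kHLO : RG.S_HLO := RG.p_HLO kKER kMIX

theorem kLS : RG.S_LS := RG.p_LS kKER kMIX

theorem kPOST : RG.S_POST := RG.p_POST

theorem kTH : RG.S_TH := RG.p_TH kDER kPOST

theorem kKT : RG.S_KT := RG.p_KT kKER

theorem kSP : RG.S_SP := RG.p_SP RG.p_PAIR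

end Pool.Agent.P.MP_6b977f_mp.QG
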