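import Pool.Agent.P.MP_6b977f_mp.QG.IfaceC

/-! Step CNTQ. -/

namespace Pool.Agent.P.MP_6b977f_mp.QG

open Finset MeasureTheory Real Matrix RG
open scoped Classical

namespace CNTQx

lemma diag {ι : Type} [Fintype ι] [DecidableEq ι] (A : Matrix ι ι ℝ) (h : Aᵀ = A) :
    ∃ (U : Matrix ι ι ℝ) (q : ι → ℝ), U * Uᵀ = 1 ∧ Uᵀ * U = 1 ∧ A = U * diagonal q * Uᵀ := by
  have hA : A.IsHermitian := by
    rw [Matrix.IsHermitian, conjTranspose_eq_transpose_of_trivial, h]
  set U : Matrix ι ι ℝ := (hA.eigenvectorUnitary : Matrix ι ι ℝ) with hUdef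
  have hst : star U = Uᵀ := by
    ext i j; simp [Matrix.star_apply]
  refine ⟨U, hA.eigenvalues, ?_, ?_, ?_⟩
  · rw [← hst]; exact Unitary.coe_mul_star_self hA.eigenvectorUnitary
  · rw [← hst]; exact Unitary.coe_star_mul_self hA.eigenvectorUnitary
  · have := hA.spectral_theorem
    rw [Unitary.conjStarAlgAut_apply] at this
    rw [← hst]
    simpa using this

lemma quad {ι : Type} [Fintype ι] [DecidableEq ι] (U : Matrix ι ι ℝ) (q z : ι → ℝ) :
    z ⬝ᵥ (U * diagonal q * Uᵀ) *ᵥ z = ∑ j, q j * (Uᵀ *ᵥ z) j ^ 2 := by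
  rw [← mulVec_mulVec, ← mulVec_mulVec, dotProduct_mulVec, ← mulVec_transpose, dotProduct]
  exact Finset.sum_congr rfl fun j _ => by rw [mulVec_diagonal]; ring

end CNTQx

open CNTQx in
theorem p_CNTQ :
    S_CNTQ := by
  intro ι _ _ Q V ρ a b hQ hpos hρ ha hab hV
  obtain ⟨U, q, h1, h2, rfl⟩ := diag Q hQ
  have hq : ∀ j, 0 ≤ q j := fun j => by
    have := hpos (U *ᵥ Pi.single j 1)
    rw [quad, mulVec_mulVec, h2, one_mulVec, Finset.sum_eq_single j] at this
    · simpa using this
    · intro i _ hi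
      simp [hi]
    · simp
  have hdet : ∀ c : ℝ, 0 < c →
      log (U * diagonal q * Uᵀ + c • 1).det = ∑ j, log (q j + c) := fun c hc => by
    have e : U * diagonal q * Uᵀ + c • 1 = U * diagonal (fun j => q j + c) * Uᵀ := by
      rw [← h1, ← diagonal_add, Matrix.mul_add, Matrix.add_mul, ← smul_one_eq_diagonal,
        Matrix.mul_smul, Matrix.mul_one, Matrix.smul_mul]
    rw [e, det_mul, det_mul, mul_right_comm, ← det_mul, h1, det_one, one_mul, det_diagonal,
      Real.log_prod fun j _ => by have := hq j; positivity]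
  have hnorm : ∀ z : ι → ℝ, ∑ p, z p ^ 2 = ∑ j, (Uᵀ *ᵥ z) j ^ 2 := fun z => by
    have := quad U (fun _ => 1) z
    rw [diagonal_one, Matrix.mul_one, h1, one_mulVec] at this
    simpa [dotProduct, sq] using this
  set S : Finset ι := univ.filter fun j => q j ≤ ρ with hS
  have hcard : Module.finrank ℝ V ≤ #S := by
    let F : V →ₗ[ℝ] (S → ℝ) :=
      (LinearMap.funLeft ℝ ℝ (Subtype.val : S → ι)).comp ((Matrix.mulVecLin Uᵀ).comp V.subtype)
    have hF : Function.Injective F := by
      rw [injective_iff_map_eq_zero]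
      intro z hz
      have h3 : ∀ j, q j ≤ ρ → (Uᵀ *ᵥ z.1) j = 0 := fun j hj =>
        congrFun hz ⟨j, by simp [hS, hj]⟩
      have h4 := hV z.1 z.2
      rw [quad, hnorm, Finset.mul_sum, ← sub_nonpos, ← Finset.sum_sub_distrib] at h4
      have h5 : ∀ j ∈ univ, 0 ≤ q j * (Uᵀ *ᵥ z.1) j ^ 2 - ρ * (Uᵀ *ᵥ z.1) j ^ 2 := fun j _ => by
        rcases le_or_gt (q j) ρ with h | h
        · rw [h3 j h]; simp
        · rw [← sub_mul]; exact mul_nonneg (by linarith) (sq_nonneg _)
      have h6 := (Finset.sum_eq_zero_iff_of_nonneg h5).1 (le_antisymm h4 (Finset.sum_nonneg h5))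
      have h7 : Uᵀ *ᵥ z.1 = 0 := funext fun j => by
        rcases le_or_gt (q j) ρ with h | h
        · exact h3 j h
        · have := h6 j (mem_univ j)
          rw [← sub_mul, mul_eq_zero] at this
          exact pow_eq_zero_iff two_ne_zero |>.1 (this.resolve_left (by linarith))
      have h8 := congrArg (U *ᵥ ·) h7
      simp only [mulVec_mulVec, h1, one_mulVec, mulVec_zero] at h8
      exact Subtype.ext h8
    simpa using LinearMap.finrank_le_finrank_of_injective hF
  have hb : 0 < b := by linarith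
  have hL : 0 ≤ log ((ρ + b) / (ρ + a)) :=
    log_nonneg (by rw [le_div_iff₀ (by linarith)]; linarith)
  rw [hdet b hb, hdet a ha, ← Finset.sum_sub_distrib]
  calc (Module.finrank ℝ V : ℝ) * log ((ρ + b) / (ρ + a))
      ≤ ∑ j ∈ S, log ((ρ + b) / (ρ + a)) := by
        rw [Finset.sum_const, nsmul_eq_mul]
        exact mul_le_mul_of_nonneg_right (by exact_mod_cast hcard) hL
    _ ≤ ∑ j ∈ S, (log (q j + b) - log (q j + a)) := Finset.sum_le_sum fun j hj => by
        have h3 := hq j
        have h4 : q j ≤ ρ := (mem_filter.1 hj).2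
        rw [← log_div (by linarith) (by linarith)]
        refine log_le_log (by positivity) ?_
        rw [div_le_div_iff₀ (by linarith) (by linarith)]
        nlinarith
    _ ≤ _ := Finset.sum_le_sum_of_subset_of_nonneg (subset_univ _) fun j _ _ => by
        have h3 := hq j
        exact sub_nonneg.2 (log_le_log (by linarith) (by linarith))

end Pool.Agent.P.MP_6b977f_mp.QG
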