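import Pool.Agent.P.MP_6b977f_mp.QG.IfaceA

/-! Step FD. -/

namespace Pool.Agent.P.MP_6b977f_mp.QG

open Finset MeasureTheory Real Matrix RG
open scoped Classical

namespace FDx

section
variable {ι : Type} [Fintype ι] {m : Mix ι} {v : ι → ℝ}

theorem sm (hv : ∀ j, 0 < v j) {α : Type} (s : Finset α)
    (F : α → (ι → ℝ) → ℝ) (hF : ∀ a, PG (F a)) :
    m.Ex v (fun y => ∑ a ∈ s, F a y) = ∑ a ∈ s, m.Ex v (F a) := by
  simp only [Mix.Ex, sum_mul]
  exact integral_finsetSum _ fun a _ => ((kMIX _ m _ hv).2.2.2.2.2.2 _ (hF a)).1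

theorem ex (hv : ∀ j, 0 < v j) {f g : (ι → ℝ) → ℝ} (hf : PG f) (hg : PG g) :
    m.Ex v (fun y => (f y - g y / 2) ^ 2) = m.Ex v (fun y => f y ^ 2) -
      m.Ex v (fun y => f y * g y) + m.Ex v (fun y => g y * g y) / 4 := by
  have I := fun g hg => ((kMIX _ m _ hv).2.2.2.2.2.2 g hg).1
  simp only [Mix.Ex]
  have J : Integrable fun y => f y ^ 2 * m.den v y - f y * g y * m.den v y :=
    (I _ (hf.pow 2)).sub (I _ (hf.mul hg))
  rw [← integral_sub (I _ (hf.pow 2)) (I _ (hf.mul hg)), ← integral_div,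
    ← integral_add J ((I _ (hg.mul hg)).div_const 4)]
  congr 1
  funext y
  ring

end

theorem vn_eq (d : ℕ) (κ t : ℝ) :
    (fun p : PI d => κ ^ 2 + (if p.2 = 0 then (1 : ℝ) else 0) * t) = vn d κ t := by
  funext p
  unfold vn
  split_ifs <;> ring

theorem vq_eq (κ t : ℝ) : (fun _ : Fin 2 => κ ^ 2 + 1 / 2 * t) = vq κ t := by
  funext p
  unfold vq
  ring

end FDx

open FDx in
theorem p_FD (hAV : S_AV) :
    S_FD := by
  intro n d O m q κ t hM hκ ht
  have hv := vn_pos (d := d) hκ ht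
  have hw := vq_pos hκ ht
  refine ⟨?_, fun x => sum_nonneg fun i _ => sum_nonneg fun a _ =>
    integral_nonneg fun y => mul_nonneg (sq_nonneg _) ((kMIX _ (m x) _ hv).1 y).le⟩
  have h1 := fun x => kDB (PI d) (m x) (fun _ => κ ^ 2) (fun p => if p.2 = 0 then 1 else 0) t
    fun p => by split_ifs <;> positivity
  have h2 := kDB (Fin 2) q (fun _ => κ ^ 2) (fun _ => 1 / 2) t fun p => by positivity
  simp only [vn_eq] at h1
  simp only [vq_eq] at h2
  refine ((HasDerivAt.fun_sum fun x _ => h1 x).sub (h2.const_mul ((n : ℝ) * d / 2))).congr_deriv ?_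
  obtain ⟨-, -, -, qs, qd, -, -⟩ := kMIX _ q _ hw
  obtain ⟨a1, a2⟩ := hAV n d O m q κ t hM hκ ht
  have ps := fun x => (kMIX _ (m x) _ hv).2.2.2.1
  have pb : ∀ x i a, PG fun y => (O x).B i (fun j => (m x).sc (vn d κ t) (j, 0) y) a :=
    fun x i a => ((O x).PG_B i a).comp fun j => ps x (j, 0)
  have b1 := fun a => a1 _ ((qs a).mul (qs a))
  have b2 := fun a => a2 _ _ (qs a) (qd a) (fun z => (kDER _ q _ z hw).2.2 a) a
  have b3 : ∀ x, ∑ i, ∑ a, (m x).Ex (vn d κ t)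
      (fun y => (O x).B i (fun j => (m x).sc (vn d κ t) (j, 0) y) a ^ 2) =
      ∑ j, (m x).Ex (vn d κ t) fun y => (m x).sc (vn d κ t) (j, 0) y ^ 2 := fun x => by
    simp only [← sm hv _ _ fun a => (pb x _ a).pow 2]
    rw [← sm hv _ _ fun i => PG.sum _ fun a _ => (pb x i a).pow 2,
      ← sm hv _ _ fun j => (ps x (j, 0)).pow 2]
    simp only [Node.sq_B]
  have key := fun x i a => ex (m := m x) hv (pb x i a) ((qs a).comp ((O x).PG_port i))
  simp only [DS, Node.D1, Node.df, key, sum_add_distrib, sum_sub_distrib, b3, ← sum_div]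
  simp only [Fin.sum_univ_two, sum_add_distrib, b1, b2, sum_PI, if_true, one_mul,
    one_ne_zero, if_false, zero_mul, sum_const_zero, add_zero, sq]
  ring

end Pool.Agent.P.MP_6b977f_mp.QG
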