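import Pool.Agent.P.MP_6b977f_mp.QG.IfaceD

/-! Step FIN. -/

namespace Pool.Agent.P.MP_6b977f_mp.QG

open Finset MeasureTheory Real Matrix RG Filter
open scoped Classical

theorem p_FIN (hDIM : S_DIM) : S_FIN := by
  intro d N m c S L g Λ k f hm hL hB
  by_contra hk
  have hbd : BddAbove (Set.range k) := by
    by_contra h
    exact hk (tendsto_atTop_atTop_of_monotone' hB.mono h)
  have hΛ : 1 ≤ Λ := le_trans (hL ⟨0, hm⟩).1 (hL ⟨0, hm⟩).2
  set τ : ℝ := 1 / (4 * Λ) with hτ
  have hτ0 : 0 < τ := by positivity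
  obtain ⟨n0, hn0⟩ : ∃ n0, (⨆ n, k n) - τ < k n0 :=
    exists_lt_of_lt_ciSup (by linarith)
  set K : ℝ := max (⨆ n, k n) τ with hK
  have hK0 : 0 < K := lt_of_lt_of_le hτ0 (le_max_right _ _)
  have h := (hDIM d N m c S L g Λ K τ (Fin (2 * d * N + 1)) (fun j => k (n0 + j))
    (fun j => f (n0 + j)) hm hL hK0 hτ0 (by rw [hτ]; field_simp; exact le_rfl) ?_ ?_).1
  · simp only [Fintype.card_fin] at h
    push_cast at h
    linarith
  · intro j
    refine ⟨(hB.eig _).2, ?_⟩
    have h1 : k (n0 + j) ≤ K := le_trans (le_ciSup hbd _) (le_max_left _ _)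
    have h2 : 0 ≤ k (n0 + j) := (hB.eig _).1
    have h3 : k n0 ≤ k (n0 + j) := hB.mono (Nat.le_add_right _ _)
    have h4 : K - k (n0 + j) ≤ τ := by
      rcases le_total (⨆ n, k n) τ with h | h
      · rw [hK, max_eq_right h]; linarith
      · rw [hK, max_eq_left h]; linarith
    rw [abs_of_nonneg (by nlinarith)]
    nlinarith
  · intro i j hij
    exact hB.orth _ _ fun h => hij (Fin.ext (by omega))

end Pool.Agent.P.MP_6b977f_mp.QG
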