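import Pool.Agent.P.MP_6b977f_mp.QG.IfaceA

/-! Step INC. -/

namespace Pool.Agent.P.MP_6b977f_mp.QG

open Finset MeasureTheory Real Matrix RG
open scoped Classical

namespace INCx

theorem mvt {f f' : ℝ → ℝ} {y M : ℝ} (h : ∀ t, HasDerivAt f (f' t) t)
    (hb : ∀ t, |t| ≤ |y| → |f' t| ≤ M) : |f y - f 0| ≤ M * |y| := by
  have := (convex_closedBall (0 : ℝ) |y|).norm_image_sub_le_of_norm_hasDerivWithin_le
    (f := f) (f' := f') (C := M) (x := 0) (y := y) (fun t _ => (h t).hasDerivWithinAt)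
    (fun t ht => hb t (by simpa using ht)) (by simp) (by simp)
  simpa using this

theorem B_add {d : ℕ} (O : Node d) (i : Fin d) (u v : Fin d → ℝ) :
    O.B i (u + v) = O.B i u + O.B i v := by
  funext a; simp [Node.B, mul_add, sum_add_distrib]

theorem B_smul {d : ℕ} (O : Node d) (i : Fin d) (t : ℝ) (u : Fin d → ℝ) :
    O.B i (t • u) = t • O.B i u := by
  funext a; simp [Node.B, mul_sum, mul_left_comm]

theorem B_zero {d : ℕ} (O : Node d) (i : Fin d) : O.B i 0 = 0 := by
  funext a; simp [Node.B]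

/-- a column of the matrix of the node -/
def ev {d : ℕ} (O : Node d) (i : Fin d) (a : Fin 2) : Fin d → ℝ := fun k => O.O (k, 0) (i, a)

theorem norm_ev {d : ℕ} (O : Node d) (i : Fin d) (a : Fin 2) : ‖ev O i a‖ ≤ 1 :=
  (pi_norm_le_iff_of_nonneg zero_le_one).2 fun _ => O.abs_O _ _

theorem norm_smul_ev {d : ℕ} (O : Node d) (i : Fin d) (a : Fin 2) (t : ℝ) : ‖t • ev O i a‖ ≤ |t| := by
  rw [norm_smul, Real.norm_eq_abs]
  exact mul_le_of_le_one_right (abs_nonneg _) (norm_ev O i a)

theorem B_ev {d : ℕ} {c : ℝ} {σ : Matrix (Fin d) (Fin d) ℝ} (h : NoBack c σ) (i j : Fin d)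
    (b : Fin 2) : (vx h).B i (ev (vx h) j b) =
      Pi.single b (((if i = j then 1 else 0) + (if b = 0 then 1 else -1) * σ i j) / 2) := by
  funext a
  have := h.mul i j (if 0 = a then 1 else -1) (if 0 = b then 1 else -1)
  have e : (vx h).B i (ev (vx h) j b) a = ∑ k, ((if i = k then 1 else 0) +
      (if 0 = a then 1 else -1) * σ i k) / 2 * (((if j = k then 1 else 0) +
      (if 0 = b then 1 else -1) * σ j k) / 2) := by
    refine sum_congr rfl fun k _ => ?_
    simp only [ev, vx, vxO_apply, h.1.apply i k, h.1.apply j k, eq_comm (a := k)]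
  rw [e, this]
  generalize (if i = j then (1 : ℝ) else 0) = w
  fin_cases a <;> fin_cases b <;> simp <;> ring

theorem norm_single (b : Fin 2) (x : ℝ) : ‖(Pi.single b x : Fin 2 → ℝ)‖ = |x| := by
  rw [Pi.norm_single, Real.norm_eq_abs]

end INCx

open INCx

theorem p_INC :
    S_INC := by
  intro d c hd hc
  have hd1 : (1 : ℝ) ≤ d := by exact_mod_cast hd
  have hc8 : 0 < 8 / c := by positivity
  refine ⟨8 / c + 16 * d + 8, by linarith, ?_⟩
  intro σ h l ρ G T s K r hT hs hK hr0 hr1 hl hρ hG z x hz hx a b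
  set C : ℝ := 8 / c + 16 * d + 8 with hC
  let i : Fin d := ⟨0, hd⟩
  have hrow : ∑ j, σ i j ^ 2 = 1 := by
    have := congrFun (congrFun h.2.1 i) i
    rw [Matrix.mul_apply, Matrix.one_apply_eq] at this
    rw [← this]
    exact sum_congr rfl fun j _ => by rw [h.1.apply i j, sq]
  obtain ⟨j, hj⟩ : ∃ j, 1 / (d : ℝ) ≤ σ i j ^ 2 := by
    by_contra hn
    push Not at hn
    have : ∑ j, σ i j ^ 2 < ∑ _j : Fin d, 1 / (d : ℝ) :=
      sum_lt_sum_of_nonempty ⟨i, mem_univ _⟩ fun j _ => hn j
    rw [hrow, sum_const, card_univ, Fintype.card_fin, nsmul_eq_mul, mul_one_div_cancel (by linarith)]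
      at this
    exact lt_irrefl _ this
  set τ := σ i j with hτ
  have hτ1 : |τ| ≤ 1 - c := h.2.2.2 i j
  have hτ2 : τ ^ 2 ≤ |τ| := by
    rw [← sq_abs]; nlinarith [abs_nonneg τ]
  have hτ3 : 1 / (d : ℝ) ≤ |τ| := hj.trans hτ2
  have hτ4 : 0 < |τ| := lt_of_lt_of_le (by positivity) hτ3
  have hτ0 : τ ≠ 0 := abs_pos.1 hτ4
  have hτ5 : c ≤ 1 - τ ^ 2 := by linarith
  have hτ6 : 0 < 1 - τ ^ 2 := by linarith
  have hij : i ≠ j := fun e => hτ0 (by rw [hτ, ← e]; exact h.2.2.1 i)
  have hji : σ j i = τ := h.1.apply i j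
  set O := vx h with hO
  set al := ev O i a with hal
  set be := ev O j b with hbe
  set y : ℝ := (if b = 0 then 1 else -1) * (2 * x / τ) with hy
  have hyb : |y| ≤ 2 * d * T := by
    have e : |y| = 2 * |x| / |τ| := by
      rw [hy, abs_mul, abs_div, abs_mul]
      split_ifs <;> simp
    rw [e, div_le_iff₀ hτ4]
    have : 1 ≤ d * |τ| := by
      rw [div_le_iff₀ (by linarith)] at hτ3; linarith
    nlinarith [abs_nonneg x]
  have hBy : O.B i (y • be) = Pi.single b x := by
    rw [B_smul, hbe, hO, B_ev, ← Pi.single_smul, if_neg hij, ← hτ, hy]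
    congr 1
    split_ifs <;> simp only [smul_eq_mul] <;> field_simp <;> ring
  have hBa : ∀ t : ℝ, O.B i (t • al) = Pi.single a (t / 2) := fun t => by
    rw [B_smul, hal, hO, B_ev, ← Pi.single_smul, if_pos rfl, h.2.2.1 i]
    congr 1
    simp only [smul_eq_mul]; ring
  have hCT : ∀ v : ℝ, v ≤ 8 / c * T + 2 * d * T + 3 * T → v ≤ C * T := fun v hv => by
    have : 0 ≤ (d : ℝ) * T := by positivity
    rw [hC]; nlinarith
  have hT8 : 0 ≤ 8 / c * T := by positivity
  have hTd : 0 ≤ 2 * d * T := by positivity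
  have g1 : ∀ v, ‖v‖ ≤ C * T → |∑ k, al k * ρ k v - G a (O.B i v) / 2| ≤ s := fun v hv =>
    hρ v hv i a
  have g2 : ∀ v, ‖v‖ ≤ C * T → |∑ k, be k * ρ k v - G b (O.B j v) / 2| ≤ s := fun v hv =>
    hρ v hv j b
  -- the short side
  have short : ∀ u : Fin d → ℝ, ‖u‖ ≤ 8 / c * T → ‖O.B i u‖ ≤ T →
      |(l (u + y • be + r • al) - l (u + r • al)) - (l (u + y • be) - l u) -
        r * ((G a (O.B i u + Pi.single b x) - G a (O.B i u)) / 2)| ≤ (2 * s + K * r / 2) * r := by
    intro u hu hu'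
    set Δ := (G a (O.B i u + Pi.single b x) - G a (O.B i u)) / 2 with hΔ
    have hm := mvt (f := fun t => l (u + y • be + t • al) - l (u + t • al) - t * Δ)
      (f' := fun t => ∑ k, al k * ρ k (u + y • be + t • al) - ∑ k, al k * ρ k (u + t • al) - Δ)
      (y := r) (M := 2 * s + K * r / 2)
      (fun t => ((hl _ al t).sub (hl _ al t)).sub (hasDerivAt_mul_const Δ))
      (fun t ht => by
        rw [abs_of_pos hr0] at ht
        have n1 := norm_smul_ev O i a t
        have n2 := norm_smul_ev O j b y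
        have a1 := g1 (u + y • be + t • al) (hCT _ (by
          refine (norm_add₃_le).trans ?_
          linarith))
        have a2 := g1 (u + t • al) (hCT _ (by
          refine (norm_add_le _ _).trans ?_
          linarith))
        rw [B_add, B_add, hBy, hBa] at a1
        rw [B_add, hBa] at a2
        have n3 := norm_single b x
        have n4 : ‖(Pi.single a (t / 2) : Fin 2 → ℝ)‖ ≤ r / 2 := by
          rw [norm_single, abs_div, abs_two]; linarith
        have a3 := hG (O.B i u + Pi.single b x + Pi.single a (t / 2)) (O.B i u + Pi.single b x)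
          (hCT _ (by refine (norm_add₃_le).trans ?_; linarith))
          (hCT _ (by refine (norm_add_le _ _).trans ?_; linarith)) a
        have a4 := hG (O.B i u + Pi.single a (t / 2)) (O.B i u)
          (hCT _ (by refine (norm_add_le _ _).trans ?_; linarith)) (hCT _ (by linarith)) a
        rw [add_sub_cancel_left] at a3 a4
        have a5 := mul_le_mul_of_nonneg_left n4 hK
        rw [abs_le] at a1 a2 a3 a4 ⊢
        constructor <;> linarith [a1.1, a1.2, a2.1, a2.2, a3.1, a3.2, a4.1, a4.2])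
    rw [abs_of_pos hr0] at hm
    convert hm using 2
    simp
    ring
  -- the base point
  set A0 := 2 * z 0 / (1 - τ ^ 2) with hA0
  set A1 := 2 * z 1 / (1 - τ ^ 2) with hA1
  have hA : ∀ w : ℝ, |w| ≤ T → |2 * w / (1 - τ ^ 2)| ≤ 2 / c * T := fun w hw => by
    rw [abs_div, abs_mul, abs_two, abs_of_pos hτ6, div_mul_eq_mul_div]
    gcongr
  have hA0' : |A0| ≤ 2 / c * T := hA _ ((norm_le_pi_norm z 0).trans hz)
  have hA1' : |A1| ≤ 2 / c * T := hA _ ((norm_le_pi_norm z 1).trans hz)
  set u := A0 • ev O i 0 + (-(A0 * τ)) • ev O j 0 + (A1 • ev O i 1 + (A1 * τ) • ev O j 1) with hu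
  have hun : ‖u‖ ≤ 8 / c * T := by
    have n1 := norm_smul_ev O i 0 A0
    have n2 := norm_smul_ev O j 0 (-(A0 * τ))
    have n3 := norm_smul_ev O i 1 A1
    have n4 := norm_smul_ev O j 1 (A1 * τ)
    rw [abs_neg, abs_mul] at n2
    rw [abs_mul] at n4
    have n5 : |A0| * |τ| ≤ |A0| := mul_le_of_le_one_right (abs_nonneg _) (by linarith)
    have n6 : |A1| * |τ| ≤ |A1| := mul_le_of_le_one_right (abs_nonneg _) (by linarith)
    have e : 8 / c * T = 4 * (2 / c * T) := by ring
    refine (norm_add₃_le).trans ?_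
    linarith [norm_add_le (A1 • ev O i 1) ((A1 * τ) • ev O j 1)]
  have hui : O.B i u = z := by
    simp only [hu, B_add, B_smul, hO, B_ev, if_neg hij, ← hτ, h.2.2.1 i]
    funext e
    fin_cases e <;> simp [hA0, hA1] <;> field_simp <;> ring
  have huj : O.B j u = 0 := by
    simp only [hu, B_add, B_smul, hO, B_ev, if_neg hij.symm, hji, h.2.2.1 j]
    funext e
    fin_cases e <;> simp <;> ring
  have s1 := short u hun (by rw [hui]; exact hz)
  have s2 := short 0 (by simpa using hT8) (by rw [B_zero]; simpa using by linarith)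
  rw [hui] at s1
  rw [B_zero] at s2
  simp only [zero_add] at s2
  -- the long side
  have hm := mvt (f := fun t => (l (u + r • al + t • be) - l (u + t • be)) -
      (l (r • al + t • be) - l (0 + t • be)))
    (f' := fun t => (∑ k, be k * ρ k (u + r • al + t • be) - ∑ k, be k * ρ k (u + t • be)) -
      (∑ k, be k * ρ k (r • al + t • be) - ∑ k, be k * ρ k (0 + t • be)))
    (y := y) (M := 4 * s)
    (fun t => ((hl _ be t).sub (hl _ be t)).sub ((hl _ be t).sub (hl _ be t)))
    (fun t ht => by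
      have n1 := norm_smul_ev O i a r
      have n2 := norm_smul_ev O j b t
      rw [abs_of_pos hr0] at n1
      have a1 := g2 (u + r • al + t • be) (hCT _ (by refine (norm_add₃_le).trans ?_; linarith))
      have a2 := g2 (u + t • be) (hCT _ (by refine (norm_add_le _ _).trans ?_; linarith))
      have a3 := g2 (r • al + t • be) (hCT _ (by refine (norm_add_le _ _).trans ?_; linarith))
      have a4 := g2 (0 + t • be) (hCT _ (by rw [zero_add]; linarith))
      rw [add_assoc, B_add, huj, zero_add, ← add_assoc] at a1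
      rw [B_add, huj] at a2
      rw [B_add, B_zero] at a4
      rw [abs_le] at a1 a2 a3 a4 ⊢
      constructor <;> linarith [a1.1, a1.2, a2.1, a2.2, a3.1, a3.2, a4.1, a4.2])
  simp only [zero_smul, add_zero, zero_add] at hm
  rw [add_right_comm u (r • al), add_comm (r • al) (y • be)] at hm
  have hm' : 4 * s * |y| ≤ 8 * d * (s * T) := by
    linarith [mul_le_mul_of_nonneg_left hyb hs]
  set Δ := G a (z + Pi.single b x) - G a z - (G a (Pi.single b x) - G a 0) with hΔ
  have key : |Δ| * r ≤ 16 * d * (s * T) + 8 * s * r + 2 * K * r * r := by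
    rw [← abs_of_pos hr0, ← abs_mul, abs_of_pos hr0]
    rw [abs_le] at s1 s2 hm ⊢
    rw [hΔ]
    constructor <;> linarith [s1.1, s1.2, s2.1, s2.2, hm.1, hm.2]
  have hsT : s * r ≤ s * T := mul_le_mul_of_nonneg_left (by linarith) hs
  have hsT0 : 0 ≤ s * T := by positivity
  have hKr : 0 ≤ K * r * r := by positivity
  rw [← mul_le_mul_iff_left₀ hr0]
  have e : C * (s * T / r + K * r) * r = C * (s * T) + C * (K * r * r) := by field_simp
  rw [e, hC]
  linarith [mul_nonneg hc8.le hsT0, mul_nonneg hc8.le hKr, mul_nonneg (by linarith : (0 : ℝ) ≤ d) hKr]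

end Pool.Agent.P.MP_6b977f_mp.QG
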