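import Pool.Agent.P.MP_6b977f_mp.QG.IfaceB

/-! Step ODE. -/

namespace Pool.Agent.P.MP_6b977f_mp.QG

open Finset MeasureTheory Real Matrix RG
open scoped Classical

namespace ODEx

end ODEx

theorem p_ODE :
    S_ODE := by
  intro f k l hk hf h x hx
  have d1 : Differentiable ℝ f := hf.differentiable (by norm_num)
  have d2 : Differentiable ℝ (deriv f) := by
    have : ContDiff ℝ (1 + 1) f := by simpa [one_add_one_eq_two] using hf
    exact this.deriv'.differentiable (by norm_num)
  set z : Fin 2 → ℝ := ![f 0, deriv f 0 / k]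
  have c0 : ∀ y, HasDerivAt (f0 k z) (k * f1 k z y) y := fun y => by
    have a := ((hasDerivAt_id y).const_mul k).cos.const_mul (z 0)
    have b := ((hasDerivAt_id y).const_mul k).sin.const_mul (z 1)
    exact (a.add b).congr_deriv (by simp only [f1, id]; ring)
  have c1 : ∀ y, HasDerivAt (f1 k z) (-k * f0 k z y) y := fun y => by
    have a := ((hasDerivAt_id y).const_mul k).cos.const_mul (z 1)
    have b := ((hasDerivAt_id y).const_mul k).sin.const_mul (z 0)
    exact (a.sub b).congr_deriv (by simp only [f0, id]; ring)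
  have e : ∀ y, HasDerivAt (fun y => (f y - f0 k z y) ^ 2 + (deriv f y / k - f1 k z y) ^ 2)
      (2 * (deriv f y / k - f1 k z y) * ((deriv (deriv f) y + k ^ 2 * f y) / k)) y := fun y => by
    refine ((((d1 y).hasDerivAt.sub (c0 y)).pow 2).add
      ((((d2 y).hasDerivAt.div_const k).sub (c1 y)).pow 2)).congr_deriv ?_
    simp only [Pi.sub_apply, Nat.cast_ofNat, Nat.add_one_sub_one, pow_one]
    field_simp
    ring
  have k0 := constant_of_has_deriv_right_zero (a := 0) (b := l)
    (fun y _ => (e y).continuousAt.continuousWithinAt) (fun y hy => by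
      have := (e y).hasDerivWithinAt (s := Set.Ici y)
      rwa [h y (Set.Ico_subset_Icc_self hy), neg_mul, neg_add_cancel, zero_div, mul_zero] at this) x hx
  have k1 : (f 0 - f0 k z 0) ^ 2 + (deriv f 0 / k - f1 k z 0) ^ 2 = 0 := by simp [f0, f1, z]
  rw [k1] at k0
  constructor <;> nlinarith [sq_nonneg (f x - f0 k z x), sq_nonneg (deriv f x / k - f1 k z x)]

end Pool.Agent.P.MP_6b977f_mp.QG
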