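import Pool.Agent.P.MP_6b977f_mp.QG.IfaceB

/-! Step PEN. -/

namespace Pool.Agent.P.MP_6b977f_mp.QG

open Finset MeasureTheory Real Matrix RG
open scoped Classical

namespace PENx

theorem sv {d N : ℕ} (z : HI d N → ℝ) : ∑ v, ∑ p, vst z v p ^ 2 = ∑ p, z p ^ 2 := by
  rw [Fintype.sum_prod_type (f := fun p : HI d N => z p ^ 2),
    ← sum_vst z fun y => ∑ a, y a ^ 2]
  exact sum_congr rfl fun v _ => Fintype.sum_prod_type _

theorem se {d N m : ℕ} (g : Glue d N m) (z : HI d N → ℝ) :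
    ∑ e, ∑ p, est g z e p ^ 2 = ∑ p, z p ^ 2 := by
  rw [Fintype.sum_prod_type (f := fun p : HI d N => z p ^ 2),
    ← sum_est g z fun y => ∑ a, y a ^ 2]
  exact sum_congr rfl fun v _ => Fintype.sum_prod_type _

theorem tri {d : ℕ} (O : Node d) (z z' : PI d → ℝ) :
    O.pen z ≤ 2 * O.pen z' + 2 * ∑ p, (z - z') p ^ 2 := by
  have h := O.pen_le (z - z')
  have e : O.wh z = O.wh z' + O.wh (z - z') := by
    simp only [Node.wh, ← Matrix.mulVec_add, add_sub_cancel]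
  have : O.pen z ≤ 2 * O.pen z' + 2 * O.pen (z - z') := by
    simp only [Node.pen, wsq, mul_sum, ← sum_add_distrib]
    refine sum_le_sum fun j _ => ?_
    rw [e, Pi.add_apply]
    nlinarith [sq_nonneg (O.wh z' (j, 1) - O.wh (z - z') (j, 1))]
  linarith

theorem vz {d : ℕ} {c : ℝ} {σ : Matrix (Fin d) (Fin d) ℝ} (h : NoBack c σ) (z : PI d → ℝ)
    (hz : ∀ i, ∑ j, σ i j * z (j, 0) = z (i, 0) ∧ ∑ j, σ i j * z (j, 1) = -z (i, 1)) :
    (vx h).pen z = 0 := by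
  rw [Node.pen, wsq]
  refine sum_eq_zero fun i _ => ?_
  have : (vx h).wh z (i, 1) = (z (i, 0) - ∑ j, σ i j * z (j, 0)) / 2 +
      (z (i, 1) + ∑ j, σ i j * z (j, 1)) / 2 := by
    rw [Node.wh, Matrix.mulVec, dotProduct, sum_PI]
    simp only [vx, vxO_apply, div_mul_eq_mul_div, add_mul, ← sum_div, sum_add_distrib, mul_assoc,
      ← mul_sum]
    simp [sub_eq_add_neg]
  rw [this, (hz i).1, (hz i).2]
  simp

theorem ez (θ θ' τ : ℝ) (z : PI 2 → ℝ) (hz : at1 z 1 = rf θ' *ᵥ at1 z 0) (h : |θ' - θ| ≤ τ) :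
    (ed θ).pen z ≤ τ ^ 2 * ∑ p, z p ^ 2 := by
  have h0 : z (1, 0) = cos θ' * z (0, 0) + sin θ' * z (0, 1) := by
    simpa [at1, rf, Matrix.mulVec, dotProduct] using congrFun hz 0
  have h1 : z (1, 1) = sin θ' * z (0, 0) - cos θ' * z (0, 1) := by
    simpa [at1, rf, Matrix.mulVec, dotProduct, sub_eq_add_neg] using congrFun hz 1
  have w0 : (ed θ).wh z (0, 1) = (z (0, 0) - cos θ * z (1, 0) - sin θ * z (1, 1)) / √2 := by
    simp [Node.wh, Matrix.mulVec, dotProduct, Fintype.sum_prod_type, ed, edO_apply, rf]; ring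
  have w1 : (ed θ).wh z (1, 1) = (z (0, 1) - sin θ * z (1, 0) + cos θ * z (1, 1)) / √2 := by
    simp [Node.wh, Matrix.mulVec, dotProduct, Fintype.sum_prod_type, ed, edO_apply, rf]; ring
  have s2 : (√2 : ℝ) ^ 2 = 2 := sq_sqrt (by norm_num)
  have c1 := cos_sub θ' θ
  have c2 := sin_sub θ' θ
  have c3 := sin_sq_add_cos_sq (θ' - θ)
  have c4 := one_sub_sq_div_two_le_cos (x := θ' - θ)
  have c5 : (θ' - θ) ^ 2 ≤ τ ^ 2 := sq_le_sq' (abs_le.1 h).1 (abs_le.1 h).2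
  have e0 : z (0, 0) - cos θ * z (1, 0) - sin θ * z (1, 1) =
      z (0, 0) * (1 - cos (θ' - θ)) - z (0, 1) * sin (θ' - θ) := by rw [h0, h1, c1, c2]; ring
  have e1 : z (0, 1) - sin θ * z (1, 0) + cos θ * z (1, 1) =
      z (0, 1) * (1 - cos (θ' - θ)) + z (0, 0) * sin (θ' - θ) := by rw [h0, h1, c1, c2]; ring
  have e : (ed θ).pen z = (z (0, 0) ^ 2 + z (0, 1) ^ 2) * (1 - cos (θ' - θ)) := by
    rw [Node.pen, wsq, Fin.sum_univ_two, w0, w1, e0, e1, div_pow, div_pow, s2]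
    linear_combination (z (0, 0) ^ 2 + z (0, 1) ^ 2) / 2 * c3
  rw [e, Fintype.sum_prod_type]
  simp only [Fin.sum_univ_two]
  have a : 0 ≤ z (0, 0) ^ 2 + z (0, 1) ^ 2 := by positivity
  have b : 0 ≤ τ ^ 2 * (z (1, 0) ^ 2 + z (1, 1) ^ 2) := by positivity
  have := mul_le_mul_of_nonneg_left (show 1 - cos (θ' - θ) ≤ τ ^ 2 by nlinarith [sq_nonneg τ]) a
  nlinarith

end PENx

open PENx in
theorem p_PEN :
    S_PEN := by
  intro d N m c S θ g
  refine ⟨fun z => ⟨add_nonneg (sum_nonneg fun _ _ => Node.pen_nonneg _ _)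
    (sum_nonneg fun _ _ => Node.pen_nonneg _ _), ?_⟩, fun z z' => ?_, fun θ' z τ hz hτ => ?_⟩
  · rw [two_mul]
    exact add_le_add ((sum_le_sum fun v _ => Node.pen_le _ _).trans (sv z).le)
      ((sum_le_sum fun v _ => Node.pen_le _ _).trans (se g z).le)
  · have a := sum_le_sum fun v (_ : v ∈ univ) => tri (S.vs v) (vst z v) (vst z' v)
    have b := sum_le_sum fun e (_ : e ∈ univ) => tri (eds θ e) (est g z e) (est g z' e)
    rw [sum_add_distrib, ← mul_sum, ← mul_sum] at a b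
    have a' : ∑ v, ∑ p, (vst z v - vst z' v) p ^ 2 = ∑ p, (z p - z' p) ^ 2 := sv (z - z')
    have b' : ∑ e, ∑ p, (est g z e - est g z' e) p ^ 2 = ∑ p, (z p - z' p) ^ 2 := se g (z - z')
    unfold Sys.pen
    linarith
  · have a : ∑ v, (S.vs v).pen (vst z v) = 0 :=
      sum_eq_zero fun v _ => vz (S.hσ v) _ (hz.1 v)
    rw [Sys.pen, a, zero_add, ← se g z, mul_sum]
    exact sum_le_sum fun e _ => ez _ _ _ _ (hz.2 e) (hτ e)

end Pool.Agent.P.MP_6b977f_mp.QG
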