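import Pool.Agent.P.MP_6b977f_mp.QG.IfaceA

/-! Step RES. -/

namespace Pool.Agent.P.MP_6b977f_mp.QG

open Finset MeasureTheory Real Matrix RG
open scoped Classical

namespace RESx

section gen
variable {ι : Type} [Fintype ι] (m : Mix ι) {v : ι → ℝ} (hv : ∀ j, 0 < v j)
include hv

theorem int {g : (ι → ℝ) → ℝ} (hg : PG g) : Integrable fun y => g y * m.den v y :=
  ((kMIX ι m v hv).2.2.2.2.2.2 g hg).1

theorem mono {f g : (ι → ℝ) → ℝ} (hf : PG f) (hg : PG g) (h : ∀ y, f y ≤ g y) :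
    m.Ex v f ≤ m.Ex v g :=
  integral_mono (int m hv hf) (int m hv hg) fun y =>
    mul_le_mul_of_nonneg_right (h y) ((kMIX ι m v hv).1 y).le

theorem add {f g : (ι → ℝ) → ℝ} (hf : PG f) (hg : PG g) :
    m.Ex v (fun y => f y + g y) = m.Ex v f + m.Ex v g := by
  simp only [Mix.Ex, add_mul]
  exact integral_add (int m hv hf) (int m hv hg)

omit hv in
theorem cmul (c : ℝ) (f : (ι → ℝ) → ℝ) : m.Ex v (fun y => c * f y) = c * m.Ex v f := by
  simp only [Mix.Ex, mul_assoc]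
  exact integral_const_mul _ _

theorem sum {α : Type} (s : Finset α) {F : α → (ι → ℝ) → ℝ} (h : ∀ a, PG (F a)) :
    m.Ex v (fun y => ∑ a ∈ s, F a y) = ∑ a ∈ s, m.Ex v (F a) := by
  simp only [Mix.Ex, sum_mul]
  exact integral_finsetSum _ fun a _ => int m hv (h a)

theorem sq (j : ι) : m.Ex v (fun y => y j ^ 2) = m.E (fun x => x j ^ 2) + v j := by
  rw [((kMIX ι m v hv).2.2.2.2.2.2 _ ((PG.coord j).pow 2)).2.1, ← m.E_const (v j), ← m.E_add]
  refine sum_congr rfl fun ω _ => ?_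
  obtain ⟨h0, h1, h2, h3⟩ := kKER ι v (m.x ω) hv
  have p1 : PG fun y : ι → ℝ => y j - m.x ω j := (PG.coord j).sub (PG.const _)
  have e : ∀ y : ι → ℝ, y j ^ 2 * ker v (y - m.x ω) = ((y j - m.x ω j) ^ 2 * ker v (y - m.x ω) +
      2 * m.x ω j * ((y j - m.x ω j) * ker v (y - m.x ω))) +
      m.x ω j ^ 2 * ker v (y - m.x ω) := fun y => by ring
  have i1 := h0 _ (p1.pow 2)
  have i2 := (h0 _ p1).const_mul (2 * m.x ω j)
  have i3 := h0 _ (PG.const (m.x ω j ^ 2))
  simp only [e]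
  have i4 : Integrable fun y : ι → ℝ => (y j - m.x ω j) ^ 2 * ker v (y - m.x ω) +
      2 * m.x ω j * ((y j - m.x ω j) * ker v (y - m.x ω)) := i1.add i2
  rw [integral_add i4 i3, integral_add i1 i2, integral_const_mul, integral_const_mul,
    h1, h2, h3]
  ring

end gen

theorem pt {d : ℕ} (O : Node d) (m : Mix (PI d)) (q : Mix (Fin 2)) (κ t β : ℝ) (y : PI d → ℝ) :
    ∑ j, (m.sc (vn d κ t) (j, 0) y + β / 2 * y (j, 0)) ^ 2 ≤
      3 * (∑ i, ∑ a, O.df m q κ t i a y ^ 2) +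
      (∑ i, ∑ a, (q.sc (vq κ t) a (O.port i y) + β * O.port i y a) ^ 2) + β ^ 2 * wsq y := by
  rw [← O.sq_B, wsq, ← O.frame 1 fun j => y (j, 1)]
  simp only [mul_sum, ← sum_add_distrib]
  refine sum_le_sum fun i _ => sum_le_sum fun a _ => ?_
  have e : O.B i (fun j => m.sc (vn d κ t) (j, 0) y + β / 2 * y (j, 0)) a =
      O.B i (fun j => m.sc (vn d κ t) (j, 0) y) a + β / 2 * O.B i (up y) a := by
    simp only [Node.B, up, mul_sum, ← sum_add_distrib]
    exact sum_congr rfl fun j _ => by ring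
  have e2 := O.port_split i y a
  rw [e, Node.df]
  generalize O.B i (fun j => m.sc (vn d κ t) (j, 0) y) a = r at *
  generalize q.sc (vq κ t) a (O.port i y) = S at *
  generalize O.B i (up y) a = u at *
  generalize ∑ j, O.O (j, 1) (i, a) * y (j, 1) = w at *
  rw [e2]
  have e3 : r + β / 2 * u = (r - S / 2) + (S + β * (u + w)) / 2 - β * w / 2 := by ring
  rw [e3, ← mul_pow]
  generalize r - S / 2 = A
  generalize S + β * (u + w) = B
  generalize β * w = C
  nlinarith [sq_nonneg (A - B / 2), sq_nonneg (A + C / 2), sq_nonneg (B + C), sq_nonneg B,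
    sq_nonneg C]

end RESx

theorem p_RES (hAV : S_AV) :
    S_RES := by
  intro n d O m q κ t β hM hκ ht
  have hv := vn_pos (d := d) hκ ht
  have hq := vq_pos hκ ht
  have pq := (kMIX _ q _ hq).2.2.2.1
  have pG : PG fun z => ∑ a, (q.sc (vq κ t) a z + β * z a) ^ 2 :=
    PG.sum _ fun a _ => ((pq a).add ((PG.coord a).cmul β)).pow 2
  rw [← (hAV n d O m q κ t hM hκ ht).1 _ pG, DS, mul_assoc (n : ℝ),
    show (n : ℝ) * (d * κ ^ 2) = ∑ _x : Fin n, d * κ ^ 2 by simp]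
  simp only [mul_sum (s := (univ : Finset (Fin n))), ← sum_add_distrib (s := (univ : Finset (Fin n)))]
  refine sum_le_sum fun x _ => ?_
  have ps := (kMIX _ (m x) _ hv).2.2.2.1
  have pd : ∀ i a, PG fun y => (O x).df (m x) q κ t i a y ^ 2 := fun i a =>
    (PG.sub (PG.sum _ fun j _ => (ps (j, 0)).cmul _)
      (((pq a).comp ((O x).PG_port i)).div 2)).pow 2
  have pd1 : ∀ i, PG fun y => ∑ a, (O x).df (m x) q κ t i a y ^ 2 := fun i =>
    PG.sum _ fun a _ => pd i a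
  have pg : ∀ i, PG fun y =>
      ∑ a, (q.sc (vq κ t) a ((O x).port i y) + β * (O x).port i y a) ^ 2 := fun i =>
    pG.comp ((O x).PG_port i)
  have p1 := (PG.sum univ fun i _ => pd1 i).cmul 3
  have p2 := PG.sum univ fun i _ => pg i
  have p3 := (PG_wsq (d := d)).cmul (β ^ 2)
  refine (RESx.mono (m x) hv (PG.sum _ fun j _ => ((ps _).add ((PG.coord _).cmul _)).pow 2)
    ((p1.add p2).add p3) (RESx.pt (O x) (m x) q κ t β)).trans (le_of_eq ?_)
  rw [RESx.add _ hv (p1.add p2) p3, RESx.add _ hv p1 p2, RESx.cmul, RESx.cmul,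
    RESx.sum _ hv _ pd1, RESx.sum _ hv _ pg, Node.D1]
  simp only [fun i => RESx.sum (m x) hv univ (pd i)]
  congr 2
  have := RESx.sum (m x) hv univ fun j : Fin d => (PG.coord ((j, 1) : PI d)).pow 2
  refine this.trans ?_
  simp only [RESx.sq (m x) hv, sum_add_distrib]
  congr 1
  · simp only [Mix.E, wsq, mul_sum]
    exact sum_comm
  · simp [vn]

end Pool.Agent.P.MP_6b977f_mp.QG
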